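import Mathlib

/-! # Abstract windmill (canoes)

A group `G` acts on a type `V` of objects; some objects are apexes, `m` is an integer distance,
`D v a b` an angle at the apex `v`.  If every large angle forces the distance to be additive
(`bgi`) and the subgroups `Kv v` rotate by large angles (`spin`), every nontrivial element of the
subgroup generated by all `Kv v` can be pivoted to a simpler one (`Der`). -/

set_option autoImplicit false

namespace Pool.Agent.Lib.MP_bd8d5e_al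

/-- the data of a spinning family -/
structure Spin (G V : Type*) [Group G] [MulAction G V] where
  /-- apexes -/
  A : Set V
  /-- rotation subgroups -/
  Kv : V → Subgroup G
  /-- distance -/
  m : V → V → ℕ
  /-- angle -/
  D : V → V → V → ℕ
  M : ℕ
  L : ℕ
  m_comm : ∀ a b, m a b = m b a
  m_self : ∀ a, m a a = 0
  D_comm : ∀ v a b, D v a b = D v b a
  D_tri : ∀ v ∈ A, ∀ a b c, a ≠ v → b ≠ v → c ≠ v → D v a c ≤ D v a b + D v b c
  bgi : ∀ v ∈ A, ∀ a c, a ≠ v → c ≠ v → M < D v a c → m a v + 1 + m v c ≤ m a c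
  m_tri : ∀ v ∈ A, ∀ a c, m a c ≤ m a v + 1 + m v c
  m_smul : ∀ (g : G) (a b : V), m (g • a) (g • b) = m a b
  D_smul : ∀ (g : G) (v a b : V), D (g • v) (g • a) (g • b) = D v a b
  A_smul : ∀ (g : G) (v : V), v ∈ A → g • v ∈ A
  Kv_smul : ∀ (g h : G) (v : V), h ∈ Kv v → g * h * g⁻¹ ∈ Kv (g • v)
  Kv_fix : ∀ v ∈ A, ∀ h ∈ Kv v, h • v = v
  spin : ∀ v ∈ A, ∀ a, a ≠ v → ∀ h ∈ Kv v, h ≠ 1 → L ≤ D v a (h • a)
  hL : 20 * M + 1 ≤ L

namespace Spin

variable {G V : Type*} [Group G] [MulAction G V] (W : Spin G V)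

/-- pivoting: the least predicate with `Der 1`, closed under pivots -/
inductive Der (x : V) : G → Prop
  | one : Der x 1
  | piv (k h : G) (v : V) (hv : v ∈ W.A) (hh : h ∈ W.Kv v) (h1 : h ≠ 1)
      (hD : W.D v x ((h * k) • x) ≤ 8 * W.M) (hk : Der x (h * k)) : Der x k

/-- the group generated by the rotations about apexes at distance `< r` from `x` -/
def Kr (x : V) (r : ℕ) : Subgroup G :=
  Subgroup.closure {h | ∃ v ∈ W.A, W.m x v < r ∧ h ∈ W.Kv v}

/-- the group generated by all rotations -/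
def Kall : Subgroup G := Subgroup.closure {h | ∃ v ∈ W.A, h ∈ W.Kv v}

/-- orbit of `x` under `Kr x r` -/
def Orb (x : V) (r : ℕ) (q : V) : Prop := ∃ k ∈ W.Kr x r, q = k • x

/-- a step of a canoe -/
def Step (r : ℕ) (q v q' : V) : Prop :=
  v ∈ W.A ∧ W.m q v = W.m q' v ∧ W.m q v < r ∧
    ∃ h ∈ W.Kv v, h ≠ 1 ∧ W.D v q (h⁻¹ • q') ≤ 4 * W.M

/-- cross condition between two apexes at the point `q` -/
def Cross (v q w : V) : Prop := v ≠ w ∧ W.D v q w ≤ W.M ∧ W.D w q v ≤ W.M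

/-- a canoe with `n` steps -/
structure Canoe (x : V) (r n : ℕ) (q v : ℕ → V) : Prop where
  orb : ∀ j ≤ n, W.Orb x r (q j)
  step : ∀ j < n, W.Step r (q j) (v j) (q (j + 1))
  cross : ∀ j, j + 1 < n → W.Cross (v j) (q (j + 1)) (v (j + 1))

variable {W} {x : V}

theorem A_smul_iff (g : G) (v : V) : g • v ∈ W.A ↔ v ∈ W.A := by
  constructor
  · intro h
    have := W.A_smul g⁻¹ _ h
    rwa [inv_smul_smul] at this
  · exact W.A_smul g v

theorem smul_ne (hx : x ∉ W.A) (g : G) {v : V} (hv : v ∈ W.A) : g • x ≠ v := by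
  rintro rfl
  exact hx ((A_smul_iff g x).1 hv)

theorem orb_ne (hx : x ∉ W.A) {r : ℕ} {q v : V} (hq : W.Orb x r q) (hv : v ∈ W.A) : q ≠ v := by
  obtain ⟨k, -, rfl⟩ := hq
  exact smul_ne hx k hv

theorem D_self {v a : V} (hv : v ∈ W.A) (ha : a ≠ v) : W.D v a a ≤ W.M := by
  by_contra h
  have := W.bgi v hv a a ha ha (by omega)
  rw [W.m_self] at this
  omega

/-- Behrstock inequality -/
theorem behr {v w c : V} (hv : v ∈ W.A) (hw : w ∈ W.A) (hvw : v ≠ w) (hcv : c ≠ v) (hcw : c ≠ w)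
    (h : W.M < W.D v w c) : W.D w v c ≤ W.M := by
  by_contra h'
  have h1 := W.bgi v hv w c hvw.symm hcv h
  have h2 := W.bgi w hw v c hvw hcw (by omega)
  omega

theorem Kr_mono {r r' : ℕ} (h : r ≤ r') : W.Kr x r ≤ W.Kr x r' := by
  apply Subgroup.closure_mono
  rintro g ⟨v, hv, hr, hg⟩
  exact ⟨v, hv, by omega, hg⟩

theorem orb_mono {r r' : ℕ} (h : r ≤ r') {q : V} (hq : W.Orb x r q) : W.Orb x r' q := by
  obtain ⟨k, hk, rfl⟩ := hq
  exact ⟨k, Kr_mono h hk, rfl⟩

theorem orb_smul {r : ℕ} {q : V} (hq : W.Orb x r q) {g : G} (hg : g ∈ W.Kr x r) :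
    W.Orb x r (g • q) := by
  obtain ⟨k, hk, rfl⟩ := hq
  exact ⟨g * k, mul_mem hg hk, by rw [mul_smul]⟩

theorem orb_self (r : ℕ) : W.Orb x r x := ⟨1, one_mem _, (one_smul _ _).symm⟩

theorem step_mono {r r' : ℕ} (h : r ≤ r') {q v q' : V} (hs : W.Step r q v q') :
    W.Step r' q v q' := ⟨hs.1, hs.2.1, by have := hs.2.2.1; omega, hs.2.2.2⟩

theorem step_smul {r : ℕ} {q v q' : V} (hs : W.Step r q v q') (g : G) :
    W.Step r (g • q) (g • v) (g • q') := by
  obtain ⟨hv, h1, h2, h, hh, hh1, hD⟩ := hs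
  refine ⟨W.A_smul _ _ hv, by rw [W.m_smul, W.m_smul, h1], by rwa [W.m_smul],
    g * h * g⁻¹, W.Kv_smul g h v hh, ?_, ?_⟩
  · intro h0
    apply hh1
    have : h = g⁻¹ * (g * h * g⁻¹) * g := by group
    rw [this, h0]; group
  · have : (g * h * g⁻¹)⁻¹ • g • q' = g • h⁻¹ • q' := by
      simp only [← mul_smul]; congr 1; group
    rw [this, W.D_smul]; exact hD

theorem cross_smul {v q w : V} (hc : W.Cross v q w) (g : G) :
    W.Cross (g • v) (g • q) (g • w) := by
  refine ⟨fun h => hc.1 (smul_left_cancel g h), ?_, ?_⟩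
  · rw [W.D_smul]; exact hc.2.1
  · rw [W.D_smul]; exact hc.2.2

theorem canoe_mono {r r' n : ℕ} {q v : ℕ → V} (h : r ≤ r') (hc : W.Canoe x r n q v) :
    W.Canoe x r' n q v :=
  ⟨fun j hj => orb_mono h (hc.orb j hj), fun j hj => step_mono h (hc.step j hj), hc.cross⟩

theorem canoe_smul {r n : ℕ} {q v : ℕ → V} (hc : W.Canoe x r n q v) {g : G}
    (hg : g ∈ W.Kr x r) : W.Canoe x r n (fun j => g • q j) (fun j => g • v j) :=
  ⟨fun j hj => orb_smul (hc.orb j hj) hg, fun j hj => step_smul (hc.step j hj) g,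
    fun j hj => cross_smul (hc.cross j hj) g⟩

theorem canoe_init {r n : ℕ} {q v : ℕ → V} (hc : W.Canoe x r (n + 1) q v) :
    W.Canoe x r n q v :=
  ⟨fun j hj => hc.orb j (by omega), fun j hj => hc.step j (by omega),
    fun j hj => hc.cross j (by omega)⟩

theorem canoe_tail {r n : ℕ} {q v : ℕ → V} (hc : W.Canoe x r (n + 1) q v) :
    W.Canoe x r n (fun j => q (j + 1)) (fun j => v (j + 1)) :=
  ⟨fun j hj => hc.orb (j + 1) (by omega), fun j hj => hc.step (j + 1) (by omega),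
    fun j hj => hc.cross (j + 1) (by omega)⟩

/-- angle at a canoe apex -/
theorem angle {r n : ℕ} {q v : ℕ → V} (hx : x ∉ W.A) (hc : W.Canoe x r n q v) {j : ℕ}
    (hj : j < n) : W.L ≤ W.D (v j) (q j) (q (j + 1)) + 4 * W.M := by
  obtain ⟨hv, -, -, h, hh, hh1, hD⟩ := hc.step j hj
  have h1 : q j ≠ v j := orb_ne hx (hc.orb j (by omega)) hv
  have h2 : q (j + 1) ≠ v j := orb_ne hx (hc.orb (j + 1) (by omega)) hv
  have h3 : h⁻¹ • q (j + 1) ≠ v j := by
    intro h0
    apply h2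
    have := congrArg (fun y => h • y) h0
    simp only [smul_inv_smul] at this
    rw [this, W.Kv_fix _ hv h hh]
  have h4 := W.spin (v j) hv _ h2 h⁻¹ (inv_mem hh) (by simpa using hh1)
  have h5 := W.D_tri (v j) hv (q (j + 1)) (q j) (h⁻¹ • q (j + 1)) h2 h1 h3
  rw [W.D_comm (v j) (q (j + 1)) (q j)] at h5
  omega

/-- local to global, right side -/
theorem right {r n : ℕ} {q v : ℕ → V} (hx : x ∉ W.A) (hc : W.Canoe x r n q v) :
    ∀ d j, (j + 1 + d < n → v (j + 1 + d) ≠ v j ∧ W.D (v j) (q (j + 1)) (v (j + 1 + d)) ≤ 2 * W.M)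
      ∧ (j + 1 + d ≤ n → W.D (v j) (q (j + 1)) (q (j + 1 + d)) ≤ 2 * W.M) := by
  intro d
  induction d with
  | zero =>
    intro j
    refine ⟨fun hj => ?_, fun hj => ?_⟩
    · have := hc.cross j hj
      exact ⟨this.1.symm, by have := this.2.1; simp only [add_zero]; omega⟩
    · have hv := (hc.step j (by omega)).1
      have := D_self hv (orb_ne hx (hc.orb (j + 1) hj) hv)
      simp only [add_zero]; omega
  | succ d ih =>
    intro j
    have key : ∀ w : V, j + 1 + (d + 1) ≤ n → w ≠ v (j + 1) →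
        (w = v j → False) ∨ w = v j → W.D (v (j + 1)) (q (j + 2)) w ≤ 2 * W.M →
        w ≠ v j ∧ (W.D (v j) (q (j + 1)) w ≤ 2 * W.M) := by
      intro w hn hw _ hD
      have hs0 := hc.step j (by omega)
      have hs1 := hc.step (j + 1) (by omega)
      have hcr := hc.cross j (by omega)
      have ha := angle hx hc (j := j + 1) (by omega)
      have hq1 : q (j + 1) ≠ v (j + 1) := orb_ne hx (hc.orb _ (by omega)) hs1.1
      have hq1' : q (j + 1) ≠ v j := orb_ne hx (hc.orb _ (by omega)) hs0.1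
      have hq2 : q (j + 2) ≠ v (j + 1) := orb_ne hx (hc.orb _ (by omega)) hs1.1
      -- angle at v (j+1) between v j and w
      have t1 := W.D_tri (v (j + 1)) hs1.1 (q (j + 1)) (v j) (q (j + 2)) hq1 hcr.1 hq2
      have t2 := W.D_tri (v (j + 1)) hs1.1 (v j) w (q (j + 2)) hcr.1 hw hq2
      rw [W.D_comm _ w] at t2
      have c1 := hcr.2.2
      have hL := W.hL
      have hbig : W.M < W.D (v (j + 1)) (v j) w := by
        have : q (j + 1 + 1) = q (j + 2) := rfl
        rw [this] at ha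
        omega
      have hwj : w ≠ v j := by
        rintro rfl
        have := D_self hs1.1 hcr.1
        omega
      refine ⟨hwj, ?_⟩
      have b := behr hs1.1 hs0.1 hcr.1.symm hw hwj hbig
      have t3 := W.D_tri (v j) hs0.1 (q (j + 1)) (v (j + 1)) w hq1' hcr.1.symm hwj
      have c2 := hcr.2.1
      omega
    refine ⟨fun hj => ?_, fun hj => ?_⟩
    · have h1 := (ih (j + 1)).1 (by omega)
      have e : j + 1 + 1 + d = j + 1 + (d + 1) := by ring
      rw [e] at h1
      exact key _ (by omega) h1.1 (by tauto) h1.2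
    · have h1 := (ih (j + 1)).2 (by omega)
      have e : j + 1 + 1 + d = j + 1 + (d + 1) := by ring
      rw [e] at h1
      have hs1 := hc.step (j + 1) (by omega)
      exact (key _ hj (orb_ne hx (hc.orb _ hj) hs1.1) (by tauto) h1).2

/-- local to global, left side -/
theorem left {r n : ℕ} {q v : ℕ → V} (hx : x ∉ W.A) (hc : W.Canoe x r n q v) :
    ∀ j, j < n → (∀ i < j, v i ≠ v j ∧ W.D (v j) (q j) (v i) ≤ 2 * W.M)
      ∧ (∀ i ≤ j, W.D (v j) (q j) (q i) ≤ 2 * W.M) := by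
  intro j
  induction j with
  | zero =>
    intro hj
    refine ⟨fun i hi => absurd hi (by omega), fun i hi => ?_⟩
    obtain rfl : i = 0 := by omega
    have hv := (hc.step 0 hj).1
    have := D_self hv (orb_ne hx (hc.orb 0 (by omega)) hv)
    omega
  | succ j ih =>
    intro hj
    obtain ⟨ih1, ih2⟩ := ih (by omega)
    have hs0 := hc.step j (by omega)
    have hs1 := hc.step (j + 1) hj
    have hcr := hc.cross j hj
    have ha := angle hx hc (j := j) (by omega)
    have hq0 : q j ≠ v j := orb_ne hx (hc.orb _ (by omega)) hs0.1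
    have hq1 : q (j + 1) ≠ v j := orb_ne hx (hc.orb _ (by omega)) hs0.1
    have hq1' : q (j + 1) ≠ v (j + 1) := orb_ne hx (hc.orb _ (by omega)) hs1.1
    have hL := W.hL
    have key : ∀ w : V, w ≠ v j → W.D (v j) (q j) w ≤ 2 * W.M →
        w ≠ v (j + 1) ∧ W.D (v (j + 1)) (q (j + 1)) w ≤ 2 * W.M := by
      intro w hw hD
      have t1 := W.D_tri (v j) hs0.1 (q j) w (v (j + 1)) hq0 hw hcr.1.symm
      have t2 := W.D_tri (v j) hs0.1 (q j) (v (j + 1)) (q (j + 1)) hq0 hcr.1.symm hq1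
      have t3 := W.D_tri (v j) hs0.1 (q j) w (q (j + 1)) hq0 hw hq1
      have t4 := W.D_tri (v j) hs0.1 w (v (j + 1)) (q (j + 1)) hw hcr.1.symm hq1
      rw [W.D_comm _ (v (j + 1)) (q (j + 1))] at t2 t4
      have c1 := hcr.2.1
      have hbig : W.M < W.D (v j) w (v (j + 1)) := by omega
      have hwj : w ≠ v (j + 1) := by
        rintro rfl
        have := D_self hs0.1 hw
        omega
      refine ⟨hwj, ?_⟩
      rw [W.D_comm] at hbig
      have b := behr hs0.1 hs1.1 hcr.1 hw hwj hbig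
      have t5 := W.D_tri (v (j + 1)) hs1.1 (q (j + 1)) (v j) w hq1' hcr.1 hwj
      have c2 := hcr.2.2
      omega
    refine ⟨fun i hi => ?_, fun i hi => ?_⟩
    · rcases Nat.lt_succ_iff_lt_or_eq.1 hi with h | h
      · exact key _ (ih1 i h).1 (ih1 i h).2
      · subst h
        exact ⟨hcr.1, by have := hcr.2.2; omega⟩
    · rcases Nat.lt_or_ge i (j + 1) with h | h
      · exact (key _ (orb_ne hx (hc.orb i (by omega)) hs0.1) (ih2 i (by omega))).2
      · obtain rfl : i = j + 1 := by omega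
        have := D_self hs1.1 hq1'
        omega

variable (W) in
/-- apexes at distance exactly `r` from the orbit -/
def Sr (x : V) (r : ℕ) : Set V :=
  {s | s ∈ W.A ∧ (∀ q, W.Orb x r q → r ≤ W.m q s) ∧ ∃ q, W.Orb x r q ∧ W.m q s = r}

variable (W) in
/-- canoes exist between any two orbit points -/
def HCan (x : V) (r : ℕ) : Prop :=
  ∀ k ∈ W.Kr x r, ∃ (n : ℕ) (q v : ℕ → V), W.Canoe x r n q v ∧ q 0 = x ∧ q n = k • x

theorem hcan_two {r : ℕ} (H : W.HCan x r) {a b : V} (ha : W.Orb x r a) (hb : W.Orb x r b) :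
    ∃ (n : ℕ) (q v : ℕ → V), W.Canoe x r n q v ∧ q 0 = a ∧ q n = b := by
  obtain ⟨k, hk, rfl⟩ := ha
  obtain ⟨k', hk', rfl⟩ := hb
  obtain ⟨n, q, v, hc, h0, hn⟩ := H (k⁻¹ * k') (mul_mem (inv_mem hk) hk')
  refine ⟨n, _, _, canoe_smul hc hk, ?_, ?_⟩
  · simp only [h0]
  · simp only [hn, ← mul_smul, mul_inv_cancel_left]

theorem smul_Sr {r : ℕ} {s : V} (hs : s ∈ W.Sr x r) {g : G} (hg : g ∈ W.Kr x r) :
    g • s ∈ W.Sr x r := by
  obtain ⟨h1, h2, q, hq, h3⟩ := hs
  refine ⟨W.A_smul _ _ h1, fun p hp => ?_, g • q, orb_smul hq hg, by rw [W.m_smul, h3]⟩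
  have := h2 (g⁻¹ • p) (orb_smul hp (inv_mem hg))
  rw [← W.m_smul g, smul_inv_smul] at this
  exact this

/-- angles at apexes far from the orbit are bounded -/
theorem angle_le {r : ℕ} (hx : x ∉ W.A) (H : W.HCan x r) {s : V} (hs : s ∈ W.A)
    (hsr : ∀ q, W.Orb x r q → r ≤ W.m q s) {a b : V} (ha : W.Orb x r a) (hb : W.Orb x r b) :
    W.D s a b ≤ 4 * W.M := by
  obtain ⟨n, q, v, hc, rfl, rfl⟩ := hcan_two H ha hb
  have hqs : ∀ j ≤ n, q j ≠ s := fun j hj => orb_ne hx (hc.orb j hj) hs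
  have hvs : ∀ j < n, v j ≠ s := by
    rintro j hj rfl
    have h1 := (hc.step j hj).2.2.1
    have h2 := hsr _ (hc.orb j (by omega))
    omega
  have hqv : ∀ i ≤ n, ∀ j < n, q i ≠ v j := fun i hi j hj =>
    orb_ne hx (hc.orb i hi) (hc.step j hj).1
  have near1 : ∀ j < n, W.D s (q j) (v j) ≤ W.M := by
    intro j hj
    by_contra h
    have h1 := W.bgi s hs (q j) (v j) (hqs j (by omega)) (hvs j hj) (by omega)
    have h2 := (hc.step j hj).2.2.1
    have h3 := hsr _ (hc.orb j (by omega))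
    omega
  have near2 : ∀ j < n, W.D s (q (j + 1)) (v j) ≤ W.M := by
    intro j hj
    by_contra h
    have h1 := W.bgi s hs (q (j + 1)) (v j) (hqs _ (by omega)) (hvs j hj) (by omega)
    have h2 := (hc.step j hj).2.2.1
    have h2' := (hc.step j hj).2.1
    have h3 := hsr _ (hc.orb (j + 1) (by omega))
    omega
  rcases Nat.eq_zero_or_pos n with h0 | hpos
  · subst h0
    have := D_self hs (hqs 0 le_rfl)
    omega
  have big : ∀ j < n, 2 * W.M < W.D (v j) (q 0) (q n) := by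
    intro j hj
    have hv := (hc.step j hj).1
    have h1 := angle hx hc hj
    have h2 := (left hx hc j hj).2 0 (by omega)
    have h3 := (right hx hc (n - (j + 1)) j).2 (by omega)
    have e : j + 1 + (n - (j + 1)) = n := by omega
    rw [e] at h3
    have t1 := W.D_tri (v j) hv (q j) (q 0) (q (j + 1)) (hqv _ (by omega) _ hj)
      (hqv _ (by omega) _ hj) (hqv _ (by omega) _ hj)
    have t2 := W.D_tri (v j) hv (q 0) (q n) (q (j + 1)) (hqv _ (by omega) _ hj)
      (hqv _ (by omega) _ hj) (hqv _ (by omega) _ hj)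
    rw [W.D_comm _ (q n) (q (j + 1))] at t2
    have := W.hL
    omega
  by_contra hcon
  have main : ∀ j < n, W.D s (q 0) (v j) ≤ W.M := by
    intro j
    induction j with
    | zero => exact near1 0
    | succ j ih =>
      intro hj
      have ihj := ih (by omega)
      have hv := (hc.step (j + 1) hj).1
      have hb := big (j + 1) hj
      have t := W.D_tri (v (j + 1)) hv (q 0) s (q n) (hqv _ (by omega) _ hj)
        (hvs _ hj).symm (hqv _ (by omega) _ hj)
      rw [W.D_comm _ (q 0) s] at t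
      by_cases hc1 : W.M < W.D (v (j + 1)) s (q 0)
      · have := behr hv hs (hvs _ hj) (hqv _ (by omega) _ hj) (hqs 0 (by omega)) hc1
        rwa [W.D_comm] at this
      · exfalso
        have b := behr hv hs (hvs _ hj) (hqv _ (by omega) _ hj) (hqs n le_rfl)
          (show W.M < W.D (v (j + 1)) s (q n) by omega)
        have s1 := W.D_tri s hs (q 0) (v j) (q n) (hqs _ (by omega)) (hvs _ (by omega))
          (hqs _ le_rfl)
        have s2 := W.D_tri s hs (v j) (q (j + 1)) (q n) (hvs _ (by omega)) (hqs _ (by omega))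
          (hqs _ le_rfl)
        have s3 := W.D_tri s hs (q (j + 1)) (v (j + 1)) (q n) (hqs _ (by omega))
          (hvs _ (by omega)) (hqs _ le_rfl)
        rw [W.D_comm s (v j) (q (j + 1))] at s2
        have n1 := near2 j (by omega)
        have n2 := near1 (j + 1) hj
        omega
  have hm := main (n - 1) (by omega)
  have hn := near2 (n - 1) (by omega)
  have e : n - 1 + 1 = n := by omega
  rw [e] at hn
  have t := W.D_tri s hs (q 0) (v (n - 1)) (q n) (hqs _ (by omega)) (hvs _ (by omega))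
    (hqs _ le_rfl)
  rw [W.D_comm s (v (n - 1))] at t
  omega

/-- cross condition on the right of a minimal canoe -/
theorem right_cross {r n : ℕ} {q v : ℕ → V} (hx : x ∉ W.A) (hc : W.Canoe x r (n + 1) q v)
    {s : V} (hs : s ∈ W.Sr x r) (he : W.m (q (n + 1)) s = r)
    (hmin : W.m (q n) s ≠ r) : W.Cross (v n) (q (n + 1)) s := by
  have hst := hc.step n (by omega)
  have h3 := hs.2.1 _ (hc.orb n (by omega))
  have hv := hst.1
  have hq : q (n + 1) ≠ v n := orb_ne hx (hc.orb _ le_rfl) hv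
  have hq' : q (n + 1) ≠ s := orb_ne hx (hc.orb _ le_rfl) hs.1
  have hm1 := hst.2.1
  have hm2 := hst.2.2.1
  have hvs : v n ≠ s := by
    rintro h
    rw [h] at hm1 hm2
    omega
  refine ⟨hvs, ?_, ?_⟩
  · by_contra h
    have h1 := W.bgi (v n) hv _ _ hq hvs.symm (lt_of_not_ge h)
    have h2 := W.m_tri (v n) hv (q n) s
    omega
  · by_contra h
    have h1 := W.bgi s hs.1 _ _ hq' hvs (lt_of_not_ge h)
    omega

/-- cross condition on the left of a minimal canoe -/
theorem left_cross {r n : ℕ} {q v : ℕ → V} (hx : x ∉ W.A) (hc : W.Canoe x r (n + 1) q v)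
    {s : V} (hs : s ∈ W.Sr x r) (he : W.m (q 0) s = r)
    (hmin : W.m (q 1) s ≠ r) : W.Cross s (q 0) (v 0) := by
  have hst := hc.step 0 (by omega)
  have h3 := hs.2.1 _ (hc.orb 1 (by omega))
  have hv := hst.1
  have hq : q 0 ≠ v 0 := orb_ne hx (hc.orb _ (by omega)) hv
  have hq' : q 0 ≠ s := orb_ne hx (hc.orb _ (by omega)) hs.1
  have hm1 := hst.2.1
  have hm2 := hst.2.2.1
  have hvs : s ≠ v 0 := by
    rintro h
    rw [← h] at hm1 hm2
    omega
  refine ⟨hvs, ?_, ?_⟩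
  · by_contra h
    have h1 := W.bgi s hs.1 _ _ hq' hvs.symm (lt_of_not_ge h)
    omega
  · by_contra h
    have h1 := W.bgi (v 0) hv _ _ hq hvs (lt_of_not_ge h)
    have h2 := W.m_tri (v 0) hv (q 1) s
    simp only [zero_add] at hm1
    omega

theorem zero_cross {r : ℕ} (hx : x ∉ W.A) {q s s' : V} (hq : W.Orb x r q) (hs : s ∈ W.Sr x r)
    (hs' : s' ∈ W.Sr x r) (hne : s ≠ s') (h : W.m q s = r) (h' : W.m q s' = r) :
    W.Cross s q s' := by
  refine ⟨hne, ?_, ?_⟩
  · by_contra h0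
    have := W.bgi s hs.1 _ _ (orb_ne hx hq hs.1) hne.symm (lt_of_not_ge h0)
    omega
  · by_contra h0
    have := W.bgi s' hs'.1 _ _ (orb_ne hx hq hs'.1) hne (lt_of_not_ge h0)
    omega

/-- block between two apexes -/
theorem block {r : ℕ} (hx : x ∉ W.A) (H : W.HCan x r) {s s' : V} (hs : s ∈ W.Sr x r)
    (hs' : s' ∈ W.Sr x r) (hne : s ≠ s') :
    ∃ (n : ℕ) (q v : ℕ → V), W.Canoe x r n q v ∧ W.m (q 0) s = r ∧ W.m (q n) s' = r ∧
      (n = 0 → W.Cross s (q 0) s') ∧ (0 < n → W.Cross s (q 0) (v 0)) ∧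
      (0 < n → W.Cross (v (n - 1)) (q n) s') := by
  classical
  have hex : ∃ n, ∃ (q v : ℕ → V), W.Canoe x r n q v ∧ W.m (q 0) s = r ∧ W.m (q n) s' = r := by
    obtain ⟨-, -, a, ha, hma⟩ := hs
    obtain ⟨-, -, b, hb, hmb⟩ := hs'
    obtain ⟨n, q, v, hc, rfl, rfl⟩ := hcan_two H ha hb
    exact ⟨n, q, v, hc, hma, hmb⟩
  obtain ⟨q, v, hc, h0, h1⟩ := Nat.find_spec hex
  have hmin : ∀ n' < Nat.find hex, ¬ ∃ (q v : ℕ → V), W.Canoe x r n' q v ∧ W.m (q 0) s = r ∧
      W.m (q n') s' = r := fun n' hn' => Nat.find_min hex hn'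
  generalize Nat.find hex = n at *
  refine ⟨n, q, v, hc, h0, h1, ?_, ?_, ?_⟩
  · rintro rfl
    exact zero_cross hx (hc.orb 0 le_rfl) hs hs' hne h0 h1
  · intro hn
    obtain ⟨n, rfl⟩ : ∃ k, n = k + 1 := ⟨n - 1, by omega⟩
    apply left_cross hx hc hs h0
    intro h
    exact hmin n (by omega) ⟨_, _, canoe_tail hc, h, h1⟩
  · intro hn
    obtain ⟨n, rfl⟩ : ∃ k, n = k + 1 := ⟨n - 1, by omega⟩
    simp only [Nat.add_sub_cancel]
    apply right_cross hx hc hs' h1
    intro h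
    exact hmin n (by omega) ⟨_, _, canoe_init hc, h0, h⟩

/-- block with fixed left end -/
theorem blockL {r : ℕ} (hx : x ∉ W.A) (H : W.HCan x r) {s' : V} (hs' : s' ∈ W.Sr x r) :
    ∃ (n : ℕ) (q v : ℕ → V), W.Canoe x r n q v ∧ q 0 = x ∧ W.m (q n) s' = r ∧
      (0 < n → W.Cross (v (n - 1)) (q n) s') := by
  classical
  have hex : ∃ n, ∃ (q v : ℕ → V), W.Canoe x r n q v ∧ q 0 = x ∧ W.m (q n) s' = r := by
    obtain ⟨-, -, b, hb, hmb⟩ := hs'
    obtain ⟨n, q, v, hc, h0, rfl⟩ := hcan_two H (orb_self (W := W) (x := x) r) hb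
    exact ⟨n, q, v, hc, h0, hmb⟩
  obtain ⟨q, v, hc, h0, h1⟩ := Nat.find_spec hex
  have hmin : ∀ n' < Nat.find hex, ¬ ∃ (q v : ℕ → V), W.Canoe x r n' q v ∧ q 0 = x ∧
      W.m (q n') s' = r := fun n' hn' => Nat.find_min hex hn'
  generalize Nat.find hex = n at *
  refine ⟨n, q, v, hc, h0, h1, ?_⟩
  intro hn
  obtain ⟨n, rfl⟩ : ∃ k, n = k + 1 := ⟨n - 1, by omega⟩
  simp only [Nat.add_sub_cancel]
  apply right_cross hx hc hs' h1
  intro h
  exact hmin n (by omega) ⟨_, _, canoe_init hc, h0, h⟩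

/-- block with fixed right end -/
theorem blockR {r : ℕ} (hx : x ∉ W.A) (H : W.HCan x r) {s : V} (hs : s ∈ W.Sr x r)
    {b : V} (hb : W.Orb x r b) :
    ∃ (n : ℕ) (q v : ℕ → V), W.Canoe x r n q v ∧ W.m (q 0) s = r ∧ q n = b ∧
      (0 < n → W.Cross s (q 0) (v 0)) := by
  classical
  have hex : ∃ n, ∃ (q v : ℕ → V), W.Canoe x r n q v ∧ W.m (q 0) s = r ∧ q n = b := by
    obtain ⟨-, -, a, ha, hma⟩ := hs
    obtain ⟨n, q, v, hc, rfl, h0⟩ := hcan_two H ha hb
    exact ⟨n, q, v, hc, hma, h0⟩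
  obtain ⟨q, v, hc, h0, h1⟩ := Nat.find_spec hex
  have hmin : ∀ n' < Nat.find hex, ¬ ∃ (q v : ℕ → V), W.Canoe x r n' q v ∧ W.m (q 0) s = r ∧
      q n' = b := fun n' hn' => Nat.find_min hex hn'
  generalize Nat.find hex = n at *
  refine ⟨n, q, v, hc, h0, h1, ?_⟩
  intro hn
  obtain ⟨n, rfl⟩ : ∃ k, n = k + 1 := ⟨n - 1, by omega⟩
  apply left_cross hx hc hs h0
  intro h
  exact hmin n (by omega) ⟨_, _, canoe_tail hc, h, h1⟩

/-- concatenation of canoes -/
theorem concat {R n₁ n₂ : ℕ} {q₁ v₁ q₂ v₂ : ℕ → V} {z : V} (h₁ : W.Canoe x R n₁ q₁ v₁)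
    (h₂ : W.Canoe x R n₂ q₂ v₂) (hz : W.Step R (q₁ n₁) z (q₂ 0))
    (hl : 0 < n₁ → W.Cross (v₁ (n₁ - 1)) (q₁ n₁) z) (hr : 0 < n₂ → W.Cross z (q₂ 0) (v₂ 0)) :
    W.Canoe x R (n₁ + 1 + n₂) (fun j => if j ≤ n₁ then q₁ j else q₂ (j - n₁ - 1))
      (fun j => if j < n₁ then v₁ j else if j = n₁ then z else v₂ (j - n₁ - 1)) := by
  refine ⟨fun j hj => ?_, fun j hj => ?_, fun j hj => ?_⟩
  · by_cases h : j ≤ n₁
    · simp only [h, if_true]; exact h₁.orb j h
    · simp only [h, if_false]; exact h₂.orb _ (by omega)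
  · rcases lt_trichotomy j n₁ with h | h | h
    · have e1 : j ≤ n₁ := by omega
      have e2 : j + 1 ≤ n₁ := by omega
      simp only [h, e1, e2, if_true]; exact h₁.step j h
    · subst h
      have e2 : ¬ (j + 1 ≤ j) := by omega
      simp only [le_refl, e2, lt_irrefl, if_true, if_false]
      have : j + 1 - j - 1 = 0 := by omega
      rw [this]; exact hz
    · have e1 : ¬ (j ≤ n₁) := by omega
      have e2 : ¬ (j + 1 ≤ n₁) := by omega
      have e3 : ¬ (j < n₁) := by omega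
      have e4 : ¬ (j = n₁) := by omega
      simp only [e1, e2, e3, e4, if_false]
      have := h₂.step (j - n₁ - 1) (by omega)
      have e5 : j - n₁ - 1 + 1 = j + 1 - n₁ - 1 := by omega
      rw [e5] at this; exact this
  · rcases lt_trichotomy (j + 1) n₁ with h | h | h
    · have e1 : j < n₁ := by omega
      have e2 : j + 1 ≤ n₁ := by omega
      simp only [h, e1, e2, if_true]; exact h₁.cross j h
    · have e1 : j < n₁ := by omega
      have e2 : j + 1 ≤ n₁ := by omega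
      have e3 : ¬ (j + 1 < n₁) := by omega
      simp only [e1, e2, if_true, e3, if_false, h]
      have := hl (by omega)
      have e4 : n₁ - 1 = j := by omega
      rw [e4] at this
      simpa using this
    · rcases Nat.lt_or_ge n₁ j with h' | h'
      · have e1 : ¬ (j < n₁) := by omega
        have e2 : ¬ (j = n₁) := by omega
        have e3 : ¬ (j + 1 ≤ n₁) := by omega
        have e4 : ¬ (j + 1 < n₁) := by omega
        have e5 : ¬ (j + 1 = n₁) := by omega
        simp only [e1, e2, e3, e4, e5, if_false]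
        have := h₂.cross (j - n₁ - 1) (by omega)
        have e6 : j - n₁ - 1 + 1 = j + 1 - n₁ - 1 := by omega
        rw [e6] at this; exact this
      · obtain rfl : j = n₁ := by omega
        have e3 : ¬ (j + 1 ≤ j) := by omega
        have e4 : ¬ (j + 1 < j) := by omega
        have e5 : ¬ (j + 1 = j) := by omega
        simp only [lt_irrefl, if_false, if_true, e3, e4, e5]
        have : j + 1 - j - 1 = 0 := by omega
        rw [this]; exact hr (by omega)

variable (W) in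
/-- words over `Kr x r` and the rotations about `Sr x r` -/
inductive Rep (x : V) (r : ℕ) : ℕ → G → Prop
  | zero (k : G) (hk : k ∈ W.Kr x r) : Rep x r 0 k
  | succ (n : ℕ) (a h k : G) (s : V) (ha : a ∈ W.Kr x r) (hs : s ∈ W.Sr x r) (hh : h ∈ W.Kv s)
      (h1 : h ≠ 1) (hk : Rep x r n k) : Rep x r (n + 1) (a * h * k)

theorem rep_mul {r n : ℕ} {g k : G} (hg : g ∈ W.Kr x r) (hk : W.Rep x r n k) :
    W.Rep x r n (g * k) := by
  cases hk with
  | zero _ hk => exact Rep.zero _ (mul_mem hg hk)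
  | succ n a h k s ha hs hh h1 hk =>
    have : g * (a * h * k) = (g * a) * h * k := by group
    rw [this]
    exact Rep.succ n _ h k s (mul_mem hg ha) hs hh h1 hk

theorem gen_mem {r : ℕ} {h : G} {v : V} (hv : v ∈ W.A) (hm : W.m x v < r + 1)
    (hh : h ∈ W.Kv v) : h ∈ W.Kr x r ∨ v ∈ W.Sr x r := by
  by_cases h1 : ∀ q, W.Orb x r q → r ≤ W.m q v
  · rcases Nat.lt_or_ge (W.m x v) r with h2 | h2
    · exact absurd (h1 x (orb_self r)) (by omega)
    · exact Or.inr ⟨hv, h1, x, orb_self r, by omega⟩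
  · push Not at h1
    obtain ⟨q, ⟨k, hk, rfl⟩, hq⟩ := h1
    left
    have h2 : k⁻¹ * h * k⁻¹⁻¹ ∈ W.Kr x r := by
      apply Subgroup.subset_closure
      refine ⟨k⁻¹ • v, W.A_smul _ _ hv, ?_, W.Kv_smul _ _ _ hh⟩
      rwa [← W.m_smul k, smul_inv_smul]
    have h3 : h = k * (k⁻¹ * h * k⁻¹⁻¹) * k⁻¹ := by group
    rw [h3]
    exact mul_mem (mul_mem hk h2) (inv_mem hk)

theorem rep_exists {r : ℕ} {k : G} (hk : k ∈ W.Kr x (r + 1)) : ∃ n, W.Rep x r n k := by
  have key : ∀ h, (∃ v ∈ W.A, W.m x v < r + 1 ∧ h ∈ W.Kv v) → ∀ y, (∃ n, W.Rep x r n y) →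
      ∃ n, W.Rep x r n (h * y) := by
    rintro h ⟨v, hv, hm, hh⟩ y ⟨n, hn⟩
    by_cases h1 : h = 1
    · exact ⟨n, by rw [h1, one_mul]; exact hn⟩
    rcases gen_mem hv hm hh with h2 | h2
    · exact ⟨n, rep_mul h2 hn⟩
    · refine ⟨n + 1, ?_⟩
      have := Rep.succ n 1 h y v (one_mem _) h2 hh h1 hn
      rwa [one_mul] at this
  induction hk using Subgroup.closure_induction_left with
  | one => exact ⟨0, Rep.zero _ (one_mem _)⟩
  | mul_left h hh y hy ih => exact key h hh y ih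
  | inv_mul_cancel h hh y hy ih =>
    obtain ⟨v, hv, hm, hh⟩ := hh
    exact key h⁻¹ ⟨v, hv, hm, inv_mem hh⟩ y ih

/-- the inductive step -/
theorem step_main {r : ℕ} (hx : x ∉ W.A) (H : W.HCan x r) (HD : ∀ k ∈ W.Kr x r, W.Der x k) :
    ∀ n k, W.Rep x r n k → (∀ n' < n, ¬ W.Rep x r n' k) →
      W.Der x k ∧
      (∃ (N : ℕ) (q v : ℕ → V), W.Canoe x (r + 1) N q v ∧ q 0 = x ∧ q N = k • x) ∧
      (∀ s ∈ W.Sr x r, (∀ n' a h k' s', n = n' + 1 → k = a * h * k' → a ∈ W.Kr x r →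
        s' ∈ W.Sr x r → h ∈ W.Kv s' → h ≠ 1 → W.Rep x r n' k' → s ≠ a • s') →
        ∃ (N : ℕ) (q v : ℕ → V), W.Canoe x (r + 1) N q v ∧ W.Orb x r (q 0) ∧
          W.m (q 0) s = r ∧ q N = k • x ∧ (0 < N → W.Cross s (q 0) (v 0))) := by
  intro n
  induction n using Nat.strong_induction_on with
  | _ n ih =>
  intro k hk hmin
  cases hk with
  | zero _ hk =>
    refine ⟨HD k hk, ?_, ?_⟩
    · obtain ⟨n, q, v, hc, h0, h1⟩ := H k hk
      exact ⟨n, q, v, canoe_mono (by omega) hc, h0, h1⟩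
    · intro s hs _
      obtain ⟨n, q, v, hc, h0, h1, h2⟩ := blockR hx H hs (b := k • x) ⟨k, hk, rfl⟩
      exact ⟨n, q, v, canoe_mono (by omega) hc, hc.orb 0 (by omega), h0, h1, h2⟩
  | succ n a h k' s₁ ha hs₁ hh h1 hk' =>
    have hmin' : ∀ n' < n, ¬ W.Rep x r n' k' := fun n' hn' h' =>
      hmin (n' + 1) (by omega) (Rep.succ n' a h k' s₁ ha hs₁ hh h1 h')
    have hcomp : ∀ n' a' h' k'' s', n = n' + 1 → k' = a' * h' * k'' → a' ∈ W.Kr x r →
        s' ∈ W.Sr x r → h' ∈ W.Kv s' → h' ≠ 1 → W.Rep x r n' k'' → s₁ ≠ a' • s' := by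
      rintro n' a' h' k'' s' rfl rfl ha' hs' hh' h1' hk'' rfl
      have hc := W.Kv_smul a' h' s' hh'
      by_cases h2 : h * (a' * h' * a'⁻¹) = 1
      · apply hmin n' (by omega)
        have e : a * h * (a' * h' * k'') = a * (h * (a' * h' * a'⁻¹)) * (a' * k'') := by group
        rw [e, h2, mul_one, ← mul_assoc]
        exact rep_mul (mul_mem ha ha') hk''
      · apply hmin (n' + 1) (by omega)
        have e : a * h * (a' * h' * k'') = a * (h * (a' * h' * a'⁻¹)) * (a' * k'') := by group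
        rw [e]
        exact Rep.succ n' a _ _ (a' • s') ha hs₁ (mul_mem hh hc) h2 (rep_mul ha' hk'')
    obtain ⟨-, -, ih3⟩ := ih n (by omega) k' hk' hmin'
    obtain ⟨N₂, q₂, v₂, hc₂, ho₂, hm₂, he₂, hx₂⟩ := ih3 s₁ hs₁ hcomp
    -- the apex z
    set z := a • s₁ with hz
    have hzS : z ∈ W.Sr x r := smul_Sr hs₁ ha
    have hfix : h • s₁ = s₁ := W.Kv_fix _ hs₁.1 h hh
    have hahr : a * h ∈ W.Kr x (r + 1) := by
      refine mul_mem (Kr_mono (by omega) ha) ?_
      have hs₁A := hs₁.1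
      obtain ⟨-, -, q, ⟨g, hg, rfl⟩, hq⟩ := hs₁
      have h2 : g⁻¹ * h * g⁻¹⁻¹ ∈ W.Kr x (r + 1) := by
        apply Subgroup.subset_closure
        refine ⟨g⁻¹ • s₁, W.A_smul _ _ hs₁A, ?_, W.Kv_smul _ _ _ hh⟩
        have : W.m x (g⁻¹ • s₁) = r := by rw [← W.m_smul g, smul_inv_smul]; exact hq
        omega
      have h3 : h = g * (g⁻¹ * h * g⁻¹⁻¹) * g⁻¹ := by group
      rw [h3]
      have hg' := Kr_mono (W := W) (x := x) (show r ≤ r + 1 by omega) hg
      exact mul_mem (mul_mem hg' h2) (inv_mem hg')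
    have hahz : (a * h) • s₁ = z := by rw [mul_smul, hfix]
    have hz1 : a * h * a⁻¹ ∈ W.Kv z := W.Kv_smul a h s₁ hh
    have hz1' : a * h * a⁻¹ ≠ 1 := by
      intro h0
      apply h1
      have : h = a⁻¹ * (a * h * a⁻¹) * a := by group
      rw [this, h0]; group
    -- second canoe, translated
    have hc₂' := canoe_smul hc₂ hahr
    -- the step at z
    have hstep : ∀ p, W.Orb x r p → W.m p z = r → W.Step (r + 1) p z ((a * h) • q₂ 0) := by
      intro p hp hpz
      refine ⟨hzS.1, ?_, by omega, a * h * a⁻¹, hz1, hz1', ?_⟩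
      · rw [hpz, ← hahz, W.m_smul, hm₂]
      · have e : (a * h * a⁻¹)⁻¹ • (a * h) • q₂ 0 = a • q₂ 0 := by
          rw [← mul_smul]; congr 1; group
        rw [e]
        exact angle_le hx H hzS.1 hzS.2.1 hp (orb_smul ho₂ ha)
    have hcr2 : 0 < N₂ → W.Cross z ((a * h) • q₂ 0) ((a * h) • v₂ 0) := by
      intro hN
      have := cross_smul (hx₂ hN) (a * h)
      rwa [hahz] at this
    have hend : ∀ N₁ : ℕ, (if N₁ + 1 + N₂ ≤ N₁ then x else (a * h) • q₂ (N₁ + 1 + N₂ - N₁ - 1))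
        = (a * h * k') • x := by
      intro N₁
      have e1 : ¬ (N₁ + 1 + N₂ ≤ N₁) := by omega
      have e2 : N₁ + 1 + N₂ - N₁ - 1 = N₂ := by omega
      rw [if_neg e1, e2, he₂, ← mul_smul]
    -- canoe from x
    obtain ⟨N₁, q₁, v₁, hc₁, h0₁, hm₁, hx₁⟩ := blockL hx H hzS
    have hcc := concat (canoe_mono (show r ≤ r + 1 by omega) hc₁) hc₂'
      (hstep _ (hc₁.orb _ le_rfl) hm₁) hx₁ hcr2
    refine ⟨?_, ⟨_, _, _, hcc, ?_, ?_⟩, ?_⟩
    · -- Der
      have hHk : (a * h * a⁻¹)⁻¹ * (a * h * k') = a * k' := by group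
      refine Der.piv _ (a * h * a⁻¹)⁻¹ z hzS.1 (inv_mem hz1)
        (fun h0 => hz1' (inv_eq_one.1 h0)) ?_ ?_
      · have hleft := (left hx hcc N₁ (by omega)).2 0 (by omega)
        have hright := (right hx hcc N₂ N₁).2 (by omega)
        have e0 : ¬ (N₁ + 1 ≤ N₁) := by omega
        have e1 : ¬ (N₁ + 1 + N₂ ≤ N₁) := by omega
        have e2 : N₁ + 1 + N₂ - N₁ - 1 = N₂ := by omega
        have e3 : N₁ + 1 - N₁ - 1 = 0 := by omega
        simp only [lt_irrefl, if_false, if_true, le_refl, Nat.zero_le, h0₁] at hleft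
        simp only [lt_irrefl, if_false, if_true, e0, e1, e2, e3] at hright
        have h4 := angle_le hx H hzS.1 hzS.2.1 (hc₁.orb N₁ le_rfl) (orb_smul ho₂ ha)
        rw [he₂] at hright
        have hright' : W.D z (a • q₂ 0) (((a * h * a⁻¹)⁻¹ * (a * h * k')) • x) ≤ 2 * W.M := by
          have hfz : (a * h * a⁻¹)⁻¹ • z = z := W.Kv_fix _ hzS.1 _ (inv_mem hz1)
          have := W.D_smul (a * h * a⁻¹)⁻¹ z ((a * h) • q₂ 0) ((a * h) • k' • x)
          rw [hfz] at this
          rw [← this] at hright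
          have e4 : (a * h * a⁻¹)⁻¹ • (a * h) • q₂ 0 = a • q₂ 0 := by
            rw [← mul_smul]; congr 1; group
          have e5 : (a * h * a⁻¹)⁻¹ • (a * h) • k' • x
              = ((a * h * a⁻¹)⁻¹ * (a * h * k')) • x := by
            rw [← mul_smul, ← mul_smul]; congr 1; group
          rwa [e4, e5] at hright
        have n1 : x ≠ z := fun h' => hx (h' ▸ hzS.1)
        have n2 : q₁ N₁ ≠ z := orb_ne hx (hc₁.orb N₁ le_rfl) hzS.1
        have n3 : a • q₂ 0 ≠ z := orb_ne hx (orb_smul ho₂ ha) hzS.1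
        have n4 : ((a * h * a⁻¹)⁻¹ * (a * h * k')) • x ≠ z := smul_ne hx _ hzS.1
        have t1 := W.D_tri z hzS.1 x (q₁ N₁) _ n1 n2 n4
        have t2 := W.D_tri z hzS.1 (q₁ N₁) (a • q₂ 0) _ n2 n3 n4
        rw [W.D_comm z x (q₁ N₁)] at t1
        omega
      · rw [hHk]
        have hr : W.Rep x r n (a * k') := rep_mul ha hk'
        classical
        have hex : ∃ n', W.Rep x r n' (a * k') := ⟨n, hr⟩
        have hle : Nat.find hex ≤ n := Nat.find_min' hex hr
        exact (ih (Nat.find hex) (by omega) _ (Nat.find_spec hex)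
          (fun n' hn' => Nat.find_min hex hn')).1
    · simp only [Nat.zero_le, if_true, h0₁]
    · have := hend N₁
      have e1 : ¬ (N₁ + 1 + N₂ ≤ N₁) := by omega
      rw [if_neg e1] at this ⊢
      exact this
    · intro s hs hcs
      have hne : s ≠ z := hcs n a h k' s₁ rfl rfl ha hs₁ hh h1 hk'
      obtain ⟨N₃, q₃, v₃, hc₃, hm0, hmn, hx0, hxl, hxr⟩ := block hx H hs hzS hne
      have hcc' := concat (canoe_mono (show r ≤ r + 1 by omega) hc₃) hc₂'
        (hstep _ (hc₃.orb _ le_rfl) hmn) hxr hcr2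
      refine ⟨_, _, _, hcc', ?_, ?_, ?_, ?_⟩
      · simp only [Nat.zero_le, if_true]; exact hc₃.orb 0 (by omega)
      · simp only [Nat.zero_le, if_true]; exact hm0
      · have := hend N₃
        have e1 : ¬ (N₃ + 1 + N₂ ≤ N₃) := by omega
        rw [if_neg e1] at this ⊢
        exact this
      · intro _
        rcases Nat.eq_zero_or_pos N₃ with h0 | hpos
        · subst h0
          simp only [Nat.zero_le, if_true, lt_irrefl, if_false]
          exact hx0 rfl
        · simp only [Nat.zero_le, if_true, hpos]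
          exact hxl hpos

theorem all_levels (hx : x ∉ W.A) : ∀ r, W.HCan x r ∧ ∀ k ∈ W.Kr x r, W.Der x k := by
  intro r
  induction r with
  | zero =>
    have h0 : ∀ k ∈ W.Kr x 0, k = 1 := by
      intro k hk
      have : {h | ∃ v ∈ W.A, W.m x v < 0 ∧ h ∈ W.Kv v} = (∅ : Set G) := by
        ext h
        simp
      rw [Kr, this, Subgroup.closure_empty] at hk
      exact hk
    refine ⟨fun k hk => ⟨0, fun _ => x, fun _ => x, ?_, rfl, ?_⟩, fun k hk => ?_⟩
    · exact ⟨fun j _ => orb_self 0, fun j hj => absurd hj (by omega),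
        fun j hj => absurd hj (by omega)⟩
    · rw [h0 k hk, one_smul]
    · rw [h0 k hk]; exact Der.one
  | succ r ih =>
    classical
    have key : ∀ k ∈ W.Kr x (r + 1), W.Der x k ∧
        (∃ (N : ℕ) (q v : ℕ → V), W.Canoe x (r + 1) N q v ∧ q 0 = x ∧ q N = k • x) := by
      intro k hk
      have hex := rep_exists hk
      have := step_main hx ih.1 ih.2 (Nat.find hex) k (Nat.find_spec hex)
        (fun n' hn' => Nat.find_min hex hn')
      exact ⟨this.1, this.2.1⟩
    exact ⟨fun k hk => (key k hk).2, fun k hk => (key k hk).1⟩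

theorem mem_Kr_of_mem_Kall {k : G} (hk : k ∈ W.Kall) : ∃ r, k ∈ W.Kr x r := by
  induction hk using Subgroup.closure_induction with
  | mem h hh =>
    obtain ⟨v, hv, hh⟩ := hh
    exact ⟨W.m x v + 1, Subgroup.subset_closure ⟨v, hv, by omega, hh⟩⟩
  | one => exact ⟨0, one_mem _⟩
  | mul a b _ _ iha ihb =>
    obtain ⟨r, hr⟩ := iha
    obtain ⟨r', hr'⟩ := ihb
    exact ⟨max r r', mul_mem (Kr_mono (le_max_left _ _) hr) (Kr_mono (le_max_right _ _) hr')⟩
  | inv a _ iha =>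
    obtain ⟨r, hr⟩ := iha
    exact ⟨r, inv_mem hr⟩

/-- Theorem W: every element of the group generated by the rotations can be pivoted down
to `1`. -/
theorem der_of_mem (hx : x ∉ W.A) {k : G} (hk : k ∈ W.Kall) : W.Der x k := by
  obtain ⟨r, hr⟩ := mem_Kr_of_mem_Kall (x := x) hk
  exact (all_levels hx r).2 k hr

/-- pivot form of the Greendlinger lemma -/
theorem pivot (hx : x ∉ W.A) {k : G} (hk : k ∈ W.Kall) (h1 : k ≠ 1) :
    ∃ v ∈ W.A, ∃ h ∈ W.Kv v, h ≠ 1 ∧ W.D v x ((h * k) • x) ≤ 8 * W.M := by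
  have := der_of_mem hx hk
  cases this with
  | one => exact absurd rfl h1
  | piv _ h v hv hh h1' hD _ => exact ⟨v, hv, h, hh, h1', hD⟩

/-- Greendlinger lemma -/
theorem greendlinger (hx : x ∉ W.A) {k : G} (hk : k ∈ W.Kall) (h1 : k ≠ 1) :
    ∃ v ∈ W.A, W.L ≤ W.D v x (k • x) + 8 * W.M := by
  obtain ⟨v, hv, h, hh, h1', hD⟩ := pivot hx hk h1
  refine ⟨v, hv, ?_⟩
  have n1 : x ≠ v := fun h' => hx (h' ▸ hv)
  have n2 := smul_ne (W := W) hx k hv
  have n3 := smul_ne (W := W) hx (h * k) hv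
  have h4 := W.spin v hv (k • x) n2 h hh h1'
  rw [← mul_smul] at h4
  have t := W.D_tri v hv (k • x) x ((h * k) • x) n2 n1 n3
  rw [W.D_comm v (k • x) x] at t
  omega

end Spin

end Pool.Agent.Lib.MP_bd8d5e_al
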