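import Pool.Agent.Lib.MP_bd8d5e_al.Hat
import Pool.Agent.Lib.MP_bd8d5e_al.Windmill

/-! # Projections to cosets, bounded geodesic image for the hat metric, spinning families -/

set_option autoImplicit false

namespace Pool.Agent.Lib.MP_bd8d5e_al

namespace GNorm

variable {G : Type*} [Group G] (N : GNorm G) (E : Subgroup G)

/-- `p` is a nearest point of the coset `c` to `x` -/
def Near (c : G ⧸ E) (x p : G) : Prop :=
  (p : G ⧸ E) = c ∧ ∀ y : G, (y : G ⧸ E) = c → N.d x p ≤ N.d x y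

/-- projections of distinct cosets are bounded -/
def BProj (th : ℕ) : Prop :=
  ∀ c c' : G ⧸ E, c ≠ c' → ∀ z z' p p' : G, (z : G ⧸ E) = c' → (z' : G ⧸ E) = c' →
    N.Near E c z p → N.Near E c z' p' → N.d p p' ≤ th

variable {N E}

theorem exists_nearest (c : G ⧸ E) (x : G) : ∃ p, N.Near E c x p := by
  classical
  obtain ⟨y, hy⟩ := QuotientGroup.mk_surjective c
  have hex : ∃ n, ∃ p : G, (p : G ⧸ E) = c ∧ N.d x p = n := ⟨_, y, hy, rfl⟩
  obtain ⟨p, hp, hn⟩ := Nat.find_spec hex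
  refine ⟨p, hp, fun z hz => ?_⟩
  rw [hn]
  exact Nat.find_min' hex ⟨z, hz, rfl⟩

theorem near_smul {c : G ⧸ E} {x p : G} (h : N.Near E c x p) (g : G) :
    N.Near E (g • c) (g * x) (g * p) := by
  refine ⟨by rw [← h.1]; rfl, fun y hy => ?_⟩
  have h1 : ((g⁻¹ * y : G) : G ⧸ E) = c := by
    have : ((g⁻¹ * y : G) : G ⧸ E) = g⁻¹ • (y : G ⧸ E) := rfl
    rw [this, hy, inv_smul_smul]
  have h2 := h.2 _ h1
  rw [N.d_left]
  have h3 := N.d_left g x (g⁻¹ * y)
  rw [mul_inv_cancel_left] at h3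
  omega

theorem qconv_coset' {cq : ℕ} (hq : N.QConv E cq) {c : G ⧸ E} {p p' q : G} (hp : (p : G ⧸ E) = c)
    (hp' : (p' : G ⧸ E) = c) (h : N.Btw p q p') : ∃ z : G, (z : G ⧸ E) = c ∧ N.d q z ≤ cq := by
  obtain ⟨z, hz, h1⟩ := qconv_coset hq (QuotientGroup.eq.1 (hp.trans hp'.symm)) h
  exact ⟨z, by rw [← hp]; exact (QuotientGroup.eq.2 hz).symm, h1⟩

/-- distance to a point of a coset, through the nearest point -/
theorem near_far {δ cq : ℕ} (hF : N.FP δ) (hq : N.QConv E cq) {c : G ⧸ E} {x p q : G}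
    (hp : N.Near E c x p) (hq' : (q : G ⧸ E) = c) :
    N.d x p + N.d p q ≤ N.d x q + (2 * cq + 3 * δ + 6) := by
  obtain ⟨m, hm, h1, h2⟩ := exists_centre hF p q x
  obtain ⟨z, hz, h3⟩ := qconv_coset' hq hp.1 hq' hm
  have h4 := hp.2 z hz
  have h5 := N.d_tri x m z
  have a1 := N.gp_add m p x
  have a2 := N.gp_add m q x
  have c1 := N.d_comm x m
  have c2 := N.d_comm q m
  have c3 := N.d_comm p x
  have c4 := N.d_comm q x
  unfold Btw at hm
  omega

theorem near_two {δ cq : ℕ} (hF : N.FP δ) (hq : N.QConv E cq) {c : G ⧸ E} {x y p q : G}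
    (hp : N.Near E c x p) (hq' : N.Near E c y q) (h : 2 * cq + 4 * δ + 6 < N.d p q) :
    N.d x p + N.d p q + N.d q y ≤ N.d x y + (4 * cq + 7 * δ + 12) := by
  have h1 := near_far hF hq hp hq'.1
  have h2 := near_far hF hq hq' hp.1
  have h3 := hF x p q y
  have c1 := N.d_comm y q
  have c2 := N.d_comm q p
  have c3 := N.d_comm y p
  omega

theorem near_same {δ cq : ℕ} (hF : N.FP δ) (hq : N.QConv E cq) {c : G ⧸ E} {x p q : G}
    (hp : N.Near E c x p) (hq' : N.Near E c x q) : N.d p q ≤ 4 * cq + 7 * δ + 12 := by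
  by_contra h
  have := near_two hF hq hp hq' (by omega)
  rw [N.d_self] at this
  omega

/-- nearest points are coarsely Lipschitz -/
theorem near_lip {δ cq : ℕ} (hF : N.FP δ) (hq : N.QConv E cq) {c : G ⧸ E} {x y p q : G}
    (hp : N.Near E c x p) (hq' : N.Near E c y q) : N.d p q ≤ N.d x y + (4 * cq + 7 * δ + 12) := by
  by_contra h
  have := near_two hF hq hp hq' (by omega)
  omega

/-- a point of the coset close to `z` is close to the nearest point of `z` -/
theorem near_close {c : G ⧸ E} {z n y : G} (hn : N.Near E c z n) (hy : (y : G ⧸ E) = c) :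
    N.d y n ≤ 2 * N.d z y := by
  have h1 := hn.2 y hy
  have h2 := N.d_tri y z n
  have h3 := N.d_comm y z
  omega

/-- bounded geodesic image for points -/
theorem bgi_point {δ cq th : ℕ} (hF : N.FP δ) (hq : N.QConv E cq) (hb : N.BProj E th) :
    ∃ M0, ∀ (c : G ⧸ E) (x y p q : G), N.Near E c x p → N.Near E c y q → M0 < N.d p q →
      ∀ (n : ℕ) (P : ℕ → G), N.HGeo E n P → P 0 = x → P n = y →
        ∃ i < n, (P i : G ⧸ E) = c ∧ (P (i + 1) : G ⧸ E) = c := by
  classical
  obtain ⟨D0, hD0⟩ := morse (E := E) hF hq (4 * cq + 7 * δ + 12)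
  set D1 := D0 + δ + 1 with hD1
  set N1 := 2 * (1 + cq + D1) + 2 * cq + 1 with hN1
  set th1 := 2 * (cq + 2 * (2 * cq + D1)) + th + 2 with hth1
  refine ⟨4 * cq + 7 * δ + 12 + (th1 + 1 + th1) * (2 * N1 + 1), ?_⟩
  intro c x y p q hp hqn hM n P hP h0 hn
  have htwo := near_two hF hq hp hqn (by omega)
  have hn0 : 0 < n := by
    rcases Nat.eq_zero_or_pos n with h | h
    · subst h
      have : x = y := by rw [← h0, hn]
      subst this
      rw [N.d_self] at htwo
      omega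
    · exact h
  by_contra hcon
  push Not at hcon
  -- points on the geodesic from p to q
  have hr : ∀ k, ∃ r, k ≤ N.d p q → N.d p r = k ∧ N.d r q = N.d p q - k := by
    intro k
    by_cases hk : k ≤ N.d p q
    · obtain ⟨z, h1, h2⟩ := N.exists_btw p q hk
      exact ⟨z, fun _ => ⟨h1, h2⟩⟩
    · exact ⟨p, fun h => absurd h hk⟩
  choose r hr using hr
  -- data for each k
  have hdata : ∀ k, ∃ i, ∃ qk yk : G, k ≤ N.d p q → i < n ∧ N.Btw (P i) qk (P (i + 1)) ∧
      N.d (r k) qk ≤ D1 ∧ (yk : G ⧸ E) = c ∧ N.d (r k) yk ≤ cq := by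
    intro k
    by_cases hk : k ≤ N.d p q
    · obtain ⟨h1, h2⟩ := hr k hk
      have hg : N.gp (r k) (P 0) (P n) ≤ 4 * cq + 7 * δ + 12 := by
        rw [h0, hn]
        have a1 := N.gp_add (r k) x y
        have a2 := N.d_tri x p (r k)
        have a3 := N.d_tri y q (r k)
        have a4 := N.d_comm y q
        have a5 := N.d_comm q (r k)
        omega
      obtain ⟨i, hi, hi'⟩ := hD0 n P hn0 hP (r k) hg
      obtain ⟨qk, hq1, hq2⟩ := exists_near hF (P i) (P (i + 1)) (r k)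
      obtain ⟨yk, hy1, hy2⟩ := qconv_coset' hq hp.1 hqn.1 (q := r k) (by unfold Btw; omega)
      exact ⟨i, qk, yk, fun _ => ⟨hi, hq1, by omega, hy1, hy2⟩⟩
    · exact ⟨0, p, p, fun h => absurd h hk⟩
  choose i qk yk hd using hdata
  -- indices are in a window
  have hwin : ∀ k k', k ≤ N.d p q → k' ≤ N.d p q → i k ≤ i k' + N1 := by
    intro k k' hk hk'
    obtain ⟨a1, a2, a3, a4, a5⟩ := hd k hk
    obtain ⟨b1, b2, b3, b4, b5⟩ := hd k' hk'
    have s1 := (dh_step hq (hP.step _ a1) a2).1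
    have s2 := (dh_step hq (hP.step _ b1) b2).1
    have e1 : N.dh E (yk k) (yk k') ≤ 1 := dh_le_one (QuotientGroup.eq.1 (a4.trans b4.symm))
    have u1 := dh_le_d (N := N) (E := E) (qk k) (r k)
    have u2 := dh_le_d (N := N) (E := E) (r k) (yk k)
    have u3 := dh_le_d (N := N) (E := E) (yk k') (r k')
    have u4 := dh_le_d (N := N) (E := E) (r k') (qk k')
    have t1 := (N.hat E).d_tri (P (i k)) (qk k) (P (i k'))
    have t2 := (N.hat E).d_tri (qk k) (r k) (P (i k'))
    have t3 := (N.hat E).d_tri (r k) (yk k) (P (i k'))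
    have t4 := (N.hat E).d_tri (yk k) (yk k') (P (i k'))
    have t5 := (N.hat E).d_tri (yk k') (r k') (P (i k'))
    have t6 := (N.hat E).d_tri (r k') (qk k') (P (i k'))
    have c1 := (N.hat E).d_comm (qk k') (P (i k'))
    have c2 := N.d_comm (qk k) (r k)
    have c3 := N.d_comm (yk k') (r k')
    have hle : N.dh E (P (i k)) (P (i k')) ≤ N1 := by
      unfold dh at *
      omega
    rcases le_total (i k) (i k') with h | h
    · omega
    · have h2 := hP.dist (i k') (i k) h (by omega)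
      have c4 := (N.hat E).d_comm (P (i k)) (P (i k'))
      unfold dh at *
      omega
  -- fibres
  have hfib : ∀ k k', k ≤ N.d p q → k' ≤ N.d p q → i k = i k' → k ≤ k' + th1 := by
    intro k k' hk hk' he
    obtain ⟨a1, a2, a3, a4, a5⟩ := hd k hk
    obtain ⟨b1, b2, b3, b4, b5⟩ := hd k' hk'
    rw [← he] at b1 b2
    have hkk : k ≤ k' + N.d (r k') (r k) := by
      have e1 := (hr k hk).1
      have e2 := (hr k' hk').1
      have := N.d_tri p (r k') (r k)
      omega
    suffices N.d (r k') (r k) ≤ th1 by omega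
    rcases hP.step _ a1 with hs | hs
    · have s0 : N.d (P (i k)) (P (i k + 1)) ≤ 1 := hs
      have t1 := N.d_tri (r k') (qk k') (r k)
      have t2 := N.d_tri (qk k') (P (i k)) (r k)
      have t3 := N.d_tri (P (i k)) (qk k) (r k)
      have c1 := N.d_comm (qk k') (P (i k))
      have c2 := N.d_comm (qk k) (r k)
      unfold Btw at a2 b2
      omega
    · have hne : c ≠ (P (i k) : G ⧸ E) := by
        rintro h
        exact hcon (i k) a1 h.symm (by rw [h]; exact (QuotientGroup.eq.2 hs).symm)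
      have hc' : (P (i k + 1) : G ⧸ E) = (P (i k) : G ⧸ E) := (QuotientGroup.eq.2 hs).symm
      obtain ⟨z, hz1, hz2⟩ := qconv_coset' hq rfl hc' a2
      obtain ⟨z', hz1', hz2'⟩ := qconv_coset' hq rfl hc' b2
      obtain ⟨nk, hnk⟩ := exists_nearest (N := N) c z
      obtain ⟨nk', hnk'⟩ := exists_nearest (N := N) c z'
      have hbp := hb c _ hne z z' nk nk' hz1 hz1' hnk hnk'
      have n1 := near_close hnk a4
      have n2 := near_close hnk' b4
      have t1 := N.d_tri z (qk k) (yk k)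
      have t2 := N.d_tri (qk k) (r k) (yk k)
      have t3 := N.d_tri z' (qk k') (yk k')
      have t4 := N.d_tri (qk k') (r k') (yk k')
      have c1 := N.d_comm z (qk k)
      have c2 := N.d_comm (qk k) (r k)
      have c3 := N.d_comm z' (qk k')
      have c4 := N.d_comm (qk k') (r k')
      have t5 := N.d_tri (r k') (yk k') (r k)
      have t6 := N.d_tri (yk k') nk' (r k)
      have t7 := N.d_tri nk' nk (r k)
      have t8 := N.d_tri nk (yk k) (r k)
      have c5 := N.d_comm nk' nk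
      have c6 := N.d_comm nk (yk k)
      have c7 := N.d_comm (yk k) (r k)
      omega
  -- counting
  have hcount := Finset.card_le_mul_card_image_of_maps_to (s := Finset.range (N.d p q + 1))
    (t := Finset.Icc (i 0 - N1) (i 0 + N1)) (f := i) (fun k hk => by
      rw [Finset.mem_range] at hk
      rw [Finset.mem_Icc]
      have h1 := hwin k 0 (by omega) (by omega)
      have h2 := hwin 0 k (by omega) (by omega)
      omega) (th1 + 1 + th1) (fun b _ => by
      by_cases hne : ∃ k0 ∈ Finset.range (N.d p q + 1), i k0 = b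
      · obtain ⟨k0, hk0, rfl⟩ := hne
        have hsub : {k ∈ Finset.range (N.d p q + 1) | i k = i k0} ⊆
            Finset.Icc (k0 - th1) (k0 + th1) := by
          intro k hk
          rw [Finset.mem_filter, Finset.mem_range] at hk
          rw [Finset.mem_range] at hk0
          rw [Finset.mem_Icc]
          have h1 := hfib k k0 (by omega) (by omega) hk.2
          have h2 := hfib k0 k (by omega) (by omega) hk.2.symm
          omega
        refine (Finset.card_le_card hsub).trans ?_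
        rw [Nat.card_Icc]; omega
      · have : {k ∈ Finset.range (N.d p q + 1) | i k = b} = ∅ := by
          rw [Finset.filter_eq_empty_iff]
          intro k hk h
          exact hne ⟨k, hk, h⟩
        rw [this]; simp)
  rw [Finset.card_range, Nat.card_Icc] at hcount
  have h5 : i 0 + N1 + 1 - (i 0 - N1) ≤ 2 * N1 + 1 := by omega
  have h6 := Nat.mul_le_mul_left (th1 + 1 + th1) h5
  omega

/-! ## Objects: elements and cosets -/

variable (E) in
/-- the underlying set of an object -/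
def body : G ⊕ (G ⧸ E) → Set G
  | Sum.inl x => {x}
  | Sum.inr c => {g | (g : G ⧸ E) = c}

theorem body_nonempty (a : G ⊕ (G ⧸ E)) : (body E a).Nonempty := by
  rcases a with x | c
  · exact ⟨x, rfl⟩
  · obtain ⟨g, hg⟩ := QuotientGroup.mk_surjective c
    exact ⟨g, hg⟩

theorem smul_body {a : G ⊕ (G ⧸ E)} {x : G} (g : G) (h : x ∈ body E a) :
    g * x ∈ body E (g • a) := by
  rcases a with y | c
  · have h : x = y := h
    subst h; exact rfl
  · have h : (x : G ⧸ E) = c := h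
    show ((g * x : G) : G ⧸ E) = g • c
    rw [← h]; rfl

theorem smul_body' {a : G ⊕ (G ⧸ E)} {x : G} (g : G) (h : x ∈ body E (g • a)) :
    g⁻¹ * x ∈ body E a := by
  have := smul_body g⁻¹ h
  rwa [inv_smul_smul] at this

variable (N) in
/-- nearest points of an object -/
def NearV (c : G ⧸ E) (a : G ⊕ (G ⧸ E)) : Set G := {p | ∃ x ∈ body E a, N.Near E c x p}

theorem nearV_nonempty (c : G ⧸ E) (a : G ⊕ (G ⧸ E)) : (N.NearV c a).Nonempty := by
  obtain ⟨x, hx⟩ := body_nonempty a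
  obtain ⟨p, hp⟩ := exists_nearest (N := N) c x
  exact ⟨p, x, hx, hp⟩

theorem nearV_smul {c : G ⧸ E} {a : G ⊕ (G ⧸ E)} {p : G} (g : G) (h : p ∈ N.NearV c a) :
    g * p ∈ N.NearV (g • c) (g • a) := by
  obtain ⟨x, hx, hp⟩ := h
  exact ⟨g * x, smul_body g hx, near_smul hp g⟩

/-- diameter of the nearest points of an object -/
theorem nearV_diam {δ cq th : ℕ} (hF : N.FP δ) (hq : N.QConv E cq) (hb : N.BProj E th)
    {c : G ⧸ E} {a : G ⊕ (G ⧸ E)} (ha : a ≠ Sum.inr c) {p p' : G} (hp : p ∈ N.NearV c a)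
    (hp' : p' ∈ N.NearV c a) : N.d p p' ≤ th + (4 * cq + 7 * δ + 12) := by
  obtain ⟨x, hx, h1⟩ := hp
  obtain ⟨x', hx', h2⟩ := hp'
  rcases a with y | c'
  · have hx : x = y := hx
    have hx' : x' = y := hx'
    subst hx hx'
    have := near_same hF hq h1 h2
    omega
  · have hne : c ≠ c' := fun h => ha (by rw [h])
    have := hb c c' hne x x' p p' hx hx' h1 h2
    omega

variable (N E) in
open Classical in
/-- distance of objects in the hat metric -/
noncomputable def mV (a b : G ⊕ (G ⧸ E)) : ℕ :=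
  sInf {n | ∃ x ∈ body E a, ∃ y ∈ body E b, N.dh E x y = n}

theorem mV_spec (a b : G ⊕ (G ⧸ E)) : ∃ x ∈ body E a, ∃ y ∈ body E b, N.dh E x y = N.mV E a b := by
  have hne : {n | ∃ x ∈ body E a, ∃ y ∈ body E b, N.dh E x y = n}.Nonempty := by
    obtain ⟨x, hx⟩ := body_nonempty a
    obtain ⟨y, hy⟩ := body_nonempty b
    exact ⟨_, x, hx, y, hy, rfl⟩
  exact Nat.sInf_mem hne

theorem mV_le {a b : G ⊕ (G ⧸ E)} {x y : G} (hx : x ∈ body E a) (hy : y ∈ body E b) :
    N.mV E a b ≤ N.dh E x y := Nat.sInf_le ⟨x, hx, y, hy, rfl⟩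

theorem mV_points (x y : G) : N.mV E (Sum.inl x) (Sum.inl y) = N.dh E x y := by
  obtain ⟨x', hx', y', hy', h⟩ := mV_spec (N := N) (E := E) (Sum.inl x) (Sum.inl y)
  have hx' : x' = x := hx'
  have hy' : y' = y := hy'
  rw [← h, hx', hy']

variable (N) in
/-- the angle at a coset -/
noncomputable def DV (v a b : G ⊕ (G ⧸ E)) : ℕ :=
  match v with
  | Sum.inl _ => 0
  | Sum.inr c => sSup {n | ∃ p ∈ N.NearV c a, ∃ q ∈ N.NearV c b, N.d p q = n}

theorem DV_bdd {δ cq th : ℕ} (hF : N.FP δ) (hq : N.QConv E cq) (hb : N.BProj E th)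
    {c : G ⧸ E} {a b : G ⊕ (G ⧸ E)} (ha : a ≠ Sum.inr c) (hb' : b ≠ Sum.inr c) :
    BddAbove {n | ∃ p ∈ N.NearV c a, ∃ q ∈ N.NearV c b, N.d p q = n} := by
  obtain ⟨p₀, hp₀⟩ := nearV_nonempty (N := N) c a
  obtain ⟨q₀, hq₀⟩ := nearV_nonempty (N := N) c b
  refine ⟨2 * (th + (4 * cq + 7 * δ + 12)) + N.d p₀ q₀, ?_⟩
  rintro n ⟨p, hp, q, hqq, rfl⟩
  have h1 := nearV_diam hF hq hb ha hp hp₀
  have h2 := nearV_diam hF hq hb hb' hq₀ hqq
  have t1 := N.d_tri p p₀ q
  have t2 := N.d_tri p₀ q₀ q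
  omega

theorem le_DV {δ cq th : ℕ} (hF : N.FP δ) (hq : N.QConv E cq) (hb : N.BProj E th)
    {c : G ⧸ E} {a b : G ⊕ (G ⧸ E)} (ha : a ≠ Sum.inr c) (hb' : b ≠ Sum.inr c) {p q : G}
    (hp : p ∈ N.NearV c a) (hqq : q ∈ N.NearV c b) : N.d p q ≤ N.DV (Sum.inr c) a b :=
  le_csSup (DV_bdd hF hq hb ha hb') ⟨p, hp, q, hqq, rfl⟩

theorem DV_spec {δ cq th : ℕ} (hF : N.FP δ) (hq : N.QConv E cq) (hb : N.BProj E th)
    {c : G ⧸ E} {a b : G ⊕ (G ⧸ E)} (ha : a ≠ Sum.inr c) (hb' : b ≠ Sum.inr c) :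
    ∃ p ∈ N.NearV c a, ∃ q ∈ N.NearV c b, N.d p q = N.DV (Sum.inr c) a b := by
  have hne : {n | ∃ p ∈ N.NearV c a, ∃ q ∈ N.NearV c b, N.d p q = n}.Nonempty := by
    obtain ⟨p₀, hp₀⟩ := nearV_nonempty (N := N) c a
    obtain ⟨q₀, hq₀⟩ := nearV_nonempty (N := N) c b
    exact ⟨_, p₀, hp₀, q₀, hq₀, rfl⟩
  exact Nat.sSup_mem hne (DV_bdd hF hq hb ha hb')

theorem DV_le {c : G ⧸ E} {a b : G ⊕ (G ⧸ E)} {n : ℕ}
    (h : ∀ p ∈ N.NearV c a, ∀ q ∈ N.NearV c b, N.d p q ≤ n) : N.DV (Sum.inr c) a b ≤ n := by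
  apply csSup_le
  · obtain ⟨p₀, hp₀⟩ := nearV_nonempty (N := N) c a
    obtain ⟨q₀, hq₀⟩ := nearV_nonempty (N := N) c b
    exact ⟨_, p₀, hp₀, q₀, hq₀, rfl⟩
  · rintro _ ⟨p, hp, q, hqq, rfl⟩
    exact h p hp q hqq

/-- rotation subgroups of the objects -/
def KV (E R : Subgroup G) : G ⊕ (G ⧸ E) → Subgroup G
  | Sum.inl _ => ⊥
  | Sum.inr c =>
    { carrier := {h | ∀ g : G, (g : G ⧸ E) = c → g⁻¹ * h * g ∈ R}
      mul_mem' := fun {a b} ha hb g hg => by
        have e : g⁻¹ * (a * b) * g = (g⁻¹ * a * g) * (g⁻¹ * b * g) := by group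
        rw [e]; exact mul_mem (ha g hg) (hb g hg)
      one_mem' := fun g _ => by
        have e : g⁻¹ * 1 * g = 1 := by group
        rw [e]; exact one_mem _
      inv_mem' := fun {a} ha g hg => by
        have e : g⁻¹ * a⁻¹ * g = (g⁻¹ * a * g)⁻¹ := by group
        rw [e]; exact inv_mem (ha g hg) }

theorem mem_KV {R : Subgroup G} {c : G ⧸ E} {h : G} :
    h ∈ KV E R (Sum.inr c) ↔ ∀ g : G, (g : G ⧸ E) = c → g⁻¹ * h * g ∈ R := Iff.rfl

theorem KV_fix {R : Subgroup G} (hR : R ≤ E) {c : G ⧸ E} {h : G}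
    (hh : h ∈ KV E R (Sum.inr c)) : h • c = c := by
  obtain ⟨g, rfl⟩ := QuotientGroup.mk_surjective c
  have := hh g rfl
  symm
  apply QuotientGroup.eq.2
  have e : g⁻¹ * (h * g) = g⁻¹ * h * g := by group
  show g⁻¹ * (h * g) ∈ E
  rw [e]; exact hR this

/-- the bounded geodesic image property for objects, with constant `M` -/
def BgiV (N : GNorm G) (E : Subgroup G) (M : ℕ) : Prop :=
  ∀ (c : G ⧸ E) (a b : G ⊕ (G ⧸ E)), a ≠ Sum.inr c → b ≠ Sum.inr c →
    M < N.DV (Sum.inr c) a b →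
      N.mV E a (Sum.inr c) + 1 + N.mV E (Sum.inr c) b ≤ N.mV E a b

theorem exists_bgiV {δ cq th : ℕ} (hF : N.FP δ) (hq : N.QConv E cq) (hb : N.BProj E th) :
    ∃ M, N.BgiV E M := by
  obtain ⟨M0, hM0⟩ := bgi_point hF hq hb
  refine ⟨M0 + 2 * (th + (4 * cq + 7 * δ + 12)), fun c a b ha hb' hD => ?_⟩
  obtain ⟨p, hp, q, hqq, hpq⟩ := DV_spec hF hq hb ha hb'
  obtain ⟨x, hx, y, hy, hxy⟩ := mV_spec (N := N) (E := E) a b
  obtain ⟨p', hp'⟩ := exists_nearest (N := N) c x
  obtain ⟨q', hq'⟩ := exists_nearest (N := N) c y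
  have h1 := nearV_diam hF hq hb ha hp ⟨x, hx, hp'⟩
  have h2 := nearV_diam hF hq hb hb' ⟨y, hy, hq'⟩ hqq
  have t1 := N.d_tri p p' q
  have t2 := N.d_tri p' q' q
  obtain ⟨P, h0, hn, hP⟩ := exists_hgeo (N := N) (E := E) x y
  obtain ⟨i, hi, hi1, hi2⟩ := hM0 c x y p' q' hp' hq' (by omega) _ P hP h0 hn
  have m1 := mV_le (N := N) (a := a) (b := Sum.inr c) hx (show P i ∈ body E (Sum.inr c) from hi1)
  have m2 := mV_le (N := N) (a := Sum.inr c) (b := b)
    (show P (i + 1) ∈ body E (Sum.inr c) from hi2) hy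
  have e1 := hP.dist 0 i (by omega) (by omega)
  have e2 := hP.dist (i + 1) _ (by omega) le_rfl
  rw [h0] at e1
  rw [hn] at e2
  unfold dh at *
  omega

/-- the spinning family of the cosets of `E` with rotation group `R` -/
noncomputable def spin {δ cq th M L : ℕ} (hF : N.FP δ) (hq : N.QConv E cq) (hb : N.BProj E th)
    (hM : N.BgiV E M) (R : Subgroup G) (hR : R ≤ E) (hL : ∀ r ∈ R, r ≠ 1 → L ≤ N.l r)
    (hLM : 20 * M + 1 ≤ L) : Spin G (G ⊕ (G ⧸ E)) where
  A := Set.range Sum.inr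
  Kv := KV E R
  m := N.mV E
  D := N.DV
  M := M
  L := L
  m_comm a b := by
    have key : ∀ a b : G ⊕ (G ⧸ E), N.mV E a b ≤ N.mV E b a := by
      intro a b
      obtain ⟨x, hx, y, hy, h⟩ := mV_spec (N := N) (E := E) b a
      have := mV_le (N := N) hy hx
      have c := (N.hat E).d_comm x y
      unfold dh at *
      omega
    exact le_antisymm (key a b) (key b a)
  m_self a := by
    obtain ⟨x, hx⟩ := body_nonempty a
    have := mV_le (N := N) hx hx
    have c := (N.hat E).d_self x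
    unfold dh at *
    omega
  D_comm v a b := by
    rcases v with x | c
    · rfl
    · refine congrArg sSup (Set.ext fun n => ?_)
      constructor
      · rintro ⟨p, hp, q, hq, h⟩
        exact ⟨q, hq, p, hp, by rw [N.d_comm]; exact h⟩
      · rintro ⟨p, hp, q, hq, h⟩
        exact ⟨q, hq, p, hp, by rw [N.d_comm]; exact h⟩
  D_tri := by
    rintro _ ⟨c, rfl⟩ a b d ha hb' hd
    apply DV_le
    intro p hp r hr
    obtain ⟨q, hqq⟩ := nearV_nonempty (N := N) c b
    have h1 := le_DV hF hq hb ha hb' hp hqq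
    have h2 := le_DV hF hq hb hb' hd hqq hr
    have := N.d_tri p q r
    omega
  bgi := by
    rintro _ ⟨c, rfl⟩ a b ha hb' hD
    exact hM c a b ha hb' hD
  m_tri := by
    rintro _ ⟨c, rfl⟩ a b
    obtain ⟨x, hx, y, hy, h1⟩ := mV_spec (N := N) (E := E) a (Sum.inr c)
    obtain ⟨y', hy', z, hz, h2⟩ := mV_spec (N := N) (E := E) (Sum.inr c) b
    have h3 := mV_le (N := N) hx hz
    have hy : (y : G ⧸ E) = c := hy
    have hy' : (y' : G ⧸ E) = c := hy'
    have h4 : N.dh E y y' ≤ 1 := dh_le_one (QuotientGroup.eq.1 (hy.trans hy'.symm))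
    have t1 := (N.hat E).d_tri x y z
    have t2 := (N.hat E).d_tri y y' z
    unfold dh at *
    omega
  m_smul g a b := by
    apply le_antisymm
    · obtain ⟨x, hx, y, hy, h⟩ := mV_spec (N := N) (E := E) a b
      have := mV_le (N := N) (smul_body g hx) (smul_body g hy)
      have c := (N.hat E).d_left g x y
      unfold dh at *
      omega
    · obtain ⟨x, hx, y, hy, h⟩ := mV_spec (N := N) (E := E) (g • a) (g • b)
      have := mV_le (N := N) (smul_body' g hx) (smul_body' g hy)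
      have c := (N.hat E).d_left g⁻¹ x y
      unfold dh at *
      omega
  D_smul g v a b := by
    rcases v with x | c
    · rfl
    · refine congrArg sSup (Set.ext fun n => ?_)
      constructor
      · rintro ⟨p, hp, q, hqq, h⟩
        have h1 := nearV_smul g⁻¹ hp
        have h2 := nearV_smul g⁻¹ hqq
        simp only [inv_smul_smul] at h1 h2
        exact ⟨_, h1, _, h2, by rw [N.d_left]; exact h⟩
      · rintro ⟨p, hp, q, hqq, h⟩
        exact ⟨_, nearV_smul g hp, _, nearV_smul g hqq, by rw [N.d_left]; exact h⟩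
  A_smul := by
    rintro g _ ⟨c, rfl⟩
    exact ⟨g • c, rfl⟩
  Kv_smul g h v hh := by
    rcases v with x | c
    · have hh : h = 1 := hh
      subst hh
      rw [mul_one, mul_inv_cancel]
      exact one_mem _
    · intro k hk
      have h1 : ((g⁻¹ * k : G) : G ⧸ E) = c := by
        have : ((g⁻¹ * k : G) : G ⧸ E) = g⁻¹ • (k : G ⧸ E) := rfl
        rw [this, hk]; exact inv_smul_smul g c
      have h2 := hh _ h1
      have e : k⁻¹ * (g * h * g⁻¹) * k = (g⁻¹ * k)⁻¹ * h * (g⁻¹ * k) := by group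
      rw [e]; exact h2
  Kv_fix := by
    rintro _ ⟨c, rfl⟩ h hh
    show Sum.inr (h • c) = Sum.inr c
    rw [KV_fix hR hh]
  spin := by
    rintro _ ⟨c, rfl⟩ a ha h hh h1
    obtain ⟨p, hp⟩ := nearV_nonempty (N := N) c a
    have h2 := nearV_smul h hp
    rw [KV_fix hR hh] at h2
    have hne : h • a ≠ Sum.inr c := by
      intro h0
      apply ha
      have := congrArg (fun y => h⁻¹ • y) h0
      simp only [inv_smul_smul] at this
      rw [this]
      show Sum.inr (h⁻¹ • c) = Sum.inr c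
      rw [KV_fix hR (inv_mem hh)]
    have h3 := le_DV hF hq hb ha hne hp h2
    have hpc : (p : G ⧸ E) = c := by
      obtain ⟨x, -, hx⟩ := hp
      exact hx.1
    have h4 := hh p hpc
    have h5 : p⁻¹ * h * p ≠ 1 := by
      intro h0
      apply h1
      have : h = p * (p⁻¹ * h * p) * p⁻¹ := by group
      rw [this, h0]; group
    have h6 := hL _ h4 h5
    have h7 : N.d p (h * p) = N.l (p⁻¹ * h * p) := by
      rw [d]; congr 1; group
    omega
  hL := hLM

end GNorm

end Pool.Agent.Lib.MP_bd8d5e_al
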