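import Pool.Agent.Lib.MP_bd8d5e_al.Bgi

/-! # The quotient by a spinning family

Quotient norms, lifting of closed quadrilaterals, four point inequality, finite balls and
injectivity for the quotient. -/

set_option autoImplicit false

namespace Pool.Agent.Lib.MP_bd8d5e_al

theorem Spin.Kall_normal {G V : Type*} [Group G] [MulAction G V] (W : Spin G V) :
    W.Kall.Normal := by
  constructor
  intro k hk g
  unfold Spin.Kall at *
  induction hk using Subgroup.closure_induction with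
  | mem h hh =>
    obtain ⟨v, hv, hh⟩ := hh
    exact Subgroup.subset_closure ⟨g • v, W.A_smul g v hv, W.Kv_smul g h v hh⟩
  | one =>
    rw [mul_one, mul_inv_cancel]; exact one_mem _
  | mul a b _ _ iha ihb =>
    have e : g * (a * b) * g⁻¹ = (g * a * g⁻¹) * (g * b * g⁻¹) := by group
    rw [e]; exact mul_mem iha ihb
  | inv a _ iha =>
    have e : g * a⁻¹ * g⁻¹ = (g * a * g⁻¹)⁻¹ := by group
    rw [e]; exact inv_mem iha

namespace GNorm

section Quot

variable {G : Type*} [Group G] (N : GNorm G) (K : Subgroup G)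

/-- quotient norm -/
noncomputable def ql (q : G ⧸ K) : ℕ := sInf {n | ∃ g : G, (g : G ⧸ K) = q ∧ N.l g = n}

variable {N K}

theorem ql_spec (q : G ⧸ K) : ∃ g : G, (g : G ⧸ K) = q ∧ N.l g = N.ql K q := by
  have hne : {n | ∃ g : G, (g : G ⧸ K) = q ∧ N.l g = n}.Nonempty := by
    obtain ⟨g, hg⟩ := QuotientGroup.mk_surjective q
    exact ⟨_, g, hg, rfl⟩
  exact Nat.sInf_mem hne

theorem ql_le (g : G) : N.ql K (g : G ⧸ K) ≤ N.l g := Nat.sInf_le ⟨g, rfl, rfl⟩

variable (N K)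

/-- quotient norm as a geodesic norm -/
noncomputable def quot [K.Normal] : GNorm (G ⧸ K) where
  l := N.ql K
  l_one := by
    have := ql_le (N := N) (K := K) 1
    rw [N.l_one] at this
    exact Nat.le_zero.1 this
  eq_one q hq := by
    obtain ⟨g, rfl, h⟩ := ql_spec (N := N) q
    rw [hq] at h
    rw [N.eq_one g h]; rfl
  l_inv q := by
    have key : ∀ q : G ⧸ K, N.ql K q⁻¹ ≤ N.ql K q := by
      intro q
      obtain ⟨g, rfl, h⟩ := ql_spec (N := N) q
      rw [← h, ← N.l_inv]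
      exact ql_le (N := N) (K := K) g⁻¹
    apply le_antisymm (key q)
    have := key q⁻¹
    rwa [inv_inv] at this
  l_mul q r := by
    obtain ⟨g, rfl, hg⟩ := ql_spec (N := N) q
    obtain ⟨h, rfl, hh⟩ := ql_spec (N := N) r
    rw [← hg, ← hh]
    exact (ql_le (N := N) (K := K) (g * h)).trans (N.l_mul g h)
  geo q t ht := by
    obtain ⟨g, rfl, hg⟩ := ql_spec (N := N) q
    obtain ⟨h, h1, h2⟩ := N.geo g t (by omega)
    have a1 := ql_le (N := N) (K := K) h
    have a2 := ql_le (N := N) (K := K) (h⁻¹ * g)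
    have a3 : N.ql K (g : G ⧸ K) ≤ N.ql K (h : G ⧸ K) + N.ql K ((h⁻¹ * g : G) : G ⧸ K) := by
      obtain ⟨u, hu, hu'⟩ := ql_spec (N := N) (h : G ⧸ K)
      obtain ⟨v, hv, hv'⟩ := ql_spec (N := N) ((h⁻¹ * g : G) : G ⧸ K)
      have e : ((u * v : G) : G ⧸ K) = (g : G ⧸ K) := by
        rw [QuotientGroup.mk_mul, hu, hv, ← QuotientGroup.mk_mul, mul_inv_cancel_left]
      rw [← hu', ← hv', ← e]
      exact (ql_le (N := N) (K := K) (u * v)).trans (N.l_mul u v)
    refine ⟨(h : G ⧸ K), by omega, ?_⟩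
    show N.ql K ((h⁻¹ * g : G) : G ⧸ K) = _
    omega

variable {N K}

theorem qd_le [K.Normal] (x y : G) : (N.quot K).d (x : G ⧸ K) (y : G ⧸ K) ≤ N.d x y :=
  ql_le (N := N) (K := K) (x⁻¹ * y)

theorem qd_le' [K.Normal] {x y x' y' : G} (hx : (x' : G ⧸ K) = x) (hy : (y' : G ⧸ K) = y) :
    (N.quot K).d (x : G ⧸ K) (y : G ⧸ K) ≤ N.d x' y' := by
  rw [← hx, ← hy]; exact qd_le x' y'

theorem qd_spec [K.Normal] (x : G) (q : G ⧸ K) :
    ∃ y : G, (y : G ⧸ K) = q ∧ N.d x y = (N.quot K).d (x : G ⧸ K) q := by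
  obtain ⟨g, hg, h⟩ := ql_spec (N := N) (K := K) ((x : G ⧸ K)⁻¹ * q)
  refine ⟨x * g, ?_, ?_⟩
  · rw [QuotientGroup.mk_mul, hg, mul_inv_cancel_left]
  · rw [d, inv_mul_cancel_left, h]; rfl

end Quot

theorem finBalls_of_one {G : Type*} [Group G] {N : GNorm G} (h : {g | N.l g ≤ 1}.Finite) :
    N.FinBalls := by
  intro r
  induction r with
  | zero =>
    refine (Set.finite_singleton (1 : G)).subset ?_
    intro g hg
    exact N.eq_one g (Nat.le_zero.1 hg)
  | succ r ih =>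
    refine (Set.Finite.mul ih h).subset ?_
    intro g hg
    rcases Nat.lt_or_ge r (N.l g) with h1 | h1
    · obtain ⟨k, hk1, hk2⟩ := N.geo g r h1.le
      have hg : N.l g ≤ r + 1 := hg
      exact ⟨k, hk1.le, k⁻¹ * g, by show N.l _ ≤ 1; omega, by simp⟩
    · exact ⟨g, h1, 1, by show N.l _ ≤ 1; rw [N.l_one]; omega, by simp⟩

section Main

variable {G : Type*} [Group G] {N : GNorm G} {E : Subgroup G}
variable {δ cq th M L : ℕ} (hF : N.FP δ) (hq : N.QConv E cq) (hb : N.BProj E th)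
    (hM : N.BgiV E M) (R : Subgroup G) (hR : R ≤ E) (hL : ∀ r ∈ R, r ≠ 1 → L ≤ N.l r)
    (hLM : 20 * M + 1 ≤ L)

theorem inl_notMem (x : G) : (Sum.inl x : G ⊕ (G ⧸ E)) ∉ (spin hF hq hb hM R hR hL hLM).A := by
  rintro ⟨c, hc⟩
  exact absurd hc (by simp)

include hF hq hb hM hR hL hLM in
/-- rotating does not change hat distances across a large angle -/
theorem rot_dist {c : G ⧸ E} {h a b : G} (hh : h ∈ KV E R (Sum.inr c))
    (hD : M < N.DV (Sum.inr c) (Sum.inl a) (Sum.inl b)) :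
    N.dh E a (h * b) ≤ N.dh E a b := by
  set W := spin hF hq hb hM R hR hL hLM with hW
  have hc : (Sum.inr c : G ⊕ (G ⧸ E)) ∈ W.A := ⟨c, rfl⟩
  have h1 := W.bgi _ hc (Sum.inl a) (Sum.inl b) (by simp) (by simp) hD
  have h2 := W.m_tri _ hc (Sum.inl a) (Sum.inl (h * b))
  have h3 := W.m_smul h (Sum.inr c) (Sum.inl b)
  have h4 : h • (Sum.inr c : G ⊕ (G ⧸ E)) = Sum.inr c := W.Kv_fix _ hc h hh
  rw [h4] at h3
  have h5 : W.m (Sum.inl a) (Sum.inl b) = N.dh E a b := mV_points a b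
  have h6 : W.m (Sum.inl a) (Sum.inl (h * b)) = N.dh E a (h * b) := mV_points a (h * b)
  have h7 : h • (Sum.inl b : G ⊕ (G ⧸ E)) = Sum.inl (h * b) := rfl
  rw [h7] at h3
  omega

theorem coe_mul_left {K : Subgroup G} [K.Normal] {h : G} (hh : h ∈ K) (b : G) :
    ((h * b : G) : G ⧸ K) = b := by
  rw [QuotientGroup.mk_mul, (QuotientGroup.eq_one_iff h).2 hh, one_mul]

/-- four point inequality for the quotient, with the constant of the hat metric -/
theorem quot_FP {δ' : ℕ} (hh : (N.hat E).FP δ')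
    [(spin hF hq hb hM R hR hL hLM).Kall.Normal] :
    ((N.hat E).quot (spin hF hq hb hM R hR hL hLM).Kall).FP δ' := by
  set W := spin hF hq hb hM R hR hL hLM with hW
  set K := W.Kall with hK
  set Q := (N.hat E).quot K with hQ
  intro x y z w
  obtain ⟨x, rfl⟩ := QuotientGroup.mk_surjective x
  -- chain from x to e
  let Ch : G → Prop := fun e => ∃ y' z' w' : G, (y' : G ⧸ K) = y ∧ (z' : G ⧸ K) = z ∧
    (w' : G ⧸ K) = w ∧ N.dh E x y' = Q.d x y ∧ N.dh E y' z' = Q.d y z ∧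
    N.dh E z' w' = Q.d z w ∧ N.dh E w' e = Q.d w x
  have step : ∀ k, W.Der (Sum.inl x) k → k ∈ K → Ch (k * x) → Ch x := by
    intro k hk
    induction hk with
    | one => intro _ h; rwa [one_mul] at h
    | piv k h v hv hhv h1 hD hder ih =>
      intro hkK hch
      obtain ⟨c, rfl⟩ := hv
      have hhv : h ∈ KV E R (Sum.inr c) := hhv
      have hhK : h ∈ K := Subgroup.subset_closure ⟨Sum.inr c, ⟨c, rfl⟩, hhv⟩
      apply ih (mul_mem hhK hkK)
      obtain ⟨y', z', w', hy, hz, hw, e1, e2, e3, e4⟩ := hch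
      have hcA : (Sum.inr c : G ⊕ (G ⧸ E)) ∈ W.A := ⟨c, rfl⟩
      have hne : ∀ a : G, (Sum.inl a : G ⊕ (G ⧸ E)) ≠ Sum.inr c := fun a => by simp
      have hbig : W.L ≤ W.D (Sum.inr c) (Sum.inl x) (Sum.inl (k * x)) + 8 * W.M := by
        have h4 := W.spin _ hcA (Sum.inl (k * x)) (hne _) h hhv h1
        have h5 : h • (Sum.inl (k * x) : G ⊕ (G ⧸ E)) = (h * k) • Sum.inl x := by
          rw [mul_smul]; rfl
        rw [h5] at h4
        have h6 : ((h * k) • Sum.inl x : G ⊕ (G ⧸ E)) = Sum.inl (h * k * x) := rfl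
        have t := W.D_tri _ hcA (Sum.inl (k * x)) (Sum.inl x) ((h * k) • Sum.inl x) (hne _)
          (hne _) (by rw [h6]; exact hne _)
        rw [W.D_comm _ (Sum.inl (k * x)) (Sum.inl x)] at t
        omega
      have hL' : W.L = L := rfl
      have hM' : W.M = M := rfl
      have t1 := W.D_tri _ hcA (Sum.inl x) (Sum.inl y') (Sum.inl (k * x)) (hne _) (hne _) (hne _)
      have t2 := W.D_tri _ hcA (Sum.inl y') (Sum.inl z') (Sum.inl (k * x)) (hne _) (hne _) (hne _)
      have t3 := W.D_tri _ hcA (Sum.inl z') (Sum.inl w') (Sum.inl (k * x)) (hne _) (hne _) (hne _)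
      have hLM' := W.hL
      have rot : ∀ a b : G, M < W.D (Sum.inr c) (Sum.inl a) (Sum.inl b) →
          N.dh E a (h * b) ≤ N.dh E a b := fun a b hab =>
        rot_dist hF hq hb hM R hR hL hLM hhv hab
      have hl : ∀ a b : G, N.dh E (h * a) (h * b) = N.dh E a b := fun a b =>
        (N.hat E).d_left h a b
      have hx4 : (((h * (k * x) : G)) : G ⧸ K) = x := by
        rw [coe_mul_left hhK, coe_mul_left hkK]
      have hassoc : h * k * x = h * (k * x) := mul_assoc _ _ _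
      rw [hassoc]
      by_cases c1 : M < W.D (Sum.inr c) (Sum.inl x) (Sum.inl y')
      · refine ⟨h * y', h * z', h * w', ?_, ?_, ?_, ?_, ?_, ?_, ?_⟩
        · rw [coe_mul_left hhK, hy]
        · rw [coe_mul_left hhK, hz]
        · rw [coe_mul_left hhK, hw]
        · apply le_antisymm ((rot _ _ c1).trans e1.le)
          rw [← hy, ← coe_mul_left hhK y']; exact qd_le (N := N.hat E) _ _
        · rw [hl, e2]
        · rw [hl, e3]
        · rw [hl, e4]
      by_cases c2 : M < W.D (Sum.inr c) (Sum.inl y') (Sum.inl z')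
      · refine ⟨y', h * z', h * w', hy, ?_, ?_, e1, ?_, ?_, ?_⟩
        · rw [coe_mul_left hhK, hz]
        · rw [coe_mul_left hhK, hw]
        · apply le_antisymm ((rot _ _ c2).trans e2.le)
          rw [← hy, ← hz, ← coe_mul_left hhK z']; exact qd_le (N := N.hat E) _ _
        · rw [hl, e3]
        · rw [hl, e4]
      by_cases c3 : M < W.D (Sum.inr c) (Sum.inl z') (Sum.inl w')
      · refine ⟨y', z', h * w', hy, hz, ?_, e1, e2, ?_, ?_⟩
        · rw [coe_mul_left hhK, hw]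
        · apply le_antisymm ((rot _ _ c3).trans e3.le)
          rw [← hz, ← hw, ← coe_mul_left hhK w']; exact qd_le (N := N.hat E) _ _
        · rw [hl, e4]
      · have c4 : M < W.D (Sum.inr c) (Sum.inl w') (Sum.inl (k * x)) := by omega
        refine ⟨y', z', w', hy, hz, hw, e1, e2, e3, ?_⟩
        apply le_antisymm ((rot _ _ c4).trans e4.le)
        rw [← hw]; conv_lhs => rw [← hx4]
        exact qd_le (N := N.hat E) _ _
  -- a chain exists
  obtain ⟨y', hy, e1⟩ := qd_spec (N := N.hat E) (K := K) x y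
  obtain ⟨z', hz, e2⟩ := qd_spec (N := N.hat E) (K := K) y' z
  obtain ⟨w', hw, e3⟩ := qd_spec (N := N.hat E) (K := K) z' w
  obtain ⟨x', hx, e4⟩ := qd_spec (N := N.hat E) (K := K) w' (x : G ⧸ K)
  have hk : x' * x⁻¹ ∈ K := by
    have : ((x' * x⁻¹ : G) : G ⧸ K) = 1 := by
      rw [QuotientGroup.mk_mul, hx, ← QuotientGroup.mk_mul, mul_inv_cancel]; rfl
    exact (QuotientGroup.eq_one_iff _).1 this
  have hder := W.der_of_mem (x := Sum.inl x) (inl_notMem hF hq hb hM R hR hL hLM x) hk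
  obtain ⟨y', z', w', hy, hz, hw, e1, e2, e3, e4⟩ := step _ hder hk ⟨y', z', w', hy, hz, hw, e1,
    by rw [← hy]; exact e2, by rw [← hz]; exact e3, by
      rw [← hw, inv_mul_cancel_right]; exact e4⟩
  have f := hh x y' z' w'
  have g1 : Q.d x z ≤ N.dh E x z' := by rw [← hz]; exact qd_le (N := N.hat E) _ _
  have g2 : Q.d y w ≤ N.dh E y' w' := by rw [← hy, ← hw]; exact qd_le (N := N.hat E) _ _
  have c1 := (N.hat E).d_comm w' x
  have c2 := Q.d_comm w x
  have h1 : Q.d x z ≤ (N.hat E).d x z' := g1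
  have h2 : Q.d y w ≤ (N.hat E).d y' w' := g2
  have h3 : (N.hat E).d x y' = Q.d x y := e1
  have h4 : (N.hat E).d y' z' = Q.d y z := e2
  have h5 : (N.hat E).d z' w' = Q.d z w := e3
  have h6 : (N.hat E).d w' x = Q.d w x := e4
  rw [h3, h4, h5, ← c1, h6, c2] at f
  omega

/-- finite balls for the quotient -/
theorem quot_finBalls (hfin : N.FinBalls) (F : Set G) (hFf : F.Finite)
    (hEF : ∀ e ∈ E, ∃ f ∈ F, ∃ r ∈ R, e = f * r) (hRn : ∀ e ∈ E, ∀ r ∈ R, e * r * e⁻¹ ∈ R)
    [(spin hF hq hb hM R hR hL hLM).Kall.Normal] :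
    ((N.hat E).quot (spin hF hq hb hM R hR hL hLM).Kall).FinBalls := by
  set W := spin hF hq hb hM R hR hL hLM with hW
  set K := W.Kall with hK
  have hRK : R ≤ K := by
    intro r hr
    apply Subgroup.subset_closure
    refine ⟨Sum.inr ((1 : G) : G ⧸ E), ⟨_, rfl⟩, ?_⟩
    intro g hg
    have hgE : g ∈ E := by
      have := QuotientGroup.eq.1 hg
      rw [mul_one] at this
      simpa using inv_mem this
    have := hRn g⁻¹ (inv_mem hgE) r hr
    rwa [inv_inv] at this
  apply finBalls_of_one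
  have h1 : ((fun g : G => (g : G ⧸ K)) '' {g | N.l g ≤ 1}).Finite := (hfin 1).image _
  have h2 : ((fun g : G => (g : G ⧸ K)) '' F).Finite := hFf.image _
  refine (h1.union h2).subset ?_
  intro q hq'
  obtain ⟨g, rfl, hg⟩ := ql_spec (N := N.hat E) (K := K) q
  have hq'' : (N.hat E).ql K (g : G ⧸ K) ≤ 1 := hq'
  have hg1 : N.lh E g ≤ 1 := by
    have : (N.hat E).l g ≤ 1 := by omega
    exact this
  have hr := reach_lh (N := N) (E := E) g
  rcases Nat.lt_or_ge (N.lh E g) 1 with h | h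
  · have : N.lh E g = 0 := by omega
    rw [this] at hr
    cases hr
    exact Or.inl ⟨1, by show N.l 1 ≤ 1; rw [N.l_one]; omega, rfl⟩
  · have : N.lh E g = 1 := by omega
    rw [this] at hr
    cases hr with
    | succ _ g' s hg' hs =>
      cases hg'
      rw [one_mul]
      rcases hs with hs | hs
      · exact Or.inl ⟨s, hs, rfl⟩
      · obtain ⟨f, hf, r, hr, rfl⟩ := hEF s hs
        right
        refine ⟨f, hf, ?_⟩
        show (f : G ⧸ K) = ((f * r : G) : G ⧸ K)
        rw [QuotientGroup.mk_mul, (QuotientGroup.eq_one_iff r).2 (hRK hr), mul_one]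

theorem mem_NearV_inl {c : G ⧸ E} {x p : G} :
    p ∈ N.NearV c (Sum.inl x) ↔ N.Near E c x p := by
  constructor
  · rintro ⟨y, hy, h⟩
    have hy : y = x := hy
    rwa [← hy]
  · intro h
    exact ⟨x, rfl, h⟩

/-- pivot lemma in terms of nearest points -/
theorem pivot_near {k : G} (hk : k ∈ (spin hF hq hb hM R hR hL hLM).Kall) (h1 : k ≠ 1) (x : G) :
    ∃ c : G ⧸ E, ∃ h ∈ KV E R (Sum.inr c), h ≠ 1 ∧ ∀ p q, N.Near E c x p →
      N.Near E c (h * k * x) q → N.d p q ≤ 8 * M := by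
  set W := spin hF hq hb hM R hR hL hLM with hW
  obtain ⟨v, ⟨c, rfl⟩, h, hh, hh1, hD⟩ := W.pivot (x := Sum.inl x)
    (inl_notMem hF hq hb hM R hR hL hLM x) hk h1
  refine ⟨c, h, hh, hh1, fun p q hp hq' => ?_⟩
  have h2 := le_DV hF hq hb (c := c) (a := Sum.inl x) (b := Sum.inl (h * k * x)) (by simp)
    (by simp) (mem_NearV_inl.2 hp) (mem_NearV_inl.2 hq')
  exact h2.trans hD

/-- Greendlinger lemma in terms of nearest points -/
theorem greendlinger_near {k : G} (hk : k ∈ (spin hF hq hb hM R hR hL hLM).Kall) (h1 : k ≠ 1)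
    (x : G) : ∃ c : G ⧸ E, ∃ p q, N.Near E c x p ∧ N.Near E c (k * x) q ∧
      L ≤ N.d p q + 8 * M := by
  set W := spin hF hq hb hM R hR hL hLM with hW
  obtain ⟨v, ⟨c, rfl⟩, hD⟩ := W.greendlinger (x := Sum.inl x)
    (inl_notMem hF hq hb hM R hR hL hLM x) hk h1
  obtain ⟨p, hp, q, hq', hpq⟩ := DV_spec hF hq hb (c := c) (a := Sum.inl x)
    (b := Sum.inl (k * x)) (by simp) (by simp)
  refine ⟨c, p, q, mem_NearV_inl.1 hp, mem_NearV_inl.1 hq', ?_⟩
  have h2 : L ≤ N.DV (Sum.inr c) (Sum.inl x) (Sum.inl (k * x)) + 8 * M := hD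
  omega

/-- nontrivial elements of the kernel are long -/
theorem kernel_long {k : G} (hk : k ∈ (spin hF hq hb hM R hR hL hLM).Kall) (h1 : k ≠ 1) (x : G) :
    L ≤ N.d x (k * x) + (4 * cq + 7 * δ + 12) + 8 * M := by
  obtain ⟨c, p, q, hp, hq', h⟩ := greendlinger_near hF hq hb hM R hR hL hLM hk h1 x
  have := near_lip hF hq hp hq'
  omega

/-- the kernel is the normal closure of `R` -/
theorem Kall_eq (hRn : ∀ e ∈ E, ∀ r ∈ R, e * r * e⁻¹ ∈ R) :
    (spin hF hq hb hM R hR hL hLM).Kall = Subgroup.normalClosure (R : Set G) := by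
  set W := spin hF hq hb hM R hR hL hLM with hW
  apply le_antisymm
  · apply (Subgroup.closure_le _).2
    rintro h ⟨v, ⟨c, rfl⟩, hh⟩
    obtain ⟨g, rfl⟩ := QuotientGroup.mk_surjective c
    have h1 := hh g rfl
    have h2 : g * (g⁻¹ * h * g) * g⁻¹ ∈ Subgroup.normalClosure (R : Set G) :=
      Subgroup.normalClosure_normal.conj_mem _ (Subgroup.subset_normalClosure h1) g
    have e : g * (g⁻¹ * h * g) * g⁻¹ = h := by group
    rwa [e] at h2
  · have := W.Kall_normal
    apply Subgroup.normalClosure_le_normal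
    intro r hr
    apply Subgroup.subset_closure
    refine ⟨Sum.inr ((1 : G) : G ⧸ E), ⟨_, rfl⟩, ?_⟩
    intro g hg
    have hgE : g ∈ E := by
      have := QuotientGroup.eq.1 hg
      rw [mul_one] at this
      simpa using inv_mem this
    have := hRn g⁻¹ (inv_mem hgE) r hr
    rwa [inv_inv] at this

end Main

end GNorm

end Pool.Agent.Lib.MP_bd8d5e_al
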