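import Pool.Agent.Lib.MP_bd8d5e_al.Basic

/-! # Coarse betweenness, broken geodesics, midpoints of torsion elements -/

set_option autoImplicit false

namespace Pool.Agent.Lib.MP_bd8d5e_al

namespace GNorm

variable {G : Type*} [Group G] {N : GNorm G} {δ : ℕ}

theorem a0 (hF : N.FP δ) {x p y : G} {c : ℕ} (h : N.d x p + N.d p y ≤ N.d x y + c) (w : G) :
    N.d p w + N.d x p ≤ N.d x w + (c + δ) ∨ N.d p w + N.d p y ≤ N.d w y + (c + δ) := by
  have h1 := hF x p y w
  have h2 := N.d_comm y w
  rcases le_total (N.d x p + N.d y w) (N.d x w + N.d p y) with h3 | h3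
  · rw [max_eq_right h3] at h1
    left; omega
  · rw [max_eq_left h3] at h1
    right; omega

/-- two points between `x` and `y` are as far apart as their positions -/
theorem a2 (hF : N.FP δ) {x y z z' : G} {c c' : ℕ} (h : N.d x z + N.d z y ≤ N.d x y + c)
    (h' : N.d x z' + N.d z' y ≤ N.d x y + c') :
    N.d z z' ≤ (N.d x z - N.d x z') + (N.d x z' - N.d x z) + (c + c' + δ) := by
  have h1 := N.d_tri x z y
  have h2 := N.d_tri x z' y
  rcases a0 hF h z' with h3 | h3 <;> omega

theorem tr1 {U X Y w : G} {a c : ℕ} (h : N.d U X + N.d X Y ≤ N.d U Y + a)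
    (h' : N.d X w + N.d w Y ≤ N.d X Y + c) :
    N.d U w + N.d w Y ≤ N.d U Y + (a + c) ∧ N.d U X + N.d X w ≤ N.d U w + (a + c) := by
  have h1 := N.d_tri U X w
  have h2 := N.d_tri U w Y
  constructor <;> omega

section Broken

variable (hF : N.FP δ) (x : ℕ → G) (α : ℕ)
    (h : ∀ i, N.d (x i) (x (i + 1)) + N.d (x (i + 1)) (x (i + 2)) ≤ N.d (x i) (x (i + 2)) + α)
    (hs : ∀ i, α + 2 * δ + 1 ≤ N.d (x i) (x (i + 1)))

include hF h hs in
theorem broken_right (i : ℕ) : ∀ m, N.d (x i) (x (i + m)) + N.d (x (i + m)) (x (i + m + 1)) ≤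
    N.d (x i) (x (i + m + 1)) + (α + δ) := by
  intro m
  induction m with
  | zero =>
    rw [add_zero, N.d_self]; omega
  | succ m ih =>
    have e : i + (m + 1) = i + m + 1 := by omega
    rw [e]
    have h1 := h (i + m)
    have e2 : i + m + 2 = i + m + 1 + 1 := by omega
    rw [e2] at h1
    have h2 := hs (i + m)
    have h3 := a0 hF h1 (x i)
    have c1 := N.d_comm (x (i + m + 1)) (x i)
    have c2 := N.d_comm (x (i + m)) (x i)
    rcases h3 with h3 | h3 <;> omega

include hF h hs in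
theorem broken_left (m : ℕ) : ∀ i, i ≤ m → N.d (x i) (x (i + 1)) + N.d (x (i + 1)) (x (m + 1)) ≤
    N.d (x i) (x (m + 1)) + (α + δ) := by
  intro i hi
  obtain ⟨j, rfl⟩ : ∃ j, i = m - j := ⟨m - i, by omega⟩
  clear hi
  induction j with
  | zero =>
    rw [Nat.sub_zero, N.d_self]; omega
  | succ j ih =>
    by_cases hj : j + 1 ≤ m
    · have e : m - j = m - (j + 1) + 1 := by omega
      have e2 : m - j + 1 = m - (j + 1) + 2 := by omega
      rw [e2, e] at ih
      have h1 := h (m - (j + 1))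
      have h2 := hs (m - (j + 1) + 1)
      have e3 : m - (j + 1) + 1 + 1 = m - (j + 1) + 2 := rfl
      rw [e3] at h2
      have h3 := a0 hF h1 (x (m + 1))
      have c1 := N.d_comm (x (m + 1)) (x (m - (j + 1) + 2))
      have c2 := N.d_comm (x (m - (j + 1))) (x (m + 1))
      rcases h3 with h3 | h3 <;> omega
    · have e : m - (j + 1) = m - j := by omega
      rw [e]; exact ih

include hF h hs in
/-- broken geodesics -/
theorem broken : ∀ i j k, i ≤ j → j ≤ k →
    N.d (x i) (x j) + N.d (x j) (x k) ≤ N.d (x i) (x k) + (α + 2 * δ) := by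
  intro i j k hij hjk
  obtain ⟨m, rfl⟩ := Nat.exists_eq_add_of_le hij
  rcases Nat.lt_or_ge (i + m) k with hk | hk
  · obtain ⟨k, rfl⟩ : ∃ k', k = k' + 1 := ⟨k - 1, by omega⟩
    have h1 := broken_right hF x α h hs i m
    have h2 := broken_left hF x α h hs k (i + m) (by omega)
    have h3 := hs (i + m)
    have h4 := a0 hF h1 (x (k + 1))
    have c1 := N.d_comm (x (i + m + 1)) (x (k + 1))
    rcases h4 with h4 | h4 <;> omega
  · obtain rfl : k = i + m := by omega
    rw [N.d_self]; omega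

include hF h hs in
theorem broken_grow (k : ℕ) : k ≤ N.d (x 0) (x k) := by
  induction k with
  | zero => exact Nat.zero_le _
  | succ k ih =>
    have h1 := broken_right hF x α h hs 0 k
    rw [zero_add] at h1
    have h2 := hs k
    omega

end Broken

theorem d_pow (z y : G) (i j : ℕ) : N.d (z ^ i * y) (z ^ (i + j) * y) = N.d y (z ^ j * y) := by
  rw [pow_add, mul_assoc, N.d_left]

/-- orbits of torsion elements do not make progress -/
theorem tor_two (hF : N.FP δ) {z : G} (hz : IsOfFinOrder z) (y : G) :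
    N.d y (z ^ 2 * y) ≤ N.d y (z * y) + 2 * δ := by
  by_contra hcon
  push Not at hcon
  have htri := N.d_tri y (z * y) (z ^ 2 * y)
  have e1 : N.d (z * y) (z ^ 2 * y) = N.d y (z * y) := by
    rw [pow_two, mul_assoc, N.d_left]
  have hg : ∀ k, k ≤ N.d (z ^ 0 * y) (z ^ k * y) := by
    apply broken_grow hF (fun i => z ^ i * y) (2 * N.d y (z * y) - N.d y (z ^ 2 * y))
    · intro i
      have a1 := d_pow (N := N) z y i 1
      have a2 := d_pow (N := N) z y (i + 1) 1
      have a3 := d_pow (N := N) z y i 2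
      rw [pow_one] at a1 a2
      have e : i + 1 + 1 = i + 2 := rfl
      rw [e] at a2
      show N.d (z ^ i * y) (z ^ (i + 1) * y) + N.d (z ^ (i + 1) * y) (z ^ (i + 2) * y) ≤
        N.d (z ^ i * y) (z ^ (i + 2) * y) + _
      omega
    · intro i
      have a1 := d_pow (N := N) z y i 1
      rw [pow_one] at a1
      show _ ≤ N.d (z ^ i * y) (z ^ (i + 1) * y)
      omega
  obtain ⟨m, hm, hm1⟩ := isOfFinOrder_iff_pow_eq_one.1 hz
  have := hg m
  rw [hm1, pow_zero, N.d_self] at this
  omega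

/-- midpoints are almost fixed by torsion elements -/
theorem tor_mid (hF : N.FP δ) {z : G} (hz : IsOfFinOrder z) (y : G) :
    ∃ m, N.d y m + N.d m (z * y) = N.d y (z * y) ∧ 2 * N.d y m ≤ N.d y (z * y) ∧
      N.d y (z * y) ≤ 2 * N.d y m + 1 ∧ N.d m (z * m) ≤ 4 * δ + 1 := by
  have h2 := tor_two hF hz y
  obtain ⟨m, hm1, hm2⟩ := N.exists_btw y (z * y) (t := N.d y (z * y) / 2) (by omega)
  refine ⟨m, by omega, by omega, by omega, ?_⟩
  have e1 : N.d (z * y) (z ^ 2 * y) = N.d y (z * y) := by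
    rw [pow_two, mul_assoc, N.d_left]
  have e2 : N.d (z * y) (z * m) = N.d y m := N.d_left _ _ _
  have e3 : N.d (z * m) (z ^ 2 * y) = N.d m (z * y) := by
    rw [pow_two, mul_assoc, N.d_left]
  have h3 := a0 hF (x := y) (p := m) (y := z * y) (c := 0) (by omega) (z ^ 2 * y)
  have h4 := a0 hF (x := z * y) (p := z * m) (y := z ^ 2 * y) (c := 0) (by omega) m
  have c1 := N.d_comm (z * m) m
  have c2 := N.d_comm (z ^ 2 * y) (z * y)
  have c3 := N.d_comm (z * y) m
  rcases h3 with h3 | h3 <;> rcases h4 with h4 | h4 <;> omega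

end GNorm

end Pool.Agent.Lib.MP_bd8d5e_al
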