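import Pool.Agent.Lib.MP_bd8d5e_al.EGrp

/-! # Elements of infinite order are loxodromic -/

set_option autoImplicit false

namespace Pool.Agent.Lib.MP_bd8d5e_al

variable {G : Type*} [Group G]

namespace GNorm

variable {N : GNorm G} {δ : ℕ}

theorem exists_large_pow (hfb : N.FinBalls) {u : G} (hu : ¬ IsOfFinOrder u) (B : ℕ) :
    ∃ n : ℕ, B < N.l (u ^ n) := by
  by_contra hcon
  push Not at hcon
  have hinj := injective_pow_iff_not_isOfFinOrder.2 hu
  exact (Set.infinite_of_injective_forall_mem hinj (s := {g | N.l g ≤ B}) hcon) (hfb B)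

theorem FP.right (hF : N.FP δ) {x y z w : G}
    (h : N.d x y + N.d z w + δ < N.d x z + N.d y w) :
    N.d x z + N.d y w ≤ N.d x w + N.d y z + δ := by
  have := hF x y z w
  rcases le_total (N.d x y + N.d z w) (N.d x w + N.d y z) with h1 | h1
  · rwa [max_eq_right h1] at this
  · rw [max_eq_left h1] at this; omega

theorem FP.left (hF : N.FP δ) {x y z w : G}
    (h : N.d x w + N.d y z + δ < N.d x z + N.d y w) :
    N.d x z + N.d y w ≤ N.d x y + N.d z w + δ := by
  have := hF x y z w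
  rcases le_total (N.d x y + N.d z w) (N.d x w + N.d y z) with h1 | h1
  · rw [max_eq_right h1] at this; omega
  · rwa [max_eq_left h1] at this

/-- an almost translate of the midpoint -/
theorem lox_aux1 (hF : N.FP δ) {x p U : G} {S m m' : ℕ} (hx : N.l x ≤ S) (hcomm : U⁻¹ * x * U = x)
    (hp : N.d 1 p = m) (hp' : N.d p U = m') (hU : N.l U = m + m') (h1 : 2 * S + 2 * δ < m)
    (h2 : 2 * S + 2 * δ < m') :
    N.d 1 (x * p) + N.d (x * p) U ≤ N.d 1 U + 2 * δ ∧ m ≤ N.d 1 (x * p) + S := by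
  have e1 : N.d x (x * p) = m := by
    have := N.d_left x 1 p
    rw [mul_one] at this; rw [this, hp]
  have e2 : N.d (x * p) (x * U) = m' := by rw [N.d_left, hp']
  have e3 : N.d x (x * U) = m + m' := by
    have := N.d_left x 1 U
    rw [mul_one] at this; rw [this, N.d_one, hU]
  have e4 : N.d U (x * U) ≤ S := by
    have : U⁻¹ * (x * U) = x := by rw [← mul_assoc]; exact hcomm
    unfold d; rw [this]; exact hx
  have e5 : N.d 1 x ≤ S := by rw [N.d_one]; exact hx
  have e6 : N.d 1 U = m + m' := by rw [N.d_one, hU]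
  have t1 := N.d_tri x 1 (x * p)
  have t2 := N.d_tri (x * U) U (x * p)
  have c1 := N.d_comm x 1
  have c2 := N.d_comm (x * U) (x * p)
  have c3 := N.d_comm (x * U) U
  have c4 := N.d_comm U (x * p)
  have g1 : m ≤ N.d 1 (x * p) + S := by omega
  have f1 := FP.right hF (x := x) (y := 1) (z := x * U) (w := x * p) (by omega)
  have f2 := FP.left hF (x := 1) (y := U) (z := x * U) (w := x * p) (by omega)
  omega

/-- points near the geodesic are determined by the distance to `1` -/
theorem lox_aux2 (hF : N.FP δ) {z p U : G} {m m' : ℕ} (hp : N.d 1 p = m) (hp' : N.d p U = m')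
    (hU : N.l U = m + m') (hz : N.d 1 z + N.d z U ≤ N.d 1 U + 2 * δ) :
    N.d z p + m ≤ N.d 1 z + 3 * δ ∨ N.d z p + N.d 1 z ≤ m + 3 * δ := by
  have f1 := hF z 1 p U
  have e6 : N.d 1 U = m + m' := by rw [N.d_one, hU]
  have c1 := N.d_comm z 1
  rcases le_total (N.d z 1 + N.d p U) (N.d z U + N.d 1 p) with h1 | h1
  · rw [max_eq_right h1] at f1; omega
  · rw [max_eq_left h1] at f1; omega

theorem exists_lox (hfb : N.FinBalls) (hF : N.FP δ) {u : G} (hu : ¬ IsOfFinOrder u) :
    ∃ (p : G) (j : ℕ), 0 < j ∧ N.Lox δ (p⁻¹ * u ^ j * p) := by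
  classical
  set J := (hfb (10 * δ)).toFinset.card with hJ
  set S := 2 * (J * N.l u) with hS
  obtain ⟨n, hn⟩ := exists_large_pow hfb hu (8 * S + 20 * δ + 10)
  set U := u ^ n with hU
  obtain ⟨p, hp, hp'⟩ := N.exists_btw 1 U (t := N.l U / 2) (by rw [N.d_one]; omega)
  set m := N.l U / 2 with hm
  obtain ⟨m', hm'⟩ : ∃ m', N.l U = m + m' := ⟨N.l U - m, by omega⟩
  have hp'' : N.d p U = m' := by rw [hp', N.d_one]; omega
  have hinj := injective_pow_iff_not_isOfFinOrder.2 hu
  -- a power which moves the midpoint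
  obtain ⟨j, hjJ, hjbig⟩ : ∃ j ≤ J, 10 * δ < N.l (p⁻¹ * u ^ j * p) := by
    by_contra hcon
    push Not at hcon
    obtain ⟨s, hs, s', hs', hne, heq⟩ := Finset.exists_ne_map_eq_of_card_lt_of_maps_to
      (s := Finset.range (J + 1)) (t := (hfb (10 * δ)).toFinset)
      (f := fun s : ℕ => p⁻¹ * u ^ s * p)
      (by rw [Finset.card_range]; omega)
      (by
        intro s hs
        rw [Finset.mem_coe, Finset.mem_range] at hs
        rw [Finset.mem_coe, (hfb _).mem_toFinset]
        exact hcon s (by omega))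
    apply hne
    apply hinj
    have : p⁻¹ * u ^ s * p = p⁻¹ * u ^ s' * p := heq
    have h2 := mul_right_cancel this
    exact mul_left_cancel h2
  have hj0 : 0 < j := by
    rcases Nat.eq_zero_or_pos j with h | h
    · subst h
      have : p⁻¹ * u ^ 0 * p = 1 := by rw [pow_zero]; group
      rw [this, N.l_one] at hjbig
      omega
    · exact h
  refine ⟨p, j, hj0, hjbig, ?_⟩
  set w := u ^ j with hw
  have hlw : N.l w ≤ J * N.l u :=
    (N.l_pow_le u j).trans (Nat.mul_le_mul_right _ hjJ)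
  have hlw2 : N.l (w * w) ≤ S := by
    have := N.l_mul w w
    omega
  have hUw : U⁻¹ * w * U = w := by
    have : w * U = U * w := by rw [hw, hU, ← pow_add, ← pow_add, add_comm]
    rw [mul_assoc, this, inv_mul_cancel_left]
  have hUw2 : U⁻¹ * (w * w) * U = w * w := by
    have : U⁻¹ * (w * w) * U = (U⁻¹ * w * U) * (U⁻¹ * w * U) := by group
    rw [this, hUw]
  have a1 := lox_aux1 hF (S := S) (by omega) hUw hp hp'' hm' (by omega) (by omega)
  have a2 := lox_aux1 hF (S := S) hlw2 hUw2 hp hp'' hm' (by omega) (by omega)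
  have b1 := lox_aux2 hF hp hp'' hm' a1.1
  have b2 := lox_aux2 hF hp hp'' hm' a2.1
  -- translates
  have e1 : N.d w⁻¹ p = N.d 1 (w * p) := by
    have := N.d_left w w⁻¹ p
    rw [mul_inv_cancel] at this; exact this.symm
  have e2 : N.d w⁻¹ (w * p) = N.d 1 (w * w * p) := by
    have := N.d_left w w⁻¹ (w * p)
    rw [mul_inv_cancel, ← mul_assoc] at this; exact this.symm
  have e3 : N.d 1 w⁻¹ ≤ S := by
    rw [N.d_one, N.l_inv]; omega
  have e6 : N.d 1 U = m + m' := by rw [N.d_one, hm']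
  have a11 := a1.1
  have a12 := a1.2
  clear a1 a2 b2 hinj hUw hUw2 hm
  have t1 := N.d_tri 1 w⁻¹ U
  have t2 := N.d_tri w⁻¹ 1 U
  have t3 := N.d_tri 1 p (w * w * p)
  have t4 := N.d_tri 1 (w * w * p) p
  have c1 := N.d_comm w⁻¹ 1
  have c2 := N.d_comm (w * w * p) p
  have c3 := N.d_comm (w * p) p
  have t5 := N.d_tri 1 w⁻¹ (w * p)
  have f1 := FP.right hF (x := 1) (y := w⁻¹) (z := p) (w := U) (by omega)
  have f2 := FP.right hF (x := w⁻¹) (y := 1) (z := p) (w := U) (by omega)
  have f3 := FP.right hF (x := 1) (y := w⁻¹) (z := w * p) (w := U) (by omega)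
  have f4 := FP.right hF (x := w⁻¹) (y := 1) (z := w * p) (w := U) (by omega)
  have g1 : N.l (p⁻¹ * w * p) = N.d p (w * p) := by unfold d; rw [mul_assoc]
  have g2 : N.l ((p⁻¹ * w * p) ^ 2) = N.d p (w * w * p) := by
    unfold d; congr 1; rw [pow_two]; group
  rw [g1, g2]
  omega

end GNorm

end Pool.Agent.Lib.MP_bd8d5e_al
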