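import Pool.Agent.Lib.MP_bd8d5e_al.EGrp
import Pool.Agent.Lib.MP_bd8d5e_al.Bgi

/-! # Quasiconvexity, nearest points and overlaps -/

set_option autoImplicit false

namespace Pool.Agent.Lib.MP_bd8d5e_al

variable {G : Type*} [Group G]

namespace GNorm

variable {N : GNorm G} {δ : ℕ} {v : G}

/-- quasiconvexity constant of `EE v` -/
def qcc (N : GNorm G) (δ : ℕ) (v : G) : ℕ := N.l v + 4 * N.rad δ v + 11 * δ

theorem Lox.qc (hF : N.FP δ) (hv : N.Lox δ v) {p q r : G} (hp : p ∈ EE v) (hq : q ∈ EE v)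
    {s : ℕ} (h : N.d p r + N.d r q ≤ N.d p q + s) :
    ∃ e ∈ EE v, N.d r e ≤ N.qcc δ v + s := by
  obtain ⟨a, ha⟩ := Lox.near_E hF hv hp
  obtain ⟨b, hb⟩ := Lox.near_E hF hv hq
  obtain ⟨i, -, -, hi⟩ := Lox.near_z hF hv (4 * N.rad δ v + s) a b r (by
    have t1 := N.d_tri (v ^ a) p r
    have t2 := N.d_tri r q (v ^ b)
    have t3 := N.d_tri p (v ^ a) q
    have t4 := N.d_tri (v ^ a) (v ^ b) q
    rw [N.d_comm (v ^ a) p] at t1
    rw [N.d_comm (v ^ b) q] at t4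
    omega)
  refine ⟨v ^ i, (EE v).zpow_mem (self_mem_EE v) i, hi.trans ?_⟩
  unfold qcc
  omega

/-- nearest points -/
theorem proj_one (hF : N.FP δ) {Y : Set G} {cq : ℕ}
    (hY : ∀ p ∈ Y, ∀ q ∈ Y, ∀ r, N.d p r + N.d r q = N.d p q → ∃ e ∈ Y, N.d r e ≤ cq)
    {x p q : G} (hp : p ∈ Y) (hmin : ∀ e ∈ Y, N.d x p ≤ N.d x e) (hq : q ∈ Y) :
    N.d x p + N.d p q ≤ N.d x q + (2 * cq + 2 * δ + 1) := by
  -- half of the Gromov product
  set t := (N.d x p + N.d p q - N.d x q) / 2 with ht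
  have t1 := N.d_tri x q p
  have t2 := N.d_tri x p q
  rw [N.d_comm q p] at t1
  have htl : t ≤ N.d p q := by omega
  obtain ⟨h, hh1, hh2⟩ := N.geo (p⁻¹ * q) t htl
  have e1 : N.d p (p * h) = t := by
    unfold GNorm.d; rw [← hh1]; congr 1; group
  have e2 : N.d (p * h) q = N.d p q - t := by
    unfold GNorm.d; rw [← hh2]; congr 1; group
  obtain ⟨e, he, hre⟩ := hY p hp q hq (p * h) (by omega)
  have h4 := hF x p (p * h) q
  have h5 := hmin e he
  have h6 := N.d_tri x (p * h) e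
  omega

theorem proj_two (hF : N.FP δ) {Y : Set G} {cq : ℕ}
    (hY : ∀ p ∈ Y, ∀ q ∈ Y, ∀ r, N.d p r + N.d r q = N.d p q → ∃ e ∈ Y, N.d r e ≤ cq)
    {x y p q : G} (hp : p ∈ Y) (hpmin : ∀ e ∈ Y, N.d x p ≤ N.d x e) (hq : q ∈ Y)
    (hqmin : ∀ e ∈ Y, N.d y q ≤ N.d y e) (hpq : 2 * cq + 3 * δ + 1 < N.d p q) :
    N.d x p + N.d p q + N.d q y ≤ N.d x y + (4 * cq + 5 * δ + 2) := by
  have h1 := proj_one hF hY hp hpmin hq
  have h2 := proj_one hF hY hq hqmin hp
  have h4 := hF x y q p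
  rw [N.d_comm q p] at h4 h2
  rw [N.d_comm q y]
  omega

theorem conj_zpow_mem_EE (hF : N.FP δ) (hv : N.Lox δ v) {g : G} {σ τ : ℤ} (hσ : σ ≠ 0)
    (h : v ^ σ = g * v ^ τ * g⁻¹) : g ∈ EE v := by
  have key : ∀ n : ℕ, N.l (v ^ (σ.natAbs * n)) ≤ N.l (v ^ (τ.natAbs * n)) + 2 * N.l g ∧
      N.l (v ^ (τ.natAbs * n)) ≤ N.l (v ^ (σ.natAbs * n)) + 2 * N.l g := by
    intro n
    have e : v ^ (σ * n) = g * v ^ (τ * n) * g⁻¹ := by
      rw [zpow_mul, h, zpow_mul, zpow_natCast, zpow_natCast, conj_pow]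
    have e' : v ^ (τ * n) = g⁻¹ * v ^ (σ * n) * g := by rw [e]; group
    have f1 : N.l (v ^ (σ * n)) = N.l (v ^ (σ.natAbs * n)) := by
      rw [N.l_zpow, Int.natAbs_mul, Int.natAbs_natCast]
    have f2 : N.l (v ^ (τ * n)) = N.l (v ^ (τ.natAbs * n)) := by
      rw [N.l_zpow, Int.natAbs_mul, Int.natAbs_natCast]
    have t1 := N.l_mul (g * v ^ (τ * n)) g⁻¹
    have t2 := N.l_mul g (v ^ (τ * n))
    have t3 := N.l_mul (g⁻¹ * v ^ (σ * n)) g
    have t4 := N.l_mul g⁻¹ (v ^ (σ * n))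
    rw [← e] at t1
    rw [← e'] at t3
    rw [N.l_inv] at t1 t4
    omega
  have habs : σ.natAbs = τ.natAbs := by
    rcases lt_trichotomy σ.natAbs τ.natAbs with hlt | heq | hlt
    · exfalso
      obtain ⟨c, hc⟩ := Nat.exists_eq_add_of_lt hlt
      have hk := (key (2 * N.l g + 10 * δ + 1)).2
      set n := 2 * N.l g + 10 * δ + 1 with hn
      have ha := Lox.add hF hv (σ.natAbs * n) ((c + 1) * n)
      have hl := Lox.le hF hv ((c + 1) * n)
      have e : σ.natAbs * n + (c + 1) * n = τ.natAbs * n := by rw [hc]; ring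
      rw [e] at ha
      have hn' : n ≤ (c + 1) * n := Nat.le_mul_of_pos_left _ (Nat.succ_pos c)
      omega
    · exact heq
    · exfalso
      obtain ⟨c, hc⟩ := Nat.exists_eq_add_of_lt hlt
      have hk := (key (2 * N.l g + 10 * δ + 1)).1
      set n := 2 * N.l g + 10 * δ + 1 with hn
      have ha := Lox.add hF hv (τ.natAbs * n) ((c + 1) * n)
      have hl := Lox.le hF hv ((c + 1) * n)
      have e : τ.natAbs * n + (c + 1) * n = σ.natAbs * n := by rw [hc]; ring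
      rw [e] at ha
      have hn' : n ≤ (c + 1) * n := Nat.le_mul_of_pos_left _ (Nat.succ_pos c)
      omega
  refine ⟨τ.natAbs, by rw [← habs]; exact Int.natAbs_pos.2 hσ, ?_⟩
  unfold CI
  rcases Int.natAbs_eq τ with hτ | hτ
  · have e1 : g * v ^ τ.natAbs * g⁻¹ = v ^ σ := by
      rw [h, ← zpow_natCast, ← hτ]
    rw [e1]
    rcases Int.natAbs_eq σ with hσ' | hσ'
    · left; rw [← habs, ← zpow_natCast, ← hσ']
    · right
      conv_lhs => rw [hσ']
      rw [zpow_neg, zpow_natCast, habs]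
  · have e0 : g * v ^ τ.natAbs * g⁻¹ = (v ^ σ)⁻¹ := by
      rw [h]
      have : v ^ τ = (v ^ τ.natAbs)⁻¹ := by
        conv_lhs => rw [hτ]
        rw [zpow_neg, zpow_natCast]
      rw [this]; group
    rw [e0]
    rcases Int.natAbs_eq σ with hσ' | hσ'
    · right
      conv_lhs => rw [hσ']
      rw [zpow_natCast, habs]
    · left
      conv_lhs => rw [hσ']
      rw [zpow_neg, inv_inv, zpow_natCast, habs]

/-- long overlaps of translates of `EE v` are impossible -/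
theorem Lox.overlap (hfb : N.FinBalls) (hF : N.FP δ) (hv : N.Lox δ v) (c : ℕ) :
    ∃ R : ℕ, ∀ g, g ∉ EE v → ∀ x ∈ EE v, ∀ x' ∈ EE v, ∀ y y', g⁻¹ * y ∈ EE v →
      g⁻¹ * y' ∈ EE v → N.d x y ≤ c → N.d x' y' ≤ c → N.d x x' ≤ R := by
  classical
  set D := N.rad δ v with hD
  set c5 := N.l v + (4 * (c + 2 * D) + 10 * δ) + 11 * δ with hc5
  set B := (hfb c5).toFinset.card with hB
  refine ⟨2 * D + B * N.l v, ?_⟩
  intro g hg x hx x' hx' y y' hy hy' hxy hxy'
  obtain ⟨a, ha⟩ := Lox.near_E hF hv hx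
  obtain ⟨a', ha'⟩ := Lox.near_E hF hv hx'
  obtain ⟨k, hk⟩ := Lox.near_E hF hv hy
  obtain ⟨k', hk'⟩ := Lox.near_E hF hv hy'
  have hgk : N.d y (g * v ^ k) ≤ D := by
    have : N.d (g⁻¹ * y) (v ^ k) = N.d y (g * v ^ k) := by
      rw [← N.d_left g]; congr 1; group
    rw [← this]; exact hk
  have hgk' : N.d y' (g * v ^ k') ≤ D := by
    have : N.d (g⁻¹ * y') (v ^ k') = N.d y' (g * v ^ k') := by
      rw [← N.d_left g]; congr 1; group
    rw [← this]; exact hk'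
  have hak : N.d (v ^ a) (g * v ^ k) ≤ c + 2 * D := by
    have t1 := N.d_tri (v ^ a) x (g * v ^ k)
    have t2 := N.d_tri x y (g * v ^ k)
    rw [N.d_comm (v ^ a) x] at t1
    omega
  have hak' : N.d (v ^ a') (g * v ^ k') ≤ c + 2 * D := by
    have t1 := N.d_tri (v ^ a') x' (g * v ^ k')
    have t2 := N.d_tri x' y' (g * v ^ k')
    rw [N.d_comm (v ^ a') x'] at t1
    omega
  -- reduce to the number of powers
  have hmain : (a' - a).natAbs < B := by
    by_contra hcon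
    push Not at hcon
    -- points on the overlap
    have hpt : ∀ i : ℤ, min a a' ≤ i → i ≤ max a a' → ∃ j : ℤ, N.d (v ^ i) (g * v ^ j) ≤ c5 := by
      intro i hi1 hi2
      obtain ⟨j, -, -, hj⟩ := Lox.near_z hF hv (4 * (c + 2 * D) + 10 * δ) k k' (g⁻¹ * v ^ i) (by
        have f1 : N.d (v ^ k) (g⁻¹ * v ^ i) = N.d (g * v ^ k) (v ^ i) := by
          rw [← N.d_left g]; congr 1; group
        have f2 : N.d (g⁻¹ * v ^ i) (v ^ k') = N.d (v ^ i) (g * v ^ k') := by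
          rw [← N.d_left g]; congr 1; group
        have f3 : N.d (v ^ k) (v ^ k') = N.d (g * v ^ k) (g * v ^ k') := by
          rw [N.d_left]
        rw [f1, f2, f3]
        have t1 := N.d_tri (g * v ^ k) (v ^ a) (v ^ i)
        rw [N.d_comm (g * v ^ k) (v ^ a)] at t1
        have t2 := N.d_tri (v ^ i) (v ^ a') (g * v ^ k')
        have t3 := N.d_tri (v ^ a) (g * v ^ k) (v ^ a')
        have t4 := N.d_tri (g * v ^ k) (g * v ^ k') (v ^ a')
        rw [N.d_comm (g * v ^ k') (v ^ a')] at t4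
        have hadd : N.d (v ^ a) (v ^ i) + N.d (v ^ i) (v ^ a') ≤
            N.d (v ^ a) (v ^ a') + 10 * δ := by
          rw [N.d_zpow, N.d_zpow, N.d_zpow, N.l_zpow v (i - a), N.l_zpow v (a' - i),
            N.l_zpow v (a' - a)]
          have := Lox.add hF hv (i - a).natAbs (a' - i).natAbs
          have e : (i - a).natAbs + (a' - i).natAbs = (a' - a).natAbs := by omega
          rwa [e] at this
        omega)
      refine ⟨j, ?_⟩
      have f2 : N.d (g⁻¹ * v ^ i) (v ^ j) = N.d (v ^ i) (g * v ^ j) := by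
        rw [← N.d_left g]; congr 1; group
      rw [← f2]
      exact hj
    have hpt' : ∀ s : ℕ, s ≤ B → ∃ j : ℤ, N.d (v ^ (min a a' + (s : ℤ))) (g * v ^ j) ≤ c5 := by
      intro s hs
      exact hpt _ (by omega) (by omega)
    choose! J hJ using hpt'
    obtain ⟨s, hs, s', hs', hne, heq⟩ := Finset.exists_ne_map_eq_of_card_lt_of_maps_to
      (s := Finset.range (B + 1)) (t := (hfb c5).toFinset)
      (f := fun s : ℕ => (v ^ (min a a' + (s : ℤ)))⁻¹ * (g * v ^ (J s)))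
      (by rw [Finset.card_range]; omega)
      (by
        intro s hs
        rw [Finset.mem_coe, Finset.mem_range] at hs
        rw [Finset.mem_coe, (hfb c5).mem_toFinset]
        exact hJ s (by omega))
    apply hg
    refine conj_zpow_mem_EE hF hv (σ := (s' : ℤ) - s) (τ := J s' - J s) ?_ ?_
    · intro h0
      apply hne
      omega
    · have e1 : v ^ ((s' : ℤ) - s) = v ^ (min a a' + (s' : ℤ)) * (v ^ (min a a' + (s : ℤ)))⁻¹ := by
        rw [← zpow_neg, ← zpow_add]; congr 1; ring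
      have e2 : v ^ (J s' - J s) = v ^ (J s') * (v ^ (J s))⁻¹ := by
        rw [← zpow_neg, ← zpow_add]; congr 1
      rw [e1, e2]
      set P := v ^ (min a a' + (s : ℤ)) with hP
      set P' := v ^ (min a a' + (s' : ℤ)) with hP'
      set Q := v ^ (J s) with hQ
      set Q' := v ^ (J s') with hQ'
      have e3 : P' * P⁻¹ * (g * Q) = g * Q' := by
        rw [mul_assoc, heq]; group
      calc P' * P⁻¹ = P' * P⁻¹ * (g * Q) * Q⁻¹ * g⁻¹ := by group
        _ = g * Q' * Q⁻¹ * g⁻¹ := by rw [e3]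
        _ = g * (Q' * Q⁻¹) * g⁻¹ := by group
  have t1 := N.d_tri x (v ^ a) x'
  have t2 := N.d_tri (v ^ a) (v ^ a') x'
  rw [N.d_comm (v ^ a') x'] at t2
  have t3 : N.d (v ^ a) (v ^ a') ≤ B * N.l v := by
    rw [N.d_zpow, N.l_zpow]
    exact (N.l_pow_le v _).trans (Nat.mul_le_mul_right _ hmain.le)
  omega

/-- the points of the coset `g E` -/
def coset (E : Subgroup G) (g : G) : Set G := {p | g⁻¹ * p ∈ E}

theorem Lox.qc_coset (hF : N.FP δ) (hv : N.Lox δ v) (g : G) {p q r : G}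
    (hp : p ∈ coset (EE v) g) (hq : q ∈ coset (EE v) g)
    {s : ℕ} (h : N.d p r + N.d r q ≤ N.d p q + s) :
    ∃ e ∈ coset (EE v) g, N.d r e ≤ N.qcc δ v + s := by
  obtain ⟨e, he, h2⟩ := Lox.qc hF hv (r := g⁻¹ * r) hp hq (s := s) (by
    rw [N.d_left, N.d_left, N.d_left]; exact h)
  refine ⟨g * e, ?_, ?_⟩
  · have : g⁻¹ * (g * e) = e := by group
    show g⁻¹ * (g * e) ∈ EE v
    rw [this]; exact he
  · have : N.d (g⁻¹ * r) e = N.d r (g * e) := by
      rw [← N.d_left g]; congr 1; group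
    rw [← this]; exact h2

/-- projections of distinct cosets are bounded -/
theorem Lox.proj_bdd (hfb : N.FinBalls) (hF : N.FP δ) (hv : N.Lox δ v) :
    ∃ th : ℕ, ∀ h g : G, h⁻¹ * g ∉ EE v → ∀ z ∈ coset (EE v) g, ∀ z' ∈ coset (EE v) g,
      ∀ p ∈ coset (EE v) h, ∀ p' ∈ coset (EE v) h, (∀ e ∈ coset (EE v) h, N.d z p ≤ N.d z e) →
      (∀ e ∈ coset (EE v) h, N.d z' p' ≤ N.d z' e) → N.d p p' ≤ th := by
  set c2 := 4 * N.qcc δ v + 5 * δ + 2 with hc2
  obtain ⟨R, hR⟩ := Lox.overlap hfb hF hv (N.qcc δ v + c2)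
  refine ⟨max (2 * N.qcc δ v + 3 * δ + 1) R, ?_⟩
  intro h g hhg z hz z' hz' p hp p' hp' hmin hmin'
  by_contra hcon
  push Not at hcon
  have hq : ∀ p ∈ coset (EE v) h, ∀ q ∈ coset (EE v) h, ∀ r, N.d p r + N.d r q = N.d p q →
      ∃ e ∈ coset (EE v) h, N.d r e ≤ N.qcc δ v := by
    intro p hp q hq r hr
    exact Lox.qc_coset hF hv h hp hq (s := 0) (by omega)
  have h2 := proj_two hF hq hp hmin hp' hmin' (by omega)
  rw [← hc2] at h2
  have t1 := N.d_tri p p' z'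
  have t2 := N.d_tri z p p'
  obtain ⟨e, he, hpe⟩ := Lox.qc_coset hF hv g hz hz' (r := p) (s := c2) (by omega)
  obtain ⟨e', he', hpe'⟩ := Lox.qc_coset hF hv g hz hz' (r := p') (s := c2) (by omega)
  have := hR (h⁻¹ * g) hhg (h⁻¹ * p) hp (h⁻¹ * p') hp' (h⁻¹ * e) (h⁻¹ * e')
    (by
      have : (h⁻¹ * g)⁻¹ * (h⁻¹ * e) = g⁻¹ * e := by group
      rw [this]; exact he)
    (by
      have : (h⁻¹ * g)⁻¹ * (h⁻¹ * e') = g⁻¹ * e' := by group
      rw [this]; exact he')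
    (by rw [N.d_left]; exact hpe) (by rw [N.d_left]; exact hpe')
  rw [N.d_left] at this
  omega

/-- the elementary subgroup is quasiconvex -/
theorem Lox.qconv (hF : N.FP δ) (hv : N.Lox δ v) : N.QConv (EE v) (N.qcc δ v) := by
  intro p hp q hq r hr
  exact Lox.qc hF hv hp hq (s := 0) (by unfold Btw at hr; omega)

/-- projections of distinct cosets of the elementary subgroup are bounded -/
theorem Lox.bproj (hfb : N.FinBalls) (hF : N.FP δ) (hv : N.Lox δ v) :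
    ∃ th : ℕ, N.BProj (EE v) th := by
  obtain ⟨th, hth⟩ := Lox.proj_bdd hfb hF hv
  refine ⟨th, ?_⟩
  intro c c' hcc z z' p p' hz hz' hp hp'
  obtain ⟨h, rfl⟩ := QuotientGroup.mk_surjective c
  obtain ⟨g, rfl⟩ := QuotientGroup.mk_surjective c'
  refine hth h g ?_ z ?_ z' ?_ p ?_ p' ?_ ?_ ?_
  · intro hmem
    exact hcc (QuotientGroup.eq.2 hmem)
  · exact QuotientGroup.eq.1 hz.symm
  · exact QuotientGroup.eq.1 hz'.symm
  · exact QuotientGroup.eq.1 hp.1.symm
  · exact QuotientGroup.eq.1 hp'.1.symm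
  · intro e he
    exact hp.2 e (QuotientGroup.eq.2 he).symm
  · intro e he
    exact hp'.2 e (QuotientGroup.eq.2 he).symm

end GNorm

end Pool.Agent.Lib.MP_bd8d5e_al
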