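import Pool.Agent.Lib.MP_bd8d5e_al.Setup

/-! # The base group: a free group of rank two extended by an involution

`H = F(x, y) ⋊ ⟨i⟩` where `i` fixes `x` and inverts `y`. The norm of `(w, c)` is the length of `w`
plus `1` if `c ≠ 1`. -/

set_option autoImplicit false

namespace Pool.Agent.Lib.MP_bd8d5e_al

namespace Base

open FreeGroup (mk of lift norm_mk_le norm_mul_le norm_inv_eq norm_eq_zero IsReduced
  IsReduced.append_overlap invRev toWord_mk isReduced_toWord mk_toWord mul_mk inv_mk
  isReduced_cons_cons invRev_length reduce_invRev isReduced_iff_reduce_eq)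

/-- length of the longest common initial segment -/
def lcp {α : Type*} [DecidableEq α] : List α → List α → ℕ
  | a :: l, b :: l' => if a = b then lcp l l' + 1 else 0
  | _, _ => 0

theorem lcp_min {α : Type*} [DecidableEq α] : ∀ x y z : List α,
    min (lcp x y) (lcp y z) ≤ lcp x z := by
  intro x
  induction x with
  | nil => intro y z; simp [lcp]
  | cons a x ih =>
    intro y z
    cases y with
    | nil => simp [lcp]
    | cons b y =>
      cases z with
      | nil => simp [lcp]
      | cons c z =>
        by_cases hab : a = b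
        · subst hab
          by_cases hac : a = c
          · subst hac
            simp only [lcp, if_true]
            have := ih y z
            omega
          · simp [lcp, hac]
        · simp [lcp, hab]

variable {α : Type*} [DecidableEq α]

theorem norm_mk {L : List (α × Bool)} (h : IsReduced L) : FreeGroup.norm (mk L) = L.length := by
  rw [FreeGroup.norm, toWord_mk, h.reduce_eq]

theorem isReduced_invRev {L : List (α × Bool)} (h : IsReduced L) : IsReduced (invRev L) := by
  rw [isReduced_iff_reduce_eq, reduce_invRev, h.reduce_eq]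

omit [DecidableEq α] in
theorem invRev_cons' (a : α × Bool) (L : List (α × Bool)) :
    invRev (a :: L) = invRev L ++ [(a.1, !a.2)] := by
  simp [invRev]

omit [DecidableEq α] in
theorem isReduced_tail {a : α × Bool} {L : List (α × Bool)} (h : IsReduced (a :: L)) :
    IsReduced L := List.IsChain.tail (l := a :: L) h

theorem norm_inv_mul_mk : ∀ (L₁ L₂ : List (α × Bool)), IsReduced L₁ → IsReduced L₂ →
    FreeGroup.norm ((mk L₁)⁻¹ * mk L₂) + 2 * lcp L₁ L₂ = L₁.length + L₂.length := by
  intro L₁
  induction L₁ with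
  | nil =>
    intro L₂ _ h
    have h1 : (mk ([] : List (α × Bool)))⁻¹ = 1 := inv_one
    rw [h1, one_mul, norm_mk h]
    simp [lcp]
  | cons a l₁ ih =>
    intro L₂ h₁ h₂
    cases L₂ with
    | nil =>
      have h1 : mk ([] : List (α × Bool)) = 1 := rfl
      rw [h1, mul_one, norm_inv_eq, norm_mk h₁]
      simp [lcp]
    | cons b l₂ =>
      by_cases hab : a = b
      · subst hab
        have h3 : (mk (a :: l₁))⁻¹ * mk (a :: l₂) = (mk l₁)⁻¹ * mk l₂ := by
          have h4 : ∀ l : List (α × Bool), mk (a :: l) = mk [a] * mk l := fun l => by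
            rw [mul_mk]; rfl
          rw [h4 l₁, h4 l₂]
          group
        have h5 := ih l₂ (isReduced_tail h₁) (isReduced_tail h₂)
        rw [h3]
        simp only [lcp, if_true, List.length_cons]
        omega
      · have h3 : IsReduced (invRev l₁ ++ [(a.1, !a.2)] ++ (b :: l₂)) := by
          apply IsReduced.append_overlap
          · rw [← invRev_cons']
            exact isReduced_invRev h₁
          · change IsReduced ((a.1, !a.2) :: b :: l₂)
            rw [isReduced_cons_cons]
            refine ⟨fun h => ?_, h₂⟩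
            rcases a with ⟨a1, a2⟩
            rcases b with ⟨b1, b2⟩
            simp only at h
            subst h
            revert hab
            cases a2 <;> cases b2 <;> simp
          · simp
        rw [inv_mk, mul_mk, invRev_cons', norm_mk h3]
        simp only [lcp, hab, if_false, List.length_append, List.length_cons, List.length_nil,
          invRev_length]
        omega

/-- distance in the Cayley tree of the free group -/
theorem norm_inv_mul (u v : FreeGroup α) :
    FreeGroup.norm (u⁻¹ * v) + 2 * lcp u.toWord v.toWord = FreeGroup.norm u + FreeGroup.norm v := by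
  have := norm_inv_mul_mk u.toWord v.toWord isReduced_toWord isReduced_toWord
  rwa [mk_toWord, mk_toWord] at this

/-- the four point condition at the base point `1` -/
theorem four_one (x y z : FreeGroup α) :
    FreeGroup.norm (x⁻¹ * z) + FreeGroup.norm y ≤ max (FreeGroup.norm (x⁻¹ * y) + FreeGroup.norm z) (FreeGroup.norm x + FreeGroup.norm (y⁻¹ * z)) := by
  have h1 := norm_inv_mul x z
  have h2 := norm_inv_mul x y
  have h3 := norm_inv_mul y z
  have h4 := lcp_min x.toWord y.toWord z.toWord
  omega

/-- the four point condition -/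
theorem four (x y z w : FreeGroup α) : FreeGroup.norm (x⁻¹ * z) + FreeGroup.norm (y⁻¹ * w) ≤
    max (FreeGroup.norm (x⁻¹ * y) + FreeGroup.norm (z⁻¹ * w)) (FreeGroup.norm (x⁻¹ * w) + FreeGroup.norm (y⁻¹ * z)) := by
  have h := four_one (w⁻¹ * x) (w⁻¹ * y) (w⁻¹ * z)
  have e : ∀ u v : FreeGroup α, (w⁻¹ * u)⁻¹ * (w⁻¹ * v) = u⁻¹ * v := fun u v => by group
  rw [e, e, e] at h
  have e2 : ∀ u : FreeGroup α, FreeGroup.norm (w⁻¹ * u) = FreeGroup.norm (u⁻¹ * w) := fun u => by
    rw [← norm_inv_eq]; congr 1; group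
  rw [e2 x, e2 y, e2 z] at h
  exact h

/-- the letter map which inverts the second generator -/
def τ (a : Fin 2 × Bool) : Fin 2 × Bool := if a.1 = 0 then a else (a.1, !a.2)

/-- the automorphism which inverts the second generator, as an endomorphism -/
def σ₀ : FreeGroup (Fin 2) →* FreeGroup (Fin 2) :=
  FreeGroup.lift (fun k => if k = 0 then of 0 else (of k)⁻¹)

theorem σ₀_mk (L : List (Fin 2 × Bool)) : σ₀ (mk L) = mk (L.map τ) := by
  induction L with
  | nil => exact map_one _
  | cons a L ih =>
    have h4 : ∀ (a : Fin 2 × Bool) (l : List (Fin 2 × Bool)), mk (a :: l) = mk [a] * mk l :=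
      fun a l => by rw [mul_mk]; rfl
    rw [h4 a L, map_mul, ih, List.map_cons, h4 (τ a)]
    congr 1
    rcases a with ⟨k, s⟩
    cases s
    · have h5 : mk [(k, false)] = (of k)⁻¹ := rfl
      rw [h5, map_inv, σ₀, FreeGroup.lift_apply_of]
      by_cases hk : k = 0
      · rw [if_pos hk]; subst hk; simp [τ]; rfl
      · rw [if_neg hk, inv_inv]; simp only [τ, if_neg hk]; rfl
    · have h5 : mk [(k, true)] = of k := rfl
      rw [h5, σ₀, FreeGroup.lift_apply_of]
      by_cases hk : k = 0
      · rw [if_pos hk]; subst hk; simp [τ]; rfl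
      · rw [if_neg hk]; simp only [τ, if_neg hk]; rfl

theorem σ₀_σ₀ (w : FreeGroup (Fin 2)) : σ₀ (σ₀ w) = w := by
  have : σ₀.comp σ₀ = MonoidHom.id _ := by
    apply FreeGroup.ext_hom
    intro k
    rw [MonoidHom.comp_apply, MonoidHom.id_apply, σ₀, FreeGroup.lift_apply_of]
    by_cases hk : k = 0
    · rw [if_pos hk, FreeGroup.lift_apply_of, if_pos rfl, hk]
    · rw [if_neg hk, map_inv, FreeGroup.lift_apply_of, if_neg hk, inv_inv]
  exact DFunLike.congr_fun this w

theorem norm_σ₀_le (w : FreeGroup (Fin 2)) : FreeGroup.norm (σ₀ w) ≤ FreeGroup.norm w := by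
  conv_lhs => rw [← mk_toWord (x := w), σ₀_mk]
  refine norm_mk_le.trans ?_
  rw [List.length_map, FreeGroup.norm]

theorem norm_σ₀ (w : FreeGroup (Fin 2)) : FreeGroup.norm (σ₀ w) = FreeGroup.norm w := by
  apply le_antisymm (norm_σ₀_le w)
  have := norm_σ₀_le (σ₀ w)
  rwa [σ₀_σ₀] at this

/-- the automorphism -/
def σ : MulAut (FreeGroup (Fin 2)) :=
  { σ₀ with
    invFun := σ₀
    left_inv := σ₀_σ₀
    right_inv := σ₀_σ₀ }

theorem σ_apply (w : FreeGroup (Fin 2)) : σ w = σ₀ w := rfl

theorem σ_mul_σ : σ * σ = 1 := by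
  ext w
  exact σ₀_σ₀ w

/-- the group of order two -/
abbrev C2 := Multiplicative (ZMod 2)

/-- the action -/
def φ : C2 →* MulAut (FreeGroup (Fin 2)) where
  toFun c := if c = 1 then 1 else σ
  map_one' := if_pos rfl
  map_mul' a b := by
    have h : ∀ c : C2, c = 1 ∨ c = Multiplicative.ofAdd 1 := by decide
    have h1 : (Multiplicative.ofAdd 1 : C2) ≠ 1 := by decide
    have h2 : (Multiplicative.ofAdd 1 : C2) * Multiplicative.ofAdd 1 = 1 := by decide
    rcases h a with rfl | rfl <;> rcases h b with rfl | rfl <;> simp [h1, h2, σ_mul_σ]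

theorem norm_φ (c : C2) (w : FreeGroup (Fin 2)) : FreeGroup.norm (φ c w) = FreeGroup.norm w := by
  change FreeGroup.norm ((if c = 1 then (1 : MulAut (FreeGroup (Fin 2))) else σ) w) = FreeGroup.norm w
  by_cases hc : c = 1
  · rw [if_pos hc]; rfl
  · rw [if_neg hc]; exact norm_σ₀ w

/-- the base group -/
abbrev H := FreeGroup (Fin 2) ⋊[φ] C2

/-- `0` or `1` -/
def e (c : C2) : ℕ := if c = 1 then 0 else 1

theorem e_one : e 1 = 0 := rfl

theorem e_mul (a b : C2) : e (a * b) ≤ e a + e b := by revert a b; decide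

theorem e_inv (a : C2) : e a⁻¹ = e a := by revert a; decide

theorem e_eq_zero (a : C2) (h : e a = 0) : a = 1 := by revert a; decide

theorem e_le (a : C2) : e a ≤ 1 := by revert a; decide

/-- the norm -/
def ℓ (g : H) : ℕ := FreeGroup.norm g.left + e g.right

theorem ℓ_inv (g : H) : ℓ g⁻¹ = ℓ g := by
  rw [ℓ, ℓ, SemidirectProduct.inv_left, SemidirectProduct.inv_right, norm_φ, norm_inv_eq, e_inv]

theorem ℓ_mul (g h : H) : ℓ (g * h) ≤ ℓ g + ℓ h := by
  rw [ℓ, ℓ, ℓ, SemidirectProduct.mul_left, SemidirectProduct.mul_right]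
  have h1 := norm_mul_le g.left (φ g.right h.left)
  rw [norm_φ] at h1
  have h2 := e_mul g.right h.right
  omega

theorem ℓ_inv_mul (g h : H) : ℓ (g⁻¹ * h) = FreeGroup.norm (g.left⁻¹ * h.left) + e (g.right⁻¹ * h.right) := by
  rw [ℓ, SemidirectProduct.mul_left, SemidirectProduct.mul_right, SemidirectProduct.inv_left,
    SemidirectProduct.inv_right, ← map_mul, norm_φ]

theorem ℓ_geo (g : H) (t : ℕ) (ht : t ≤ ℓ g) : ∃ h : H, ℓ h = t ∧ ℓ (h⁻¹ * g) = ℓ g - t := by
  by_cases h1 : t ≤ FreeGroup.norm g.left
  · refine ⟨⟨mk (g.left.toWord.take t), 1⟩, ?_, ?_⟩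
    · have h2 : IsReduced (g.left.toWord.take t) :=
        List.IsChain.take (isReduced_toWord (x := g.left)) t
      rw [ℓ]
      change FreeGroup.norm (mk (g.left.toWord.take t)) + e 1 = t
      rw [norm_mk h2, e_one, List.length_take, add_zero]
      exact min_eq_left h1
    · rw [ℓ_inv_mul]
      change FreeGroup.norm ((mk (g.left.toWord.take t))⁻¹ * g.left) + e (1⁻¹ * g.right) = ℓ g - t
      have h3 : (mk (g.left.toWord.take t))⁻¹ * g.left = mk (g.left.toWord.drop t) := by
        rw [inv_mul_eq_iff_eq_mul, mul_mk, List.take_append_drop, mk_toWord]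
      have h4 : IsReduced (g.left.toWord.drop t) :=
        List.IsChain.drop (isReduced_toWord (x := g.left)) t
      rw [h3, norm_mk h4, List.length_drop, inv_one, one_mul, ℓ]
      have h5 : g.left.toWord.length = FreeGroup.norm g.left := rfl
      rw [h5]
      omega
  · refine ⟨g, ?_, ?_⟩
    · have h2 : ℓ g = FreeGroup.norm g.left + e g.right := rfl
      have := e_le g.right
      omega
    · rw [inv_mul_cancel]
      have h2 : ℓ (1 : H) = 0 := by
        rw [ℓ]
        change FreeGroup.norm (1 : FreeGroup (Fin 2)) + e 1 = 0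
        rw [FreeGroup.norm_one, e_one]
      have h3 : ℓ g = FreeGroup.norm g.left + e g.right := rfl
      have := e_le g.right
      omega

/-- the geodesic norm of the base group -/
def N : GNorm H where
  l := ℓ
  l_one := by
    rw [ℓ]
    change FreeGroup.norm (1 : FreeGroup (Fin 2)) + e 1 = 0
    rw [FreeGroup.norm_one, e_one]
  eq_one g hg := by
    rw [ℓ] at hg
    ext1
    · exact norm_eq_zero.1 (by omega)
    · exact e_eq_zero _ (by omega)
  l_inv := ℓ_inv
  l_mul := ℓ_mul
  geo := ℓ_geo

theorem N_FP : N.FP 2 := by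
  intro x y z w
  have h : ∀ a b : H, N.d a b = FreeGroup.norm (a.left⁻¹ * b.left) + e (a.right⁻¹ * b.right) := ℓ_inv_mul
  rw [h, h, h, h, h, h]
  have h1 := four x.left y.left z.left w.left
  have h2 := e_le (x.right⁻¹ * z.right)
  have h3 := e_le (y.right⁻¹ * w.right)
  omega

theorem N_fin : N.FinBalls := by
  intro r
  have h1 : {L : List (Fin 2 × Bool) | L.length ≤ r}.Finite := List.finite_length_le _ r
  have h2 : ((fun p : List (Fin 2 × Bool) × C2 => (⟨mk p.1, p.2⟩ : H)) ''
      ({L : List (Fin 2 × Bool) | L.length ≤ r} ×ˢ Set.univ)).Finite :=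
    (h1.prod Set.finite_univ).image _
  refine h2.subset ?_
  intro g hg
  refine ⟨(g.left.toWord, g.right), ⟨?_, trivial⟩, ?_⟩
  · have h3 : FreeGroup.norm g.left + e g.right ≤ r := hg
    have h4 : g.left.toWord.length = FreeGroup.norm g.left := rfl
    change g.left.toWord.length ≤ r
    omega
  · change (⟨mk g.left.toWord, g.right⟩ : H) = g
    rw [mk_toWord]

/-- elements of the free group are torsion free -/
theorem eq_one_of_pow {g : H} (hg : g.right = 1) {n : ℕ} (hn : n ≠ 0) (h : g ^ n = 1) : g = 1 := by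
  have h1 : g = SemidirectProduct.inl g.left := by
    ext1
    · rfl
    · exact hg
  have h2 : (SemidirectProduct.inl (g.left ^ n) : H) = SemidirectProduct.inl 1 := by
    rw [map_pow, ← h1, h, map_one]
  have h3 : g.left ^ n = 1 := SemidirectProduct.inl_injective h2
  have h4 : g.left = 1 := by
    have := pow_left_injective hn (M := FreeGroup (Fin 2)) (a₁ := g.left) (a₂ := 1)
    exact this (by simpa using h3)
  rw [h1, h4, map_one]

theorem right_sq (g : H) : (g ^ 2).right = 1 := by
  rw [pow_two, SemidirectProduct.mul_right]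
  have : ∀ c : C2, c * c = 1 := by decide
  exact this _

theorem sq_of_torsion {g : H} {n : ℕ} (hn : n ≠ 0) (h : g ^ n = 1) : g ^ 2 = 1 := by
  refine eq_one_of_pow (right_sq g) hn ?_
  rw [← pow_mul, mul_comm, pow_mul, h, one_pow]

theorem H_good : Good H where
  hyp := ⟨N, 2, N_FP, N_fin⟩
  tor := by
    intro g hg
    obtain ⟨n, hn, h⟩ := isOfFinOrder_iff_pow_eq_one.1 hg
    exact Or.inl (sq_of_torsion hn.ne' h)
  noV4 := by
    intro a b ha hb ha2 hb2 hab
    have h0 : ∀ g : H, g ≠ 1 → g ^ 2 = 1 → g.right ≠ 1 := by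
      intro g hg hg2 h
      exact hg (eq_one_of_pow h two_ne_zero hg2)
    have h1 : (a * b).right = 1 := by
      rw [SemidirectProduct.mul_right]
      have h2 : ∀ c c' : C2, c ≠ 1 → c' ≠ 1 → c * c' = 1 := by decide
      exact h2 _ _ (h0 a ha ha2) (h0 b hb hb2)
    have h3 : (a * b) ^ 2 = 1 := by
      have h4 : Commute a b := hab
      rw [h4.mul_pow, ha2, hb2, one_mul]
    have h5 : a * b = 1 := eq_one_of_pow h1 two_ne_zero h3
    have h6 : b * b = 1 := by rw [← pow_two, hb2]
    calc a = a * (b * b) := by rw [h6, mul_one]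
      _ = (a * b) * b := by rw [mul_assoc]
      _ = b := by rw [h5, one_mul]
  fin := by
    intro x hx n hn hxn
    exfalso
    apply hx
    have h0 : n ≠ 0 := by
      rintro rfl
      simp at hn
    have h1 : x ^ 2 = 1 := sq_of_torsion h0 hxn
    obtain ⟨k, rfl⟩ := hn
    rwa [pow_succ, pow_mul, h1, one_pow, one_mul] at hxn

/-- the nontrivial element of the group of order two -/
def c1 : C2 := Multiplicative.ofAdd 1

theorem c1_ne : c1 ≠ 1 := by decide

theorem φ_c1 (w : FreeGroup (Fin 2)) : φ c1 w = σ₀ w := by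
  change (if c1 = 1 then (1 : MulAut (FreeGroup (Fin 2))) else σ) w = σ₀ w
  rw [if_neg c1_ne]; rfl

end Base

open Base in
/-- the base group: `i` fixes `f`, `j ≠ i` another involution -/
theorem exists_base : ∃ (H : Type) (_ : Group H) (i j f : H), Countable H ∧ Good H ∧ i ≠ 1 ∧
    i ^ 2 = 1 ∧ j ^ 2 = 1 ∧ i ≠ j ∧ j ≠ 1 ∧ f * i = i * f ∧ f ^ 2 ≠ 1 := by
  refine ⟨Base.H, inferInstance, ⟨1, c1⟩, ⟨FreeGroup.of 1, c1⟩, ⟨FreeGroup.of 0, 1⟩, ?_, H_good,
    ?_, ?_, ?_, ?_, ?_, ?_, ?_⟩
  · have : Countable (FreeGroup (Fin 2)) := by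
      have h1 : Function.Surjective (FreeGroup.mk : List (Fin 2 × Bool) → FreeGroup (Fin 2)) :=
        Quot.mk_surjective
      exact h1.countable
    exact (SemidirectProduct.equivProd (φ := φ)).injective.countable
  · intro h
    exact c1_ne (congrArg SemidirectProduct.right h)
  · rw [pow_two]
    ext1
    · rw [SemidirectProduct.mul_left]
      simp
    · rw [SemidirectProduct.mul_right]
      decide
  · rw [pow_two]
    ext1
    · rw [SemidirectProduct.mul_left]
      change FreeGroup.of 1 * φ c1 (FreeGroup.of 1) = 1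
      rw [φ_c1, σ₀, FreeGroup.lift_apply_of, if_neg (by decide), mul_inv_cancel]
    · rw [SemidirectProduct.mul_right]
      decide
  · intro h
    exact FreeGroup.one_ne_of (1 : Fin 2) (congrArg SemidirectProduct.left h)
  · intro h
    exact c1_ne (congrArg SemidirectProduct.right h)
  · ext1
    · rw [SemidirectProduct.mul_left, SemidirectProduct.mul_left]
      change FreeGroup.of 0 * φ 1 1 = 1 * φ c1 (FreeGroup.of 0)
      rw [map_one, φ_c1, σ₀, FreeGroup.lift_apply_of, if_pos rfl, mul_one, one_mul]
    · rw [SemidirectProduct.mul_right, SemidirectProduct.mul_right]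
      exact mul_comm _ _
  · intro h
    have h1 : (⟨FreeGroup.of 0, 1⟩ : Base.H) = 1 := eq_one_of_pow rfl two_ne_zero h
    exact FreeGroup.of_ne_one (0 : Fin 2) (congrArg SemidirectProduct.left h1)

end Pool.Agent.Lib.MP_bd8d5e_al
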