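import Pool.Agent.Lib.MP_bd8d5e_al.Corner

/-! # Odd torsion elements with the same image are conjugate under `K` -/

set_option autoImplicit false

namespace Pool.Agent.Lib.MP_bd8d5e_al

namespace Setup

variable {G : Type*} [Group G] {N : GNorm G} {E K : Subgroup G} {v : G} {n C : ℕ}

/-- nearest points of close points are close -/
theorem lemC_lip (S : Setup N E K v n C) {c : G ⧸ E} {x y p q : G} {k : ℕ}
    (hp : N.Near E c x p) (hq : N.Near E c y q) (h : N.d x y ≤ k) : N.d p q ≤ k + C := by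
  by_contra hc
  have := S.near_two c x y p q hp hq (by omega)
  omega

/-- odd torsion elements with the same image are conjugate under `K` -/
theorem conj_of_eq [K.Normal] (S : Setup N E K v n C) {x x' : G} (hx : IsOfFinOrder x) {m : ℕ}
    (hm : Odd m) (hx' : x' ^ m = 1) (h1 : x' ≠ 1) (h : x' * x⁻¹ ∈ K) :
    ∃ ν ∈ K, x' = ν * x * ν⁻¹ := by
  classical
  by_contra hcon
  push Not at hcon
  have hm0 : m ≠ 0 := by
    rintro rfl
    simp at hm
  have hpos := S.pos
  have hbig := S.big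
  have hxt : IsOfFinOrder x' := isOfFinOrder_iff_pow_eq_one.2 ⟨m, Nat.pos_of_ne_zero hm0, hx'⟩
  -- admissible triples
  have hex : ∃ s : ℕ, ∃ ν p p' : G, ν ∈ K ∧ N.d p (x * p) ≤ 5 * C ∧
      N.d p' (ν * x' * ν⁻¹ * p') ≤ 5 * C ∧ N.d p p' = s := by
    obtain ⟨p, _, _, _, hp⟩ := GNorm.tor_mid S.fp hx 1
    obtain ⟨p', _, _, _, hp'⟩ := GNorm.tor_mid S.fp hxt 1
    refine ⟨_, 1, p, p', K.one_mem, by omega, ?_, rfl⟩
    rw [one_mul, inv_one, mul_one]
    omega
  obtain ⟨ν, p, p', hν, hp, hp', hs⟩ := Nat.find_spec hex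
  have hmin : ∀ ν' q q' : G, ν' ∈ K → N.d q (x * q) ≤ 5 * C →
      N.d q' (ν' * x' * ν'⁻¹ * q') ≤ 5 * C → N.d p p' ≤ N.d q q' := by
    intro ν' q q' a1 a2 a3
    rw [hs]
    exact Nat.find_min' hex ⟨ν', q, q', a1, a2, a3, rfl⟩
  set y := ν * x' * ν⁻¹ with hy
  have hyt : y ^ m = 1 := by
    rw [hy, conj_pow, hx']
    group
  have hy1 : y ≠ 1 := by
    intro h2
    apply h1
    have h3 : x' = ν⁻¹ * y * ν := by rw [hy]; group
    rw [h3, h2]
    group
  have hytor : IsOfFinOrder y :=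
    isOfFinOrder_iff_pow_eq_one.2 ⟨m, Nat.pos_of_ne_zero hm0, hyt⟩
  -- rotating the side from p to p' is impossible
  have hrot : ∀ (c : G ⧸ E) (a b : G), N.Near E c p a → N.Near E c p' b →
      2 * N.d a b < N.l (v ^ n) + 7 * C := by
    intro c a b ha hb
    by_contra hc
    obtain ⟨r, hr, _, hr'⟩ := rc S (s := 2 * C) ha hb (by omega) (by omega)
    have h2 : N.d (r * p') (r * ν * x' * (r * ν)⁻¹ * (r * p')) ≤ 5 * C := by
      have : r * ν * x' * (r * ν)⁻¹ * (r * p') = r * (y * p') := by rw [hy]; group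
      rw [this, N.d_left]
      exact hp'
    have := hmin (r * ν) p (r * p') (K.mul_mem hr hν) hp h2
    omega
  -- the element of the kernel
  have hk : y * x⁻¹ ∈ K := by
    have e : y * x⁻¹ = ν * (x' * ν⁻¹ * x'⁻¹) * (x' * x⁻¹) := by rw [hy]; group
    rw [e]
    exact K.mul_mem (K.mul_mem hν (Subgroup.Normal.conj_mem ‹_› _ (K.inv_mem hν) _)) h
  have hk1 : y * x⁻¹ ≠ 1 := by
    intro h2
    have h3 : y = x := mul_inv_eq_one.1 h2
    apply hcon ν⁻¹ (K.inv_mem hν)
    rw [← h3, hy]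
    group
  obtain ⟨c, hc⟩ := S.gl _ hk hk1 (x * p)
  have e1 : y * x⁻¹ * (x * p) = y * p := by group
  rw [e1] at hc
  obtain ⟨a0, ha0⟩ := GNorm.exists_nearest (N := N) c (x * p)
  obtain ⟨e, he⟩ := GNorm.exists_nearest (N := N) c (y * p)
  obtain ⟨a, ha⟩ := GNorm.exists_nearest (N := N) c p
  obtain ⟨b, hb⟩ := GNorm.exists_nearest (N := N) c p'
  obtain ⟨b', hb'⟩ := GNorm.exists_nearest (N := N) c (y * p')
  have hL := hc a0 e ha0 he
  have d1 := lemC_lip S ha ha0 hp
  have d2 := lemC_lip S hb hb' hp'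
  have d3 := hrot c a b ha hb
  have d4 : 2 * N.d e b' < N.l (v ^ n) + 7 * C := by
    have n1 := GNorm.near_smul he y⁻¹
    have n2 := GNorm.near_smul hb' y⁻¹
    rw [inv_mul_cancel_left] at n1 n2
    have := hrot _ _ _ n1 n2
    rwa [N.d_left] at this
  have t1 := N.d_tri a0 a e
  have t2 := N.d_tri a b e
  have t3 := N.d_tri b b' e
  have c1 := N.d_comm a0 a
  have c2 := N.d_comm b' e
  have c3 := N.d_comm a b
  have hcor := corner S (c := c) (κ := y) (P := p') (Q := p) (Q' := y * p) (a := b) (b := a)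
    (b' := e) hp' (by rw [N.d_self]; omega) hb ha he (by omega) (by omega)
  have h2 := tor_fix S hcor hytor
  apply hy1
  obtain ⟨k, hk⟩ := hm
  rw [hk, pow_add, pow_mul, h2, one_pow, one_mul, pow_one] at hyt
  exact hyt

end Setup

end Pool.Agent.Lib.MP_bd8d5e_al
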