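import Pool.Agent.Lib.MP_bd8d5e_al.Corner

/-! # Centralisers of rotations: LEMMA R -/

set_option autoImplicit false

namespace Pool.Agent.Lib.MP_bd8d5e_al

namespace Setup

variable {G : Type*} [Group G] {N : GNorm G} {E K : Subgroup G} {v : G} {n C : ℕ}

/-- conjugation of powers of `v` by elements of `E` keeps the norm -/
theorem lemR_conj (S : Setup N E K v n C) (m : ℕ) {e : G} (he : e ∈ E) :
    N.l (e⁻¹ * v ^ m * e) = N.l (v ^ m) := by
  rcases S.dich e he with ⟨k, rfl⟩ | ⟨_, h2, h3⟩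
  · congr 1
    rw [← zpow_natCast, mul_assoc, ← zpow_add, ← zpow_neg, ← zpow_add]
    congr 1
    ring
  · have h4 : e⁻¹ = e := by
      rw [inv_eq_iff_mul_eq_one, ← pow_two, h2]
    have h5 : e * v ^ m * e⁻¹ = (v ^ m)⁻¹ := by
      rw [← conj_pow, h3, inv_pow]
    rw [← N.l_inv (v ^ m), ← h5]
    congr 1
    rw [h4]

/-- rotations -/
theorem rot_cent [K.Normal] (S : Setup N E K v n C) {m : ℕ} (h1 : n ≤ 3 * m) (h2 : 2 * m ≤ n)
    {b : G} (hb : b * v ^ m * b⁻¹ * (v ^ m)⁻¹ ∈ K) : ∃ ν ∈ K, ν * b ∈ E := by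
  classical
  by_contra hcon
  push Not at hcon
  have hpos := S.pos
  have hbig := S.big
  have hn : n ≠ 0 := by
    rintro rfl
    have := S.nodd
    simp at this
  have hm0 : m ≠ 0 := by omega
  -- the length of `f = v ^ m`
  have lf1 : 2 * N.l (v ^ m) ≤ N.l (v ^ n) + 2 * C := by
    have q1 := S.ql m m
    have q2 := S.ql (m + m) (n - (m + m))
    rw [Nat.add_sub_cancel' (by omega)] at q2
    omega
  have lf2 : N.l (v ^ n) ≤ 3 * N.l (v ^ m) + C := by
    have q1 := S.ql n (3 * m - n)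
    rw [Nat.add_sub_cancel' (by omega)] at q1
    have q2 := N.l_mul (v ^ m) (v ^ m * v ^ m)
    have q3 := N.l_mul (v ^ m) (v ^ m)
    have e : v ^ (3 * m) = v ^ m * (v ^ m * v ^ m) := by
      rw [← pow_add, ← pow_add]
      congr 1
      ring
    rw [e] at q1
    omega
  set f := v ^ m with hf
  -- minimal configurations
  have hex : ∃ s : ℕ, ∃ ν x x' : G, ν ∈ K ∧ x ∈ E ∧ (x' : G ⧸ E) = ((ν * b : G) : G ⧸ E) ∧
      N.d x x' = s := ⟨_, 1, 1, 1 * b, K.one_mem, E.one_mem, rfl, rfl⟩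
  obtain ⟨ν, x, x', hν, hx, hx', hs⟩ := Nat.find_spec hex
  have hmin : ∀ ν' y y' : G, ν' ∈ K → y ∈ E → (y' : G ⧸ E) = ((ν' * b : G) : G ⧸ E) →
      N.d x x' ≤ N.d y y' := by
    intro ν' y y' a1 a2 a3
    rw [hs]
    exact Nat.find_min' hex ⟨ν', y, y', a1, a2, a3, rfl⟩
  set B := ν * b with hB
  have hBE : B ∉ E := hcon ν hν
  obtain ⟨e, he, hxe⟩ : ∃ e ∈ E, x' = B * e := by
    have h3 := QuotientGroup.eq.1 hx'.symm
    exact ⟨B⁻¹ * x', h3, by group⟩
  set f' := B * f * B⁻¹ with hf'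
  have hfE : f ∈ E := E.pow_mem S.vE m
  -- cosets
  set Y : G ⧸ E := ((1 : G) : G ⧸ E) with hY
  set Y' : G ⧸ E := (B : G ⧸ E) with hY'
  have mY : ∀ y : G, (y : G ⧸ E) = Y ↔ y ∈ E := by
    intro y
    rw [hY, QuotientGroup.eq, mul_one]
    exact E.inv_mem_iff
  have hYY : Y ≠ Y' := by
    intro h3
    exact hBE ((mY B).1 h3.symm)
  have hf'Y : f' • Y' = Y' := by
    rw [hY']
    show ((f' * B : G) : G ⧸ E) = _
    rw [QuotientGroup.eq]
    have : (f' * B)⁻¹ * B = f⁻¹ := by rw [hf']; group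
    rw [this]
    exact E.inv_mem hfE
  have hx1 : (x : G ⧸ E) = Y := (mY x).2 hx
  have hfx1 : ((f * x : G) : G ⧸ E) = Y := (mY _).2 (E.mul_mem hfE hx)
  have hx'1 : (x' : G ⧸ E) = Y' := hx'
  have hf'x'1 : ((f' * x' : G) : G ⧸ E) = Y' := by
    have : ((f' * x' : G) : G ⧸ E) = f' • (x' : G ⧸ E) := rfl
    rw [this, hx'1, hf'Y]
  -- displacements
  have dx : N.d x (f * x) = N.l f := by
    unfold GNorm.d
    rw [← mul_assoc, hf, lemR_conj S m hx]
  have dx' : N.d x' (f' * x') = N.l f := by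
    unfold GNorm.d
    have : x'⁻¹ * (f' * x') = e⁻¹ * v ^ m * e := by rw [hxe, hf', hf]; group
    rw [this, lemR_conj S m he]
  -- the minimality, in terms of cosets
  have hmin1 : ∀ y y' : G, (y : G ⧸ E) = Y → (y' : G ⧸ E) = Y' → N.d x x' ≤ N.d y y' :=
    fun y y' a1 a2 => hmin ν y y' hν ((mY y).1 a1) a2
  have hrot : ∀ (c : G ⧸ E) (p q : G), N.Near E c x p → N.Near E c x' q →
      2 * N.d p q < N.l (v ^ n) + 7 * C := by
    intro c p q hp hq
    by_contra hc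
    obtain ⟨r, hr, _, hr'⟩ := rc S (s := 2 * C) hp hq (by omega) (by omega)
    have h3 : ((r * x' : G) : G ⧸ E) = ((r * ν * b : G) : G ⧸ E) := by
      have : ((r * x' : G) : G ⧸ E) = r • (x' : G ⧸ E) := rfl
      rw [this, hx', hY', hB]
      show ((r * (ν * b) : G) : G ⧸ E) = _
      rw [mul_assoc]
    have := hmin (r * ν) x (r * x') (K.mul_mem hr hν) hx h3
    omega
  -- the element of the kernel
  have hk : f' * f⁻¹ ∈ K := by
    have e1 : f' * f⁻¹ = ν * (b * f * b⁻¹ * f⁻¹) * (f * ν⁻¹ * f⁻¹) := by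
      rw [hf', hB]; group
    rw [e1]
    exact K.mul_mem (K.mul_mem hν hb) (Subgroup.Normal.conj_mem ‹_› _ (K.inv_mem hν) _)
  have hk1 : f' * f⁻¹ ≠ 1 := by
    intro h3
    have h4 : f' = f := mul_inv_eq_one.1 h3
    exact hBE (S.mx B m hm0 h4)
  obtain ⟨Z, hZ⟩ := S.gl _ hk hk1 (f * x)
  have e1 : f' * f⁻¹ * (f * x) = f' * x := by group
  rw [e1] at hZ
  obtain ⟨u0, hu0⟩ := GNorm.exists_nearest (N := N) Z (f * x)
  obtain ⟨u1, hu1⟩ := GNorm.exists_nearest (N := N) Z x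
  obtain ⟨u2, hu2⟩ := GNorm.exists_nearest (N := N) Z x'
  obtain ⟨u3, hu3⟩ := GNorm.exists_nearest (N := N) Z (f' * x')
  obtain ⟨u4, hu4⟩ := GNorm.exists_nearest (N := N) Z (f' * x)
  have hL := hZ u0 u4 hu0 hu4
  have t1 := N.d_tri u0 u1 u4
  have t2 := N.d_tri u1 u2 u4
  have t3 := N.d_tri u2 u3 u4
  have df' : N.d (f' * x') (f' * x) = N.d x x' := by rw [N.d_left, N.d_comm]
  by_cases hZ' : Z = Y'
  · -- the axis of x'
    have o1 := S.ov Z Y (by rw [hZ']; exact hYY.symm) (f * x) x u0 u1 hfx1 hx1 hu0 hu1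
    have b1 := S.near_btw Z x u1 x' hu1 (by rw [hZ']; exact hx'1)
    have m1 := hmin1 x u1 hx1 (by rw [hu1.1, hZ'])
    have m2 := hu2.2 x' (by rw [hZ']; exact hx'1)
    rw [N.d_self] at m2
    have m3 := hu3.2 (f' * x') (by rw [hZ']; exact hf'x'1)
    rw [N.d_self] at m3
    have b4 := S.near_btw Z (f' * x) u4 (f' * x') hu4 (by rw [hZ']; exact hf'x'1)
    have m4 : N.d x x' ≤ N.d (f' * x) u4 := by
      have := hmin1 x (f'⁻¹ * u4) hx1 (by
        have e2 : ((f'⁻¹ * u4 : G) : G ⧸ E) = f'⁻¹ • (u4 : G ⧸ E) := rfl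
        rw [e2, hu4.1, hZ', inv_smul_eq_iff, hf'Y])
      have e3 := N.d_left f' x (f'⁻¹ * u4)
      rw [mul_inv_cancel_left] at e3
      omega
    rw [N.d_comm (f' * x) (f' * x')] at b4
    have s1 := N.d_tri u1 x' u2
    have s2 := N.d_tri u2 x' u3
    have s3 := N.d_tri x' (f' * x') u3
    have s4 := N.d_tri u3 (f' * x') u4
    have c1 := N.d_comm u2 x'
    have c2 := N.d_comm u3 (f' * x')
    have c3 := N.d_comm u4 (f' * x')
    omega
  by_cases hZ1 : Z = Y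
  · -- the axis of x
    have o1 := S.ov Z Y' (by rw [hZ1]; exact hYY) x' (f' * x') u2 u3 hx'1 hf'x'1 hu2 hu3
    have m0 := hu0.2 (f * x) (by rw [hZ1]; exact hfx1)
    rw [N.d_self] at m0
    have m1 := hu1.2 x (by rw [hZ1]; exact hx1)
    rw [N.d_self] at m1
    have b2 := S.near_btw Z x' u2 x hu2 (by rw [hZ1]; exact hx1)
    have m2 := hmin1 u2 x' (by rw [hu2.1, hZ1]) hx'1
    have s0 := N.d_tri u0 (f * x) u1
    have s1 := N.d_tri (f * x) x u1
    have s2 := N.d_tri u1 x u2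
    have c0 := N.d_comm u0 (f * x)
    have c1 := N.d_comm (f * x) x
    have c2 := N.d_comm u1 x
    have c3 := N.d_comm u2 x
    have c4 := N.d_comm x' x
    have c5 := N.d_comm u2 x'
    have p34 := S.near_two Z (f' * x') (f' * x) u3 u4 hu3 hu4 (by omega)
    have m3 := hmin1 u3 (f' * x') (by rw [hu3.1, hZ1]) hf'x'1
    have c6 := N.d_comm u3 (f' * x')
    omega
  · -- another axis
    have o1 := S.ov Z Y hZ1 (f * x) x u0 u1 hfx1 hx1 hu0 hu1
    have o2 := S.ov Z Y' hZ' x' (f' * x') u2 u3 hx'1 hf'x'1 hu2 hu3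
    have r1 := hrot Z u1 u2 hu1 hu2
    have r2 : 2 * N.d u4 u3 < N.l (v ^ n) + 7 * C := by
      have n1 := GNorm.near_smul hu4 f'⁻¹
      have n2 := GNorm.near_smul hu3 f'⁻¹
      rw [inv_mul_cancel_left] at n1 n2
      have := hrot _ _ _ n1 n2
      rwa [N.d_left] at this
    have c34 := N.d_comm u3 u4
    have p12 := S.near_two Z x x' u1 u2 hu1 hu2 (by omega)
    have p43 := S.near_two Z (f' * x) (f' * x') u4 u3 hu4 hu3 (by omega)
    rw [N.d_comm (f' * x) (f' * x'), df'] at p43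
    obtain ⟨w1, hw1⟩ := GNorm.exists_nearest (N := N) Y' u1
    obtain ⟨w4, hw4⟩ := GNorm.exists_nearest (N := N) Y' u4
    have o3 := S.ov Y' Z (fun h3 => hZ' h3.symm) u1 u4 w1 w4 hu1.1 hu4.1 hw1 hw4
    have b1 := S.near_btw Y' u1 w1 x' hw1 hx'1
    have m1 := hmin1 x w1 hx1 hw1.1
    have s1 := N.d_tri x u1 w1
    have s2 := N.d_tri u1 u2 x'
    have b4 := S.near_btw Y' u4 w4 (f' * x') hw4 hf'x'1
    have m4 : N.d x x' ≤ N.d (f' * x) w4 := by
      have := hmin1 x (f'⁻¹ * w4) hx1 (by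
        have e2 : ((f'⁻¹ * w4 : G) : G ⧸ E) = f'⁻¹ • (w4 : G ⧸ E) := rfl
        rw [e2, hw4.1, inv_smul_eq_iff, hf'Y])
      have e3 := N.d_left f' x (f'⁻¹ * w4)
      rw [mul_inv_cancel_left] at e3
      omega
    have s3 := N.d_tri (f' * x) u4 w4
    have s4 := N.d_tri u4 u3 (f' * x')
    have s5 := N.d_tri x' w1 (f' * x')
    have s6 := N.d_tri w1 w4 (f' * x')
    have c1 := N.d_comm x' w1
    omega

end Setup

end Pool.Agent.Lib.MP_bd8d5e_al
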