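import Pool.Agent.Lib.MP_bd8d5e_al.TL
import Pool.Agent.Lib.MP_bd8d5e_al.LemC
import Pool.Agent.Lib.MP_bd8d5e_al.LemR

/-! # Centralisers of odd torsion elements in the quotient -/

set_option autoImplicit false

namespace Pool.Agent.Lib.MP_bd8d5e_al

theorem a3_conj {H : Type*} [Group H] (g x : H)
    (h : Finite (Subgroup.centralizer {x}) ∧ IsCyclic (Subgroup.centralizer {x})) :
    Finite (Subgroup.centralizer {g * x * g⁻¹}) ∧ IsCyclic (Subgroup.centralizer {g * x * g⁻¹}) := by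
  obtain ⟨h1, h2⟩ := h
  have e : Subgroup.centralizer {g * x * g⁻¹} =
      (Subgroup.centralizer {x}).map (MulAut.conj g).toMonoidHom := by
    ext y
    rw [Subgroup.mem_map, Subgroup.mem_centralizer_singleton_iff]
    constructor
    · intro hy
      refine ⟨g⁻¹ * y * g, ?_, ?_⟩
      · rw [Subgroup.mem_centralizer_singleton_iff]
        have : g⁻¹ * y * g * x = g⁻¹ * (y * (g * x * g⁻¹)) * g := by group
        rw [this, hy]
        group
      · simp only [MulEquiv.toMonoidHom_eq_coe, MonoidHom.coe_coe, MulAut.conj_apply]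
        group
    · rintro ⟨z, hz, rfl⟩
      rw [Subgroup.mem_centralizer_singleton_iff] at hz
      simp only [MulEquiv.toMonoidHom_eq_coe, MonoidHom.coe_coe, MulAut.conj_apply]
      have : g * z * g⁻¹ * (g * x * g⁻¹) = g * (z * x) * g⁻¹ := by group
      rw [this, hz]
      group
  rw [e]
  have eq := (Subgroup.centralizer {x}).equivMapOfInjective (MulAut.conj g).toMonoidHom
    (MulAut.conj g).injective
  exact ⟨Finite.of_equiv _ eq.toEquiv, isCyclic_of_surjective _ eq.surjective⟩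

namespace Setup

variable {G : Type*} [Group G] {N : GNorm G} {E K : Subgroup G} {v : G} {n C : ℕ}

theorem a3_first [K.Normal] (S : Setup N E K v n C) (hC : FinCent G) {x : G} {m : ℕ}
    (hm : Odd m) (hx : x ^ m = 1) (h1 : (x : G ⧸ K) ≠ 1) :
    Finite (Subgroup.centralizer {(x : G ⧸ K)}) ∧
      IsCyclic (Subgroup.centralizer {(x : G ⧸ K)}) := by
  have hx1 : x ≠ 1 := by
    rintro rfl
    exact h1 rfl
  obtain ⟨f1, f2⟩ := hC x hx1 m hm hx
  have hxt : IsOfFinOrder x := isOfFinOrder_iff_pow_eq_one.2 ⟨m, hm.pos, hx⟩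
  have e : Subgroup.centralizer {(x : G ⧸ K)} =
      (Subgroup.centralizer {x}).map (QuotientGroup.mk' K) := by
    ext y
    rw [Subgroup.mem_map, Subgroup.mem_centralizer_singleton_iff]
    constructor
    · intro hy
      obtain ⟨g, rfl⟩ := QuotientGroup.mk_surjective y
      have h2 : g * x * g⁻¹ * x⁻¹ ∈ K := by
        rw [← QuotientGroup.eq_one_iff]
        have h3 : (((g * x * g⁻¹ * x⁻¹ : G)) : G ⧸ K) = (g : G ⧸ K) * x * (g : G ⧸ K)⁻¹ *
            (x : G ⧸ K)⁻¹ := rfl
        rw [h3, hy]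
        group
      have h4 : g * x * g⁻¹ ≠ 1 := by
        intro h5
        exact hx1 (conj_eq_one_iff.1 h5)
      obtain ⟨ν, hν, h6⟩ := conj_of_eq S hxt hm (by rw [conj_pow, hx]; group) h4 h2
      refine ⟨ν⁻¹ * g, ?_, ?_⟩
      · rw [Subgroup.mem_centralizer_singleton_iff]
        have : ν⁻¹ * g * x = ν⁻¹ * (g * x * g⁻¹) * g := by group
        rw [this, h6]
        group
      · rw [QuotientGroup.mk'_apply, QuotientGroup.eq]
        have : (ν⁻¹ * g)⁻¹ * g = g⁻¹ * ν * g := by group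
        rw [this]
        exact Subgroup.Normal.conj_mem' ‹_› _ hν _
    · rintro ⟨z, hz, rfl⟩
      rw [Subgroup.mem_centralizer_singleton_iff] at hz
      rw [QuotientGroup.mk'_apply]
      have h3 := congrArg (QuotientGroup.mk' K) hz
      exact h3
  rw [e]
  have hs := (QuotientGroup.mk' K).subgroupMap_surjective (Subgroup.centralizer {x})
  exact ⟨Finite.of_surjective _ hs, isCyclic_of_surjective _ hs⟩

theorem a3_second [K.Normal] (S : Setup N E K v n C) {k : ℤ}
    (h1 : ((v ^ k : G) : G ⧸ K) ≠ 1) :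
    Finite (Subgroup.centralizer {((v ^ k : G) : G ⧸ K)}) ∧
      IsCyclic (Subgroup.centralizer {((v ^ k : G) : G ⧸ K)}) := by
  set V : G ⧸ K := (v : G ⧸ K) with hV
  have eV : ∀ j : ℤ, ((v ^ j : G) : G ⧸ K) = V ^ j := fun j => rfl
  rw [eV] at h1 ⊢
  have hVn : V ^ n = 1 := by
    have : V ^ n = ((v ^ n : G) : G ⧸ K) := rfl
    rw [this, QuotientGroup.eq_one_iff]
    exact S.vK
  have hVn' : V ^ (n : ℤ) = 1 := by rw [zpow_natCast, hVn]
  have hVt : IsOfFinOrder V := isOfFinOrder_iff_pow_eq_one.2 ⟨n, S.nodd.pos, hVn⟩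
  -- the gcd
  set D := Int.gcd k n with hD
  have hbez : (D : ℤ) = k * Int.gcdA k n + n * Int.gcdB k n := Int.gcd_eq_gcd_ab k n
  have hVD : V ^ (D : ℤ) = (V ^ k) ^ Int.gcdA k n := by
    rw [hbez, zpow_add, zpow_mul, zpow_mul, hVn', one_zpow, mul_one]
  obtain ⟨q, hq⟩ : D ∣ n := by
    have := Int.gcd_dvd_right k (n : ℤ)
    exact_mod_cast this
  obtain ⟨c, hc⟩ : (D : ℤ) ∣ k := Int.gcd_dvd_left k (n : ℤ)
  have hqodd : Odd q := by
    have := S.nodd
    rw [hq] at this
    exact (Nat.odd_mul.1 this).2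
  have hq1 : q ≠ 1 := by
    rintro rfl
    apply h1
    rw [mul_one] at hq
    rw [hc, zpow_mul, ← hq, hVn', one_zpow]
  obtain ⟨t, ht⟩ := hqodd
  have ht1 : 1 ≤ t := by omega
  have hm1 : n ≤ 3 * (D * t) := by rw [hq, ht]; nlinarith
  have hm2 : 2 * (D * t) ≤ n := by rw [hq, ht]; nlinarith
  -- centralisers
  have hle : Subgroup.centralizer {V ^ k} ≤ Subgroup.zpowers V := by
    intro y hy
    rw [Subgroup.mem_centralizer_singleton_iff] at hy
    obtain ⟨b, rfl⟩ := QuotientGroup.mk_surjective y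
    have hcom : Commute (b : G ⧸ K) (V ^ (D * t)) := by
      have c1 : Commute (b : G ⧸ K) (V ^ k) := hy
      have c2 := (c1.zpow_right (Int.gcdA k n)).zpow_right (t : ℤ)
      rw [← hVD, ← zpow_mul] at c2
      have e : ((D : ℤ) * (t : ℤ)) = ((D * t : ℕ) : ℤ) := by push_cast; ring
      rw [e, zpow_natCast] at c2
      exact c2
    have hb : b * v ^ (D * t) * b⁻¹ * (v ^ (D * t))⁻¹ ∈ K := by
      rw [← QuotientGroup.eq_one_iff]
      have h3 : ((b * v ^ (D * t) * b⁻¹ * (v ^ (D * t))⁻¹ : G) : G ⧸ K) =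
          (b : G ⧸ K) * V ^ (D * t) * (b : G ⧸ K)⁻¹ * (V ^ (D * t))⁻¹ := rfl
      rw [h3, hcom.eq]
      group
    obtain ⟨ν, hν, hE⟩ := rot_cent S hm1 hm2 hb
    have hbν : (b : G ⧸ K) = ((ν * b : G) : G ⧸ K) := by
      rw [QuotientGroup.eq]
      have : b⁻¹ * (ν * b) = b⁻¹ * ν * b := by group
      rw [this]
      exact Subgroup.Normal.conj_mem' ‹_› _ hν _
    rw [hbν] at hy ⊢
    rcases S.dich _ hE with ⟨j, hj⟩ | ⟨_, _, h3⟩
    · rw [hj]
      exact ⟨j, rfl⟩
    · exfalso
      apply h1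
      have h4 : ((ν * b : G) : G ⧸ K) * V * ((ν * b : G) : G ⧸ K)⁻¹ = V⁻¹ := by
        have := congrArg (QuotientGroup.mk' K) h3
        exact this
      have h5 : V ^ k = V⁻¹ ^ k := by
        rw [← h4, conj_zpow, hy]
        group
      have h6 : V ^ (2 * k) = 1 := by
        have : (2 * k : ℤ) = k + k := by ring
        rw [this, zpow_add]
        nth_rewrite 1 [h5]
        rw [inv_zpow]
        group
      obtain ⟨s, hs⟩ := S.nodd
      have h7 : V ^ k = (V ^ (n : ℤ)) ^ k * ((V ^ (2 * k)) ^ (s : ℤ))⁻¹ := by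
        rw [← zpow_mul, ← zpow_mul, ← zpow_neg, ← zpow_add]
        congr 1
        rw [hs]
        push_cast
        ring
      rw [h7, h6, hVn', one_zpow, one_zpow, inv_one, mul_one]
  have hfin : Finite (Subgroup.zpowers V) := hVt.finite_zpowers.to_subtype
  have hinj : Function.Injective (Subgroup.inclusion hle) := Subgroup.inclusion_injective hle
  refine ⟨Finite.of_injective _ hinj, ?_⟩
  have : IsCyclic (Subgroup.zpowers V) := inferInstance
  exact isCyclic_of_injective _ hinj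

theorem finCent_quot [K.Normal] (S : Setup N E K v n C) (hT : TorOdd G) (hC : FinCent G) :
    FinCent (G ⧸ K) := by
  intro q hq m hm hqm
  rcases lift_odd S hT hq hm hqm with ⟨a, ha, m', hm', ha'⟩ | ⟨g, k, hg⟩
  · subst ha
    exact a3_first S hC hm' ha' hq
  · subst hg
    have e : ((g * v ^ k * g⁻¹ : G) : G ⧸ K) = (g : G ⧸ K) * ((v ^ k : G) : G ⧸ K) *
        (g : G ⧸ K)⁻¹ := rfl
    rw [e] at hq ⊢
    apply a3_conj
    apply a3_second S
    intro h
    apply hq
    rw [h]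
    group

end Setup

end Pool.Agent.Lib.MP_bd8d5e_al
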