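import Mathlib

/-! # Geodesic norms on groups and the four point inequality

Integer valued; `gp w x y` is twice the usual Gromov product. -/

set_option autoImplicit false

namespace Pool.Agent.Lib.MP_bd8d5e_al

/-- a geodesic norm on a group -/
structure GNorm (G : Type*) [Group G] where
  /-- the norm -/
  l : G → ℕ
  l_one : l 1 = 0
  eq_one : ∀ g, l g = 0 → g = 1
  l_inv : ∀ g, l g⁻¹ = l g
  l_mul : ∀ g h, l (g * h) ≤ l g + l h
  geo : ∀ g t, t ≤ l g → ∃ h, l h = t ∧ l (h⁻¹ * g) = l g - t

namespace GNorm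

variable {G : Type*} [Group G] (N : GNorm G)

/-- the left invariant distance -/
def d (x y : G) : ℕ := N.l (x⁻¹ * y)

/-- balls are finite -/
def FinBalls : Prop := ∀ r, {g | N.l g ≤ r}.Finite

/-- four point inequality -/
def FP (δ : ℕ) : Prop :=
  ∀ x y z w, N.d x z + N.d y w ≤ max (N.d x y + N.d z w) (N.d x w + N.d y z) + δ

/-- twice the Gromov product of `x` and `y` at `w` -/
def gp (w x y : G) : ℕ := N.d x w + N.d y w - N.d x y

/-- `z` lies on a geodesic from `x` to `y` -/
def Btw (x z y : G) : Prop := N.d x z + N.d z y = N.d x y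

@[simp] theorem d_self (x : G) : N.d x x = 0 := by
  rw [d, inv_mul_cancel, N.l_one]

theorem d_comm (x y : G) : N.d x y = N.d y x := by
  rw [d, d, ← N.l_inv]; congr 1; group

theorem d_tri (x y z : G) : N.d x z ≤ N.d x y + N.d y z := by
  have : x⁻¹ * z = (x⁻¹ * y) * (y⁻¹ * z) := by group
  rw [d, this]; exact N.l_mul _ _

theorem d_left (g x y : G) : N.d (g * x) (g * y) = N.d x y := by
  rw [d, d]; congr 1; group

theorem eq_of_d {x y : G} (h : N.d x y = 0) : x = y := by
  have := N.eq_one _ h
  exact (inv_mul_eq_one.1 this)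

theorem d_one (g : G) : N.d 1 g = N.l g := by rw [d, inv_one, one_mul]

/-- points on geodesics -/
theorem exists_btw (x y : G) {t : ℕ} (ht : t ≤ N.d x y) :
    ∃ z, N.d x z = t ∧ N.d z y = N.d x y - t := by
  obtain ⟨h, h1, h2⟩ := N.geo (x⁻¹ * y) t ht
  refine ⟨x * h, ?_, ?_⟩
  · rw [d, ← h1]; congr 1; group
  · rw [d, d, ← h2]; congr 1; group

theorem gp_add (w x y : G) : N.gp w x y + N.d x y = N.d x w + N.d y w := by
  have := N.d_tri x w y
  rw [N.d_comm w y] at this
  rw [gp]; omega

theorem gp_comm (w x y : G) : N.gp w x y = N.gp w y x := by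
  rw [gp, gp, N.d_comm x y, add_comm]

theorem gp_left (g w x y : G) : N.gp (g * w) (g * x) (g * y) = N.gp w x y := by
  rw [gp, gp, N.d_left, N.d_left, N.d_left]

theorem gp_self (w x : G) : N.gp w x x = 2 * N.d x w := by
  rw [gp, N.d_self]; omega

theorem btw_symm {x z y : G} (h : N.Btw x z y) : N.Btw y z x := by
  unfold Btw at *
  rw [N.d_comm y z, N.d_comm z x, N.d_comm y x]; omega

variable {N} {δ : ℕ}

theorem gp_min (hF : N.FP δ) (w x y z : G) :
    min (N.gp w x y) (N.gp w y z) ≤ N.gp w x z + δ := by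
  have h := hF x y z w
  have h1 := N.gp_add w x y
  have h2 := N.gp_add w y z
  have h3 := N.gp_add w x z
  have h4 := N.d_comm w z
  omega

theorem gp_min' (hF : N.FP δ) {w x y z : G} {D : ℕ} (h1 : D ≤ N.gp w x y) (h2 : D ≤ N.gp w y z) :
    D ≤ N.gp w x z + δ := by
  have := gp_min hF w x y z
  omega

/-- chain inequality -/
theorem gp_chain (hF : N.FP δ) (w : G) (D : ℕ) : ∀ (k n : ℕ) (p : ℕ → G), 0 < n → n ≤ 2 ^ k →
    (∀ i < n, D ≤ N.gp w (p i) (p (i + 1))) → D ≤ N.gp w (p 0) (p n) + k * δ := by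
  intro k
  induction k with
  | zero =>
    intro n p h0 h1 hp
    obtain rfl : n = 1 := by simp at h1; omega
    have := hp 0 (by omega)
    simp only [zero_add] at this
    omega
  | succ k ih =>
    intro n p h0 h1 hp
    rcases Nat.lt_or_ge (2 ^ k) n with h | h
    · have h2 : n - 2 ^ k ≤ 2 ^ k := by rw [pow_succ] at h1; omega
      have a1 := ih (2 ^ k) p (by positivity) le_rfl (fun i hi => hp i (by omega))
      have a2 := ih (n - 2 ^ k) (fun i => p (2 ^ k + i)) (by omega) h2
        (fun i hi => by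
          have := hp (2 ^ k + i) (by omega)
          simpa [add_assoc] using this)
      have e : 2 ^ k + (n - 2 ^ k) = n := by omega
      simp only [add_zero, e] at a2
      have := gp_min hF w (p 0) (p (2 ^ k)) (p n)
      have e2 : (k + 1) * δ = k * δ + δ := by ring
      omega
    · have a1 := ih n p h0 h hp
      have e2 : (k + 1) * δ = k * δ + δ := by ring
      omega

variable (N)

theorem gp_sub {w x y a b : G} (ha : N.Btw x a w) (hb : N.Btw w b y) :
    N.gp w a b ≤ N.gp w x y := by
  have h1 := N.gp_add w a b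
  have h2 := N.gp_add w x y
  have h3 := N.d_tri x a y
  have h4 := N.d_tri a b y
  have h5 := N.d_comm w b
  have h6 := N.d_comm w y
  unfold Btw at ha hb
  omega

theorem gp_btw_right {w p q p' : G} (h : N.Btw p q p') : N.gp w p p' ≤ N.gp w q p' := by
  have h1 := N.gp_add w p p'
  have h2 := N.gp_add w q p'
  have h3 := N.d_tri p q w
  unfold Btw at h
  omega

theorem gp_btw_left {w p q p' : G} (h : N.Btw p q p') : N.gp w p p' ≤ N.gp w p q := by
  have h1 := N.gp_add w p p'
  have h2 := N.gp_add w p q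
  have h3 := N.d_tri p' q w
  have h4 := N.d_comm p' q
  unfold Btw at h
  omega

theorem gp_le_of_near {a p p' q : G} (h : N.Btw p q p') : N.gp a p p' ≤ 2 * N.d a q := by
  have h1 := N.gp_add a p p'
  have h2 := N.d_tri p q a
  have h3 := N.d_tri p' q a
  have h4 := N.d_comm p' q
  have h5 := N.d_comm q a
  unfold Btw at h
  omega

variable {N}

/-- nearest point on a geodesic -/
theorem exists_near (hF : N.FP δ) (p p' a : G) :
    ∃ q, N.Btw p q p' ∧ 2 * N.d a q ≤ N.gp a p p' + 2 * δ + 2 := by
  set m := N.gp p a p' / 2 with hm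
  have h1 := N.gp_add p a p'
  have h2 := N.gp_add a p p'
  have h3 := N.d_tri p' p a
  have h4 := N.d_comm p' p
  have h5 := N.d_comm a p
  have h6 := N.d_comm a p'
  have hle : m ≤ N.d p p' := by
    have := N.d_tri a p' p
    omega
  obtain ⟨q, hq1, hq2⟩ := N.exists_btw p p' hle
  refine ⟨q, by unfold Btw; omega, ?_⟩
  have h7 := hF a p q p'
  have h8 := N.d_tri p a p'
  rcases le_total (N.d a p + N.d q p') (N.d a p' + N.d p q) with h9 | h9
  · rw [max_eq_right h9] at h7
    omega
  · rw [max_eq_left h9] at h7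
    omega

/-- centre of a triangle -/
theorem exists_centre (hF : N.FP δ) (x y z : G) :
    ∃ p, N.Btw x p y ∧ N.gp p x z ≤ δ + 2 ∧ N.gp p y z ≤ δ + 2 := by
  set m := N.gp x y z / 2 with hm
  have h1 := N.gp_add x y z
  have hyx := N.d_comm y x
  have hzx := N.d_comm z x
  have hzy := N.d_comm z y
  have hle : m ≤ N.d x y := by
    have := N.d_tri z y x
    omega
  obtain ⟨p, hp1, hp2⟩ := N.exists_btw x y hle
  have h7 := hF z x p y
  have hpy := N.d_comm p y
  have hzp := N.d_comm z p
  have h2 := N.gp_add p x z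
  have h3 := N.gp_add p y z
  have h8 := N.d_tri x z y
  have h9 := N.d_tri z x y
  have h10 := N.d_tri y x z
  rcases le_total (N.d z x + N.d p y) (N.d z y + N.d x p) with h9 | h9
  · rw [max_eq_right h9] at h7
    refine ⟨p, by unfold Btw; omega, by omega, by omega⟩
  · rw [max_eq_left h9] at h7
    refine ⟨p, by unfold Btw; omega, by omega, by omega⟩

end GNorm

end Pool.Agent.Lib.MP_bd8d5e_al
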