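import Pool.Agent.Lib.MP_bd8d5e_al.Setup
import Pool.Agent.Lib.MP_bd8d5e_al.Tools

/-! # Rotations and the corner lemma -/

set_option autoImplicit false

namespace Pool.Agent.Lib.MP_bd8d5e_al

namespace Setup

open GNorm

variable {G : Type*} [Group G] {N : GNorm G} {E K : Subgroup G} {v : G} {n C : ℕ}

/-- nearest points of points close to the coset -/
theorem near_le {c : G ⧸ E} {x p y : G} (hp : N.Near E c x p) (hy : (y : G ⧸ E) = c) :
    N.d x p ≤ N.d x y := hp.2 y hy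

theorem near_self {c : G ⧸ E} {y p : G} (hy : (y : G ⧸ E) = c) (hp : N.Near E c y p) : p = y := by
  have := hp.2 y hy
  rw [N.d_self] at this
  exact (N.eq_of_d (Nat.le_zero.1 this)).symm

theorem near_of_mem {c : G ⧸ E} {y : G} (hy : (y : G ⧸ E) = c) : N.Near E c y y :=
  ⟨hy, fun z _ => by rw [N.d_self]; omega⟩

/-- nearest points are coarsely Lipschitz -/
theorem lip (S : Setup N E K v n C) {c : G ⧸ E} {x x' p p' : G} (hp : N.Near E c x p)
    (hp' : N.Near E c x' p') : N.d p p' ≤ N.d x x' + C := by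
  by_contra h
  have := S.near_two c x x' p p' hp hp' (by omega)
  omega

/-- (OV') -/
theorem ov' (S : Setup N E K v n C) {c c' : G ⧸ E} {y y' z z' : G} {k : ℕ}
    (hy : (y : G ⧸ E) = c) (hy' : (y' : G ⧸ E) = c) (hz : (z : G ⧸ E) = c')
    (hz' : (z' : G ⧸ E) = c') (h1 : N.d y z ≤ k) (h2 : N.d y' z' ≤ k)
    (hfar : C + 4 * k < N.d y y') : c = c' := by
  by_contra hne
  obtain ⟨p, hp⟩ := exists_nearest (N := N) c z
  obtain ⟨p', hp'⟩ := exists_nearest (N := N) c z'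
  have h3 := S.ov c c' hne z z' p p' hz hz' hp hp'
  have h4 := hp.2 y hy
  have h5 := hp'.2 y' hy'
  have t1 := N.d_tri y z p
  have t2 := N.d_tri y' z' p'
  have t3 := N.d_tri y p y'
  have t4 := N.d_tri p p' y'
  have c1 := N.d_comm y z
  have c2 := N.d_comm y' z'
  have c3 := N.d_comm y' p'
  omega

/-- elements of the kernel are long -/
theorem long (S : Setup N E K v n C) {ν : G} (hν : ν ∈ K) (h1 : ν ≠ 1) (x : G) :
    N.l (v ^ n) ≤ N.d x (ν * x) + 2 * C := by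
  obtain ⟨c, hc⟩ := S.gl ν hν h1 x
  obtain ⟨p, hp⟩ := exists_nearest (N := N) c x
  obtain ⟨q, hq⟩ := exists_nearest (N := N) c (ν * x)
  have h2 := hc p q hp hq
  have h3 := S.lip hp hq
  omega

theorem vnz (S : Setup N E K v n C) {k : ℤ} (h : v ^ k = 1) : k = 0 := by
  by_contra hk
  apply S.ord
  exact isOfFinOrder_iff_zpow_eq_one.2 ⟨k, hk, h⟩

theorem n_pos (S : Setup N E K v n C) : 0 < n := S.nodd.pos

theorem mul_pow_le (S : Setup N E K v n C) {m : ℕ} (hm : m ≤ n) :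
    N.l (v ^ m) + N.l (v ^ (n - m)) ≤ N.l (v ^ n) + C := by
  have := S.ql m (n - m)
  rwa [Nat.add_sub_cancel' hm] at this

/-- the two powers `v ^ k` and the rotation by `n`: elements of the coset -/
theorem exists_pow (S : Setup N E K v n C) {g y : G} (hy : (y : G ⧸ E) = (g : G ⧸ E)) :
    ∃ k : ℤ, N.d y (g * v ^ k) ≤ C := by
  obtain ⟨k, hk⟩ := S.near_pow (g⁻¹ * y) (QuotientGroup.eq.1 hy.symm)
  refine ⟨k, ?_⟩
  have := N.d_left g (g⁻¹ * y) (v ^ k)
  rw [mul_inv_cancel_left] at this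
  omega

theorem l_zpow_natAbs (N : GNorm G) (v : G) (k : ℤ) : N.l (v ^ k) = N.l (v ^ k.natAbs) := by
  rcases Int.natAbs_eq k with h | h
  · rw [h, Int.natAbs_natCast, zpow_natCast]
  · rw [h, zpow_neg, N.l_inv, Int.natAbs_neg, Int.natAbs_natCast, zpow_natCast]

theorem d_zpow (N : GNorm G) (g v : G) (a b : ℤ) :
    N.d (g * v ^ a) (g * v ^ b) = N.l (v ^ (b - a).natAbs) := by
  rw [N.d_left, GNorm.d, ← zpow_neg, ← zpow_add, ← l_zpow_natAbs]
  congr 2; ring

theorem conj_pow_mem (S : Setup N E K v n C) (g : G) (e : ℤ) :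
    g * (v ^ n) ^ e * g⁻¹ ∈ K :=
  S.normal.conj_mem _ (zpow_mem S.vK e) g

theorem conj_pow_fix (S : Setup N E K v n C) (g : G) (e : ℤ) :
    (g * (v ^ n) ^ e * g⁻¹) • (g : G ⧸ E) = (g : G ⧸ E) := by
  symm
  apply QuotientGroup.eq.2
  have e1 : g⁻¹ * (g * (v ^ n) ^ e * g⁻¹ * g) = (v ^ n) ^ e := by group
  show g⁻¹ * (g * (v ^ n) ^ e * g⁻¹ * g) ∈ E
  rw [e1]
  exact zpow_mem (pow_mem S.vE n) e

/-- rotation of a point of the axis by `e = ± 1` towards another one -/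
theorem rot_pow (_S : Setup N E K v n C) (g : G) (e b : ℤ) {y' : G}
    (h : N.d y' (g * v ^ b) ≤ C) :
    N.d ((g * (v ^ n) ^ e * g⁻¹) * y') (g * v ^ (b + n * e)) ≤ C := by
  have h1 := N.d_left (g * (v ^ n) ^ e * g⁻¹) y' (g * v ^ b)
  have h2 : (g * (v ^ n) ^ e * g⁻¹) * (g * v ^ b) = g * v ^ (b + n * e) := by
    rw [zpow_add, ← zpow_natCast v n, ← zpow_mul, mul_assoc, inv_mul_cancel_left, mul_assoc,
      ← zpow_add, ← zpow_add, add_comm]
  rw [h2] at h1
  omega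

/-- (RL) rotation lemma -/
theorem rl (S : Setup N E K v n C) {c : G ⧸ E} {y y' : G} {s : ℕ} (hy : (y : G ⧸ E) = c)
    (hy' : (y' : G ⧸ E) = c) (hs : s + 5 * C ≤ N.l (v ^ n))
    (h : N.l (v ^ n) + s + 5 * C ≤ 2 * N.d y y') :
    ∃ r ∈ K, r • c = c ∧ N.d y (r * y') + s ≤ N.d y y' := by
  obtain ⟨g, rfl⟩ := QuotientGroup.mk_surjective c
  obtain ⟨a, ha⟩ := S.exists_pow hy
  obtain ⟨b, hb⟩ := S.exists_pow hy'
  -- sign
  obtain ⟨e, he, hab⟩ : ∃ e : ℤ, (e = 1 ∨ e = -1) ∧ (b - a) = - e * ((b - a).natAbs : ℤ) := by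
    rcases le_total 0 (b - a) with h0 | h0
    · refine ⟨-1, Or.inr rfl, ?_⟩
      rw [Int.natAbs_of_nonneg h0]; ring
    · refine ⟨1, Or.inl rfl, ?_⟩
      rw [Int.ofNat_natAbs_of_nonpos h0]; ring
  set m := (b - a).natAbs with hm
  refine ⟨g * (v ^ n) ^ e * g⁻¹, S.conj_pow_mem g e, S.conj_pow_fix g e, ?_⟩
  have h1 := S.rot_pow g e b hb
  have h2 := d_zpow N g v a b
  have h3 := d_zpow N g v a (b + n * e)
  have t1 := N.d_tri y (g * v ^ a) ((g * (v ^ n) ^ e * g⁻¹) * y')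
  have t2 := N.d_tri (g * v ^ a) (g * v ^ (b + n * e)) ((g * (v ^ n) ^ e * g⁻¹) * y')
  have c1 := N.d_comm (g * v ^ (b + n * e)) ((g * (v ^ n) ^ e * g⁻¹) * y')
  have t3 := N.d_tri y (g * v ^ a) y'
  have t4 := N.d_tri (g * v ^ a) (g * v ^ b) y'
  have c2 := N.d_comm (g * v ^ b) y'
  have t5 := N.d_tri (g * v ^ a) y (g * v ^ b)
  have t6 := N.d_tri y y' (g * v ^ b)
  have c3 := N.d_comm (g * v ^ a) y
  rw [← hm] at h2
  have h4 : (b + n * e - a).natAbs = if m ≤ n then n - m else m - n := by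
    rcases he with rfl | rfl <;> split_ifs <;> omega
  rw [h4] at h3
  by_cases hmn : m ≤ n
  · rw [if_pos hmn] at h3
    have h5 := S.mul_pow_le hmn
    omega
  · rw [if_neg hmn] at h3
    have h5 := S.ql (m - n) n
    have e1 : m - n + n = m := by omega
    rw [e1] at h5
    omega

/-- (RC) rotating a side -/
theorem rc (S : Setup N E K v n C) {c : G ⧸ E} {x x' p p' : G} {s : ℕ} (hp : N.Near E c x p)
    (hp' : N.Near E c x' p') (hs : s + 5 * C ≤ N.l (v ^ n))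
    (h : N.l (v ^ n) + s + 5 * C ≤ 2 * N.d p p') :
    ∃ r ∈ K, r • c = c ∧ N.d x (r * x') + s ≤ N.d x x' + C := by
  obtain ⟨r, hr, hrc, h1⟩ := S.rl hp.1 hp'.1 hs h
  have hbig := S.big
  have hpos := S.pos
  have h2 := S.near_two c x x' p p' hp hp' (by omega)
  have t1 := N.d_tri x p (r * x')
  have t2 := N.d_tri p (r * p') (r * x')
  have h3 := N.d_left r p' x'
  exact ⟨r, hr, hrc, by omega⟩

/-- CORNER LEMMA, short side first -/
theorem corner_aux (S : Setup N E K v n C) {c : G ⧸ E} {κ P Q Q' a b b' : G}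
    (hP : N.d P (κ * P) ≤ 5 * C) (hQ : N.d (κ * Q) Q' ≤ 5 * C) (ha : N.Near E c P a)
    (hb : N.Near E c Q b) (hb' : N.Near E c Q' b') (h1 : 700 * C ≤ N.d a b)
    (hle : N.d a b ≤ N.d a b') : κ • c = c := by
  have hpos := S.pos
  have p1 := S.near_two c P Q a b ha hb (by omega)
  have p2 := S.near_two c P Q' a b' ha hb' (by omega)
  have l1 := N.d_left κ P a
  have l2 := N.d_left κ P b
  have l3 := N.d_left κ a b
  have l4 := N.d_left κ a Q
  have l5 := N.d_left κ b Q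
  have l6 := N.d_left κ P Q
  -- distances from P
  have t1 := N.d_tri P (κ * P) (κ * a)
  have t2 := N.d_tri (κ * P) P (κ * a)
  have t3 := N.d_tri P (κ * P) (κ * b)
  have t4 := N.d_tri (κ * P) P (κ * b)
  have c1 := N.d_comm (κ * P) P
  have t5 := N.d_tri (κ * a) (κ * Q) Q'
  have t6 := N.d_tri (κ * b) (κ * Q) Q'
  have t7 := N.d_tri (κ * P) P Q'
  have t7' := N.d_tri (κ * P) Q' (κ * Q)
  have c7 := N.d_comm Q' (κ * Q)
  have t8 := N.d_tri P a b
  have t9 := N.d_tri P b Q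
  have t10 := N.d_tri P a Q
  have t11 := N.d_tri a b Q
  have t12 := N.d_tri P b' Q'
  have t13 := N.d_tri P a b'
  have t14 := N.d_tri a b' Q'
  have t15 := N.d_tri P a Q'
  have ka : N.d P (κ * a) + N.d (κ * a) Q' ≤ N.d P Q' + 21 * C := by omega
  have kb : N.d P (κ * b) + N.d (κ * b) Q' ≤ N.d P Q' + 21 * C := by omega
  have aP : N.d P a + N.d a Q' ≤ N.d P Q' + C := by omega
  have bP : N.d P b' + N.d b' Q' ≤ N.d P Q' + C := by omega
  have A1 := a2 S.fp ka aP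
  have A2 := a2 S.fp kb aP
  have A3 := a2 S.fp kb bP
  have near_ka : N.d (κ * a) a ≤ 28 * C := by omega
  -- a point of the axis near `κ b`
  have hy : ∃ y : G, (y : G ⧸ E) = c ∧ N.d (κ * b) y ≤ 115 * C := by
    rcases le_total (N.d P (κ * b)) (N.d P b') with h | h
    · have c2 := N.d_comm (κ * b) a
      obtain ⟨e, he, he2⟩ := S.qc c a b' (κ * b) (57 * C) ha.1 hb'.1 (by omega)
      exact ⟨e, he, by omega⟩
    · exact ⟨b', hb'.1, by omega⟩
  obtain ⟨y, hy, hyb⟩ := hy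
  have ka' : ((κ * a : G) : G ⧸ E) = κ • c := by rw [← ha.1]; rfl
  have kb' : ((κ * b : G) : G ⧸ E) = κ • c := by rw [← hb.1]; rfl
  have c3 := N.d_comm (κ * a) a
  have c4 := N.d_comm (κ * b) y
  have t16 := N.d_tri (κ * a) a (κ * b)
  have t17 := N.d_tri a y (κ * b)
  exact (S.ov' (k := 115 * C) ha.1 hy ka' kb' (by omega) (by omega) (by omega)).symm

/-- CORNER LEMMA -/
theorem corner (S : Setup N E K v n C) {c : G ⧸ E} {κ P Q Q' a b b' : G}
    (hP : N.d P (κ * P) ≤ 5 * C) (hQ : N.d (κ * Q) Q' ≤ 5 * C) (ha : N.Near E c P a)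
    (hb : N.Near E c Q b) (hb' : N.Near E c Q' b') (h1 : 700 * C ≤ N.d a b)
    (h2 : 700 * C ≤ N.d a b') : κ • c = c := by
  rcases le_total (N.d a b) (N.d a b') with h | h
  · exact S.corner_aux hP hQ ha hb hb' h1 h
  · have h3 := N.d_left κ (κ⁻¹ * P) P
    have h4 := N.d_left κ (κ⁻¹ * Q') Q
    rw [mul_inv_cancel_left] at h3 h4
    have c1 := N.d_comm (κ⁻¹ * P) P
    have c2 := N.d_comm (κ * Q) Q'
    have := S.corner_aux (κ := κ⁻¹) (by omega) (by omega) ha hb' hb h2 h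
    conv_lhs => rw [← this]
    exact smul_inv_smul κ c

/-- torsion elements fixing an axis are involutions or trivial -/
theorem tor_fix (S : Setup N E K v n C) {c : G ⧸ E} {κ : G} (h : κ • c = c)
    (ht : IsOfFinOrder κ) : κ ^ 2 = 1 := by
  obtain ⟨g, rfl⟩ := QuotientGroup.mk_surjective c
  have hg : g⁻¹ * κ * g ∈ E := by
    have : g⁻¹ * (κ * g) ∈ E := QuotientGroup.eq.1 h.symm
    rwa [← mul_assoc] at this
  have h2 : (g⁻¹ * κ * g) ^ 2 = 1 := by
    rcases S.dich _ hg with ⟨k, hk⟩ | ⟨-, h2, -⟩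
    · obtain ⟨m, hm, hm1⟩ := isOfFinOrder_iff_pow_eq_one.1 ht
      have e : (g⁻¹ * κ * g) ^ m = 1 := by
        have := conj_pow (i := m) (a := g⁻¹) (b := κ)
        rw [inv_inv] at this
        rw [this, hm1]; group
      rw [hk, ← zpow_natCast, ← zpow_mul] at e
      have := S.vnz e
      have hk0 : k = 0 := by
        rcases mul_eq_zero.1 this with h | h
        · exact h
        · exfalso; omega
      rw [hk, hk0]; simp
    · exact h2
  have e : κ = g * (g⁻¹ * κ * g) * g⁻¹ := by group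
  rw [e, conj_pow, h2]; group

end Setup

end Pool.Agent.Lib.MP_bd8d5e_al
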