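import Pool.Agent.Lib.MP_bd8d5e_al.EGrp

/-! # The torsion free part of the elementary subgroup is cyclic -/

set_option autoImplicit false

namespace Pool.Agent.Lib.MP_bd8d5e_al

open Subgroup in
/-- a torsion free group with a central cyclic subgroup of finite index is cyclic -/
theorem isCyclic_of_central {H : Type*} [Group H] (z : H) (hz : ∀ x : H, x * z = z * x)
    (hfin : Finite (H ⧸ zpowers z)) (htf : ∀ x : H, IsOfFinOrder x → x = 1) : IsCyclic H := by
  have hle : zpowers z ≤ center H := by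
    rw [zpowers_le, mem_center_iff]
    exact fun g => (hz g)
  have : FiniteIndex (zpowers z) := finiteIndex_of_finite_quotient
  have : FiniteIndex (center H) := finiteIndex_of_le hle
  have hpow : ∀ (x : H) (n : ℕ), n ≠ 0 → x ^ n = 1 → x = 1 := by
    intro x n hn hx
    exact htf x (isOfFinOrder_iff_pow_eq_one.2 ⟨n, Nat.pos_of_ne_zero hn, hx⟩)
  -- commutativity
  have hinj : Function.Injective (MonoidHom.transferCenterPow H) := by
    rw [injective_iff_map_eq_one]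
    intro x hx
    have h1 := MonoidHom.transferCenterPow_apply x
    rw [hx] at h1
    exact hpow x _ FiniteIndex.index_ne_zero (by rw [← h1]; rfl)
  have hcomm : ∀ x y : H, x * y = y * x := by
    intro x y
    apply hinj
    rw [map_mul, map_mul]
    apply Subtype.ext
    exact (mem_center_iff.1 (MonoidHom.transferCenterPow H y).2 _)
  have : (zpowers z).Normal := ⟨fun n hn g => by
    rw [hcomm g n, mul_inv_cancel_right]; exact hn⟩
  set m := (zpowers z).index with hm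
  have hm0 : m ≠ 0 := FiniteIndex.index_ne_zero
  let g : H →* zpowers z :=
    { toFun := fun x => ⟨x ^ m, (zpowers z).pow_index_mem x⟩
      map_one' := by apply Subtype.ext; simp
      map_mul' := by
        intro x y
        apply Subtype.ext
        show (x * y) ^ m = x ^ m * y ^ m
        exact (show Commute x y from hcomm x y).mul_pow m }
  apply isCyclic_of_injective g
  rw [injective_iff_map_eq_one]
  intro x hx
  apply hpow x m hm0
  exact congrArg Subtype.val hx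

variable {G : Type*} [Group G]

/-- the elements commuting with a power of `v` -/
def EP (v : G) : Subgroup G where
  carrier := {g | ∃ n : ℕ, 0 < n ∧ g * v ^ n = v ^ n * g}
  one_mem' := ⟨1, Nat.one_pos, by simp⟩
  mul_mem' := by
    rintro a b ⟨n, hn, ha⟩ ⟨m, hm, hb⟩
    refine ⟨n * m, Nat.mul_pos hn hm, ?_⟩
    have ha' : Commute a (v ^ n) := ha
    have hb' : Commute b (v ^ m) := hb
    have h1 : Commute a (v ^ (n * m)) := by rw [pow_mul]; exact ha'.pow_right m
    have h2 : Commute b (v ^ (n * m)) := by rw [Nat.mul_comm, pow_mul]; exact hb'.pow_right n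
    exact h1.mul_left h2
  inv_mem' := by
    rintro a ⟨n, hn, ha⟩
    have ha' : Commute a (v ^ n) := ha
    exact ⟨n, hn, ha'.inv_left⟩

theorem mem_EP {v g : G} : g ∈ EP v ↔ ∃ n : ℕ, 0 < n ∧ g * v ^ n = v ^ n * g := Iff.rfl

theorem EP_le_EE (v : G) : EP v ≤ EE v := by
  rintro g ⟨n, hn, h⟩
  refine ⟨n, hn, Or.inl ?_⟩
  rw [h, mul_inv_cancel_right]

theorem self_mem_EP (v : G) : v ∈ EP v :=
  ⟨1, Nat.one_pos, by simp⟩

theorem zpow_inj_of_inf {v : G} (hv : ¬ IsOfFinOrder v) {a b : ℤ} (h : v ^ a = v ^ b) : a = b :=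
  injective_zpow_iff_not_isOfFinOrder.2 hv h

/-- elements commuting with some power commute with the uniform power -/
theorem comm_of_CI {v g : G} (hv : ¬ IsOfFinOrder v) {n0 : ℕ} (h0 : 0 < n0) (hCI : CI v n0 g)
    (hg : g ∈ EP v) : g * v ^ n0 = v ^ n0 * g := by
  obtain ⟨n, hn, h⟩ := hg
  rcases hCI with hc | hc
  · calc g * v ^ n0 = g * v ^ n0 * g⁻¹ * g := by group
      _ = v ^ n0 * g := by rw [hc]
  · exfalso
    have e1 : g * v ^ (n0 * n) * g⁻¹ = (v ^ (n0 * n))⁻¹ := by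
      rw [pow_mul, ← conj_pow, hc, inv_pow]
    have e2 : g * v ^ (n0 * n) * g⁻¹ = v ^ (n0 * n) := by
      have h' : Commute g (v ^ n) := h
      have h2 : Commute g (v ^ (n0 * n)) := by
        rw [Nat.mul_comm, pow_mul]; exact h'.pow_right n0
      rw [h2.eq, mul_inv_cancel_right]
    rw [e2] at e1
    have e3 : v ^ ((n0 * n : ℕ) : ℤ) = v ^ (-((n0 * n : ℕ) : ℤ)) := by
      rw [zpow_neg, zpow_natCast]; exact e1
    have e4 := zpow_inj_of_inf hv e3
    have : 0 < n0 * n := Nat.mul_pos h0 hn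
    omega

namespace GNorm

variable {N : GNorm G} {δ : ℕ} {v : G}

theorem Lox.inf (hF : N.FP δ) (hv : N.Lox δ v) : ¬ IsOfFinOrder v := by
  intro h
  obtain ⟨n, hn, h1⟩ := isOfFinOrder_iff_pow_eq_one.1 h
  have h2 := Lox.le hF hv n
  rw [h1, N.l_one] at h2
  omega

/-- the torsion free part is cyclic -/
theorem Lox.cyc_aux (hfb : N.FinBalls) (hF : N.FP δ) (hv : N.Lox δ v)
    (htf : ∀ t ∈ EP v, IsOfFinOrder t → t = 1) : IsCyclic (EP v) := by
  classical
  have hinf := Lox.inf hF hv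
  obtain ⟨n0, hn0, hCI⟩ := Lox.uniform hfb hF hv
  have hcomm : ∀ g ∈ EP v, g * v ^ n0 = v ^ n0 * g := fun g hg =>
    comm_of_CI hinf hn0 (hCI g (EP_le_EE v hg)) hg
  set z : EP v := ⟨v ^ n0, (EP v).pow_mem (self_mem_EP v) n0⟩ with hz
  apply isCyclic_of_central z
  · intro x
    apply Subtype.ext
    exact hcomm x.1 x.2
  · -- finitely many cosets
    set B := N.rad δ v + n0 * N.l v with hB
    have hTfin : {x : EP v | N.l (x : G) ≤ B}.Finite :=
      (hfb B).preimage Subtype.val_injective.injOn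
    have hcov : ∀ c : EP v ⧸ Subgroup.zpowers z,
        c ∈ (fun x : EP v => (x : EP v ⧸ Subgroup.zpowers z)) '' {x : EP v | N.l (x : G) ≤ B} := by
      intro c
      obtain ⟨g, rfl⟩ := QuotientGroup.mk_surjective c
      obtain ⟨i, b, hb, hbl, hgb⟩ := Lox.cover hF hv (g := ((g : G))⁻¹)
        ((EE v).inv_mem (EP_le_EE v g.2))
      have hbEP : b ∈ EP v := by
        have : b = v ^ (-i) * (g : G)⁻¹ := by rw [hgb, zpow_neg]; group
        rw [this]
        exact (EP v).mul_mem ((EP v).zpow_mem (self_mem_EP v) _) ((EP v).inv_mem g.2)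
      set q : ℤ := (-i) / n0 with hq
      set r : ℤ := (-i) % n0 with hr
      have hqr : -i = r + n0 * q := by
        have := Int.emod_add_mul_ediv (-i) n0
        rw [hq, hr]; exact this.symm
      have hr0 : 0 ≤ r := Int.emod_nonneg _ (by omega)
      have hr1 : r < n0 := Int.emod_lt_of_pos _ (by omega)
      have hg : (g : G) = b⁻¹ * v ^ r * (v ^ n0) ^ q := by
        have e1 : (g : G) = b⁻¹ * v ^ (-i) := by
          have : (g : G) = ((g : G)⁻¹)⁻¹ := by rw [inv_inv]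
          rw [this, hgb, mul_inv_rev, zpow_neg]
        rw [e1, hqr, zpow_add, zpow_mul, zpow_natCast, mul_assoc]
      set t : EP v := ⟨b⁻¹ * v ^ r, (EP v).mul_mem ((EP v).inv_mem hbEP)
        ((EP v).zpow_mem (self_mem_EP v) _)⟩ with ht
      refine ⟨t, ?_, ?_⟩
      · show N.l (b⁻¹ * v ^ r) ≤ B
        have h1 := N.l_mul b⁻¹ (v ^ r)
        rw [N.l_inv] at h1
        have h2 : N.l (v ^ r) ≤ n0 * N.l v := by
          rw [N.l_zpow]
          exact (N.l_pow_le v _).trans (Nat.mul_le_mul_right _ (by omega))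
        omega
      · show (t : EP v ⧸ Subgroup.zpowers z) = g
        rw [QuotientGroup.eq, Subgroup.mem_zpowers_iff]
        refine ⟨q, ?_⟩
        apply Subtype.ext
        show (v ^ n0) ^ q = (b⁻¹ * v ^ r)⁻¹ * (g : G)
        rw [hg]; group
    have huniv : (Set.univ : Set (EP v ⧸ Subgroup.zpowers z)).Finite :=
      (hTfin.image _).subset (fun c _ => hcov c)
    exact Set.finite_univ_iff.1 huniv
  · intro x hx
    apply Subtype.ext
    apply htf x.1 x.2
    exact Submonoid.isOfFinOrder_coe.2 hx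

theorem exists_gen_of_cyclic {v : G} (hv : ¬ IsOfFinOrder v) (hc : IsCyclic (EP v)) :
    ∃ (v0 : G) (m : ℕ), 0 < m ∧ v = v0 ^ m ∧ ∀ g ∈ EP v, ∃ k : ℤ, g = v0 ^ k := by
  obtain ⟨x, hx⟩ := hc.exists_generator
  have hgen : ∀ g ∈ EP v, ∃ k : ℤ, g = (x : G) ^ k := by
    intro g hg
    obtain ⟨k, hk⟩ := Subgroup.mem_zpowers_iff.1 (hx ⟨g, hg⟩)
    exact ⟨k, by have := congrArg Subtype.val hk; exact this.symm⟩
  obtain ⟨m, hm⟩ := hgen v (self_mem_EP v)
  have hm0 : m ≠ 0 := by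
    rintro rfl
    apply hv
    rw [hm, zpow_zero]
    exact IsOfFinOrder.one
  rcases lt_or_gt_of_ne hm0 with h | h
  · refine ⟨(x : G)⁻¹, m.natAbs, by omega, ?_, ?_⟩
    · rw [← zpow_natCast, inv_zpow', Int.natCast_natAbs, abs_of_neg h, neg_neg]
      exact hm
    · intro g hg
      obtain ⟨k, hk⟩ := hgen g hg
      exact ⟨-k, by rw [inv_zpow', neg_neg]; exact hk⟩
  · refine ⟨(x : G), m.natAbs, by omega, ?_, hgen⟩
    rw [← zpow_natCast, Int.natCast_natAbs, abs_of_pos h]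
    exact hm

/-- the dichotomy -/
theorem Lox.cyc (hfb : N.FinBalls) (hF : N.FP δ) (hv : N.Lox δ v)
    (htf : ∀ t ∈ EP v, IsOfFinOrder t → t = 1) :
    ∃ (v0 : G) (m : ℕ), 0 < m ∧ v = v0 ^ m ∧ ¬ IsOfFinOrder v0 ∧ EE v0 = EE v ∧
      ∀ g ∈ EE v, (∃ k : ℤ, g = v0 ^ k) ∨ (g ≠ 1 ∧ g ^ 2 = 1 ∧ g * v0 * g⁻¹ = v0⁻¹) := by
  have hinf := Lox.inf hF hv
  obtain ⟨v0, m, hm, hvm, hgen⟩ := exists_gen_of_cyclic hinf (Lox.cyc_aux hfb hF hv htf)
  have hinf0 : ¬ IsOfFinOrder v0 := by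
    intro h
    apply hinf
    rw [hvm]
    exact h.pow
  have hEE : EE v0 = EE v := by rw [hvm, EE_pow v0 hm]
  refine ⟨v0, m, hm, hvm, hinf0, hEE, ?_⟩
  intro g hg
  by_cases hgP : g ∈ EP v
  · exact Or.inl (hgen g hgP)
  right
  obtain ⟨n, hn, hCI⟩ := hg
  -- `g` inverts `v ^ n`
  have hinv : g * v ^ n * g⁻¹ = (v ^ n)⁻¹ := by
    rcases hCI with h | h
    · exfalso
      apply hgP
      refine ⟨n, hn, ?_⟩
      calc g * v ^ n = g * v ^ n * g⁻¹ * g := by group
        _ = v ^ n * g := by rw [h]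
    · exact h
  -- the conjugate of `v0` lies in `EP v`
  have hconj : g * v0 * g⁻¹ ∈ EP v := by
    refine ⟨n, hn, ?_⟩
    have h1 : g * v0 * g⁻¹ * (v ^ n)⁻¹ = (v ^ n)⁻¹ * (g * v0 * g⁻¹) := by
      rw [← hinv]
      have h2 : v0 * v ^ n = v ^ n * v0 := by
        rw [hvm, ← pow_mul, ← pow_succ, ← pow_succ']
      calc g * v0 * g⁻¹ * (g * v ^ n * g⁻¹) = g * (v0 * v ^ n) * g⁻¹ := by group
        _ = g * (v ^ n * v0) * g⁻¹ := by rw [h2]
        _ = g * v ^ n * g⁻¹ * (g * v0 * g⁻¹) := by group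
    have h3 : Commute (g * v0 * g⁻¹) (v ^ n)⁻¹ := h1
    have h4 := h3.inv_right
    rw [inv_inv] at h4
    exact h4
  obtain ⟨a, ha⟩ := hgen _ hconj
  have hpow : ∀ k : ℤ, g * v0 ^ k * g⁻¹ = v0 ^ (a * k) := by
    intro k
    rw [← conj_zpow, ha, zpow_mul]
  have hva : a = -1 := by
    have h1 : g * v0 ^ ((m * n : ℕ) : ℤ) * g⁻¹ = v0 ^ (-((m * n : ℕ) : ℤ)) := by
      have e : v ^ n = v0 ^ ((m * n : ℕ) : ℤ) := by
        rw [hvm, ← pow_mul, zpow_natCast]
      rw [← e, hinv, e, zpow_neg]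
    rw [hpow] at h1
    have h2 := zpow_inj_of_inf hinf0 h1
    have h3 : ((m * n : ℕ) : ℤ) ≠ 0 := by
      have := Nat.mul_pos hm hn
      omega
    have h4 : (a + 1) * ((m * n : ℕ) : ℤ) = 0 := by linarith
    rcases mul_eq_zero.1 h4 with h5 | h5
    · linarith
    · exact absurd h5 h3
  have hinv0 : g * v0 * g⁻¹ = v0⁻¹ := by
    rw [ha, hva, zpow_neg_one]
  refine ⟨?_, ?_, hinv0⟩
  · rintro rfl
    exact hgP (EP v).one_mem
  · -- the square
    have hg2 : g ^ 2 ∈ EP v := by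
      refine ⟨n, hn, ?_⟩
      have h1 : g * (v ^ n)⁻¹ * g⁻¹ = v ^ n := by
        have : g * (v ^ n)⁻¹ * g⁻¹ = (g * v ^ n * g⁻¹)⁻¹ := by group
        rw [this, hinv, inv_inv]
      calc g ^ 2 * v ^ n = g * (g * v ^ n * g⁻¹) * g⁻¹ * g ^ 2 := by rw [pow_two]; group
        _ = v ^ n * g ^ 2 := by rw [hinv, h1]
    obtain ⟨j, hj⟩ := hgen _ hg2
    have h1 := hpow j
    rw [← hj, hva] at h1
    have h2 : g * g ^ 2 * g⁻¹ = g ^ 2 := by rw [pow_two]; group
    rw [h2, hj] at h1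
    have h3 := zpow_inj_of_inf hinf0 h1
    have h4 : j = 0 := by linarith
    rw [hj, h4, zpow_zero]

end GNorm

end Pool.Agent.Lib.MP_bd8d5e_al
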