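import Pool.Agent.Lib.MP_bd8d5e_al.EPow

/-! # The elementary subgroup of a loxodromic element -/

set_option autoImplicit false

namespace Pool.Agent.Lib.MP_bd8d5e_al

variable {G : Type*} [Group G]

/-- conjugation by `g` maps `u ^ n` to itself or to its inverse -/
def CI (u : G) (n : ℕ) (g : G) : Prop :=
  g * u ^ n * g⁻¹ = u ^ n ∨ g * u ^ n * g⁻¹ = (u ^ n)⁻¹

theorem CI.one (u : G) (n : ℕ) : CI u n 1 := by left; simp

theorem CI.mul_exp {u : G} {n : ℕ} {g : G} (h : CI u n g) (k : ℕ) : CI u (n * k) g := by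
  unfold CI at h ⊢
  rw [pow_mul, ← conj_pow]
  rcases h with h | h
  · left; rw [h]
  · right; rw [h, inv_pow]

theorem CI.mul_exp' {u : G} {n : ℕ} {g : G} (h : CI u n g) (k : ℕ) : CI u (k * n) g := by
  rw [Nat.mul_comm]; exact h.mul_exp k

theorem CI.mul {u : G} {n : ℕ} {g h : G} (hg : CI u n g) (hh : CI u n h) : CI u n (g * h) := by
  unfold CI at hg hh ⊢
  have e : g * h * u ^ n * (g * h)⁻¹ = g * (h * u ^ n * h⁻¹) * g⁻¹ := by group
  rw [e]
  rcases hh with hh | hh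
  · rw [hh]; exact hg
  · rw [hh]
    have e2 : g * (u ^ n)⁻¹ * g⁻¹ = (g * u ^ n * g⁻¹)⁻¹ := by group
    rw [e2]
    rcases hg with hg | hg
    · right; rw [hg]
    · left; rw [hg, inv_inv]

theorem CI.inv {u : G} {n : ℕ} {g : G} (hg : CI u n g) : CI u n g⁻¹ := by
  unfold CI at hg ⊢
  rcases hg with hg | hg
  · left
    calc g⁻¹ * u ^ n * g⁻¹⁻¹ = g⁻¹ * (g * u ^ n * g⁻¹) * g := by rw [hg, inv_inv]
      _ = u ^ n := by group
  · right
    have h2 : (g * u ^ n * g⁻¹)⁻¹ = u ^ n := by rw [hg, inv_inv]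
    calc g⁻¹ * u ^ n * g⁻¹⁻¹ = g⁻¹ * (g * u ^ n * g⁻¹)⁻¹ * g := by rw [h2, inv_inv]
      _ = (u ^ n)⁻¹ := by group

/-- the elementary subgroup of `u` -/
def EE (u : G) : Subgroup G where
  carrier := {g | ∃ n : ℕ, 0 < n ∧ CI u n g}
  one_mem' := ⟨1, Nat.one_pos, CI.one u 1⟩
  mul_mem' := by
    rintro a b ⟨n, hn, ha⟩ ⟨m, hm, hb⟩
    exact ⟨n * m, Nat.mul_pos hn hm, (ha.mul_exp m).mul (hb.mul_exp' n)⟩
  inv_mem' := by
    rintro a ⟨n, hn, ha⟩
    exact ⟨n, hn, ha.inv⟩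

theorem mem_EE {u g : G} : g ∈ EE u ↔ ∃ n : ℕ, 0 < n ∧ CI u n g := Iff.rfl

theorem self_mem_EE (u : G) : u ∈ EE u :=
  ⟨1, Nat.one_pos, Or.inl (by simp)⟩

theorem EE_pow (u : G) {j : ℕ} (hj : 0 < j) : EE (u ^ j) = EE u := by
  ext g
  rw [mem_EE, mem_EE]
  constructor
  · rintro ⟨n, hn, h⟩
    refine ⟨j * n, Nat.mul_pos hj hn, ?_⟩
    unfold CI at h ⊢
    rwa [pow_mul]
  · rintro ⟨n, hn, h⟩
    refine ⟨n, hn, ?_⟩
    have := h.mul_exp' j
    unfold CI at this ⊢
    rwa [pow_mul] at this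

namespace GNorm

variable {N : GNorm G} {δ : ℕ} {v : G}

/-- the radius of the coset representatives -/
def rad (N : GNorm G) (δ : ℕ) (v : G) : ℕ := N.l v + 23 * δ

theorem Lox.near_E (hF : N.FP δ) (hv : N.Lox δ v) {g : G} (hg : g ∈ EE v) :
    ∃ i : ℤ, N.d g (v ^ i) ≤ N.rad δ v := by
  obtain ⟨n, hn, hg⟩ := hg
  have hb := hv.big
  set M : ℕ := n * (2 * N.l g + 20 * δ + 1) with hM
  have hCI : CI v M g := hg.mul_exp _
  set t := N.l (v ^ M) with ht
  have hMt : M ≤ t := Lox.le hF hv M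
  have hMbig : 2 * N.l g + 20 * δ + 1 ≤ M := by
    rw [hM]; exact Nat.le_mul_of_pos_left _ hn
  -- the ends
  set A : G := v ^ (-(M : ℤ)) with hA
  set B : G := v ^ (M : ℤ) with hB
  have hAB : N.d A B = N.l (v ^ (2 * M)) := by
    rw [hA, hB, N.d_zpow, N.l_zpow]
    congr 2; omega
  have hadd : t + t ≤ N.l (v ^ (2 * M)) + 10 * δ := by
    have h := Lox.add hF hv M M
    have e : M + M = 2 * M := by ring
    rw [e] at h
    exact h
  have key : ∀ P Q : G, N.d A P ≤ N.l g → N.d B Q ≤ N.l g → N.d P g = t → N.d Q g = t →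
      N.d P Q = N.l (v ^ (2 * M)) → N.d A g + N.d B g ≤ N.d A B + 12 * δ := by
    intro P Q h1 h2 h3 h4 h5
    have f1 := hF P A Q g
    have f2 := hF A B Q g
    have tA := N.d_tri P A g
    have tB := N.d_tri Q B g
    rw [N.d_comm P A] at tA f1
    rw [N.d_comm Q B] at tB
    rw [h3, h4, h5] at f1
    rw [h4] at f2
    rw [h3] at tA
    rw [h4] at tB
    omega
  have hfin : N.d A g + N.d B g ≤ N.d A B + 12 * δ := by
    have hgA : ∀ x : G, N.d (g * x) g = N.l x := by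
      intro x
      unfold GNorm.d
      rw [← N.l_inv]
      congr 1
      group
    rcases hCI with h | h
    · -- commuting case
      have hB' : g * B = B * g := by
        rw [hB, zpow_natCast]
        calc g * v ^ M = g * v ^ M * g⁻¹ * g := by group
          _ = v ^ M * g := by rw [h]
      have hA' : g * A = A * g := by
        have e : A = B⁻¹ := by rw [hA, hB, zpow_neg]
        rw [e]
        calc g * B⁻¹ = B⁻¹ * (B * g) * B⁻¹ := by group
          _ = B⁻¹ * (g * B) * B⁻¹ := by rw [hB']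
          _ = B⁻¹ * g := by group
      apply key (g * A) (g * B)
      · rw [hA']; unfold GNorm.d
        have : A⁻¹ * (A * g) = g := by group
        rw [this]
      · rw [hB']; unfold GNorm.d
        have : B⁻¹ * (B * g) = g := by group
        rw [this]
      · rw [hgA, hA, zpow_neg, N.l_inv, zpow_natCast]
      · rw [hgA, hB, zpow_natCast]
      · rw [N.d_left, hAB]
    · have hB' : g * B = A * g := by
        rw [hB, hA, zpow_neg, zpow_natCast]
        calc g * v ^ M = g * v ^ M * g⁻¹ * g := by group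
          _ = (v ^ M)⁻¹ * g := by rw [h]
      have hA' : g * A = B * g := by
        have e : A = B⁻¹ := by rw [hA, hB, zpow_neg]
        rw [e] at hB' ⊢
        calc g * B⁻¹ = B * (B⁻¹ * g) * B⁻¹ := by group
          _ = B * (g * B) * B⁻¹ := by rw [hB']
          _ = B * g := by group
      apply key (g * B) (g * A)
      · rw [hB']; unfold GNorm.d
        have : A⁻¹ * (A * g) = g := by group
        rw [this]
      · rw [hA']; unfold GNorm.d
        have : B⁻¹ * (B * g) = g := by group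
        rw [this]
      · rw [hgA, hB, zpow_natCast]
      · rw [hgA, hA, zpow_neg, N.l_inv, zpow_natCast]
      · rw [N.d_left, N.d_comm, hAB]
  obtain ⟨i, -, -, hi⟩ := Lox.near_z hF hv (12 * δ) (-(M : ℤ)) M g (by
    rw [N.d_comm g]; exact hfin)
  refine ⟨i, hi.trans ?_⟩
  unfold rad
  omega

/-- every element of `EE v` is a power of `v` times a short element of `EE v` -/
theorem Lox.cover (hF : N.FP δ) (hv : N.Lox δ v) {g : G} (hg : g ∈ EE v) :
    ∃ (i : ℤ) (b : G), b ∈ EE v ∧ N.l b ≤ N.rad δ v ∧ g = v ^ i * b := by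
  obtain ⟨i, hi⟩ := Lox.near_E hF hv hg
  refine ⟨i, (v ^ i)⁻¹ * g, ?_, ?_, by group⟩
  · exact (EE v).mul_mem ((EE v).inv_mem ((EE v).zpow_mem (self_mem_EE v) i)) hg
  · rw [N.d_comm] at hi
    exact hi

/-- a uniform exponent -/
theorem Lox.uniform (hfb : N.FinBalls) (hF : N.FP δ) (hv : N.Lox δ v) :
    ∃ n0 : ℕ, 0 < n0 ∧ ∀ g ∈ EE v, CI v n0 g := by
  classical
  set S : Finset G := (hfb (N.rad δ v)).toFinset.filter (fun b => b ∈ EE v) with hS
  have hex : ∀ b ∈ EE v, ∃ n : ℕ, 0 < n ∧ CI v n b := fun b hb => hb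
  choose! f hf1 hf2 using hex
  refine ⟨∏ b ∈ S, f b, Finset.prod_pos (fun b hb => hf1 b (Finset.mem_filter.1 hb).2), ?_⟩
  intro g hg
  obtain ⟨i, b, hb, hbl, rfl⟩ := Lox.cover hF hv hg
  have hbS : b ∈ S := by
    rw [hS, Finset.mem_filter]
    exact ⟨(hfb _).mem_toFinset.2 hbl, hb⟩
  apply CI.mul
  · left
    have : v ^ i * v ^ (∏ b ∈ S, f b) = v ^ (∏ b ∈ S, f b) * v ^ i := by
      rw [← zpow_natCast, ← zpow_add, ← zpow_add, add_comm]
    rw [this]; group
  · obtain ⟨k, hk⟩ := Finset.dvd_prod_of_mem f hbS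
    rw [hk]
    exact (hf2 b hb).mul_exp k

end GNorm

end Pool.Agent.Lib.MP_bd8d5e_al
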