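import Pool.Agent.Lib.MP_bd8d5e_al.Basic

/-! # Powers of a loxodromic element -/

set_option autoImplicit false

namespace Pool.Agent.Lib.MP_bd8d5e_al

namespace GNorm

variable {G : Type*} [Group G] (N : GNorm G)

theorem l_pow_le (v : G) (n : ℕ) : N.l (v ^ n) ≤ n * N.l v := by
  induction n with
  | zero => simp [N.l_one]
  | succ n ih =>
    have := N.l_mul (v ^ n) v
    rw [pow_succ]
    have e : (n + 1) * N.l v = n * N.l v + N.l v := by ring
    omega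

theorem l_zpow (v : G) (k : ℤ) : N.l (v ^ k) = N.l (v ^ k.natAbs) := by
  rcases Int.natAbs_eq k with h | h
  · conv_lhs => rw [h]
    rw [zpow_natCast]
  · conv_lhs => rw [h]
    rw [zpow_neg, N.l_inv, zpow_natCast]

theorem d_zpow (v : G) (a b : ℤ) : N.d (v ^ a) (v ^ b) = N.l (v ^ (b - a)) := by
  unfold d
  rw [← zpow_neg, ← zpow_add]
  congr 2
  ring

/-- `v` is a good loxodromic element -/
structure Lox (δ : ℕ) (v : G) : Prop where
  big : 10 * δ < N.l v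
  sq : 2 * N.l v ≤ N.l (v ^ 2) + 8 * δ

variable {N} {δ : ℕ} {v : G}

/-- the four point inequality for norms of elements -/
theorem FP.four (h : N.FP δ) (x y z w : G) :
    N.d x z + N.d y w ≤ max (N.d x y + N.d z w) (N.d x w + N.d y z) + δ := h x y z w

theorem Lox.step (hF : N.FP δ) (hv : N.Lox δ v) (n : ℕ) :
    N.l v + N.l (v ^ n) ≤ N.l (v ^ (n + 1)) + 9 * δ := by
  have hb := hv.big
  have hs := hv.sq
  induction n with
  | zero => simp [N.l_one]
  | succ n ih =>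
    -- points 1, v, v^2, v^(n+2)
    have h4 := hF (v ^ (0 : ℤ)) (v ^ ((n : ℤ) + 2)) (v ^ (2 : ℤ)) (v ^ (1 : ℤ))
    rw [N.d_zpow, N.d_zpow, N.d_zpow, N.d_zpow, N.d_zpow, N.d_zpow] at h4
    rw [N.l_zpow v (2 - 0), N.l_zpow v (1 - ((n : ℤ) + 2)), N.l_zpow v ((n : ℤ) + 2 - 0),
      N.l_zpow v (1 - 2), N.l_zpow v (1 - 0), N.l_zpow v (2 - ((n : ℤ) + 2))] at h4
    have e1 : ((2 : ℤ) - 0).natAbs = 2 := rfl
    have e2 : ((1 : ℤ) - ((n : ℤ) + 2)).natAbs = n + 1 := by omega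
    have e3 : ((n : ℤ) + 2 - 0).natAbs = n + 1 + 1 := by omega
    have e4 : ((1 : ℤ) - 2).natAbs = 1 := rfl
    have e5 : ((1 : ℤ) - 0).natAbs = 1 := rfl
    have e6 : ((2 : ℤ) - ((n : ℤ) + 2)).natAbs = n := by omega
    rw [e1, e2, e3, e4, e5, e6, pow_one] at h4
    omega

theorem Lox.add (hF : N.FP δ) (hv : N.Lox δ v) (a b : ℕ) :
    N.l (v ^ a) + N.l (v ^ b) ≤ N.l (v ^ (a + b)) + 10 * δ := by
  have hb := hv.big
  rcases a with _ | a
  · simp [N.l_one]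
  have h4 := hF (v ^ (a : ℤ)) (v ^ (0 : ℤ)) (v ^ ((a : ℤ) + 1 + b)) (v ^ ((a : ℤ) + 1))
  rw [N.d_zpow, N.d_zpow, N.d_zpow, N.d_zpow, N.d_zpow, N.d_zpow] at h4
  rw [N.l_zpow v ((a : ℤ) + 1 + b - a), N.l_zpow v ((a : ℤ) + 1 - 0), N.l_zpow v (0 - (a : ℤ)),
      N.l_zpow v ((a : ℤ) + 1 - ((a : ℤ) + 1 + b)), N.l_zpow v ((a : ℤ) + 1 - a),
      N.l_zpow v ((a : ℤ) + 1 + b - 0)] at h4
  have e1 : ((a : ℤ) + 1 + b - a).natAbs = b + 1 := by omega
  have e2 : ((a : ℤ) + 1 - 0).natAbs = a + 1 := by omega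
  have e3 : ((0 : ℤ) - a).natAbs = a := by omega
  have e4 : ((a : ℤ) + 1 - ((a : ℤ) + 1 + b)).natAbs = b := by omega
  have e5 : ((a : ℤ) + 1 - a).natAbs = 1 := by omega
  have e6 : ((a : ℤ) + 1 + b - 0).natAbs = a + 1 + b := by omega
  rw [e1, e2, e3, e4, e5, e6, pow_one] at h4
  have s1 := Lox.step hF hv b
  have s2 := Lox.step hF hv a
  omega

theorem Lox.le (hF : N.FP δ) (hv : N.Lox δ v) (n : ℕ) : n ≤ N.l (v ^ n) := by
  have hb := hv.big
  induction n with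
  | zero => simp
  | succ n ih =>
    have := Lox.step hF hv n
    omega

theorem Lox.le_zpow (hF : N.FP δ) (hv : N.Lox δ v) (k : ℤ) : k.natAbs ≤ N.l (v ^ k) := by
  rw [N.l_zpow]; exact Lox.le hF hv _

/-- points of a coarse geodesic between `1` and `v^M` are near a power -/
theorem Lox.near (hF : N.FP δ) (hv : N.Lox δ v) (e M : ℕ) (y : G)
    (hy : N.l y + N.d y (v ^ M) ≤ N.l (v ^ M) + e) :
    ∃ i ≤ M, N.d y (v ^ i) ≤ N.l v + e + 11 * δ := by
  classical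
  set i := Nat.findGreatest (fun i => N.l (v ^ i) ≤ N.l y) M with hi
  have hiM : i ≤ M := Nat.findGreatest_le M
  have h0 : N.l (v ^ i) ≤ N.l y :=
    Nat.findGreatest_spec (P := fun i => N.l (v ^ i) ≤ N.l y) (m := 0) (Nat.zero_le _)
      (by simp [N.l_one])
  refine ⟨i, hiM, ?_⟩
  rcases hiM.lt_or_eq with hlt | heq
  · have h1 : ¬ N.l (v ^ (i + 1)) ≤ N.l y := by
      apply Nat.findGreatest_is_greatest (P := fun i => N.l (v ^ i) ≤ N.l y) (n := M)
      · rw [← hi]; omega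
      · omega
    have h4 := hF y 1 (v ^ i) (v ^ M)
    rw [N.d_one, N.d_one, N.d_comm y 1, N.d_one] at h4
    have hd : N.d (v ^ i) (v ^ M) = N.l (v ^ (M - i)) := by
      have := N.d_zpow v i M
      rw [zpow_natCast, zpow_natCast] at this
      rw [this, N.l_zpow]
      congr 2; omega
    rw [hd] at h4
    have ha := Lox.add hF hv i (M - i)
    have e1 : i + (M - i) = M := by omega
    rw [e1] at ha
    have hm := N.l_mul (v ^ i) v
    rw [← pow_succ] at hm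
    omega
  · rw [heq] at h0 ⊢
    omega

/-- integer version of `near` -/
theorem Lox.near_z (hF : N.FP δ) (hv : N.Lox δ v) (e : ℕ) (a b : ℤ) (y : G)
    (hy : N.d (v ^ a) y + N.d y (v ^ b) ≤ N.d (v ^ a) (v ^ b) + e) :
    ∃ i : ℤ, min a b ≤ i ∧ i ≤ max a b ∧ N.d y (v ^ i) ≤ N.l v + e + 11 * δ := by
  have main : ∀ a b : ℤ, a ≤ b →
      N.d (v ^ a) y + N.d y (v ^ b) ≤ N.d (v ^ a) (v ^ b) + e →
      ∃ i : ℤ, a ≤ i ∧ i ≤ b ∧ N.d y (v ^ i) ≤ N.l v + e + 11 * δ := by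
    intro a b hab hy
    obtain ⟨i, hi, h⟩ := Lox.near hF hv e (b - a).toNat (v ^ (-a) * y) (by
      have e1 : N.l (v ^ (-a) * y) = N.d (v ^ a) y := by
        unfold GNorm.d; rw [zpow_neg]
      have e2 : (v ^ ((b - a).toNat)) = v ^ (-a) * v ^ b := by
        rw [← zpow_natCast, ← zpow_add]
        congr 1; omega
      have e3 : N.l (v ^ (-a) * v ^ b) = N.d (v ^ a) (v ^ b) := by
        unfold GNorm.d; rw [zpow_neg]
      rw [e1, e2, N.d_left, e3]
      exact hy)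
    refine ⟨a + i, by omega, by omega, ?_⟩
    have e2 : v ^ i = v ^ (-a) * v ^ (a + (i : ℤ)) := by
      rw [← zpow_natCast, ← zpow_add]
      congr 1; omega
    rw [e2, N.d_left] at h
    exact h
  rcases le_total a b with hab | hab
  · obtain ⟨i, h1, h2, h3⟩ := main a b hab hy
    exact ⟨i, by omega, by omega, h3⟩
  · obtain ⟨i, h1, h2, h3⟩ := main b a hab (by
      rw [N.d_comm (v ^ b) y, N.d_comm y (v ^ a), N.d_comm (v ^ b) (v ^ a)]
      omega)
    exact ⟨i, by omega, by omega, h3⟩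

end GNorm

end Pool.Agent.Lib.MP_bd8d5e_al
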