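import Pool.Agent.Lib.MP_bd8d5e_al.ELox
import Pool.Agent.Lib.MP_bd8d5e_al.EProj

/-! # Roots of loxodromic elements, and overlaps of an axis with a cyclic group -/

set_option autoImplicit false

namespace Pool.Agent.Lib.MP_bd8d5e_al

variable {G : Type*} [Group G]

namespace GNorm

variable {N : GNorm G} {δ : ℕ} {v : G}

theorem FP.mono (hF : N.FP δ) {δ' : ℕ} (h : δ ≤ δ') : N.FP δ' := by
  intro x y z w
  have := hF x y z w
  omega

/-- quasi-additivity for a root -/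
theorem Lox.ql_root (hF : N.FP δ) (hv : N.Lox δ v) {v0 : G} {m : ℕ} (hm : 0 < m)
    (h : v = v0 ^ m) (a b : ℕ) :
    N.l (v0 ^ a) + N.l (v0 ^ b) ≤ N.l (v0 ^ (a + b)) + (10 * δ + 4 * (m * N.l v0)) := by
  have up : ∀ a : ℕ, N.l (v0 ^ a) ≤ N.l (v ^ (a / m)) + m * N.l v0 := by
    intro a
    have e : v0 ^ a = v ^ (a / m) * v0 ^ (a % m) := by
      rw [h, ← pow_mul, ← pow_add, Nat.div_add_mod]
    have h1 := N.l_mul (v ^ (a / m)) (v0 ^ (a % m))
    rw [← e] at h1
    have h2 := N.l_pow_le v0 (a % m)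
    have h3 : a % m * N.l v0 ≤ m * N.l v0 := Nat.mul_le_mul_right _ (Nat.mod_lt _ hm).le
    omega
  have lo : N.l (v ^ (a / m + b / m)) ≤ N.l (v0 ^ (a + b)) + 2 * (m * N.l v0) := by
    have e : v ^ (a / m + b / m) = v0 ^ (a + b) * (v0 ^ (a % m + b % m))⁻¹ := by
      rw [eq_mul_inv_iff_mul_eq, h, ← pow_mul, ← pow_add]
      congr 1
      have h1 := Nat.div_add_mod a m
      have h2 := Nat.div_add_mod b m
      rw [mul_add]
      omega
    have h1 := N.l_mul (v0 ^ (a + b)) (v0 ^ (a % m + b % m))⁻¹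
    rw [← e, N.l_inv] at h1
    have h2 := N.l_pow_le v0 (a % m + b % m)
    have h3 : (a % m + b % m) * N.l v0 ≤ (2 * m) * N.l v0 :=
      Nat.mul_le_mul_right _ (by have := Nat.mod_lt a hm; have := Nat.mod_lt b hm; omega)
    have h4 : (2 * m) * N.l v0 = 2 * (m * N.l v0) := by ring
    omega
  have h1 := up a
  have h2 := up b
  have h3 := Lox.add hF hv (a / m) (b / m)
  omega

/-- powers of a root are long -/
theorem Lox.growth (hF : N.FP δ) (hv : N.Lox δ v) {v0 : G} {m : ℕ} (hm : 0 < m)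
    (h : v = v0 ^ m) (B : ℕ) : ∃ n1 : ℕ, ∀ n, n1 ≤ n → B ≤ N.l (v0 ^ n) := by
  refine ⟨m * (B + m * N.l v0), fun n hn => ?_⟩
  have e : v ^ (n / m) = v0 ^ n * (v0 ^ (n % m))⁻¹ := by
    rw [eq_mul_inv_iff_mul_eq, h, ← pow_mul, ← pow_add, Nat.div_add_mod]
  have h1 := N.l_mul (v0 ^ n) (v0 ^ (n % m))⁻¹
  rw [← e, N.l_inv] at h1
  have h2 := N.l_pow_le v0 (n % m)
  have h3 : n % m * N.l v0 ≤ m * N.l v0 := Nat.mul_le_mul_right _ (Nat.mod_lt _ hm).le
  have h4 := Lox.le hF hv (n / m)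
  have h5 : B + m * N.l v0 ≤ n / m := (Nat.le_div_iff_mul_le hm).2 (by rw [Nat.mul_comm]; exact hn)
  omega

variable {E : Subgroup G}

/-- if a long part of an axis lies near the orbit of a cyclic group, it is preserved -/
theorem axis_fixed (hfb : N.FinBalls) (hF : N.FP δ) {cq th : ℕ} (hq : N.QConv E cq)
    (hb : N.BProj E th) {w : G} (hw : ¬ IsOfFinOrder w) :
    ∃ Lw : ℕ, ∀ (c : G ⧸ E) (j : ℕ) (p q : G), N.Near E c 1 p → N.Near E c (w ^ j) q →
      Lw < N.d p q → w • c = c := by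
  obtain ⟨h, i, hi, hlox⟩ := exists_lox hfb hF hw
  set v := h⁻¹ * w ^ i * h with hv
  set R1 := i * N.l w + N.l h with hR1
  set c2 := 4 * cq + 7 * δ + 12 with hc2
  set e := 2 * N.l h + 2 * R1 + c2 with he
  set ρ := N.l v + e + 11 * δ with hρ
  set κ := 2 * ρ + 2 * N.l h + N.l w with hκ
  refine ⟨max (2 * cq + 4 * δ + 6) (th + 4 * κ), ?_⟩
  intro c j p q hp hq' hpq
  have hvk : ∀ k : ℕ, h * v ^ k = w ^ (i * k) * h := by
    intro k
    have e1 : v ^ k = h⁻¹ * (w ^ i) ^ k * h := by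
      have := conj_pow (i := k) (a := h⁻¹) (b := w ^ i)
      rw [inv_inv] at this
      rw [hv, this]
    rw [e1, ← pow_mul]; group
  set k := j / i with hk
  set r := j % i with hr
  have hjk : i * k + r = j := Nat.div_add_mod j i
  have hend : N.d (w ^ j) (h * v ^ k) ≤ R1 := by
    rw [hvk]
    have e1 : w ^ j = w ^ (i * k) * w ^ r := by rw [← pow_add, hjk]
    rw [e1, N.d_left]
    have h1 := N.l_mul (w ^ r)⁻¹ h
    rw [N.l_inv] at h1
    have h2 := N.l_pow_le w r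
    have h3 : r * N.l w ≤ i * N.l w := Nat.mul_le_mul_right _ (Nat.mod_lt _ hi).le
    unfold d
    omega
  have h2 := near_two hF hq hp hq' (by omega)
  rw [← hc2] at h2
  have hstart : N.d h 1 = N.l h := by rw [N.d_comm, N.d_one]
  have t0 := N.d_tri 1 h (w ^ j)
  have t00 := N.d_one h
  have t0' := N.d_tri h (h * v ^ k) (w ^ j)
  rw [N.d_comm (h * v ^ k) (w ^ j)] at t0'
  -- points near the quasigeodesic
  have near_pt : ∀ x : G, N.d 1 x + N.d x (w ^ j) ≤ N.d 1 (w ^ j) + c2 →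
      N.d x (w * x) ≤ κ := by
    intro x hx
    have t1 := N.d_tri h 1 x
    have t2 := N.d_tri x (w ^ j) (h * v ^ k)
    have hyp : N.l (h⁻¹ * x) + N.d (h⁻¹ * x) (v ^ k) ≤ N.l (v ^ k) + e := by
      have e1 : N.l (h⁻¹ * x) = N.d h x := rfl
      have e2 : N.d (h⁻¹ * x) (v ^ k) = N.d x (h * v ^ k) := by
        rw [← N.d_left h]; congr 1; group
      have e3 : N.l (v ^ k) = N.d h (h * v ^ k) := by
        unfold d; congr 1; group
      rw [e1, e2, e3]
      omega
    obtain ⟨a, -, ha⟩ := Lox.near hF hlox e k (h⁻¹ * x) hyp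
    have e2 : N.d (h⁻¹ * x) (v ^ a) = N.d x (h * v ^ a) := by
      rw [← N.d_left h]; congr 1; group
    rw [e2] at ha
    have s1 := N.d_tri x (h * v ^ a) (w * x)
    have s2 := N.d_tri (h * v ^ a) (w * (h * v ^ a)) (w * x)
    have s3 : N.d (w * (h * v ^ a)) (w * x) = N.d x (h * v ^ a) := by
      rw [N.d_left, N.d_comm]
    have s4 : N.d (h * v ^ a) (w * (h * v ^ a)) ≤ 2 * N.l h + N.l w := by
      rw [hvk]
      have e4 : w * (w ^ (i * a) * h) = w ^ (i * a) * (w * h) := by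
        rw [← mul_assoc, ← mul_assoc, ← pow_succ, ← pow_succ']
      rw [e4, N.d_left]
      unfold d
      have u1 := N.l_mul h⁻¹ (w * h)
      have u2 := N.l_mul w h
      rw [N.l_inv] at u1
      omega
    omega
  have tp := N.d_tri p q (w ^ j)
  have tq := N.d_tri 1 p q
  have kp := near_pt p (by omega)
  have kq := near_pt q (by omega)
  by_contra hne
  obtain ⟨p', hp'⟩ := exists_nearest (N := N) c (w * p)
  obtain ⟨q', hq''⟩ := exists_nearest (N := N) c (w * q)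
  have b1 := near_close hp' hp.1
  have b2 := near_close hq'' hq'.1
  have hwp : ((w * p : G) : G ⧸ E) = w • c := by
    have : ((w * p : G) : G ⧸ E) = w • (p : G ⧸ E) := rfl
    rw [this, hp.1]
  have hwq : ((w * q : G) : G ⧸ E) = w • c := by
    have : ((w * q : G) : G ⧸ E) = w • (q : G ⧸ E) := rfl
    rw [this, hq'.1]
  have b3 := hb c (w • c) (Ne.symm hne) (w * p) (w * q) p' q' hwp hwq hp' hq''
  have s1 := N.d_tri p p' q
  have s2 := N.d_tri p' q' q
  rw [N.d_comm q' q] at s2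
  rw [N.d_comm (w * p) p] at b1
  rw [N.d_comm (w * q) q] at b2
  omega

end GNorm

end Pool.Agent.Lib.MP_bd8d5e_al
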