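import Mathlib

/-! # `T₀`-groups

Definitions of the problem file. For a subgroup `H` and an element `g` we write
`H.conjBy g = g⁻¹ H g`. -/

set_option autoImplicit false

namespace Pool.Agent.Lib.MP_bd8d5e_al

/-- the conjugate subgroup `H ^ g = g⁻¹ H g` -/
def conjBy {G : Type*} [Group G] (H : Subgroup G) (g : G) : Subgroup G :=
  H.comap (MulAut.conj g).toMonoidHom

theorem mem_conjBy {G : Type*} [Group G] {H : Subgroup G} {g x : G} :
    x ∈ conjBy H g ↔ g * x * g⁻¹ ∈ H := by
  simp [conjBy]

/-- the periodic part of a subgroup `X`: the set of its elements of finite order -/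
def periodicPart {G : Type*} [Group G] (X : Subgroup G) : Set G := {x | x ∈ X ∧ IsOfFinOrder x}

/-- `P` is a Frobenius group with kernel `F` and complement `H` -/
structure IsFrobenius {P : Type*} [Group P] (F H : Subgroup P) : Prop where
  ne_bot : H ≠ ⊥
  ne_top : H ≠ ⊤
  malnormal : ∀ g : P, g ∉ H → H ⊓ conjBy H g = ⊥
  kernel : (F : Set P) = (Set.univ \ ⋃ g : P, (conjBy H g : Set P)) ∪ {1}
  normal : F.Normal
  prod : ∀ x : P, ∃ f ∈ F, ∃ h ∈ H, x = f * h
  inter : F ⊓ H = ⊥

/-- `G` is a `T₀`-group with respect to `i` -/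
structure IsT0 (G : Type*) [Group G] (i : G) : Prop where
  /-- `i` is an involution -/
  invol : orderOf i = 2
  /-- products of two conjugates of `i` have finite order -/
  prod : ∀ j k : G, IsConj i j → IsConj i k → IsOfFinOrder (j * k)
  /-- `2`-subgroups are cyclic or generalised quaternion -/
  two : ∀ P : Subgroup G, IsPGroup 2 P →
    IsCyclic P ∨ ∃ n : ℕ, 1 ≤ n ∧ Nonempty (P ≃* QuaternionGroup (2 ^ n))
  /-- the centraliser of `i` is infinite -/
  infinite : Infinite (Subgroup.centralizer {i})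
  ne_top : Subgroup.centralizer {i} ≠ ⊤
  periodic : (periodicPart (Subgroup.centralizer {i})).Finite
  /-- normalisers of finite `i`-invariant subgroups -/
  normalizer : ∀ K : Subgroup G, K ≠ ⊥ → Finite K → conjBy K i = K →
    Subgroup.normalizer (K : Set G) ≤ Subgroup.centralizer {i} ∨
      ∃ P : Subgroup G, (P : Set G) = periodicPart (Subgroup.normalizer (K : Set G)) ∧
        ∃ F H : Subgroup P, IsFrobenius F H ∧ (∀ x ∈ F, ∀ y ∈ F, x * y = y * x) ∧
          Finite H ∧ Even (Nat.card H)
  /-- condition 5 -/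
  gen : ∀ c : G, c ∉ Subgroup.centralizer {i} → orderOf (c * i) = 2 →
    ∃ s ∈ Subgroup.centralizer {i}, Infinite (Subgroup.closure {c, s⁻¹ * c * s})

/-- `T₀`-groups -/
def IsT0Group (G : Type*) [Group G] : Prop := ∃ i : G, IsT0 G i

end Pool.Agent.Lib.MP_bd8d5e_al
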