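import Pool.Agent.Lib.MP_bd8d5e_al.Setup
import Pool.Agent.Lib.MP_bd8d5e_al.T0Def

/-! # The final algebra: the limit group contains a simple `T₀`-group -/

set_option autoImplicit false

namespace Pool.Agent.Lib.MP_bd8d5e_al

/-- properties of the limit group -/
structure Mon (G : Type*) [Group G] (i j : G) : Prop where
  i1 : i ≠ 1
  i2 : i ^ 2 = 1
  j1 : j ≠ 1
  j2 : j ^ 2 = 1
  ij : i ≠ j
  inf : ∃ s : G, s * i = i * s ∧ ¬ IsOfFinOrder s
  F0 : TorOdd G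
  F2 : ∀ a b : G, a ≠ 1 → b ≠ 1 → a ^ 2 = 1 → b ^ 2 = 1 → ∃ n, Odd n ∧ (a * b) ^ n = 1
  F3 : ∀ t τ : G, IsOfFinOrder t → τ ≠ 1 → τ ^ 2 = 1 → t * τ = τ * t → t = 1 ∨ t = τ
  F4 : ∀ (c s : G) (n : ℕ), c ≠ 1 → Odd n → c ^ n = 1 → ¬ IsOfFinOrder s →
    c * s ≠ s * c ∧ c * (s⁻¹ * c * s) ≠ (s⁻¹ * c * s) * c
  F5 : ∀ g : G, g * i = i * g → g ≠ 1 → g ≠ i → ∃ m n : ℕ, m ≠ 0 ∧ Odd n ∧ (g ^ m * j) ^ n = 1

section

variable {G : Type*} [Group G]

theorem eq_one_of_odd {x : G} {n : ℕ} (hn : Odd n) (h2 : x ^ 2 = 1) (h : x ^ n = 1) : x = 1 := by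
  obtain ⟨k, rfl⟩ := hn
  rwa [pow_succ, pow_mul, h2, one_pow, one_mul] at h

theorem inv_eq_self {x : G} (h2 : x ^ 2 = 1) : x⁻¹ = x := by
  rw [pow_two] at h2
  exact inv_eq_of_mul_eq_one_right h2

theorem invol_conj {x : G} (h1 : x ≠ 1) (h2 : x ^ 2 = 1) (g : G) :
    g * x * g⁻¹ ≠ 1 ∧ (g * x * g⁻¹) ^ 2 = 1 := by
  constructor
  · intro h
    apply h1
    have : x = g⁻¹ * (g * x * g⁻¹) * g := by group
    rw [this, h]; group
  · rw [conj_pow, h2]; group

theorem fin_of_sq {x : G} (h2 : x ^ 2 = 1) : IsOfFinOrder x :=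
  isOfFinOrder_iff_pow_eq_one.2 ⟨2, by norm_num, h2⟩

theorem fin_of_odd {x : G} {n : ℕ} (hn : Odd n) (h : x ^ n = 1) : IsOfFinOrder x :=
  isOfFinOrder_iff_pow_eq_one.2 ⟨n, hn.pos, h⟩

end

namespace Mon

variable {G : Type*} [Group G] {i j : G}

/-- two involutions are conjugate by a power of their product -/
theorem conj_invol (M : Mon G i j) {a b : G} (ha : a ≠ 1) (ha2 : a ^ 2 = 1) (hb : b ≠ 1)
    (hb2 : b ^ 2 = 1) : ∃ k : ℕ, (a * b) ^ (2 * k + 1) = 1 ∧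
      (a * b) ^ k * a * ((a * b) ^ k)⁻¹ = b := by
  obtain ⟨n, ⟨k, rfl⟩, h⟩ := M.F2 a b ha hb ha2 hb2
  refine ⟨k, h, ?_⟩
  have hs : SemiconjBy a (a * b)⁻¹ (a * b) := by
    show a * (a * b)⁻¹ = a * b * a
    rw [mul_inv_rev, inv_eq_self ha2, inv_eq_self hb2, ← mul_assoc]
  have h1 := hs.pow_right k
  have h2 : a * ((a * b)⁻¹) ^ k = (a * b) ^ k * a := h1
  rw [inv_pow] at h2
  rw [mul_assoc, h2, ← mul_assoc, ← pow_add, ← two_mul]
  have h3 : (a * b) ^ (2 * k) = (a * b)⁻¹ := by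
    rw [pow_succ] at h
    exact eq_inv_of_mul_eq_one_left h
  rw [h3, mul_inv_rev, inv_eq_self hb2, inv_eq_self ha2, mul_assoc, ← pow_two, ha2, mul_one]

/-- all involutions lie in a normal subgroup containing one of them -/
theorem invol_mem (M : Mon G i j) {N : Subgroup G} (hN : N.Normal) {a b : G} (ha : a ≠ 1)
    (ha2 : a ^ 2 = 1) (hb : b ≠ 1) (hb2 : b ^ 2 = 1) (h : a ∈ N) : b ∈ N := by
  obtain ⟨k, -, hk⟩ := M.conj_invol ha ha2 hb hb2
  rw [← hk]
  exact hN.conj_mem a h _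

theorem inverts (M : Mon G i j) (S : Subgroup G) (hS : ∀ m ∈ S, i * m * i ∈ S)
    (hC : ∀ m ∈ S, m * i = i * m → m = 1) :
    ∀ m ∈ S, i * m * i = m⁻¹ ∧ ∃ n, Odd n ∧ m ^ n = 1 := by
  intro m hm
  have hii : i * i = 1 := by rw [← pow_two]; exact M.i2
  have hi : i⁻¹ = i := inv_eq_self M.i2
  have ha := invol_conj M.i1 M.i2 m⁻¹
  rw [inv_inv] at ha
  obtain ⟨n, ⟨k, rfl⟩, hn⟩ := M.F2 (m⁻¹ * i * m) i ha.1 M.i1 ha.2 M.i2
  set y := m⁻¹ * i * m * i with hy
  have hyS : y ∈ S := by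
    have : y = m⁻¹ * (i * m * i) := by rw [hy]; simp only [mul_assoc]
    rw [this]
    exact mul_mem (inv_mem hm) (hS m hm)
  have hyi : i * y * i⁻¹ = y⁻¹ := by
    rw [hy]
    simp only [mul_inv_rev, inv_inv, hi, mul_assoc]
    rw [hii, mul_one]
  have hz : i * y ^ (k + 1) * i⁻¹ = (y ^ (k + 1))⁻¹ := by
    rw [← conj_pow, hyi, inv_pow]
  set z := y ^ (k + 1) with hzdef
  have hzz : z * z = y := by
    rw [hzdef, ← pow_add, show k + 1 + (k + 1) = 2 * k + 1 + 1 by ring, pow_succ, hn, one_mul]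
  have himi : i * m * i = m * y := by
    rw [hy]; simp only [mul_assoc, mul_inv_cancel_left]
  have hu : i * (m * z) * i = m * z := by
    have e : i * (m * z) * i = (i * m * i) * (i * z * i⁻¹) := by
      rw [hi]
      calc i * (m * z) * i = i * m * 1 * z * i := by simp only [mul_assoc, one_mul]
        _ = i * m * (i * i) * z * i := by rw [hii]
        _ = _ := by simp only [mul_assoc]
    rw [e, hz, himi, ← hzz]
    simp only [mul_assoc, mul_inv_cancel, mul_one]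
  have hmz : m * z = 1 := by
    apply hC
    · exact mul_mem hm (pow_mem hyS _)
    · calc m * z * i = i * (m * z) * i * i := by rw [hu]
        _ = i * (m * z) * (i * i) := by rw [mul_assoc]
        _ = i * (m * z) := by rw [hii, mul_one]
  have hm' : m = z⁻¹ := eq_inv_of_mul_eq_one_left hmz
  constructor
  · have : i * z⁻¹ * i = (i * z * i⁻¹)⁻¹ := by rw [hi]; simp only [mul_inv_rev, hi, mul_assoc]
    rw [hm', this, hz]
  · refine ⟨2 * k + 1, ⟨k, rfl⟩, ?_⟩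
    rw [hm', inv_pow, hzdef, ← pow_mul, mul_comm, pow_mul, hn, one_pow, inv_one]

theorem comm_of_inverts (M : Mon G i j) {S : Subgroup G} (h : ∀ m ∈ S, i * m * i = m⁻¹) :
    ∀ a ∈ S, ∀ b ∈ S, a * b = b * a := by
  intro a ha b hb
  have hii : i * i = 1 := by rw [← pow_two]; exact M.i2
  have h1 : i * (a * b) * i = (i * a * i) * (i * b * i) := by
    calc i * (a * b) * i = i * a * 1 * b * i := by simp only [mul_assoc, one_mul]
      _ = i * a * (i * i) * b * i := by rw [hii]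
      _ = _ := by simp only [mul_assoc]
  rw [h _ (mul_mem ha hb), h a ha, h b hb] at h1
  have := congrArg (·⁻¹) h1
  simpa using this

/-- a normal subgroup meeting the centraliser of `i` contains `i` -/
theorem mem_of_centralizer (M : Mon G i j) {N : Subgroup G} (hN : N.Normal) {g : G} (hg : g ∈ N)
    (hgi : g * i = i * g) (h1 : g ≠ 1) : i ∈ N := by
  by_cases h2 : g = i
  · rwa [← h2]
  · obtain ⟨m, n, -, hn, h⟩ := M.F5 g hgi h1 h2
    have h3 : (j : G ⧸ N) ^ n = 1 := by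
      have := congrArg (QuotientGroup.mk' N) h
      rw [map_pow, map_mul, map_pow, map_one] at this
      have hg' : (QuotientGroup.mk' N) g = 1 := (QuotientGroup.eq_one_iff g).2 hg
      rw [hg', one_pow, one_mul] at this
      exact this
    have h4 : (j : G ⧸ N) ^ 2 = 1 := by
      have := congrArg (QuotientGroup.mk' N) M.j2
      rw [map_pow, map_one] at this
      exact this
    have h5 : (j : G ⧸ N) = 1 := eq_one_of_odd hn h4 h3
    exact M.invol_mem hN M.j1 M.j2 M.i1 M.i2 ((QuotientGroup.eq_one_iff j).1 h5)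

theorem simple (M : Mon G i j) (hgen : ∀ N : Subgroup G, N.Normal → i ∈ N → N = ⊤) :
    IsSimpleGroup G := by
  have hii : i * i = 1 := by rw [← pow_two]; exact M.i2
  have hi : i⁻¹ = i := inv_eq_self M.i2
  haveI : Nontrivial G := ⟨⟨i, 1, M.i1⟩⟩
  refine ⟨fun N hN => ?_⟩
  by_cases hiN : i ∈ N
  · exact Or.inr (hgen N hN hiN)
  · left
    have hS : ∀ m ∈ N, i * m * i ∈ N := by
      intro m hm
      have := hN.conj_mem m hm i
      rwa [hi] at this
    have hC : ∀ m ∈ N, m * i = i * m → m = 1 := by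
      intro m hm hmi
      by_contra h1
      exact hiN (M.mem_of_centralizer hN hm hmi h1)
    have hinv := M.inverts N hS hC
    rw [Subgroup.eq_bot_iff_forall]
    intro m hm
    by_contra h1
    obtain ⟨-, n, hn, hmn⟩ := hinv m hm
    obtain ⟨s, hs, hs'⟩ := M.inf
    have h2 : s⁻¹ * m * s ∈ N := by
      have := hN.conj_mem m hm s⁻¹
      rwa [inv_inv] at this
    exact (M.F4 m s n h1 hn hmn hs').2
      (M.comm_of_inverts (fun m hm => (hinv m hm).1) m hm _ h2)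

/-- elements of periodic subgroups containing an involution -/
theorem per_aux (M : Mon G i j) {X : Subgroup G} (hX : ∀ x ∈ X, IsOfFinOrder x) {τ : G}
    (hτ : τ ∈ X) (h1 : τ ≠ 1) (h2 : τ ^ 2 = 1) {x : G} (hx : x ∈ X) (hn : ¬ (x ≠ 1 ∧ x ^ 2 = 1)) :
    τ * x ≠ 1 ∧ (τ * x) ^ 2 = 1 := by
  have hττ : τ * τ = 1 := by rw [← pow_two]; exact h2
  have hτi : τ⁻¹ = τ := inv_eq_self h2
  have hne : τ * x ≠ 1 := by
    intro h
    have : x = τ := by rw [← hτi]; exact eq_inv_of_mul_eq_one_right h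
    exact hn ⟨by rw [this]; exact h1, by rw [this]; exact h2⟩
  refine ⟨hne, ?_⟩
  have hσ := invol_conj h1 h2 x⁻¹
  rw [inv_inv] at hσ
  obtain ⟨k, hk, hkc⟩ := M.conj_invol h1 h2 hσ.1 hσ.2
  set w := τ * (x⁻¹ * τ * x) with hw
  have hwX : w ∈ X := mul_mem hτ (mul_mem (mul_mem (inv_mem hx) hτ) hx)
  have hτw : τ * w * τ⁻¹ = w⁻¹ := by
    rw [hw]
    simp only [mul_inv_rev, inv_inv, hτi, mul_assoc]
    rw [← mul_assoc τ τ, hττ, one_mul]
  have hτy : τ * w ^ k * τ⁻¹ = (w ^ k)⁻¹ := by rw [← conj_pow, hτw, inv_pow]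
  set y := w ^ k with hy
  have hcomm : (x * y) * τ = τ * (x * y) := by
    have h3 : y * τ = (x⁻¹ * τ * x) * y := by
      rw [← hkc]; group
    calc (x * y) * τ = x * (y * τ) := by rw [mul_assoc]
      _ = x * ((x⁻¹ * τ * x) * y) := by rw [h3]
      _ = τ * (x * y) := by group
  have key : ∀ u : G, u = y⁻¹ → (τ * u) ^ 2 = 1 := by
    rintro u rfl
    have : τ * y⁻¹ * τ⁻¹ = y := by
      have := congrArg (·⁻¹) hτy
      simpa [mul_assoc] using this
    calc (τ * y⁻¹) ^ 2 = (τ * y⁻¹ * τ⁻¹) * y⁻¹ := by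
          rw [hτi, pow_two]; simp only [mul_assoc]
      _ = 1 := by rw [this, mul_inv_cancel]
  rcases M.F3 (x * y) τ (hX _ (mul_mem hx (pow_mem hwX _))) h1 h2 hcomm with h | h
  · exact key x (eq_inv_of_mul_eq_one_left h)
  · have hx' : x = τ * y⁻¹ := by rw [← h]; group
    have h3 : x ^ 2 = 1 := by rw [hx']; exact key _ rfl
    have h4 : x = 1 := by
      by_contra h4
      exact hn ⟨h4, h3⟩
    rw [h4, mul_one]; exact h2

/-- structure of periodic subgroups containing `i` -/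
theorem per_structure (M : Mon G i j) {X : Subgroup G} (hX : ∀ x ∈ X, IsOfFinOrder x)
    (hi : i ∈ X) : ∃ A : Subgroup G, (∀ x, x ∈ A ↔ x ∈ X ∧ ¬ (x ≠ 1 ∧ x ^ 2 = 1)) ∧
      (∀ x ∈ A, i * x * i = x⁻¹) := by
  have hii : i * i = 1 := by rw [← pow_two]; exact M.i2
  have hiinv : i⁻¹ = i := inv_eq_self M.i2
  -- converse of `per_aux`
  have conv : ∀ x : G, i * x ≠ 1 → (i * x) ^ 2 = 1 → ¬ (x ≠ 1 ∧ x ^ 2 = 1) := by
    rintro x h1 h2 ⟨h3, h4⟩
    obtain ⟨n, hn, h5⟩ := M.F2 i (i * x) M.i1 h1 M.i2 h2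
    rw [← mul_assoc, hii, one_mul] at h5
    exact h3 (eq_one_of_odd hn h4 h5)
  refine ⟨{ carrier := {x | x ∈ X ∧ ¬ (x ≠ 1 ∧ x ^ 2 = 1)}
            mul_mem' := ?_, one_mem' := ?_, inv_mem' := ?_ }, fun x => Iff.rfl, ?_⟩
  · rintro x y ⟨hx, hx'⟩ ⟨hy, hy'⟩
    obtain ⟨h1, h2⟩ := M.per_aux hX hi M.i1 M.i2 hx hx'
    obtain ⟨h3, h4⟩ := M.per_aux hX (mul_mem hi hx) h1 h2 hy hy'
    refine ⟨mul_mem hx hy, conv _ ?_ ?_⟩
    · rwa [← mul_assoc]
    · rwa [← mul_assoc]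
  · exact ⟨one_mem _, fun h => h.1 rfl⟩
  · rintro x ⟨hx, hx'⟩
    refine ⟨inv_mem hx, fun h => hx' ⟨fun h1 => h.1 (by rw [h1, inv_one]), ?_⟩⟩
    have := h.2
    rw [inv_pow, inv_eq_one] at this
    exact this
  · rintro x ⟨hx, hx'⟩
    obtain ⟨h1, h2⟩ := M.per_aux hX hi M.i1 M.i2 hx hx'
    rw [pow_two] at h2
    have : (i * x * i) * x = 1 := by rw [← h2]; simp only [mul_assoc]
    exact eq_inv_of_mul_eq_one_left this

/-- normalisers of finite subgroups containing a nontrivial element of odd order are periodic -/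
theorem norm_per (M : Mon G i j) {K : Subgroup G} (hK : Finite K) {a : G} (ha : a ∈ K)
    (h1 : a ≠ 1) {n : ℕ} (hn : Odd n) (han : a ^ n = 1) :
    ∀ s ∈ Subgroup.normalizer (K : Set G), IsOfFinOrder s := by
  intro s hs
  by_contra hinf
  have hconj : ∀ t : ℕ, s ^ t * a * (s ^ t)⁻¹ ∈ K := by
    intro t
    exact ((Subgroup.mem_normalizer_iff.1 (pow_mem hs t)) a).1 ha
  let f : ℕ → K := fun t => ⟨_, hconj t⟩
  obtain ⟨t, t', hne, hf⟩ := Finite.exists_ne_map_eq_of_infinite f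
  have hf' : s ^ t * a * (s ^ t)⁻¹ = s ^ t' * a * (s ^ t')⁻¹ := congrArg Subtype.val hf
  have key : ∀ p q : ℕ, p < q → s ^ p * a * (s ^ p)⁻¹ = s ^ q * a * (s ^ q)⁻¹ → False := by
    intro p q hpq he
    obtain ⟨r, rfl⟩ := Nat.exists_eq_add_of_lt hpq
    have h2 : a * s ^ (r + 1) = s ^ (r + 1) * a := by
      have e1 : s ^ (p + r + 1) = s ^ p * s ^ (r + 1) := by rw [← pow_add, add_assoc]
      rw [e1] at he
      have e2 : a = s ^ (r + 1) * a * (s ^ (r + 1))⁻¹ := by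
        have := congrArg (fun u => (s ^ p)⁻¹ * u * s ^ p) he
        simpa [mul_assoc] using this
      calc a * s ^ (r + 1) = (s ^ (r + 1) * a * (s ^ (r + 1))⁻¹) * s ^ (r + 1) := by rw [← e2]
        _ = s ^ (r + 1) * a := by group
    have h3 : ¬ IsOfFinOrder (s ^ (r + 1)) := by
      intro h
      exact hinf (h.of_pow (by omega))
    exact (M.F4 a _ n h1 hn han h3).1 h2
  rcases lt_or_gt_of_ne hne with h | h
  · exact key t t' h hf'
  · exact key t' t h hf'.symm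

end Mon

end Pool.Agent.Lib.MP_bd8d5e_al
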