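import Pool.Agent.Lib.MP_bd8d5e_al.FinalAlg

/-! # The final algebra: verification of the `T₀` conditions -/

set_option autoImplicit false

namespace Pool.Agent.Lib.MP_bd8d5e_al

namespace Mon

variable {G : Type*} [Group G] {i j : G}

theorem mem_cent {x : G} : x ∈ Subgroup.centralizer {i} ↔ x * i = i * x := by
  rw [Subgroup.mem_centralizer_iff]
  constructor
  · intro h
    exact (h i rfl).symm
  · rintro h _ rfl
    exact h.symm

theorem orderOf_i (M : Mon G i j) : orderOf i = 2 := orderOf_eq_prime M.i2 M.i1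

theorem invol_of_isConj (M : Mon G i j) {a : G} (h : IsConj i a) : a ≠ 1 ∧ a ^ 2 = 1 := by
  obtain ⟨c, rfl⟩ := isConj_iff.1 h
  exact invol_conj M.i1 M.i2 c

/-- two distinct involutions do not commute -/
theorem eq_of_comm (M : Mon G i j) {a b : G} (ha : a ≠ 1) (ha2 : a ^ 2 = 1) (hb : b ≠ 1)
    (hb2 : b ^ 2 = 1) (h : a * b = b * a) : a = b := by
  rcases M.F3 a b (fin_of_sq ha2) hb hb2 h with h | h
  · exact absurd h ha
  · exact h

/-- a finite nontrivial `i`-invariant subgroup whose normaliser is not in the centraliser of `i`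
contains a nontrivial element of odd order -/
theorem exists_odd (M : Mon G i j) {K : Subgroup G} (hK : Finite K) (hne : K ≠ ⊥)
    (hi : i ∈ Subgroup.normalizer (K : Set G))
    (hn : ¬ Subgroup.normalizer (K : Set G) ≤ Subgroup.centralizer {i}) :
    ∃ a ∈ K, a ≠ 1 ∧ ∃ n, Odd n ∧ a ^ n = 1 := by
  by_contra hcon
  push Not at hcon
  have hsq : ∀ a ∈ K, a ^ 2 = 1 := by
    intro a ha
    have hfa : IsOfFinOrder a := by
      have := isOfFinOrder_of_finite (⟨a, ha⟩ : K)
      obtain ⟨m, hm, h⟩ := isOfFinOrder_iff_pow_eq_one.1 this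
      exact isOfFinOrder_iff_pow_eq_one.2 ⟨m, hm, congrArg Subtype.val h⟩
    rcases M.F0 a hfa with h | ⟨n, hn, h⟩
    · exact h
    · by_cases h1 : a = 1
      · rw [h1, one_pow]
      · exact absurd h (hcon a ha h1 n hn)
  obtain ⟨k, hk, hk1⟩ : ∃ k, k ∈ K ∧ k ≠ 1 := by
    by_contra h
    push Not at h
    exact hne ((Subgroup.eq_bot_iff_forall K).2 h)
  have huniq : ∀ a ∈ K, a ≠ 1 → a = k := by
    intro a ha ha1
    have h1 := hsq _ (mul_mem ha hk)
    apply M.eq_of_comm ha1 (hsq a ha) hk1 (hsq k hk)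
    have h2 := inv_eq_self h1
    rw [mul_inv_rev, inv_eq_self (hsq a ha), inv_eq_self (hsq k hk)] at h2
    exact h2.symm
  have hki : k = i := by
    have h1 := ((Subgroup.mem_normalizer_iff.1 hi) k).1 hk
    have h2 := invol_conj hk1 (hsq k hk) i
    have h3 := huniq _ h1 h2.1
    refine M.eq_of_comm hk1 (hsq k hk) M.i1 M.i2 ?_
    calc k * i = (i * k * i⁻¹) * i := by rw [h3]
      _ = i * k := by group
  apply hn
  intro g hg
  rw [mem_cent]
  have h1 := ((Subgroup.mem_normalizer_iff.1 hg) k).1 hk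
  have h2 := huniq _ h1 (invol_conj hk1 (hsq k hk) g).1
  rw [hki] at h2
  calc g * i = (g * i * g⁻¹) * g := by group
    _ = i * g := by rw [h2]

theorem mem_zp (M : Mon G i j) {x : G} : x ∈ Subgroup.zpowers i ↔ x = 1 ∨ x = i := by
  constructor
  · intro h
    obtain ⟨k, rfl⟩ := Subgroup.mem_zpowers_iff.1 h
    rcases Int.even_or_odd' k with ⟨m, rfl | rfl⟩
    · left
      rw [zpow_mul, zpow_ofNat, M.i2, one_zpow]
    · right
      rw [zpow_add, zpow_mul, zpow_ofNat, M.i2, one_zpow, one_mul, zpow_one]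
  · rintro (rfl | rfl)
    · exact one_mem _
    · exact Subgroup.mem_zpowers _

/-- the Frobenius structure of a periodic subgroup containing `i` and not centralising it -/
theorem frobenius (M : Mon G i j) {X : Subgroup G} (hX : ∀ x ∈ X, IsOfFinOrder x) (hi : i ∈ X)
    (hn : ¬ X ≤ Subgroup.centralizer {i}) :
    ∃ F H : Subgroup X, IsFrobenius F H ∧ (∀ x ∈ F, ∀ y ∈ F, x * y = y * x) ∧ Finite H ∧
      Even (Nat.card H) := by
  obtain ⟨A, hA, hinv⟩ := M.per_structure hX hi
  have hiinv : i⁻¹ = i := inv_eq_self M.i2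
  have hAcomm := M.comm_of_inverts hinv
  have hHfin : (Subgroup.zpowers i : Set G).Finite := by
    have : (Subgroup.zpowers i : Set G) ⊆ {1, i} := by
      intro x hx
      exact (M.mem_zp).1 hx
    exact (Set.toFinite {1, i}).subset this
  have hHmem : ∀ x : X, x ∈ (Subgroup.zpowers i).subgroupOf X ↔ (x : G) = 1 ∨ (x : G) = i := by
    intro x
    rw [Subgroup.mem_subgroupOf]
    exact M.mem_zp
  have hcard : Nat.card ((Subgroup.zpowers i).subgroupOf X) = 2 := by
    have e := Nat.card_congr (Subgroup.subgroupOfEquivOfLe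
      (show Subgroup.zpowers i ≤ X from Subgroup.zpowers_le.2 hi)).toEquiv
    rw [e, Nat.card_zpowers, M.orderOf_i]
  have hcent : ∀ g : X, (g : G) * i = i * g → (g : G) = 1 ∨ (g : G) = i := fun g hg =>
    M.F3 g i (hX g g.2) M.i1 M.i2 hg
  refine ⟨A.subgroupOf X, (Subgroup.zpowers i).subgroupOf X, ?_, ?_, ?_, ?_⟩
  · refine ⟨?_, ?_, ?_, ?_, ?_, ?_, ?_⟩
    · intro h
      have h1 : (⟨i, hi⟩ : X) ∈ (Subgroup.zpowers i).subgroupOf X := (hHmem _).2 (Or.inr rfl)
      rw [h, Subgroup.mem_bot] at h1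
      exact M.i1 (congrArg Subtype.val h1)
    · intro h
      apply hn
      intro g hg
      have h1 : (⟨g, hg⟩ : X) ∈ (Subgroup.zpowers i).subgroupOf X := by rw [h]; trivial
      rw [mem_cent]
      rcases (hHmem _).1 h1 with h2 | h2
      · have h2 : g = 1 := h2
        rw [h2, one_mul, mul_one]
      · have h2 : g = i := h2
        rw [h2]
    · intro g hg
      rw [Subgroup.eq_bot_iff_forall]
      rintro x ⟨hx1, hx2⟩
      have hx2 := mem_conjBy.1 hx2
      rw [hHmem] at hx2
      rcases (hHmem x).1 hx1 with h | h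
      · exact Subtype.ext h
      · exfalso
        apply hg
        rw [hHmem]
        apply hcent
        have h3 : (g : G) * i * (g : G)⁻¹ = 1 ∨ (g : G) * i * (g : G)⁻¹ = i := by
          have : ((g * x * g⁻¹ : X) : G) = (g : G) * i * (g : G)⁻¹ := by
            rw [← h]; rfl
          rwa [this] at hx2
        rcases h3 with h3 | h3
        · exact absurd h3 (invol_conj M.i1 M.i2 (g : G)).1
        · calc (g : G) * i = ((g : G) * i * (g : G)⁻¹) * g := by group
            _ = i * g := by rw [h3]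
    · ext x
      have hx : x ∈ A.subgroupOf X ↔ ¬ ((x : G) ≠ 1 ∧ (x : G) ^ 2 = 1) := by
        rw [Subgroup.mem_subgroupOf, hA]
        exact ⟨fun h => h.2, fun h => ⟨x.2, h⟩⟩
      rw [SetLike.mem_coe, hx]
      simp only [Set.mem_union, Set.mem_sdiff, Set.mem_univ, true_and, Set.mem_iUnion,
        SetLike.mem_coe, Set.mem_singleton_iff, mem_conjBy, hHmem]
      constructor
      · intro h
        by_cases h1 : x = 1
        · exact Or.inr h1
        · left
          rintro ⟨g, hg⟩
          apply h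
          have h1' : (x : G) ≠ 1 := fun h => h1 (Subtype.ext h)
          refine ⟨h1', ?_⟩
          have e : ((g * x * g⁻¹ : X) : G) = (g : G) * x * (g : G)⁻¹ := rfl
          rw [e] at hg
          rcases hg with hg | hg
          · exfalso
            apply h1'
            have : (x : G) = (g : G)⁻¹ * ((g : G) * x * (g : G)⁻¹) * g := by group
            rw [this, hg]; group
          · have : (x : G) = (g : G)⁻¹ * i * (g : G)⁻¹⁻¹ := by rw [← hg]; group
            rw [this]
            exact (invol_conj M.i1 M.i2 _).2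
      · rintro (h | h)
        · rintro ⟨h1, h2⟩
          apply h
          obtain ⟨k, -, hk⟩ := M.conj_invol h1 h2 M.i1 M.i2
          refine ⟨⟨((x : G) * i) ^ k, pow_mem (mul_mem x.2 hi) k⟩, Or.inr ?_⟩
          exact hk
        · rintro ⟨h1, -⟩
          exact h1 (by rw [h]; rfl)
    · constructor
      intro a ha g
      rw [Subgroup.mem_subgroupOf, hA] at ha ⊢
      refine ⟨(g * a * g⁻¹).2, fun h => ha.2 ?_⟩
      have h2 := invol_conj h.1 h.2 (g : G)⁻¹
      have e : (g : G)⁻¹ * ((g * a * g⁻¹ : X) : G) * (g : G)⁻¹⁻¹ = a := by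
        show (g : G)⁻¹ * ((g : G) * a * (g : G)⁻¹) * (g : G)⁻¹⁻¹ = a
        group
      rw [e] at h2
      exact h2
    · intro x
      by_cases hx : (x : G) ≠ 1 ∧ (x : G) ^ 2 = 1
      · refine ⟨x * ⟨i, hi⟩, ?_, ⟨i, hi⟩, (hHmem _).2 (Or.inr rfl), ?_⟩
        · rw [Subgroup.mem_subgroupOf, hA]
          refine ⟨(x * ⟨i, hi⟩ : X).2, ?_⟩
          rintro ⟨h1, h2⟩
          obtain ⟨n, hn, h3⟩ := M.F2 x i hx.1 M.i1 hx.2 M.i2
          exact h1 (eq_one_of_odd hn h2 h3)
        · apply Subtype.ext
          show (x : G) = (x : G) * i * i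
          rw [mul_assoc, ← pow_two, M.i2, mul_one]
      · refine ⟨x, ?_, 1, one_mem _, (mul_one x).symm⟩
        rw [Subgroup.mem_subgroupOf, hA]
        exact ⟨x.2, hx⟩
    · rw [Subgroup.eq_bot_iff_forall]
      rintro x ⟨hx1, hx2⟩
      rcases (hHmem x).1 hx2 with h | h
      · exact Subtype.ext h
      · exfalso
        have hx1 : x ∈ A.subgroupOf X := hx1
        rw [Subgroup.mem_subgroupOf, hA, h] at hx1
        exact hx1.2 ⟨M.i1, M.i2⟩
  · intro x hx y hy
    rw [Subgroup.mem_subgroupOf] at hx hy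
    exact Subtype.ext (hAcomm x hx y hy)
  · exact Nat.finite_of_card_ne_zero (by rw [hcard]; norm_num)
  · rw [hcard]; exact even_two

theorem isT0 (M : Mon G i j) : IsT0 G i where
  invol := M.orderOf_i
  prod a b ha hb := by
    obtain ⟨h1, h2⟩ := M.invol_of_isConj ha
    obtain ⟨h3, h4⟩ := M.invol_of_isConj hb
    obtain ⟨n, hn, h⟩ := M.F2 a b h1 h3 h2 h4
    exact fin_of_odd hn h
  two P hP := by
    left
    have hsq : ∀ x ∈ P, x ^ 2 = 1 := by
      intro x hx
      obtain ⟨k, hk⟩ := hP ⟨x, hx⟩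
      have hk : x ^ 2 ^ k = 1 := congrArg Subtype.val hk
      rcases M.F0 x (isOfFinOrder_iff_pow_eq_one.2 ⟨2 ^ k, by positivity, hk⟩) with h | ⟨n, hn, h⟩
      · exact h
      · have hc : Nat.Coprime (2 ^ k) n := (Nat.coprime_two_left.2 hn).pow_left k
        have h1 : orderOf x = 1 := by
          have d1 := orderOf_dvd_of_pow_eq_one hk
          have d2 := orderOf_dvd_of_pow_eq_one h
          exact Nat.eq_one_of_dvd_coprimes hc d1 d2
        rw [orderOf_eq_one_iff.1 h1, one_pow]
    have huniq : ∀ a ∈ P, ∀ b ∈ P, a ≠ 1 → b ≠ 1 → a = b := by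
      intro a ha b hb ha1 hb1
      apply M.eq_of_comm ha1 (hsq a ha) hb1 (hsq b hb)
      have h2 := inv_eq_self (hsq _ (mul_mem ha hb))
      rw [mul_inv_rev, inv_eq_self (hsq a ha), inv_eq_self (hsq b hb)] at h2
      exact h2.symm
    by_cases hne : ∃ a ∈ P, a ≠ 1
    · obtain ⟨a, ha, ha1⟩ := hne
      refine ⟨⟨⟨a, ha⟩, fun x => ?_⟩⟩
      by_cases hx : (x : G) = 1
      · rw [show x = 1 from Subtype.ext hx]; exact ⟨0, zpow_zero _⟩
      · rw [show x = ⟨a, ha⟩ from Subtype.ext (huniq x x.2 a ha hx ha1)]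
        exact Subgroup.mem_zpowers _
    · push Not at hne
      refine ⟨⟨1, fun x => ?_⟩⟩
      rw [show x = 1 from Subtype.ext (hne x x.2)]; exact ⟨0, zpow_zero _⟩
  infinite := by
    obtain ⟨s, hs, hs'⟩ := M.inf
    by_contra hfin
    rw [not_infinite_iff_finite] at hfin
    have := isOfFinOrder_of_finite (⟨s, mem_cent.2 hs⟩ : Subgroup.centralizer {i})
    obtain ⟨m, hm, h⟩ := isOfFinOrder_iff_pow_eq_one.1 this
    exact hs' (isOfFinOrder_iff_pow_eq_one.2 ⟨m, hm, congrArg Subtype.val h⟩)
  ne_top h := by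
    have : j ∈ Subgroup.centralizer {i} := by rw [h]; trivial
    exact M.ij (M.eq_of_comm M.j1 M.j2 M.i1 M.i2 (mem_cent.1 this)).symm
  periodic := by
    refine (Set.toFinite {1, i}).subset ?_
    rintro x ⟨hx, hx'⟩
    exact M.F3 x i hx' M.i1 M.i2 (mem_cent.1 hx)
  normalizer K hK hfin hinv := by
    by_cases hn : Subgroup.normalizer (K : Set G) ≤ Subgroup.centralizer {i}
    · exact Or.inl hn
    · right
      have hi : i ∈ Subgroup.normalizer (K : Set G) := by
        rw [Subgroup.mem_normalizer_iff]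
        intro h
        rw [← mem_conjBy, hinv]
      obtain ⟨a, ha, ha1, n, hnn, han⟩ := M.exists_odd hfin hK hi hn
      have hper := M.norm_per hfin ha ha1 hnn han
      refine ⟨Subgroup.normalizer (K : Set G), ?_, M.frobenius hper hi hn⟩
      ext x
      exact ⟨fun h => ⟨h, hper x h⟩, fun h => h.1⟩
  gen c hc hci := by
    have hci1 : c * i ≠ 1 := by
      intro h
      rw [h, orderOf_one] at hci
      norm_num at hci
    have hci2 : (c * i) ^ 2 = 1 := by rw [← hci]; exact pow_orderOf_eq_one _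
    have hii : i * i = 1 := by rw [← pow_two]; exact M.i2
    have hiinv : i⁻¹ = i := inv_eq_self M.i2
    have hinv : i * c * i⁻¹ = c⁻¹ := by
      rw [pow_two] at hci2
      rw [hiinv]
      have : c * (i * c * i) = 1 := by rw [← hci2]; simp only [mul_assoc]
      exact eq_inv_of_mul_eq_one_right this
    by_cases hfin : IsOfFinOrder c
    · have hc1 : c ≠ 1 := fun h => hc (by rw [h]; exact one_mem _)
      obtain ⟨n, hn, hcn⟩ : ∃ n, Odd n ∧ c ^ n = 1 := by
        rcases M.F0 c hfin with h | h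
        · exfalso
          apply hc
          rw [mem_cent]
          have h2 := inv_eq_self h
          rw [h2] at hinv
          calc c * i = (i * c * i⁻¹) * i := by rw [hinv]
            _ = i * c := by group
        · exact h
      obtain ⟨s, hs, hs'⟩ := M.inf
      refine ⟨s, mem_cent.2 hs, ?_⟩
      by_contra hD
      rw [not_infinite_iff_finite] at hD
      set D := Subgroup.closure {c, s⁻¹ * c * s} with hDdef
      have hcD : c ∈ D := Subgroup.subset_closure (by simp)
      have hsD : s⁻¹ * c * s ∈ D := Subgroup.subset_closure (by simp)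
      have hinv2 : i * (s⁻¹ * c * s) * i⁻¹ = (s⁻¹ * c * s)⁻¹ := by
        have h1 : i * s⁻¹ = s⁻¹ * i := by
          have : s⁻¹ * (s * i) * s⁻¹ = s⁻¹ * (i * s) * s⁻¹ := by rw [hs]
          simpa [mul_assoc] using this
        calc i * (s⁻¹ * c * s) * i⁻¹ = (i * s⁻¹) * c * (s * i) := by
              rw [hiinv]; simp only [mul_assoc]
          _ = s⁻¹ * (i * c * i⁻¹) * s := by
              rw [h1, hs, hiinv]; simp only [mul_assoc]
          _ = (s⁻¹ * c * s)⁻¹ := by rw [hinv]; group
      have hfwd : ∀ x ∈ D, i * x * i⁻¹ ∈ D := by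
        intro x hx
        rw [hDdef] at hx
        induction hx using Subgroup.closure_induction with
        | mem y hy =>
          rcases hy with rfl | rfl
          · rw [hinv]; exact inv_mem hcD
          · rw [hinv2]; exact inv_mem hsD
        | one => rw [mul_one, mul_inv_cancel]; exact one_mem _
        | mul x y _ _ hx hy =>
          have e : i * (x * y) * i⁻¹ = (i * x * i⁻¹) * (i * y * i⁻¹) := by group
          rw [e]; exact mul_mem hx hy
        | inv x _ hx =>
          have e : i * x⁻¹ * i⁻¹ = (i * x * i⁻¹)⁻¹ := by group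
          rw [e]; exact inv_mem hx
      have hiN : i ∈ Subgroup.normalizer (D : Set G) := by
        rw [Subgroup.mem_normalizer_iff]
        intro h
        refine ⟨hfwd h, fun hh => ?_⟩
        have h2 := hfwd _ hh
        have e : i * (i * h * i⁻¹) * i⁻¹ = h := by
          rw [hiinv]
          calc i * (i * h * i) * i = (i * i) * h * (i * i) := by simp only [mul_assoc]
            _ = h := by rw [hii, one_mul, mul_one]
        rwa [e] at h2
      have hper := M.norm_per hD hcD hc1 hn hcn
      obtain ⟨A, hA, hAinv⟩ := M.per_structure hper hiN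
      have hle : D ≤ Subgroup.normalizer (D : Set G) := Subgroup.le_normalizer
      have hcA : c ∈ A := by
        rw [hA]
        exact ⟨hle hcD, fun h => h.1 (eq_one_of_odd hn h.2 hcn)⟩
      have hsA : s⁻¹ * c * s ∈ A := by
        rw [hA]
        refine ⟨hle hsD, fun h => h.1 (eq_one_of_odd hn h.2 ?_)⟩
        have e : (s⁻¹ * c * s) ^ n = s⁻¹ * c ^ n * s := by
          have := conj_pow (i := n) (a := s⁻¹) (b := c)
          rwa [inv_inv] at this
        rw [e, hcn]; group
      exact (M.F4 c s n hc1 hn hcn hs').2 (M.comm_of_inverts hAinv c hcA _ hsA)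
    · refine ⟨1, one_mem _, ?_⟩
      by_contra hD
      rw [not_infinite_iff_finite] at hD
      apply hfin
      have hcD : c ∈ Subgroup.closure {c, 1⁻¹ * c * 1} := Subgroup.subset_closure (by simp)
      have := isOfFinOrder_of_finite (⟨c, hcD⟩ : Subgroup.closure {c, 1⁻¹ * c * 1})
      obtain ⟨m, hm, h⟩ := isOfFinOrder_iff_pow_eq_one.1 this
      exact isOfFinOrder_iff_pow_eq_one.2 ⟨m, hm, congrArg Subtype.val h⟩

end Mon

/-- the normal closure of `i` in a group with the properties of the limit group -/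
theorem exists_simple_T0 {A : Type*} [Group A] {i j : A} (M : Mon A i j) :
    ∃ B : Subgroup A, IsSimpleGroup B ∧ IsT0Group B := by
  set B := Subgroup.normalClosure ({i} : Set A) with hB
  have hBn : B.Normal := Subgroup.normalClosure_normal
  have hiB : i ∈ B := Subgroup.subset_normalClosure rfl
  have hinvB : ∀ a : A, a ≠ 1 → a ^ 2 = 1 → a ∈ B := fun a h1 h2 =>
    M.invol_mem hBn M.i1 M.i2 h1 h2 hiB
  have hjB : j ∈ B := hinvB j M.j1 M.j2
  have hfin : ∀ x : B, IsOfFinOrder x ↔ IsOfFinOrder (x : A) := by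
    intro x
    rw [isOfFinOrder_iff_pow_eq_one, isOfFinOrder_iff_pow_eq_one]
    constructor
    · rintro ⟨n, hn, h⟩
      exact ⟨n, hn, congrArg Subtype.val h⟩
    · rintro ⟨n, hn, h⟩
      exact ⟨n, hn, Subtype.ext h⟩
  have MB : Mon B ⟨i, hiB⟩ ⟨j, hjB⟩ :=
    { i1 := fun h => M.i1 (congrArg Subtype.val h)
      i2 := Subtype.ext M.i2
      j1 := fun h => M.j1 (congrArg Subtype.val h)
      j2 := Subtype.ext M.j2
      ij := fun h => M.ij (congrArg Subtype.val h)
      inf := by
        obtain ⟨f, hf, hf'⟩ := M.inf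
        have hf1 : f ≠ 1 := fun h => hf' (by rw [h]; exact fin_of_sq (one_pow 2))
        have hfi : f ≠ i := fun h => hf' (by rw [h]; exact fin_of_sq M.i2)
        obtain ⟨m, n, hm, hn, h⟩ := M.F5 f hf hf1 hfi
        have hmem : f ^ (m * n) ∈ B := by
          have h2 := congrArg (QuotientGroup.mk' B) h
          rw [map_pow, map_mul, map_one] at h2
          have hj' : (QuotientGroup.mk' B) j = 1 := (QuotientGroup.eq_one_iff j).2 hjB
          rw [hj', mul_one, ← map_pow, ← pow_mul] at h2
          exact (QuotientGroup.eq_one_iff _).1 h2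
        refine ⟨⟨f ^ (m * n), hmem⟩, Subtype.ext ?_, ?_⟩
        · show f ^ (m * n) * i = i * f ^ (m * n)
          exact (show Commute f i from hf).pow_left (m * n)
        · rw [hfin]
          intro h2
          exact hf' (h2.of_pow (Nat.mul_ne_zero hm hn.pos.ne'))
      F0 := by
        intro g hg
        rcases M.F0 g ((hfin g).1 hg) with h | ⟨n, hn, h⟩
        · exact Or.inl (Subtype.ext h)
        · exact Or.inr ⟨n, hn, Subtype.ext h⟩
      F2 := by
        intro a b ha hb ha2 hb2
        obtain ⟨n, hn, h⟩ := M.F2 a b (fun h => ha (Subtype.ext h)) (fun h => hb (Subtype.ext h))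
          (congrArg Subtype.val ha2) (congrArg Subtype.val hb2)
        exact ⟨n, hn, Subtype.ext h⟩
      F3 := by
        intro t τ ht h1 h2 h3
        rcases M.F3 t τ ((hfin t).1 ht) (fun h => h1 (Subtype.ext h)) (congrArg Subtype.val h2)
          (congrArg Subtype.val h3) with h | h
        · exact Or.inl (Subtype.ext h)
        · exact Or.inr (Subtype.ext h)
      F4 := by
        intro c s n h1 hn h2 hs
        have h3 := M.F4 c s n (fun h => h1 (Subtype.ext h)) hn (congrArg Subtype.val h2)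
          (fun h => hs ((hfin s).2 h))
        exact ⟨fun h => h3.1 (congrArg Subtype.val h), fun h => h3.2 (congrArg Subtype.val h)⟩
      F5 := by
        intro g h1 h2 h3
        obtain ⟨m, n, hm, hn, h⟩ := M.F5 g (congrArg Subtype.val h1)
          (fun h => h2 (Subtype.ext h)) (fun h => h3 (Subtype.ext h))
        exact ⟨m, n, hm, hn, Subtype.ext h⟩ }
  refine ⟨B, MB.simple ?_, ⟨_, MB.isT0⟩⟩
  intro N hN hiN
  rw [eq_top_iff]
  rintro ⟨x, hx⟩ -
  have key : B ≤ N.map B.subtype := by
    show Subgroup.closure (Group.conjugatesOfSet ({i} : Set A)) ≤ _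
    rw [Subgroup.closure_le]
    intro y hy
    obtain ⟨a, ha, hay⟩ := Group.mem_conjugatesOfSet_iff.1 hy
    have ha : a = i := ha
    subst ha
    obtain ⟨h1, h2⟩ := M.invol_of_isConj hay
    have hyB := hinvB y h1 h2
    refine ⟨⟨y, hyB⟩, ?_, rfl⟩
    exact MB.invol_mem hN MB.i1 MB.i2 (fun h => h1 (congrArg Subtype.val h)) (Subtype.ext h2) hiN
  obtain ⟨y, hy, hyx⟩ := key hx
  have : y = ⟨x, hx⟩ := Subtype.ext hyx
  rw [← this]
  exact hy

end Pool.Agent.Lib.MP_bd8d5e_al
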