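import Pool.Agent.Lib.MP_bd8d5e_al.Setup
import Pool.Agent.Lib.MP_bd8d5e_al.FinalAlg

/-! # Simple consequences of `Good` -/

set_option autoImplicit false

namespace Pool.Agent.Lib.MP_bd8d5e_al

variable {G : Type*} [Group G]

/-- torsion elements commuting with an involution -/
theorem Good.comm_invol (hG : Good G) {t τ : G} (ht : IsOfFinOrder t) (h1 : τ ≠ 1)
    (h2 : τ ^ 2 = 1) (h : t * τ = τ * t) : t = 1 ∨ t = τ := by
  by_cases ht1 : t = 1
  · exact Or.inl ht1
  right
  rcases hG.tor t ht with ht2 | ⟨n, hn, htn⟩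
  · exact hG.noV4 t τ ht1 h1 ht2 h2 h
  · exfalso
    have hc : Commute τ t := h.symm
    have hfin : IsOfFinOrder (τ * t) := hc.isOfFinOrder_mul (fin_of_sq h2) ht
    rcases hG.tor _ hfin with h3 | ⟨m, hm, h3⟩
    · rw [hc.mul_pow, h2, one_mul] at h3
      exact ht1 (eq_one_of_odd hn h3 htn)
    · have h4 : (τ * t) ^ (m * n) = 1 := by rw [pow_mul, h3, one_pow]
      rw [hc.mul_pow, mul_comm m n, pow_mul t, htn, one_pow, mul_one] at h4
      exact h1 (eq_one_of_odd (hn.mul hm) h2 h4)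

theorem Good.not_comm (hG : Good G) {c s : G} {n : ℕ} (h1 : c ≠ 1) (hn : Odd n) (hcn : c ^ n = 1)
    (hs : ¬ IsOfFinOrder s) : c * s ≠ s * c := by
  intro h
  obtain ⟨hfin, -⟩ := hG.fin c h1 n hn hcn
  have hmem : s ∈ Subgroup.centralizer {c} := by
    rw [Subgroup.mem_centralizer_iff]
    rintro _ rfl
    exact h
  have := isOfFinOrder_of_finite (⟨s, hmem⟩ : Subgroup.centralizer {c})
  obtain ⟨m, hm, h⟩ := isOfFinOrder_iff_pow_eq_one.1 this
  exact hs (isOfFinOrder_iff_pow_eq_one.2 ⟨m, hm, congrArg Subtype.val h⟩)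

/-- in a finite cyclic group elements of the same order generate the same subgroup -/
theorem mem_zpowers_of_orderOf {Z : Type*} [Group Z] [Finite Z] [IsCyclic Z] {c c' : Z}
    (h : c' ^ orderOf c = 1) : c' ∈ Subgroup.zpowers c := by
  classical
  have := Fintype.ofFinite Z
  have hpos := orderOf_pos c
  have h1 := IsCyclic.card_pow_eq_one_le (α := Z) hpos
  have hsub : (Finset.univ.filter (fun x : Z => x ∈ Subgroup.zpowers c)) ⊆
      Finset.univ.filter (fun x : Z => x ^ orderOf c = 1) := by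
    intro x hx
    rw [Finset.mem_filter] at hx ⊢
    refine ⟨Finset.mem_univ _, ?_⟩
    obtain ⟨k, rfl⟩ := Subgroup.mem_zpowers_iff.1 hx.2
    rw [← zpow_natCast, ← zpow_mul, mul_comm, zpow_mul, zpow_natCast, pow_orderOf_eq_one,
      one_zpow]
  have hcard : (Finset.univ.filter (fun x : Z => x ∈ Subgroup.zpowers c)).card = orderOf c := by
    rw [← Nat.card_zpowers c, Nat.card_eq_fintype_card, Fintype.card_subtype]
  have heq := Finset.eq_of_subset_of_card_le hsub (by rw [hcard]; exact h1)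
  have : c' ∈ Finset.univ.filter (fun x : Z => x ^ orderOf c = 1) := by
    rw [Finset.mem_filter]; exact ⟨Finset.mem_univ _, h⟩
  rw [← heq, Finset.mem_filter] at this
  exact this.2

theorem Good.not_comm_conj (hG : Good G) {c s : G} {n : ℕ} (h1 : c ≠ 1) (hn : Odd n)
    (hcn : c ^ n = 1) (hs : ¬ IsOfFinOrder s) : c * (s⁻¹ * c * s) ≠ (s⁻¹ * c * s) * c := by
  intro h
  obtain ⟨hfin, hcyc⟩ := hG.fin c h1 n hn hcn
  have hc : c ∈ Subgroup.centralizer {c} := by
    rw [Subgroup.mem_centralizer_iff]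
    rintro _ rfl
    rfl
  have hc' : s⁻¹ * c * s ∈ Subgroup.centralizer {c} := by
    rw [Subgroup.mem_centralizer_iff]
    rintro _ rfl
    exact h
  have hconj : ∀ m : ℕ, (s⁻¹ * c * s) ^ m = s⁻¹ * c ^ m * s := by
    intro m
    have := conj_pow (i := m) (a := s⁻¹) (b := c)
    rwa [inv_inv] at this
  have hz : s⁻¹ * c * s ∈ Subgroup.zpowers c := by
    have h2 := mem_zpowers_of_orderOf (Z := Subgroup.centralizer {c}) (c := ⟨c, hc⟩)
      (c' := ⟨s⁻¹ * c * s, hc'⟩) (by
        apply Subtype.ext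
        show (s⁻¹ * c * s) ^ orderOf (⟨c, hc⟩ : Subgroup.centralizer {c}) = 1
        rw [Subgroup.orderOf_mk, hconj, pow_orderOf_eq_one]; group)
    obtain ⟨k, hk⟩ := Subgroup.mem_zpowers_iff.1 h2
    exact Subgroup.mem_zpowers_iff.2 ⟨k, congrArg Subtype.val hk⟩
  -- all conjugates by powers of `s` lie in the finite group generated by `c`
  have hall : ∀ (k : ℕ), ∀ x ∈ Subgroup.zpowers c, (s ^ k)⁻¹ * x * s ^ k ∈ Subgroup.zpowers c := by
    intro k
    induction k with
    | zero => intro x hx; simpa using hx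
    | succ k ih =>
      intro x hx
      have e : (s ^ (k + 1))⁻¹ * x * s ^ (k + 1) = s⁻¹ * ((s ^ k)⁻¹ * x * s ^ k) * s := by
        rw [pow_succ]; group
      rw [e]
      obtain ⟨m, hm⟩ := Subgroup.mem_zpowers_iff.1 (ih x hx)
      rw [← hm]
      have e2 : s⁻¹ * c ^ m * s = (s⁻¹ * c * s) ^ m := by
        have := conj_zpow (i := m) (a := s⁻¹) (b := c)
        rw [inv_inv] at this
        exact this.symm
      rw [e2]
      exact Subgroup.zpow_mem _ hz m
  have hcfin : Finite (Subgroup.zpowers c) :=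
    (finite_zpowers.2 (fin_of_odd hn hcn)).to_subtype
  let f : ℕ → Subgroup.zpowers c := fun k => ⟨_, hall k c (Subgroup.mem_zpowers c)⟩
  obtain ⟨p, q, hne, hf⟩ := Finite.exists_ne_map_eq_of_infinite f
  have hf' : (s ^ p)⁻¹ * c * s ^ p = (s ^ q)⁻¹ * c * s ^ q := congrArg Subtype.val hf
  have key : ∀ p q : ℕ, p < q → (s ^ p)⁻¹ * c * s ^ p = (s ^ q)⁻¹ * c * s ^ q → False := by
    intro p q hpq he
    obtain ⟨r, rfl⟩ := Nat.exists_eq_add_of_lt hpq
    have e1 : s ^ (p + r + 1) = s ^ (r + 1) * s ^ p := by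
      rw [← pow_add]; congr 1; ring
    rw [e1] at he
    have e2 : c = (s ^ (r + 1))⁻¹ * c * s ^ (r + 1) := by
      have := congrArg (fun u => s ^ p * u * (s ^ p)⁻¹) he
      simpa [mul_assoc] using this
    apply hG.not_comm h1 hn hcn (s := s ^ (r + 1)) (fun h => hs (h.of_pow (by omega)))
    calc c * s ^ (r + 1) = s ^ (r + 1) * ((s ^ (r + 1))⁻¹ * c * s ^ (r + 1)) := by group
      _ = s ^ (r + 1) * c := by rw [← e2]
  rcases lt_or_gt_of_ne hne with h | h
  · exact key p q h hf'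
  · exact key q p h hf'.symm

end Pool.Agent.Lib.MP_bd8d5e_al
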