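import Pool.Agent.Lib.MP_bd8d5e_al.Basic

/-! # The hat norm

Word norm of `{l ≤ 1} ∪ E` for a quasiconvex subgroup `E`: Morse lemma, additivity along
geodesics of the original metric, four point inequality. -/

set_option autoImplicit false

namespace Pool.Agent.Lib.MP_bd8d5e_al

namespace GNorm

variable {G : Type*} [Group G] (N : GNorm G) (E : Subgroup G)

/-- one step of the hat metric -/
def HStep (g : G) : Prop := N.l g ≤ 1 ∨ g ∈ E

/-- reachable in `n` steps -/
inductive Reach : ℕ → G → Prop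
  | zero : Reach 0 1
  | succ (n : ℕ) (g s : G) (hg : Reach n g) (hs : N.HStep E s) : Reach (n + 1) (g * s)

variable {N E}

theorem hstep_inv {g : G} (h : N.HStep E g) : N.HStep E g⁻¹ := by
  rcases h with h | h
  · exact Or.inl (by rwa [N.l_inv])
  · exact Or.inr (inv_mem h)

theorem reach_one {g : G} (h : N.HStep E g) : N.Reach E 1 g := by
  have := Reach.succ 0 1 g Reach.zero h
  rwa [one_mul] at this

theorem reach_add {n m : ℕ} {g h : G} (hg : N.Reach E n g) (hh : N.Reach E m h) :
    N.Reach E (n + m) (g * h) := by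
  induction hh with
  | zero => simpa using hg
  | succ m h s _ hs ih =>
    rw [← mul_assoc]
    exact Reach.succ _ _ _ ih hs

theorem reach_inv {n : ℕ} {g : G} (hg : N.Reach E n g) : N.Reach E n g⁻¹ := by
  induction hg with
  | zero => rw [inv_one]; exact Reach.zero
  | succ n g s _ hs ih =>
    rw [mul_inv_rev, add_comm]
    exact reach_add (reach_one (hstep_inv hs)) ih

theorem reach_split {n t : ℕ} {g : G} (hg : N.Reach E n g) (ht : t ≤ n) :
    ∃ h, N.Reach E t h ∧ N.Reach E (n - t) (h⁻¹ * g) := by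
  induction hg with
  | zero =>
    obtain rfl : t = 0 := by omega
    exact ⟨1, Reach.zero, by simpa using Reach.zero⟩
  | succ n g s hg hs ih =>
    rcases Nat.lt_or_ge n t with h | h
    · obtain rfl : t = n + 1 := by omega
      refine ⟨g * s, Reach.succ _ _ _ hg hs, ?_⟩
      rw [inv_mul_cancel, Nat.sub_self]; exact Reach.zero
    · obtain ⟨k, h1, h2⟩ := ih h
      refine ⟨k, h1, ?_⟩
      have e : n + 1 - t = (n - t) + 1 := by omega
      rw [e, ← mul_assoc]
      exact Reach.succ _ _ _ h2 hs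

theorem reach_l : ∀ (n : ℕ) (g : G), N.l g = n → N.Reach E n g := by
  intro n
  induction n with
  | zero =>
    intro g hg
    rw [N.eq_one g hg]; exact Reach.zero
  | succ n ih =>
    intro g hg
    obtain ⟨h, h1, h2⟩ := N.geo g n (by omega)
    have := Reach.succ n h (h⁻¹ * g) (ih h h1) (Or.inl (by omega))
    rwa [mul_inv_cancel_left] at this

variable (N E)

theorem exists_reach (g : G) : ∃ n, N.Reach E n g := ⟨_, reach_l _ g rfl⟩

open Classical in
/-- the hat norm -/
noncomputable def lh (g : G) : ℕ := Nat.find (N.exists_reach E g)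

variable {N E}

theorem reach_lh (g : G) : N.Reach E (N.lh E g) g := by
  classical
  exact Nat.find_spec (N.exists_reach E g)

theorem lh_le {n : ℕ} {g : G} (h : N.Reach E n g) : N.lh E g ≤ n := by
  classical
  exact Nat.find_min' (N.exists_reach E g) h

variable (N E)

/-- the hat norm as a geodesic norm -/
noncomputable def hat : GNorm G where
  l := N.lh E
  l_one := Nat.le_zero.1 (lh_le Reach.zero)
  eq_one g hg := by
    have h := reach_lh (N := N) (E := E) g
    rw [hg] at h
    cases h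
    rfl
  l_inv g := by
    apply le_antisymm (lh_le (reach_inv (reach_lh g)))
    have := lh_le (reach_inv (reach_lh (N := N) (E := E) g⁻¹))
    rwa [inv_inv] at this
  l_mul g h := lh_le (reach_add (reach_lh g) (reach_lh h))
  geo g t ht := by
    obtain ⟨h, h1, h2⟩ := reach_split (reach_lh (N := N) (E := E) g) ht
    have h3 := lh_le h1
    have h4 := lh_le h2
    have h5 := lh_le (reach_add (reach_lh (N := N) (E := E) h) (reach_lh (N := N) (E := E)
      (h⁻¹ * g)))
    rw [mul_inv_cancel_left] at h5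
    exact ⟨h, by omega, by omega⟩

/-- the hat distance -/
noncomputable abbrev dh (x y : G) : ℕ := (N.hat E).d x y

variable {N E}

theorem dh_le_d (x y : G) : N.dh E x y ≤ N.d x y := lh_le (reach_l _ _ rfl)

theorem dh_le_one {x y : G} (h : x⁻¹ * y ∈ E) : N.dh E x y ≤ 1 := lh_le (reach_one (Or.inr h))

theorem dh_le_one' {x y : G} (h : N.HStep E (x⁻¹ * y)) : N.dh E x y ≤ 1 := lh_le (reach_one h)

variable (N E) in
/-- geodesic sequences for the hat metric -/
structure HGeo (n : ℕ) (p : ℕ → G) : Prop where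
  step : ∀ i < n, N.HStep E ((p i)⁻¹ * p (i + 1))
  dist : ∀ i j, i ≤ j → j ≤ n → N.dh E (p i) (p j) = j - i

theorem exists_path {n : ℕ} {g : G} (h : N.Reach E n g) :
    ∃ p : ℕ → G, p 0 = 1 ∧ p n = g ∧ ∀ i < n, N.HStep E ((p i)⁻¹ * p (i + 1)) := by
  induction h with
  | zero => exact ⟨fun _ => 1, rfl, rfl, fun i hi => absurd hi (by omega)⟩
  | succ n g s _ hs ih =>
    obtain ⟨p, h0, h1, h2⟩ := ih
    refine ⟨fun i => if i ≤ n then p i else g * s, by simp [h0], by simp, ?_⟩
    intro i hi
    rcases Nat.lt_or_ge i n with h | h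
    · have e1 : i ≤ n := by omega
      have e2 : i + 1 ≤ n := by omega
      simp only [e1, e2, if_true]; exact h2 i h
    · obtain rfl : i = n := by omega
      have e2 : ¬ (i + 1 ≤ i) := by omega
      simp only [le_refl, if_true, e2, if_false, h1]
      rwa [inv_mul_cancel_left]

theorem exists_hgeo (x y : G) :
    ∃ p : ℕ → G, p 0 = x ∧ p (N.dh E x y) = y ∧ N.HGeo E (N.dh E x y) p := by
  obtain ⟨p, h0, h1, h2⟩ := exists_path (reach_lh (N := N) (E := E) (x⁻¹ * y))
  set n := N.dh E x y with hn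
  have hn' : N.lh E (x⁻¹ * y) = n := rfl
  rw [hn'] at h1 h2
  refine ⟨fun i => x * p i, by simp [h0], by simp [h1], ⟨?_, ?_⟩⟩
  · intro i hi
    have := h2 i hi
    have e : (x * p i)⁻¹ * (x * p (i + 1)) = (p i)⁻¹ * p (i + 1) := by group
    rwa [e]
  · have up : ∀ i j, i ≤ j → j ≤ n → N.dh E (x * p i) (x * p j) ≤ j - i := by
      intro i j hij hj
      induction j, hij using Nat.le_induction with
      | base => exact ((N.hat E).d_self _).le.trans (Nat.zero_le _)
      | succ j hij ih =>
        have := ih (by omega)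
        have h3 := (N.hat E).d_tri (x * p i) (x * p j) (x * p (j + 1))
        have h4 : N.dh E (x * p j) (x * p (j + 1)) ≤ 1 := by
          apply dh_le_one'
          have := h2 j (by omega)
          have e : (x * p j)⁻¹ * (x * p (j + 1)) = (p j)⁻¹ * p (j + 1) := by group
          rwa [e]
        unfold dh at *
        omega
    intro i j hij hj
    apply le_antisymm (up i j hij hj)
    have h3 := up 0 i (by omega) (by omega)
    have h4 := up j n hj le_rfl
    have h5 := (N.hat E).d_tri (x * p 0) (x * p i) (x * p n)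
    have h6 := (N.hat E).d_tri (x * p i) (x * p j) (x * p n)
    have h7 : N.dh E (x * p 0) (x * p n) = n := by
      rw [h0, h1, mul_one, mul_inv_cancel_left]
    unfold dh at *
    omega

variable (N E) in
/-- quasiconvexity of the subgroup -/
def QConv (cq : ℕ) : Prop :=
  ∀ p ∈ E, ∀ p' ∈ E, ∀ q, N.Btw p q p' → ∃ e ∈ E, N.d q e ≤ cq

theorem qconv_coset {cq : ℕ} (hq : N.QConv E cq) {p p' q : G} (hp : p⁻¹ * p' ∈ E)
    (h : N.Btw p q p') : ∃ z, p⁻¹ * z ∈ E ∧ N.d q z ≤ cq := by
  obtain ⟨e, he, h1⟩ := hq 1 (one_mem _) (p⁻¹ * p') hp (p⁻¹ * q) (by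
    unfold Btw at *
    have e1 := N.d_left p 1 (p⁻¹ * q)
    have e2 := N.d_left p (p⁻¹ * q) (p⁻¹ * p')
    have e3 := N.d_left p 1 (p⁻¹ * p')
    simp only [mul_one, mul_inv_cancel_left] at e1 e2 e3
    omega)
  refine ⟨p * e, by rwa [inv_mul_cancel_left], ?_⟩
  have := N.d_left p (p⁻¹ * q) e
  rw [mul_inv_cancel_left] at this
  omega

/-- points on a hat step are close to its ends in the hat metric -/
theorem dh_step {cq : ℕ} (hq : N.QConv E cq) {p p' q : G} (hs : N.HStep E (p⁻¹ * p'))
    (h : N.Btw p q p') : N.dh E p q ≤ 1 + cq ∧ N.dh E q p' ≤ 1 + cq := by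
  rcases hs with hs | hs
  · have h1 : N.d p p' ≤ 1 := hs
    have h2 := dh_le_d (N := N) (E := E) p q
    have h3 := dh_le_d (N := N) (E := E) q p'
    unfold Btw at h
    omega
  · obtain ⟨z, hz, h1⟩ := qconv_coset hq hs h
    have h2 : N.dh E p z ≤ 1 := dh_le_one hz
    have h2' : N.dh E z p' ≤ 1 := by
      apply dh_le_one
      have : z⁻¹ * p' = (p⁻¹ * z)⁻¹ * (p⁻¹ * p') := by group
      rw [this]
      exact mul_mem (inv_mem hz) hs
    have h3 := dh_le_d (N := N) (E := E) q z
    have h4 := (N.hat E).d_tri p z q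
    have h5 := (N.hat E).d_tri q z p'
    have h6 := (N.hat E).d_comm z q
    unfold dh at *
    omega

theorem growth (c δ κ : ℕ) : ∃ D0, ∀ D, (∀ k, 3 * D + κ ≤ 2 ^ k → D ≤ c + (k + 4) * δ) →
    D ≤ D0 := by
  set A := 6 * δ + 6 with hA
  refine ⟨2 * (c + 4 * δ + δ * (A + 1) + κ + 1), fun D h => ?_⟩
  set X := 3 * D + κ with hX
  have hA2 : A < 2 ^ A := Nat.lt_two_pow_self
  have h1 : X ≤ 2 ^ (A + (X / 2 ^ A + 1)) := by
    have h2 : X < 2 ^ A * (X / 2 ^ A + 1) := Nat.lt_mul_div_succ X (by positivity)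
    have h3 : X / 2 ^ A + 1 < 2 ^ (X / 2 ^ A + 1) := Nat.lt_two_pow_self
    calc X ≤ 2 ^ A * (X / 2 ^ A + 1) := h2.le
      _ ≤ 2 ^ A * 2 ^ (X / 2 ^ A + 1) := Nat.mul_le_mul_left _ h3.le
      _ = _ := by rw [← pow_add]
  have h4 := h _ h1
  have h5 : 6 * (δ * (X / 2 ^ A)) ≤ X := by
    calc 6 * (δ * (X / 2 ^ A)) = (6 * δ) * (X / 2 ^ A) := by ring
      _ ≤ 2 ^ A * (X / 2 ^ A) := Nat.mul_le_mul_right _ (by omega)
      _ ≤ X := Nat.mul_div_le X _
  have h6 : (A + (X / 2 ^ A + 1) + 4) * δ = δ * (A + 1) + 4 * δ + δ * (X / 2 ^ A) := by ring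
  rw [h6] at h4
  omega

theorem chain_between {δ : ℕ} (hF : N.FP δ) {w : G} {D k n : ℕ} {p : ℕ → G}
    (hp : ∀ i < n, D ≤ N.gp w (p i) (p (i + 1))) {u v : ℕ} (hu : u ≤ n) (hv : v ≤ n)
    (h1 : u ≤ v + 2 ^ k) (h2 : v ≤ u + 2 ^ k) :
    u = v ∨ D ≤ N.gp w (p u) (p v) + k * δ := by
  rcases lt_trichotomy u v with h | h | h
  · right
    have := gp_chain hF w D k (v - u) (fun i => p (u + i)) (by omega) (by omega)
      (fun i hi => by
        have := hp (u + i) (by omega)
        simpa [add_assoc] using this)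
    have e : u + (v - u) = v := by omega
    simpa only [add_zero, e] using this
  · exact Or.inl h
  · right
    have := gp_chain hF w D k (u - v) (fun i => p (v + i)) (by omega) (by omega)
      (fun i hi => by
        have := hp (v + i) (by omega)
        simpa [add_assoc] using this)
    have e : v + (u - v) = u := by omega
    rw [N.gp_comm]
    simpa only [add_zero, e] using this

/-- Morse lemma for hat geodesics -/
theorem morse {δ cq : ℕ} (hF : N.FP δ) (hq : N.QConv E cq) (c : ℕ) :
    ∃ D0, ∀ (n : ℕ) (p : ℕ → G), 0 < n → N.HGeo E n p → ∀ w, N.gp w (p 0) (p n) ≤ c →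
      ∃ i < n, N.gp w (p i) (p (i + 1)) ≤ D0 := by
  classical
  obtain ⟨D0, hD0⟩ := growth c δ (2 * cq + 4 * δ + 6)
  refine ⟨D0, fun n p hn hp w₀ hw₀ => ?_⟩
  by_contra hcon
  push Not at hcon
  -- the largest D
  let P : ℕ → Prop := fun D => ∃ w, N.gp w (p 0) (p n) ≤ c ∧ ∀ i < n, D ≤ N.gp w (p i) (p (i + 1))
  have hP0 : P (D0 + 1) := ⟨w₀, hw₀, fun i hi => hcon i hi⟩
  have hbd : ∀ D, P D → D ≤ 2 * (c + N.d (p 0) (p n)) := by
    rintro D ⟨w, hw, h⟩
    have h1 := h 0 hn
    have h2 := N.gp_le_of_near (a := w) (p := p 0) (p' := p 1) (q := p 0) (by unfold Btw; simp)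
    have h3 := N.gp_add w (p 0) (p n)
    have h4 := N.d_comm w (p 0)
    simp only [zero_add] at h1
    omega
  set B := 2 * (c + N.d (p 0) (p n)) with hB
  set D := Nat.findGreatest P B with hDdef
  have hle : D0 + 1 ≤ D := Nat.le_findGreatest (hbd _ hP0) hP0
  have hPD : P D := Nat.findGreatest_spec (hbd _ hP0) hP0
  have hPD1 : ¬ P (D + 1) := by
    intro h
    have := Nat.le_findGreatest (hbd _ h) h
    omega
  obtain ⟨w, hw, hwD⟩ := hPD
  have hfail : ∀ w', N.gp w' (p 0) (p n) ≤ c → ∃ i < n, N.gp w' (p i) (p (i + 1)) ≤ D := by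
    intro w' hw'
    by_contra h
    push Not at h
    exact hPD1 ⟨w', hw', fun i hi => h i hi⟩
  -- left point
  have hleft : ∃ a, N.Btw (p 0) a w ∧ N.d w a ≤ D + δ + 1 ∧ ∃ i < n, ∃ q,
      N.Btw (p i) q (p (i + 1)) ∧ D ≤ N.gp w a q ∧ 2 * N.d a q ≤ D + 2 * δ + 2 := by
    rcases Nat.lt_or_ge (D + δ + 1) (N.d w (p 0)) with h | h
    · obtain ⟨a, ha1, ha2⟩ := N.exists_btw w (p 0) h.le
      have hb : N.Btw (p 0) a w := by
        have e1 := N.d_comm (p 0) a
        have e2 := N.d_comm a w
        have e3 := N.d_comm (p 0) w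
        unfold Btw; omega
      have hac : N.gp a (p 0) (p n) ≤ c := by
        have e1 := N.gp_add a (p 0) (p n)
        have e2 := N.gp_add w (p 0) (p n)
        have e3 := N.d_tri (p n) w a
        unfold Btw at hb
        have e4 := N.d_comm a w
        omega
      obtain ⟨i, hi, hai⟩ := hfail a hac
      obtain ⟨q, hq1, hq2⟩ := exists_near hF (p i) (p (i + 1)) a
      refine ⟨a, hb, by omega, i, hi, q, hq1, ?_, by omega⟩
      have e1 := N.gp_add w a q
      have e2 := N.d_comm w a
      have e3 := N.d_tri a q w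
      omega
    · refine ⟨p 0, by unfold Btw; simp, h, 0, hn, p 0, by unfold Btw; simp, ?_, by simp⟩
      rw [N.gp_self]
      have h1 := hwD 0 hn
      have h2 := N.gp_le_of_near (a := w) (p := p 0) (p' := p 1) (q := p 0) (by unfold Btw; simp)
      have h4 := N.d_comm w (p 0)
      simp only [zero_add] at h1
      omega
  have hright : ∃ b, N.Btw w b (p n) ∧ N.d w b ≤ D + δ + 1 ∧ ∃ j < n, ∃ q,
      N.Btw (p j) q (p (j + 1)) ∧ D ≤ N.gp w b q ∧ 2 * N.d b q ≤ D + 2 * δ + 2 := by
    rcases Nat.lt_or_ge (D + δ + 1) (N.d w (p n)) with h | h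
    · obtain ⟨a, ha1, ha2⟩ := N.exists_btw w (p n) h.le
      have hb : N.Btw w a (p n) := by unfold Btw; omega
      have hac : N.gp a (p 0) (p n) ≤ c := by
        have e1 := N.gp_add a (p 0) (p n)
        have e2 := N.gp_add w (p 0) (p n)
        have e3 := N.d_tri (p 0) w a
        have e4 := N.d_comm (p n) a
        have e5 := N.d_comm (p n) w
        omega
      obtain ⟨i, hi, hai⟩ := hfail a hac
      obtain ⟨q, hq1, hq2⟩ := exists_near hF (p i) (p (i + 1)) a
      refine ⟨a, hb, by omega, i, hi, q, hq1, ?_, by omega⟩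
      have e1 := N.gp_add w a q
      have e2 := N.d_comm w a
      have e3 := N.d_tri a q w
      omega
    · have e : n - 1 + 1 = n := by omega
      refine ⟨p n, by unfold Btw; simp, h, n - 1, by omega, p n, ?_, ?_, by simp⟩
      · unfold Btw; rw [e]; simp
      · rw [N.gp_self]
        have h1 := hwD (n - 1) (by omega)
        rw [e] at h1
        have h2 := N.gp_le_of_near (a := w) (p := p (n - 1)) (p' := p n) (q := p n)
          (by unfold Btw; simp)
        have h4 := N.d_comm w (p n)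
        omega
  obtain ⟨a, ha1, ha2, i, hi, q, hq1, hq2, hq3⟩ := hleft
  obtain ⟨b, hb1, hb2, j, hj, q', hq1', hq2', hq3'⟩ := hright
  have hab : N.gp w a b ≤ c := (N.gp_sub ha1 hb1).trans hw
  -- index difference
  have hij : N.dh E (p i) (p j) ≤ 3 * D + (2 * cq + 4 * δ + 6) := by
    have s1 := (dh_step hq (hp.step i hi) hq1).1
    have s2 := (dh_step hq (hp.step j hj) hq1').1
    have t1 := (N.hat E).d_tri (p i) q (p j)
    have t2 := (N.hat E).d_tri q a (p j)
    have t3 := (N.hat E).d_tri a b (p j)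
    have t4 := (N.hat E).d_tri b q' (p j)
    have u1 := dh_le_d (N := N) (E := E) q a
    have u2 := dh_le_d (N := N) (E := E) a b
    have u3 := dh_le_d (N := N) (E := E) b q'
    have u4 := N.d_tri a w b
    have c1 := N.d_comm q a
    have c2 := N.d_comm a w
    have c3 := (N.hat E).d_comm q' (p j)
    unfold dh at *
    omega
  have hij' : i ≤ j + (3 * D + (2 * cq + 4 * δ + 6)) ∧ j ≤ i + (3 * D + (2 * cq + 4 * δ + 6)) := by
    rcases le_total i j with h | h
    · rw [hp.dist i j h (by omega)] at hij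
      omega
    · have := (N.hat E).d_comm (p i) (p j)
      unfold dh at hij
      rw [this] at hij
      have h2 := hp.dist j i h (by omega)
      unfold dh at h2
      omega
  have hfinal : ∀ k, 3 * D + (2 * cq + 4 * δ + 6) ≤ 2 ^ k → D ≤ c + (k + 4) * δ := by
    intro k hk
    have hqr : D ≤ N.gp w q (p (i + 1)) := (hwD i hi).trans (N.gp_btw_right hq1)
    have hql : D ≤ N.gp w (p i) q := (hwD i hi).trans (N.gp_btw_left hq1)
    have hqr' : D ≤ N.gp w q' (p (j + 1)) := (hwD j hj).trans (N.gp_btw_right hq1')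
    have hql' : D ≤ N.gp w (p j) q' := (hwD j hj).trans (N.gp_btw_left hq1')
    obtain ⟨u, v, hu, hv, hu1, hv1, h1, h2⟩ : ∃ u v, u ≤ n ∧ v ≤ n ∧ D ≤ N.gp w q (p u) ∧
        D ≤ N.gp w (p v) q' ∧ u ≤ v + 2 ^ k ∧ v ≤ u + 2 ^ k := by
      rcases lt_trichotomy i j with h | h | h
      · exact ⟨i + 1, j, by omega, by omega, hqr, hql', by omega, by omega⟩
      · subst h
        exact ⟨i + 1, i + 1, by omega, by omega, hqr, by rw [N.gp_comm]; exact hqr',
          by omega, by omega⟩
      · exact ⟨i, j + 1, by omega, by omega, by rw [N.gp_comm]; exact hql,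
          by rw [N.gp_comm]; exact hqr', by omega, by omega⟩
    have hb' : D ≤ N.gp w q' b := by rw [N.gp_comm]; exact hq2'
    have m1 := gp_min hF w a q (p u)
    have m4 := gp_min hF w (p v) q' b
    have ek : (k + 4) * δ = k * δ + 4 * δ := by ring
    rcases chain_between hF hwD hu hv h1 h2 with h | h
    · subst h
      have m2 := gp_min hF w a (p u) b
      omega
    · have m2 := gp_min hF w a (p u) (p v)
      have m3 := gp_min hF w a (p v) b
      omega
  have := hD0 D hfinal
  omega

/-- additivity of the hat metric along geodesics -/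
theorem additive {δ cq : ℕ} (hF : N.FP δ) (hq : N.QConv E cq) (c : ℕ) :
    ∃ C, ∀ x y w, N.gp w x y ≤ c → N.dh E x w + N.dh E w y ≤ N.dh E x y + C := by
  obtain ⟨D0, hD0⟩ := morse hF hq c
  refine ⟨c + D0 + 2 * cq + 2 * δ + 4, fun x y w hw => ?_⟩
  obtain ⟨p, h0, h1, hp⟩ := exists_hgeo (N := N) (E := E) x y
  generalize N.dh E x y = n at *
  rcases Nat.eq_zero_or_pos n with hn | hn
  · subst hn
    have : x = y := by rw [← h0, h1]
    subst this
    rw [N.gp_self] at hw
    have h2 := dh_le_d (N := N) (E := E) x w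
    have h3 := (N.hat E).d_comm w x
    unfold dh at *
    omega
  · obtain ⟨i, hi, hi'⟩ := hD0 n p hn hp w (by rw [h0, h1]; exact hw)
    obtain ⟨q, hq1, hq2⟩ := exists_near hF (p i) (p (i + 1)) w
    obtain ⟨s1, s2⟩ := dh_step hq (hp.step i hi) hq1
    have e1 := hp.dist 0 i (by omega) (by omega)
    have e2 := hp.dist (i + 1) n (by omega) le_rfl
    rw [h0] at e1
    rw [h1] at e2
    have t1 := (N.hat E).d_tri x (p i) w
    have t2 := (N.hat E).d_tri (p i) q w
    have t3 := (N.hat E).d_tri w (p (i + 1)) y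
    have t4 := (N.hat E).d_tri w q (p (i + 1))
    have u1 := dh_le_d (N := N) (E := E) w q
    have c1 := (N.hat E).d_comm q w
    unfold dh at *
    omega

theorem five {δ : ℕ} (hF : N.FP δ) {x y z w : G}
    (h2 : N.d x y + N.d z w ≤ N.d x z + N.d y w) (h3 : N.d x y + N.d z w ≤ N.d x w + N.d y z) :
    ∃ p, N.gp p x y ≤ 4 * δ + 4 ∧ N.gp p x z ≤ 4 * δ + 4 ∧ N.gp p y z ≤ 4 * δ + 4 ∧
      N.gp p x w ≤ 4 * δ + 4 ∧ N.gp p y w ≤ 4 * δ + 4 := by
  obtain ⟨p, hp, hxz, hyz⟩ := exists_centre hF x y z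
  have hxy : N.gp p x y = 0 := by
    have := N.gp_le_of_near (a := p) hp
    rw [N.d_self] at this
    omega
  have hm := gp_min hF p x w y
  have a1 := N.gp_add p x y
  have a2 := N.gp_add p x z
  have a3 := N.gp_add p y z
  have a4 := N.gp_add p x w
  have a5 := N.gp_add p y w
  have a6 := N.gp_comm p w y
  have f1 := hF x y z w
  have f2 := hF x y w z
  have f3 := N.d_comm z y
  have f4 := N.d_comm w y
  have f5 := N.d_comm w z
  have t1 := N.d_tri x p z
  have t2 := N.d_tri y p z
  have t3 := N.d_comm p z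
  refine ⟨p, by omega, by omega, by omega, ?_, ?_⟩ <;> omega

/-- four point inequality for the hat metric -/
theorem hat_FP {δ cq : ℕ} (hF : N.FP δ) (hq : N.QConv E cq) :
    ∃ δ', (N.hat E).FP δ' := by
  obtain ⟨C, hC⟩ := additive hF hq (4 * δ + 4)
  refine ⟨2 * C, ?_⟩
  -- all three inequalities when the sum `x y | z w` is smallest
  have key : ∀ x y z w, N.d x y + N.d z w ≤ N.d x z + N.d y w →
      N.d x y + N.d z w ≤ N.d x w + N.d y z →
      N.dh E x z + N.dh E y w ≤ N.dh E x w + N.dh E y z + 2 * C ∧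
      N.dh E x w + N.dh E y z ≤ N.dh E x z + N.dh E y w + 2 * C ∧
      N.dh E x y + N.dh E z w ≤ N.dh E x z + N.dh E y w + 2 * C := by
    intro x y z w h2 h3
    obtain ⟨p, p1, p2, p3, p4, p5⟩ := five hF h2 h3
    have q1 := hC _ _ _ p1
    have q2 := hC _ _ _ p2
    have q3 := hC _ _ _ p3
    have q4 := hC _ _ _ p4
    have q5 := hC _ _ _ p5
    have t1 := (N.hat E).d_tri x p y
    have t2 := (N.hat E).d_tri x p z
    have t3 := (N.hat E).d_tri y p z
    have t4 := (N.hat E).d_tri x p w
    have t5 := (N.hat E).d_tri y p w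
    have t6 := (N.hat E).d_tri z p w
    have c1 := (N.hat E).d_comm z p
    have c2 := (N.hat E).d_comm p y
    unfold dh at *
    refine ⟨by omega, by omega, by omega⟩
  intro x y z w
  -- want : x z + y w ≤ max (x y + z w) (x w + y z)
  have cd : ∀ a b, N.d a b = N.d b a := N.d_comm
  have ch : ∀ a b, (N.hat E).d a b = (N.hat E).d b a := (N.hat E).d_comm
  rcases le_total (N.d x y + N.d z w) (N.d x z + N.d y w) with h1 | h1
  · rcases le_total (N.d x y + N.d z w) (N.d x w + N.d y z) with h2 | h2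
    · have := (key x y z w h1 h2).1
      unfold dh at this
      have := le_max_right ((N.hat E).d x y + (N.hat E).d z w) ((N.hat E).d x w + (N.hat E).d y z)
      omega
    · -- x w | y z smallest
      have h3 : N.d x w + N.d y z ≤ N.d x z + N.d y w := by omega
      have k := key x w z y (by rw [cd z y, cd w y]; omega) (by rw [cd z y, cd w z]; omega)
      unfold dh at k
      rw [ch w y, ch w z, ch z y] at k
      have := le_max_left ((N.hat E).d x y + (N.hat E).d z w) ((N.hat E).d x w + (N.hat E).d y z)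
      omega
  · rcases le_total (N.d x z + N.d y w) (N.d x w + N.d y z) with h2 | h2
    · -- x z | y w smallest
      have k := key x z y w (by omega) (by rw [cd z y]; omega)
      unfold dh at k
      rw [ch z y] at k
      have := le_max_left ((N.hat E).d x y + (N.hat E).d z w) ((N.hat E).d x w + (N.hat E).d y z)
      omega
    · have h3 : N.d x w + N.d y z ≤ N.d x y + N.d z w := by omega
      have k := key x w z y (by rw [cd z y, cd w y]; omega) (by rw [cd z y, cd w z]; omega)
      unfold dh at k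
      rw [ch w y, ch w z, ch z y] at k
      have := le_max_left ((N.hat E).d x y + (N.hat E).d z w) ((N.hat E).d x w + (N.hat E).d y z)
      omega

end GNorm

end Pool.Agent.Lib.MP_bd8d5e_al
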