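import Pool.Agent.Lib.MP_bd8d5e_al.GoodLemmas
import Pool.Agent.Lib.MP_bd8d5e_al.FinalT0

/-! # The direct limit -/

set_option autoImplicit false

namespace Pool.Agent.Lib.MP_bd8d5e_al

/-- statement of the step theorem -/
def StepStmt : Prop :=
  ∀ (G : Type) [Group G], Good G → ∀ v : G, ¬ IsOfFinOrder v →
    (∀ (s : ℕ) (t : G), s ≠ 0 → t ≠ 1 → t ^ 2 = 1 → t * v ^ s ≠ v ^ s * t) →
    ∀ P : Set G, P.Finite →
    ∃ K : Subgroup G, ∃ _ : K.Normal, ∃ n : ℕ, Odd n ∧ v ^ n ∈ K ∧ (∀ g ∈ P, g ∈ K → g = 1) ∧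
      Good (G ⧸ K)

/-- statement of T1 -/
def RelOne : Prop :=
  ∀ (G : Type) [Group G], Good G → ∀ j k : G, j ≠ 1 → j ^ 2 = 1 → k ≠ 1 → k ^ 2 = 1 →
    ¬ IsOfFinOrder (j * k) →
    ∀ (s : ℕ) (t : G), s ≠ 0 → t ≠ 1 → t ^ 2 = 1 → t * (j * k) ^ s ≠ (j * k) ^ s * t

/-- statement of T2 -/
def RelTwo : Prop :=
  ∀ (G : Type) [Group G], Good G → ∀ i j f : G, i ≠ 1 → i ^ 2 = 1 → j ≠ 1 → j ^ 2 = 1 → i ≠ j →
    ¬ IsOfFinOrder f → f * i = i * f →
    ∃ m : ℕ, m ≠ 0 ∧ ¬ IsOfFinOrder (f ^ m * j) ∧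
      ∀ (s : ℕ) (t : G), s ≠ 0 → t ≠ 1 → t ^ 2 = 1 → t * (f ^ m * j) ^ s ≠ (f ^ m * j) ^ s * t

/-- a stage of the construction -/
structure Stage (H : Type) [Group H] (P : Set H) where
  G : Type
  grp : Group G
  φ : H →* G
  surj : Function.Surjective φ
  good : Good G
  prot : ∀ g ∈ P, φ g ≠ 1

attribute [instance] Stage.grp

variable {H : Type} [Group H] {P : Set H}

/-- the order of the stages -/
def Stage.Le (S T : Stage H P) : Prop := ∀ x : H, S.φ x = 1 → T.φ x = 1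

theorem Stage.step (hS : StepStmt) (hP : P.Finite) (S : Stage H P) (v : H)
    (hv : ¬ IsOfFinOrder (S.φ v))
    (hcom : ∀ (s : ℕ) (t : S.G), s ≠ 0 → t ≠ 1 → t ^ 2 = 1 → t * (S.φ v) ^ s ≠ (S.φ v) ^ s * t) :
    ∃ T : Stage H P, S.Le T ∧ ∃ n, Odd n ∧ T.φ (v ^ n) = 1 := by
  obtain ⟨K, hK, n, hn, hvn, hprot, hgood⟩ := hS S.G S.good (S.φ v) hv hcom (S.φ '' P) (hP.image _)
  refine ⟨⟨S.G ⧸ K, inferInstance, (QuotientGroup.mk' K).comp S.φ, ?_, hgood, ?_⟩, ?_, n, hn, ?_⟩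
  · exact (QuotientGroup.mk'_surjective K).comp S.surj
  · intro g hg h
    have h1 : S.φ g ∈ K := (QuotientGroup.eq_one_iff _).1 h
    exact S.prot g hg (hprot _ ⟨g, hg, rfl⟩ h1)
  · intro x hx
    show (QuotientGroup.mk' K) (S.φ x) = 1
    rw [hx, map_one]
  · show (QuotientGroup.mk' K) (S.φ (v ^ n)) = 1
    rw [map_pow]
    exact (QuotientGroup.eq_one_iff _).2 hvn

/-- what a stage does for the task `t` -/
def Handles (i j : H) (t : Bool × H × H) (S T : Stage H P) : Prop :=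
  S.Le T ∧
  (t.1 = true → S.φ t.2.1 ≠ 1 → S.φ t.2.1 ^ 2 = 1 → S.φ t.2.2 ≠ 1 → S.φ t.2.2 ^ 2 = 1 →
    ¬ IsOfFinOrder (S.φ (t.2.1 * t.2.2)) → ∃ n, Odd n ∧ T.φ ((t.2.1 * t.2.2) ^ n) = 1) ∧
  (t.1 = false → S.φ t.2.1 * S.φ i = S.φ i * S.φ t.2.1 → ¬ IsOfFinOrder (S.φ t.2.1) →
    ∃ m n, m ≠ 0 ∧ Odd n ∧ T.φ ((t.2.1 ^ m * j) ^ n) = 1)

theorem exists_handles (hS : StepStmt) (h1 : RelOne) (h2 : RelTwo) (hP : P.Finite) {i j : H}
    (hi : i ∈ P) (hj : j ∈ P) (hij : i * j⁻¹ ∈ P) (hi2 : i ^ 2 = 1) (hj2 : j ^ 2 = 1)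
    (t : Bool × H × H) (S : Stage H P) : ∃ T, Handles i j t S T := by
  by_cases c1 : t.1 = true ∧ S.φ t.2.1 ≠ 1 ∧ S.φ t.2.1 ^ 2 = 1 ∧ S.φ t.2.2 ≠ 1 ∧
      S.φ t.2.2 ^ 2 = 1 ∧ ¬ IsOfFinOrder (S.φ (t.2.1 * t.2.2))
  · obtain ⟨ht, a1, a2, a3, a4, a5⟩ := c1
    have a6 : ¬ IsOfFinOrder (S.φ t.2.1 * S.φ t.2.2) := by rwa [← map_mul]
    have hcom := h1 S.G S.good _ _ a1 a2 a3 a4 a6
    rw [← map_mul] at hcom
    obtain ⟨T, hT, n, hn, h⟩ := S.step hS hP (t.2.1 * t.2.2) a5 hcom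
    exact ⟨T, hT, fun _ _ _ _ _ _ => ⟨n, hn, h⟩, fun hf => absurd (ht.symm.trans hf) (by simp)⟩
  by_cases c2 : t.1 = false ∧ S.φ t.2.1 * S.φ i = S.φ i * S.φ t.2.1 ∧ ¬ IsOfFinOrder (S.φ t.2.1)
  · obtain ⟨ht, a1, a2⟩ := c2
    have b1 : S.φ i ≠ 1 := S.prot i hi
    have b2 : S.φ j ≠ 1 := S.prot j hj
    have b3 : S.φ i ≠ S.φ j := by
      intro h
      apply S.prot _ hij
      rw [map_mul, map_inv, h, mul_inv_cancel]
    have b4 : S.φ i ^ 2 = 1 := by rw [← map_pow, hi2, map_one]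
    have b5 : S.φ j ^ 2 = 1 := by rw [← map_pow, hj2, map_one]
    obtain ⟨m, hm, hinf, hcom⟩ := h2 S.G S.good _ _ _ b1 b4 b2 b5 b3 a2 a1
    rw [← map_pow, ← map_mul] at hinf hcom
    obtain ⟨T, hT, n, hn, h⟩ := S.step hS hP (t.2.1 ^ m * j) hinf hcom
    exact ⟨T, hT, fun hf => absurd (ht.symm.trans hf) (by simp), fun _ _ _ => ⟨m, n, hm, hn, h⟩⟩
  refine ⟨S, fun _ h => h, ?_, ?_⟩
  · intro ht a1 a2 a3 a4 a5
    exact absurd ⟨ht, a1, a2, a3, a4, a5⟩ c1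
  · intro ht a1 a2
    exact absurd ⟨ht, a1, a2⟩ c2

/-- the sequence of stages -/
theorem exists_seq (hS : StepStmt) (h1 : RelOne) (h2 : RelTwo) [Countable H] (hP : P.Finite)
    {i j : H} (hi : i ∈ P) (hj : j ∈ P) (hij : i * j⁻¹ ∈ P) (hi2 : i ^ 2 = 1) (hj2 : j ^ 2 = 1)
    (S0 : Stage H P) : ∃ S : ℕ → Stage H P, (∀ k l, k ≤ l → (S k).Le (S l)) ∧
      ∀ (t : Bool × H × H) (k : ℕ), ∃ l, k ≤ l ∧ Handles i j t (S l) (S (l + 1)) := by
  choose F hF using exists_handles hS h1 h2 hP hi hj hij hi2 hj2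
  obtain ⟨e, he⟩ := exists_surjective_nat (Bool × H × H)
  let S : ℕ → Stage H P := fun k => Nat.rec S0 (fun k s => F (e k.unpair.2) s) k
  have hS' : ∀ k, Handles i j (e k.unpair.2) (S k) (S (k + 1)) := fun k => hF _ _
  refine ⟨S, ?_, ?_⟩
  · intro k l hkl
    induction hkl with
    | refl => exact fun _ h => h
    | step _ ih => exact fun x hx => (hS' _).1 x (ih x hx)
  · intro t k
    obtain ⟨a, ha⟩ := he t
    refine ⟨Nat.pair k a, Nat.left_le_pair k a, ?_⟩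
    have := hS' (Nat.pair k a)
    rwa [Nat.unpair_pair, ha] at this

/-- the limit kernel -/
def limKer (S : ℕ → Stage H P) (hS : ∀ k l, k ≤ l → (S k).Le (S l)) : Subgroup H where
  carrier := {x | ∃ k, (S k).φ x = 1}
  one_mem' := ⟨0, map_one _⟩
  mul_mem' := by
    rintro a b ⟨k, hk⟩ ⟨l, hl⟩
    refine ⟨max k l, ?_⟩
    rw [map_mul, hS k _ (le_max_left _ _) a hk, hS l _ (le_max_right _ _) b hl, one_mul]
  inv_mem' := by
    rintro a ⟨k, hk⟩
    exact ⟨k, by rw [map_inv, hk, inv_one]⟩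

theorem limKer_normal (S : ℕ → Stage H P) (hS : ∀ k l, k ≤ l → (S k).Le (S l)) :
    (limKer S hS).Normal := by
  constructor
  rintro a ⟨k, hk⟩ g
  exact ⟨k, by rw [map_mul, map_mul, hk, mul_one, map_inv, mul_inv_cancel]⟩

section Lim

variable {S : ℕ → Stage H P} (hS : ∀ k l, k ≤ l → (S k).Le (S l)) [(limKer S hS).Normal]

theorem lim_one_iff (x : H) : ((x : H ⧸ limKer S hS) = 1) ↔ ∃ k, (S k).φ x = 1 := by
  rw [QuotientGroup.eq_one_iff]; rfl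

theorem lim_ev {x : H} (h : (x : H ⧸ limKer S hS) = 1) : ∃ k, ∀ l, k ≤ l → (S l).φ x = 1 := by
  obtain ⟨k, hk⟩ := (lim_one_iff hS x).1 h
  exact ⟨k, fun l hl => hS k l hl x hk⟩

theorem lim_eq_ev {x y : H} (h : (x : H ⧸ limKer S hS) = y) :
    ∃ k, ∀ l, k ≤ l → (S l).φ x = (S l).φ y := by
  have : ((x * y⁻¹ : H) : H ⧸ limKer S hS) = 1 := by
    rw [QuotientGroup.mk_mul, QuotientGroup.mk_inv, h, mul_inv_cancel]
  obtain ⟨k, hk⟩ := lim_ev hS this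
  refine ⟨k, fun l hl => ?_⟩
  have := hk l hl
  rw [map_mul, map_inv] at this
  exact mul_inv_eq_one.1 this

theorem lim_eq_of {x y : H} {l : ℕ} (h : (S l).φ x = (S l).φ y) : (x : H ⧸ limKer S hS) = y := by
  have : ((x * y⁻¹ : H) : H ⧸ limKer S hS) = 1 := by
    rw [lim_one_iff]
    exact ⟨l, by rw [map_mul, map_inv, h, mul_inv_cancel]⟩
  rw [QuotientGroup.mk_mul, QuotientGroup.mk_inv] at this
  exact mul_inv_eq_one.1 this

theorem lim_one_of {x : H} {l : ℕ} (h : (S l).φ x = 1) : (x : H ⧸ limKer S hS) = 1 :=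
  (lim_one_iff hS x).2 ⟨l, h⟩

theorem lim_ne {x : H} (h : (x : H ⧸ limKer S hS) ≠ 1) (l : ℕ) : (S l).φ x ≠ 1 :=
  fun h1 => h (lim_one_of hS h1)

theorem lim_fin {x : H} (h : ¬ IsOfFinOrder (x : H ⧸ limKer S hS)) (l : ℕ) :
    ¬ IsOfFinOrder ((S l).φ x) := by
  intro h1
  obtain ⟨m, hm, h2⟩ := isOfFinOrder_iff_pow_eq_one.1 h1
  rw [← map_pow] at h2
  have h3 := lim_one_of hS h2
  rw [QuotientGroup.mk_pow] at h3
  exact h (isOfFinOrder_iff_pow_eq_one.2 ⟨m, hm, h3⟩)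

theorem lim_fin_ev {x : H} (h : IsOfFinOrder (x : H ⧸ limKer S hS)) :
    ∃ k, ∀ l, k ≤ l → IsOfFinOrder ((S l).φ x) := by
  obtain ⟨m, hm, h2⟩ := isOfFinOrder_iff_pow_eq_one.1 h
  rw [← QuotientGroup.mk_pow] at h2
  obtain ⟨k, hk⟩ := lim_ev hS h2
  refine ⟨k, fun l hl => isOfFinOrder_iff_pow_eq_one.2 ⟨m, hm, ?_⟩⟩
  rw [← map_pow]; exact hk l hl

/-- the limit group has the properties used by the final algebra -/
theorem lim_mon {i j f : H} (hi : i ∈ P) (hj : j ∈ P) (hij : i * j⁻¹ ∈ P) (hf : f ^ 2 ∈ P)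
    (hi2 : i ^ 2 = 1) (hj2 : j ^ 2 = 1) (hfi : f * i = i * f)
    (hH : ∀ (t : Bool × H × H) (k : ℕ), ∃ l, k ≤ l ∧ Handles i j t (S l) (S (l + 1))) :
    Mon (H ⧸ limKer S hS) (i : H ⧸ limKer S hS) (j : H ⧸ limKer S hS) := by
  have hprot : ∀ g ∈ P, (g : H ⧸ limKer S hS) ≠ 1 := by
    intro g hg h
    obtain ⟨k, hk⟩ := (lim_one_iff hS g).1 h
    exact (S k).prot g hg hk
  have i1 := hprot i hi
  have i2 : (i : H ⧸ limKer S hS) ^ 2 = 1 := by rw [← QuotientGroup.mk_pow, hi2]; rfl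
  have F0 : TorOdd (H ⧸ limKer S hS) := by
    intro g hg
    obtain ⟨x, rfl⟩ := QuotientGroup.mk_surjective g
    obtain ⟨k, hk⟩ := lim_fin_ev hS hg
    rcases (S k).good.tor _ (hk k le_rfl) with h | ⟨n, hn, h⟩
    · left
      rw [← map_pow] at h
      rw [← QuotientGroup.mk_pow]
      exact lim_one_of hS h
    · right
      rw [← map_pow] at h
      refine ⟨n, hn, ?_⟩
      rw [← QuotientGroup.mk_pow]
      exact lim_one_of hS h
  have F3 : ∀ t τ : H ⧸ limKer S hS, IsOfFinOrder t → τ ≠ 1 → τ ^ 2 = 1 → t * τ = τ * t →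
      t = 1 ∨ t = τ := by
    intro t τ ht h1 h2 h3
    obtain ⟨x, rfl⟩ := QuotientGroup.mk_surjective t
    obtain ⟨y, rfl⟩ := QuotientGroup.mk_surjective τ
    obtain ⟨k1, hk1⟩ := lim_fin_ev hS ht
    rw [← QuotientGroup.mk_pow] at h2
    obtain ⟨k2, hk2⟩ := lim_ev hS h2
    rw [← QuotientGroup.mk_mul, ← QuotientGroup.mk_mul] at h3
    obtain ⟨k3, hk3⟩ := lim_eq_ev hS h3
    set l := max k1 (max k2 k3) with hl
    have a1 := hk1 l (by omega)
    have a2 := hk2 l (by omega)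
    have a3 := hk3 l (by omega)
    rw [map_pow] at a2
    rw [map_mul, map_mul] at a3
    rcases (S l).good.comm_invol a1 (lim_ne hS h1 l) a2 a3 with h | h
    · exact Or.inl (lim_one_of hS h)
    · exact Or.inr (lim_eq_of hS h)
  refine ⟨i1, i2, hprot j hj, ?_, ?_, ?_, F0, ?_, F3, ?_, ?_⟩
  · rw [← QuotientGroup.mk_pow, hj2]; rfl
  · intro h
    apply hprot _ hij
    rw [QuotientGroup.mk_mul, QuotientGroup.mk_inv, h, mul_inv_cancel]
  · refine ⟨(f : H ⧸ limKer S hS), ?_, ?_⟩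
    · rw [← QuotientGroup.mk_mul, ← QuotientGroup.mk_mul, hfi]
    · intro hfin
      have h2 : (f : H ⧸ limKer S hS) ^ 2 ≠ 1 := by
        rw [← QuotientGroup.mk_pow]; exact hprot _ hf
      rcases F3 _ _ hfin i1 i2 (by rw [← QuotientGroup.mk_mul, ← QuotientGroup.mk_mul, hfi])
        with h | h
      · exact h2 (by rw [h, one_pow])
      · exact h2 (by rw [h, i2])
  · -- F2
    intro a b ha hb ha2 hb2
    obtain ⟨x, rfl⟩ := QuotientGroup.mk_surjective a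
    obtain ⟨y, rfl⟩ := QuotientGroup.mk_surjective b
    rw [← QuotientGroup.mk_pow] at ha2 hb2
    obtain ⟨k1, hk1⟩ := lim_ev hS ha2
    obtain ⟨k2, hk2⟩ := lim_ev hS hb2
    obtain ⟨l, hl, hh⟩ := hH (true, x, y) (max k1 k2)
    have a1 := hk1 l (by omega)
    have a2 := hk2 l (by omega)
    rw [map_pow] at a1 a2
    by_cases hfin : IsOfFinOrder ((S l).φ (x * y))
    · rcases (S l).good.tor _ hfin with h | ⟨n, hn, h⟩
      · refine ⟨1, odd_one, ?_⟩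
        have h3 : (S l).φ x = (S l).φ y := by
          apply (S l).good.noV4 _ _ (lim_ne hS ha l) (lim_ne hS hb l) a1 a2
          rw [map_mul] at h
          have h4 := inv_eq_self h
          rw [mul_inv_rev, inv_eq_self a1, inv_eq_self a2] at h4
          exact h4.symm
        rw [pow_one, ← QuotientGroup.mk_mul]
        apply lim_one_of hS (l := l)
        rw [map_mul, h3, ← pow_two, a2]
      · refine ⟨n, hn, ?_⟩
        rw [← QuotientGroup.mk_mul, ← QuotientGroup.mk_pow]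
        apply lim_one_of hS (l := l)
        rw [map_pow, h]
    · obtain ⟨n, hn, h⟩ := hh.2.1 rfl (lim_ne hS ha l) a1 (lim_ne hS hb l) a2 hfin
      refine ⟨n, hn, ?_⟩
      rw [← QuotientGroup.mk_mul, ← QuotientGroup.mk_pow]
      exact lim_one_of hS h
  · -- F4
    intro c s n h1 hn hcn hs
    obtain ⟨x, rfl⟩ := QuotientGroup.mk_surjective c
    obtain ⟨y, rfl⟩ := QuotientGroup.mk_surjective s
    rw [← QuotientGroup.mk_pow] at hcn
    obtain ⟨k1, hk1⟩ := lim_ev hS hcn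
    constructor
    · intro h
      rw [← QuotientGroup.mk_mul, ← QuotientGroup.mk_mul] at h
      obtain ⟨k2, hk2⟩ := lim_eq_ev hS h
      set l := max k1 k2 with hl
      have a1 := hk1 l (by omega)
      have a2 := hk2 l (by omega)
      rw [map_pow] at a1
      rw [map_mul, map_mul] at a2
      exact (S l).good.not_comm (lim_ne hS h1 l) hn a1 (lim_fin hS hs l) a2
    · intro h
      rw [← QuotientGroup.mk_inv, ← QuotientGroup.mk_mul, ← QuotientGroup.mk_mul,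
        ← QuotientGroup.mk_mul, ← QuotientGroup.mk_mul] at h
      obtain ⟨k2, hk2⟩ := lim_eq_ev hS h
      set l := max k1 k2 with hl
      have a1 := hk1 l (by omega)
      have a2 := hk2 l (by omega)
      rw [map_pow] at a1
      simp only [map_mul, map_inv] at a2
      exact (S l).good.not_comm_conj (lim_ne hS h1 l) hn a1 (lim_fin hS hs l) a2
  · -- F5
    intro g hgi hg1 hgi'
    obtain ⟨x, rfl⟩ := QuotientGroup.mk_surjective g
    have hinf : ¬ IsOfFinOrder (x : H ⧸ limKer S hS) := by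
      intro hfin
      rcases F3 _ _ hfin i1 i2 hgi with h | h
      · exact hg1 h
      · exact hgi' h
    rw [← QuotientGroup.mk_mul, ← QuotientGroup.mk_mul] at hgi
    obtain ⟨k1, hk1⟩ := lim_eq_ev hS hgi
    obtain ⟨l, hl, hh⟩ := hH (false, x, x) k1
    have a1 := hk1 l hl
    rw [map_mul, map_mul] at a1
    obtain ⟨m, n, hm, hn, h⟩ := hh.2.2 rfl a1 (lim_fin hS hinf l)
    refine ⟨m, n, hm, hn, ?_⟩
    rw [← QuotientGroup.mk_pow, ← QuotientGroup.mk_mul, ← QuotientGroup.mk_pow]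
    exact lim_one_of hS h

end Lim

/-- the construction, from the step theorem and the relators -/
theorem exists_mon (hS : StepStmt) (h1 : RelOne) (h2 : RelTwo)
    (hbase : ∃ (H : Type) (_ : Group H) (i j f : H), Countable H ∧ Good H ∧ i ≠ 1 ∧
      i ^ 2 = 1 ∧ j ^ 2 = 1 ∧ i ≠ j ∧ j ≠ 1 ∧ f * i = i * f ∧ f ^ 2 ≠ 1) :
    ∃ (A : Type) (_ : Group A) (i j : A), Mon A i j := by
  obtain ⟨H, hH, i, j, f, hcount, hgood, hi, hi2, hj2, hij, hj, hfi, hf⟩ := hbase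
  let P : Set H := {i, j, i * j⁻¹, f ^ 2}
  have hP : P.Finite := Set.toFinite _
  have iP : i ∈ P := by simp [P]
  have jP : j ∈ P := by simp [P]
  have ijP : i * j⁻¹ ∈ P := by simp [P]
  have fP : f ^ 2 ∈ P := by simp [P]
  let S0 : Stage H P := ⟨H, hH, MonoidHom.id H, Function.surjective_id, hgood, by
    intro g hg
    show g ≠ 1
    rcases hg with rfl | rfl | rfl | hg
    · exact hi
    · exact hj
    · intro h
      exact hij (mul_inv_eq_one.1 h)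
    · rw [Set.mem_singleton_iff.1 hg]; exact hf⟩
  obtain ⟨S, hS', hh⟩ := exists_seq hS h1 h2 hP iP jP ijP hi2 hj2 S0
  have := limKer_normal S hS'
  exact ⟨H ⧸ limKer S hS', inferInstance, _, _, lim_mon hS' iP jP ijP fP hi2 hj2 hfi hh⟩

/-- a simple `T₀`-group, from the step theorem and the relators -/
theorem exists_simple_T0_of (hS : StepStmt) (h1 : RelOne) (h2 : RelTwo)
    (hbase : ∃ (H : Type) (_ : Group H) (i j f : H), Countable H ∧ Good H ∧ i ≠ 1 ∧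
      i ^ 2 = 1 ∧ j ^ 2 = 1 ∧ i ≠ j ∧ j ≠ 1 ∧ f * i = i * f ∧ f ^ 2 ≠ 1) :
    ∃ (G : Type) (_ : Group G), IsSimpleGroup G ∧ IsT0Group G := by
  obtain ⟨A, hA, i, j, M⟩ := exists_mon hS h1 h2 hbase
  obtain ⟨B, hB1, hB2⟩ := exists_simple_T0 M
  exact ⟨B, inferInstance, hB1, hB2⟩

end Pool.Agent.Lib.MP_bd8d5e_al
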