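import Pool.Agent.Lib.MP_bd8d5e_al.Setup
import Pool.Agent.Lib.MP_bd8d5e_al.Tools
import Pool.Agent.Lib.MP_bd8d5e_al.ELox
import Pool.Agent.Lib.MP_bd8d5e_al.EProj

/-! # Involutions commuting with elements of infinite order, and the relators

`invol_unique` (Lemma U), `relator_one` (T1), `relator_two` (T2), see section 4 of
`MP_bd8d5e_S4.txt`. -/

set_option autoImplicit false

namespace Pool.Agent.Lib.MP_bd8d5e_al

section Relators

variable {G : Type*} [Group G]

theorem not_fin_pow {c : G} (hc : ¬ IsOfFinOrder c) {s : ℕ} (hs : s ≠ 0) :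
    ¬ IsOfFinOrder (c ^ s) := by
  intro h
  exact hc ((isOfFinOrder_pow.1 h).resolve_right hs)

theorem not_fin_conj {c : G} (hc : ¬ IsOfFinOrder c) (p : G) :
    ¬ IsOfFinOrder (p⁻¹ * c * p) := by
  intro h
  apply hc
  obtain ⟨n, hn, h1⟩ := isOfFinOrder_iff_pow_eq_one.1 h
  refine isOfFinOrder_iff_pow_eq_one.2 ⟨n, hn, ?_⟩
  have e : (p⁻¹ * c * p) ^ n = p⁻¹ * c ^ n * p := by
    have := conj_pow (a := p⁻¹) (b := c) (i := n)
    rwa [inv_inv] at this
  rw [e] at h1
  calc c ^ n = p * (p⁻¹ * c ^ n * p) * p⁻¹ := by group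
    _ = 1 := by rw [h1]; group

/-- an element commuting with an element of infinite order is commensurable with it -/
theorem comm_pow (hyp : ∃ (N : GNorm G) (δ : ℕ), N.FP δ ∧ N.FinBalls) {c w : G}
    (hc : ¬ IsOfFinOrder c) (h : w * c = c * w) : ∃ a : ℕ, 0 < a ∧ ∃ b : ℤ, w ^ a = c ^ b := by
  obtain ⟨N, δ, hF, hfb⟩ := hyp
  obtain ⟨p, j, hj, hlox⟩ := GNorm.exists_lox hfb hF hc
  set v := p⁻¹ * c ^ j * p with hv
  set g := p⁻¹ * w * p with hg
  have hcw : Commute w (c ^ j) := (show Commute w c from h).pow_right j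
  have hgv : Commute g v := by
    show g * v = v * g
    have e1 : g * v = p⁻¹ * (w * c ^ j) * p := by rw [hg, hv]; group
    have e2 : v * g = p⁻¹ * (c ^ j * w) * p := by rw [hg, hv]; group
    rw [e1, e2, hcw.eq]
  have hmem : ∀ k : ℕ, g ^ k ∈ EE v := by
    intro k
    refine ⟨1, Nat.one_pos, Or.inl ?_⟩
    rw [pow_one, (hgv.pow_left k).eq]; group
  have hnear : ∀ k : ℕ, ∃ i : ℤ, N.d (g ^ k) (v ^ i) ≤ N.rad δ v :=
    fun k => GNorm.Lox.near_E hF hlox (hmem k)
  choose i hi using hnear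
  have hfin : Finite {x : G | N.l x ≤ N.rad δ v} := (hfb _).to_subtype
  obtain ⟨k, k', hkk, hf⟩ := Finite.exists_ne_map_eq_of_infinite
    (fun k : ℕ => (⟨(g ^ k)⁻¹ * v ^ (i k), hi k⟩ : {x : G | N.l x ≤ N.rad δ v}))
  have hf' : (g ^ k)⁻¹ * v ^ (i k) = (g ^ k')⁻¹ * v ^ (i k') := congrArg Subtype.val hf
  have main : ∀ k k' : ℕ, k < k' → (g ^ k)⁻¹ * v ^ (i k) = (g ^ k')⁻¹ * v ^ (i k') →
      ∃ a : ℕ, 0 < a ∧ ∃ b : ℤ, w ^ a = c ^ b := by
    intro k k' hlt he
    obtain ⟨r, rfl⟩ : ∃ r, k' = k + r := ⟨k' - k, by omega⟩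
    have hr : 0 < r := by omega
    have e1 : g ^ r = v ^ (i (k + r) - i k) := by
      rw [pow_add, mul_inv_rev] at he
      have hcm : (g ^ r)⁻¹ * (g ^ k)⁻¹ = (g ^ k)⁻¹ * (g ^ r)⁻¹ := by
        rw [← mul_inv_rev, ← mul_inv_rev, ← pow_add, ← pow_add, add_comm]
      rw [hcm, mul_assoc] at he
      have he2 := mul_left_cancel he
      have he3 : g ^ r * v ^ (i k) = v ^ (i (k + r)) := by rw [he2, mul_inv_cancel_left]
      rw [zpow_sub, ← he3, mul_inv_cancel_right]
    refine ⟨r, hr, (j : ℤ) * (i (k + r) - i k), ?_⟩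
    have e2 : g ^ r = p⁻¹ * w ^ r * p := by
      have := conj_pow (a := p⁻¹) (b := w) (i := r)
      rwa [inv_inv] at this
    have e3 : v ^ (i (k + r) - i k) = p⁻¹ * (c ^ j) ^ (i (k + r) - i k) * p := by
      have := conj_zpow (a := p⁻¹) (b := c ^ j) (i := i (k + r) - i k)
      rwa [inv_inv] at this
    rw [e2, e3] at e1
    have e4 := mul_left_cancel (mul_right_cancel e1)
    rw [e4, zpow_mul, zpow_natCast]
  rcases lt_or_gt_of_ne hkk with hlt | hlt
  · exact main k k' hlt hf'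
  · exact main k' k hlt hf'.symm

/-- LEMMA U -/
theorem invol_unique (hG : Good G) {c t t' : G} (hc : ¬ IsOfFinOrder c) (ht : t ≠ 1)
    (ht2 : t ^ 2 = 1) (ht' : t' ≠ 1) (ht2' : t' ^ 2 = 1) (h : t * c = c * t) (h' : t' * c = c * t') :
    t = t' := by
  have hti : t⁻¹ = t := by
    rw [pow_two] at ht2; exact inv_eq_of_mul_eq_one_left ht2
  have hti' : t'⁻¹ = t' := by
    rw [pow_two] at ht2'; exact inv_eq_of_mul_eq_one_left ht2'
  have hct : Commute t c := h
  have hct' : Commute t' c := h'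
  set w := t * t' with hw
  have hwc : Commute w c := hct.mul_left hct'
  have hinv : w⁻¹ = t' * t := by rw [hw, mul_inv_rev, hti, hti']
  by_contra hne
  by_cases hfo : IsOfFinOrder w
  · rcases hG.tor w hfo with h2 | ⟨n, hn, hn1⟩
    · apply hne
      apply hG.noV4 t t' ht ht' ht2 ht2'
      have : w * w = 1 := by rw [← pow_two]; exact h2
      have h3 : w = w⁻¹ := eq_inv_of_mul_eq_one_left this
      rw [hinv] at h3
      exact h3
    · have hw1 : w ≠ 1 := by
        intro h1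
        apply hne
        have : t = t'⁻¹ := eq_inv_of_mul_eq_one_left h1
        rw [this, hti']
      obtain ⟨hfin, -⟩ := hG.fin w hw1 n hn hn1
      apply hc
      have hmem : c ∈ Subgroup.centralizer {w} := by
        rw [Subgroup.mem_centralizer_singleton_iff]
        exact hwc.eq.symm
      have : IsOfFinOrder (⟨c, hmem⟩ : Subgroup.centralizer {w}) := isOfFinOrder_of_finite _
      obtain ⟨k, hk, hk1⟩ := isOfFinOrder_iff_pow_eq_one.1 this
      refine isOfFinOrder_iff_pow_eq_one.2 ⟨k, hk, ?_⟩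
      exact congrArg Subtype.val hk1
  · obtain ⟨a, ha, b, hab⟩ := comm_pow hG.hyp hc hwc.eq
    apply hfo
    have h1 : t * w ^ a * t⁻¹ = w ^ a := by
      rw [hab, (hct.zpow_right b).eq]; group
    have h2 : t * w ^ a * t⁻¹ = (w ^ a)⁻¹ := by
      rw [← conj_pow, ← inv_pow]
      congr 1
      rw [hinv, hw, hti, ← mul_assoc]
      rw [pow_two] at ht2
      rw [ht2, one_mul]
    rw [h1] at h2
    refine isOfFinOrder_iff_pow_eq_one.2 ⟨a + a, by omega, ?_⟩
    rw [pow_add]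
    nth_rewrite 2 [h2]
    rw [mul_inv_cancel]

/-- an involution which inverts by conjugation -/
theorem conj_comm {t c u : G} (h : t * c = c * t) : u * t * u⁻¹ * (u * c * u⁻¹) =
    u * c * u⁻¹ * (u * t * u⁻¹) := by
  have e1 : u * t * u⁻¹ * (u * c * u⁻¹) = u * (t * c) * u⁻¹ := by group
  have e2 : u * c * u⁻¹ * (u * t * u⁻¹) = u * (c * t) * u⁻¹ := by group
  rw [e1, e2, h]

theorem conj_ne {t u : G} (h : t ≠ 1) : u * t * u⁻¹ ≠ 1 := by
  intro h1
  apply h
  calc t = u⁻¹ * (u * t * u⁻¹) * u := by group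
    _ = 1 := by rw [h1]; group

theorem conj_sq {t u : G} (h : t ^ 2 = 1) : (u * t * u⁻¹) ^ 2 = 1 := by
  rw [conj_pow, h]; group

/-- if conjugation by an involution `j` inverts `c`, of infinite order, then no involution
commutes with `c`, unless it is `j` -/
theorem inverted_eq (hG : Good G) {j c t : G} (hj : j ≠ 1) (hj2 : j ^ 2 = 1)
    (hc : ¬ IsOfFinOrder c) (hjc : j * c * j⁻¹ = c⁻¹) (ht : t ≠ 1) (ht2 : t ^ 2 = 1)
    (h : t * c = c * t) : t = j := by
  have hct : Commute t c := h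
  have h1 : j * t * j⁻¹ * c = c * (j * t * j⁻¹) := by
    have h2 := conj_comm (u := j) h
    rw [hjc] at h2
    have h3 : Commute (j * t * j⁻¹) c⁻¹ := h2
    exact (Commute.inv_right_iff.1 h3).eq
  have h2 := invol_unique hG hc (conj_ne (u := j) ht) (conj_sq ht2) ht ht2 h1 h
  apply hG.noV4 t j ht hj ht2 hj2
  calc t * j = j * t * j⁻¹ * j := by rw [h2]
    _ = j * t := by group

theorem sq_of_inv {c : G} (h : c = c⁻¹) : IsOfFinOrder c := by
  refine isOfFinOrder_iff_pow_eq_one.2 ⟨2, by omega, ?_⟩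
  rw [pow_two]
  nth_rewrite 2 [h]
  rw [mul_inv_cancel]

/-- T1 -/
theorem relator_one (hG : Good G) {j k : G} (hj : j ≠ 1) (hj2 : j ^ 2 = 1) (hk : k ≠ 1)
    (hk2 : k ^ 2 = 1) (hv : ¬ IsOfFinOrder (j * k)) :
    ∀ (s : ℕ) (t : G), s ≠ 0 → t ≠ 1 → t ^ 2 = 1 → t * (j * k) ^ s ≠ (j * k) ^ s * t := by
  intro s t hs ht ht2 h
  have hji : j⁻¹ = j := by
    rw [pow_two] at hj2; exact inv_eq_of_mul_eq_one_left hj2
  have hki : k⁻¹ = k := by
    rw [pow_two] at hk2; exact inv_eq_of_mul_eq_one_left hk2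
  have hvs := not_fin_pow hv hs
  have hinv : j * (j * k) ^ s * j⁻¹ = ((j * k) ^ s)⁻¹ := by
    rw [← conj_pow, ← inv_pow]
    congr 1
    rw [mul_inv_rev, hki, hji, ← mul_assoc]
    rw [pow_two] at hj2
    rw [hj2, one_mul]
  have htj := inverted_eq hG hj hj2 hvs hinv ht ht2 h
  subst htj
  apply hvs
  apply sq_of_inv
  rw [← hinv, h]; group

/-! ## T2 -/

/-- distinct involutions: `j` is not in the elementary subgroup of an element of `C(i)` -/
theorem not_mem_EE (hG : Good G) {i j f : G} (hi : i ≠ 1) (hi2 : i ^ 2 = 1) (hj : j ≠ 1)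
    (hj2 : j ^ 2 = 1) (hij : i ≠ j) (hf : ¬ IsOfFinOrder f) (hfi : f * i = i * f) : j ∉ EE f := by
  rintro ⟨n, hn, h⟩
  have hfn := not_fin_pow hf hn.ne'
  have hcom : i * f ^ n = f ^ n * i := ((show Commute i f from hfi.symm).pow_right n).eq
  rcases h with h | h
  · apply hij
    apply invol_unique hG hfn hi hi2 hj hj2 hcom
    calc j * f ^ n = j * f ^ n * j⁻¹ * j := by group
      _ = f ^ n * j := by rw [h]
  · exact hij (inverted_eq hG hj hj2 hfn h hi hi2 hcom)

namespace GNorm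

variable {N : GNorm G} {δ : ℕ}

/-- an involution moves points far from its moving ends as it does the ends -/
theorem invol_far (hF : N.FP δ) {t P x : G} (ht2 : t ^ 2 = 1) (hP : P⁻¹ * t * P = t)
    (hbig : 2 * N.l t + 2 * N.l x + δ < N.l P) :
    2 * N.d P (t * x) ≤ 2 * N.d P x + δ ∧ 2 * N.d P x ≤ 2 * N.d P (t * x) + δ := by
  have htt : t * t = 1 := by rw [← pow_two]; exact ht2
  have e1 : N.d (t * P) (t * x) = N.d P x := N.d_left t P x
  have e2 : N.d (t * P) x = N.d P (t * x) := by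
    have := N.d_left t (t * P) x
    rw [← mul_assoc, htt, one_mul] at this
    exact this.symm
  have e3 : N.d P (t * P) = N.l t := by
    unfold d; rw [← mul_assoc, hP]
  have e4 := N.d_tri P x 1
  have e5 := N.d_tri P (t * x) 1
  have e6 := N.d_tri (t * x) 1 x
  have e7 : N.d P 1 = N.l P := by rw [N.d_comm, N.d_one]
  have e8 : N.d x 1 = N.l x := by rw [N.d_comm, N.d_one]
  have e9 : N.d (t * x) 1 = N.l (t * x) := by rw [N.d_comm, N.d_one]
  have e10 := N.l_mul t x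
  have e11 := N.d_one x
  have f1 := hF P (t * P) (t * x) x
  have f2 := hF P (t * P) x (t * x)
  rw [N.d_comm x (t * x)] at f2
  constructor
  · by_contra hcon
    push Not at hcon
    rcases le_total (N.d P (t * P) + N.d (t * x) x) (N.d P x + N.d (t * P) (t * x)) with h | h
    · rw [max_eq_right h] at f1; omega
    · rw [max_eq_left h] at f1; omega
  · by_contra hcon
    push Not at hcon
    rcases le_total (N.d P (t * P) + N.d (t * x) x) (N.d P (t * x) + N.d (t * P) x) with h | h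
    · rw [max_eq_right h] at f2; omega
    · rw [max_eq_left h] at f2; omega

/-- Gromov products of `f ^ m` and `j f ^ (-m)` are bounded -/
theorem prod_bdd (hfb : N.FinBalls) (hF : N.FP δ) {f j : G} (hf : N.Lox δ f) (hj : j ∉ EE f) :
    ∃ A : ℕ, ∀ m : ℕ, N.l (f ^ m) + N.l (j * (f ^ m)⁻¹) ≤ N.d (f ^ m) (j * (f ^ m)⁻¹) + A := by
  obtain ⟨R, hR⟩ := hf.overlap hfb hF (N.l f + 22 * δ + 2 * N.l j)
  refine ⟨2 * (R + N.l f) + 11 * δ, ?_⟩
  intro m
  by_contra hcon
  push Not at hcon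
  set w := j * (f ^ m)⁻¹ with hw
  have d1 : N.d 1 (f ^ m) = N.l (f ^ m) := N.d_one _
  have d2 : N.d 1 w = N.l w := N.d_one _
  have c1 := N.d_comm w 1
  have c2 := N.d_comm w (f ^ m)
  have t1 := N.d_tri 1 (f ^ m) w
  have t2 := N.d_tri 1 w (f ^ m)
  -- the first power longer than `R`
  have hex : ∃ a, R < N.l (f ^ a) := ⟨m, by omega⟩
  classical
  set a := Nat.find hex with ha
  have ha1 : R < N.l (f ^ a) := Nat.find_spec hex
  have ham : a ≤ m := Nat.find_min' hex (by omega)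
  have ha2 : N.l (f ^ a) ≤ R + N.l f := by
    rcases Nat.eq_zero_or_pos a with h0 | h0
    · rw [h0, pow_zero, N.l_one]; omega
    · have h1 : ¬ R < N.l (f ^ (a - 1)) := Nat.find_min hex (by omega)
      have h2 := N.l_mul (f ^ (a - 1)) f
      rw [← pow_succ] at h2
      have h3 : a - 1 + 1 = a := by omega
      rw [h3] at h2
      omega
  have hadd := GNorm.Lox.add hF hf a (m - a)
  have hsum : a + (m - a) = m := by omega
  rw [hsum] at hadd
  have hd : N.d (f ^ a) (f ^ m) = N.l (f ^ (m - a)) := by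
    have e : (f ^ a)⁻¹ * f ^ m = f ^ (m - a) := by
      nth_rewrite 1 [← hsum]
      rw [pow_add, inv_mul_cancel_left]
    unfold d; rw [e]
  have d3 : N.d 1 (f ^ a) = N.l (f ^ a) := N.d_one _
  have hbt : N.d 1 (f ^ a) + N.d (f ^ a) (f ^ m) ≤ N.d 1 (f ^ m) + 10 * δ := by omega
  have hw1 : N.l (f ^ a) + N.d (f ^ a) w ≤ N.l w + 11 * δ := by
    have t3 := N.d_tri 1 (f ^ a) w
    have t4 := N.d_tri 1 (f ^ a) (f ^ m)
    rcases a0 hF hbt w with h | h <;> omega
  obtain ⟨i, -, -, hi⟩ := GNorm.Lox.near_z hF hf (11 * δ + 2 * N.l j) 0 (-(m : ℤ)) (j⁻¹ * f ^ a) (by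
    have e1 : N.d (f ^ (0 : ℤ)) (j⁻¹ * f ^ a) = N.d j (f ^ a) := by
      rw [zpow_zero, N.d_one]; rfl
    have e2 : N.d (j⁻¹ * f ^ a) (f ^ (-(m : ℤ))) = N.d (f ^ a) w := by
      have : f ^ (-(m : ℤ)) = j⁻¹ * w := by
        rw [hw, inv_mul_cancel_left, zpow_neg, zpow_natCast]
      rw [this, N.d_left]
    have e3 : N.d (f ^ (0 : ℤ)) (f ^ (-(m : ℤ))) = N.d j w := by
      rw [zpow_zero, N.d_one, zpow_neg, zpow_natCast]
      unfold d; rw [hw, inv_mul_cancel_left]
    rw [e1, e2, e3]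
    have t3 := N.d_tri j 1 (f ^ a)
    have t4 := N.d_tri 1 j w
    have c3 := N.d_comm j 1
    have d4 := N.d_one j
    omega)
  have hlast := hR j hj 1 (EE f).one_mem (f ^ a) ((EE f).pow_mem (self_mem_EE f) a) j
    (j * f ^ i) (by rw [inv_mul_cancel]; exact (EE f).one_mem)
    (by rw [inv_mul_cancel_left]; exact (EE f).zpow_mem (self_mem_EE f) i)
    (by rw [N.d_one]; omega)
    (by
      have e : N.d (f ^ a) (j * f ^ i) = N.d (j⁻¹ * f ^ a) (f ^ i) := by
        rw [← N.d_left j⁻¹, inv_mul_cancel_left]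
      rw [e]; omega)
  rw [N.d_one] at hlast
  omega

end GNorm

/-- T2 for a good loxodromic `f` -/
theorem relator_two_aux (hG : Good G) {N : GNorm G} {δ : ℕ} (hF : N.FP δ) (hfb : N.FinBalls)
    {i j f : G} (hi : i ≠ 1) (hi2 : i ^ 2 = 1) (hj : j ≠ 1)
    (hj2 : j ^ 2 = 1) (hij : i ≠ j) (hlox : N.Lox δ f) (hfo : ¬ IsOfFinOrder f)
    (hfi : f * i = i * f) :
    ∃ m : ℕ, m ≠ 0 ∧ ¬ IsOfFinOrder (f ^ m * j) ∧
      ∀ (s : ℕ) (t : G), s ≠ 0 → t ≠ 1 → t ^ 2 = 1 → t * (f ^ m * j) ^ s ≠ (f ^ m * j) ^ s * t := by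
  obtain ⟨A, hA⟩ := GNorm.prod_bdd hfb hF hlox (not_mem_EE hG hi hi2 hj hj2 hij hfo hfi)
  set α := A + 2 * N.l j with hα
  set be := α + 2 * δ with hbe
  set c3 := 2 * (10 * δ + 2 * N.l j + 2 * be) + 4 * δ with hc3
  set B := (hfb c3).toFinset.card with hB
  set m := be + N.l j + B + 1 with hm
  have hji : j⁻¹ = j := by
    rw [pow_two] at hj2; exact inv_eq_of_mul_eq_one_left hj2
  set g := f ^ m * j with hg
  have hlm : m ≤ N.l (f ^ m) := GNorm.Lox.le hF hlox m
  have hgl : N.l (f ^ m) ≤ N.l g + N.l j := by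
    have := N.l_mul g j⁻¹
    rw [N.l_inv, hg, mul_inv_cancel_right] at this
    exact this
  have hgl2 : N.l g ≤ N.l (f ^ m) + N.l j := N.l_mul _ _
  have hginv : g⁻¹ = j * (f ^ m)⁻¹ := by rw [hg, mul_inv_rev, hji]
  have hAm := hA m
  rw [← hginv, N.l_inv] at hAm
  have hg2 : N.l g + N.l g ≤ N.l (g ^ 2) + α := by
    have e1 : N.d (f ^ m) g⁻¹ ≤ N.d (f ^ m) g + N.d g g⁻¹ := N.d_tri _ _ _
    have e2 : N.d (f ^ m) g = N.l j := by
      unfold GNorm.d; rw [hg, inv_mul_cancel_left]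
    have e3 : N.d g g⁻¹ = N.l (g ^ 2) := by
      rw [N.d_comm]; unfold GNorm.d; rw [inv_inv, pow_two]
    omega
  have hd : ∀ a b : ℕ, N.d (g ^ a) (g ^ (a + b)) = N.l (g ^ b) := by
    intro a b
    unfold GNorm.d; rw [pow_add, inv_mul_cancel_left]
  have hbr1 : ∀ k : ℕ, N.d (g ^ k) (g ^ (k + 1)) + N.d (g ^ (k + 1)) (g ^ (k + 2)) ≤
      N.d (g ^ k) (g ^ (k + 2)) + α := by
    intro k
    have e1 := hd k 1
    have e2 := hd (k + 1) 1
    have e3 := hd k 2
    have e4 : k + 1 + 1 = k + 2 := rfl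
    rw [e4] at e2
    rw [e1, e2, e3, pow_one]
    exact hg2
  have hbr2 : ∀ k : ℕ, α + 2 * δ + 1 ≤ N.d (g ^ k) (g ^ (k + 1)) := by
    intro k
    rw [hd k 1, pow_one]
    omega
  have hadd : ∀ a b : ℕ, N.l (g ^ a) + N.l (g ^ b) ≤ N.l (g ^ (a + b)) + be := by
    intro a b
    have h : N.d (g ^ 0) (g ^ a) + N.d (g ^ a) (g ^ (a + b)) ≤ N.d (g ^ 0) (g ^ (a + b)) + be :=
      GNorm.broken hF (fun k => g ^ k) α hbr1 hbr2 0 a (a + b) (Nat.zero_le _) (by omega)
    have e1 : N.d (g ^ 0) (g ^ a) = N.l (g ^ a) := by rw [pow_zero, N.d_one]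
    have e2 : N.d (g ^ 0) (g ^ (a + b)) = N.l (g ^ (a + b)) := by rw [pow_zero, N.d_one]
    rw [e1, e2, hd a b] at h
    exact h
  have hgrow : ∀ k : ℕ, k ≤ N.l (g ^ k) := by
    intro k
    have h : k ≤ N.d (g ^ 0) (g ^ k) := GNorm.broken_grow hF (fun k => g ^ k) α hbr1 hbr2 k
    rw [pow_zero, N.d_one] at h
    exact h
  have hgo : ¬ IsOfFinOrder g := by
    intro h
    obtain ⟨k, hk, hk1⟩ := isOfFinOrder_iff_pow_eq_one.1 h
    have := hgrow k
    rw [hk1, N.l_one] at this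
    omega
  -- the key: an involution commuting with `g ^ s` is `i`
  have key : ∀ (s : ℕ) (t : G), s ≠ 0 → t ≠ 1 → t ^ 2 = 1 → t * g ^ s = g ^ s * t → t = i := by
    intro s t hs ht ht2 hts
    have hti : t⁻¹ = t := by
      rw [pow_two] at ht2; exact inv_eq_of_mul_eq_one_left ht2
    have hmove : ∀ b ≤ m, N.l ((f ^ b)⁻¹ * t * f ^ b) ≤ c3 := by
      intro b hb
      set x := f ^ b with hx
      set M := s * (2 * N.l t + 2 * N.l x + δ + 1) with hM
      have hMbig : 2 * N.l t + 2 * N.l x + δ + 1 ≤ M := by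
        rw [hM]; exact Nat.le_mul_of_pos_left _ (Nat.pos_of_ne_zero hs)
      have hcomm : Commute t (g ^ M) := by
        have h1 : Commute t (g ^ s) := hts
        rw [hM, pow_mul]
        exact h1.pow_right _
      have hMl := hgrow M
      -- two far points
      have hPi : (g ^ M)⁻¹⁻¹ * t * (g ^ M)⁻¹ = t := by
        rw [inv_inv, ← hcomm.eq, mul_inv_cancel_right]
      have hYi : (g ^ M)⁻¹ * t * g ^ M = t := by
        rw [mul_assoc, hcomm.eq, inv_mul_cancel_left]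
      have f1 := GNorm.invol_far hF (x := x) ht2 hPi (by rw [N.l_inv]; omega)
      have f2 := GNorm.invol_far hF (x := x) ht2 hYi (by omega)
      -- betweenness of `x`
      have a1 := hadd M M
      have a2 : N.d (g ^ M)⁻¹ (g ^ M) = N.l (g ^ (M + M)) := by
        unfold GNorm.d; rw [inv_inv, pow_add]
      have a3 : N.d (g ^ M)⁻¹ 1 = N.l (g ^ M) := by
        unfold GNorm.d; rw [inv_inv, mul_one]
      have a4 : N.l x + N.l (f ^ (m - b)) ≤ N.l (f ^ m) + 10 * δ := by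
        have := GNorm.Lox.add hF hlox b (m - b)
        have e : b + (m - b) = m := by omega
        rw [e] at this
        exact this
      have a5 : N.d x (f ^ m) = N.l (f ^ (m - b)) := by
        have e : b + (m - b) = m := by omega
        have e2 : x⁻¹ * f ^ m = f ^ (m - b) := by
          nth_rewrite 1 [← e]
          rw [pow_add, inv_mul_cancel_left]
        unfold GNorm.d; rw [e2]
      have a6 : N.d (f ^ m) g = N.l j := by
        unfold GNorm.d; rw [hg, inv_mul_cancel_left]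
      have a7 := N.d_tri x (f ^ m) g
      have a8 := N.d_tri (g ^ M)⁻¹ 1 x
      have a9 := N.d_one x
      have a10 := N.d_tri x g (g ^ M)
      have a11 := hadd 1 (M - 1)
      have e11 : 1 + (M - 1) = M := by omega
      rw [e11, pow_one] at a11
      have a12 : N.d g (g ^ M) = N.l (g ^ (M - 1)) := by
        have := hd 1 (M - 1)
        rwa [e11, pow_one] at this
      have hb1 : N.d (g ^ M)⁻¹ x + N.d x (g ^ M) ≤ N.d (g ^ M)⁻¹ (g ^ M) +
          (10 * δ + 2 * N.l j + 2 * be) := by omega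
      have cm1 := N.d_comm (g ^ M) (t * x)
      have cm2 := N.d_comm (g ^ M) x
      have hb2 : N.d (g ^ M)⁻¹ (t * x) + N.d (t * x) (g ^ M) ≤ N.d (g ^ M)⁻¹ (g ^ M) +
          (10 * δ + 2 * N.l j + 2 * be + δ) := by omega
      have hfin := GNorm.a2 hF hb1 hb2
      have e : N.l (x⁻¹ * t * x) = N.d x (t * x) := by unfold GNorm.d; rw [mul_assoc]
      rw [e]
      omega
    -- pigeonhole
    obtain ⟨b, hb, b', hb', hne, heq⟩ := Finset.exists_ne_map_eq_of_card_lt_of_maps_to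
      (s := Finset.range (m + 1)) (t := (hfb c3).toFinset)
      (f := fun b : ℕ => (f ^ b)⁻¹ * t * f ^ b)
      (by rw [Finset.card_range]; omega)
      (by
        intro b hb
        rw [Finset.mem_coe, Finset.mem_range] at hb
        rw [Finset.mem_coe, (hfb _).mem_toFinset]
        exact hmove b (by omega))
    have hpig : ∀ b b' : ℕ, b < b' → (f ^ b)⁻¹ * t * f ^ b = (f ^ b')⁻¹ * t * f ^ b' → t = i := by
      intro b b' hlt he
      obtain ⟨r, rfl⟩ : ∃ r, b' = b + r := ⟨b' - b, by omega⟩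
      have hr : r ≠ 0 := by omega
      have h1 : t * f ^ r = f ^ r * t := by
        have e1 : f ^ (b + r) = f ^ r * f ^ b := by rw [add_comm, pow_add]
        rw [e1, mul_inv_rev] at he
        have h2 : (f ^ b)⁻¹ * t * f ^ b = (f ^ b)⁻¹ * ((f ^ r)⁻¹ * t * f ^ r) * f ^ b := by
          rw [he]; group
        have h3 := mul_left_cancel (mul_right_cancel h2)
        calc t * f ^ r = f ^ r * ((f ^ r)⁻¹ * t * f ^ r) := by group
          _ = f ^ r * t := by rw [← h3]
      have h2 : i * f ^ r = f ^ r * i := ((show Commute i f from hfi.symm).pow_right r).eq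
      exact invol_unique hG (not_fin_pow hfo hr) ht ht2 hi hi2 h1 h2
    rcases lt_or_gt_of_ne hne with hlt | hlt
    · exact hpig b b' hlt heq
    · exact hpig b' b hlt heq.symm
  refine ⟨m, by omega, hgo, ?_⟩
  intro s t hs ht ht2 hts
  have h1 := key s t hs ht ht2 hts
  have h2 := key s (g * t * g⁻¹) hs (conj_ne ht) (conj_sq ht2) (by
    have h3 := conj_comm (u := g) hts
    have e : g * g ^ s * g⁻¹ = g ^ s := by
      rw [← pow_succ', pow_succ, mul_inv_cancel_right]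
    rw [e] at h3
    exact h3)
  rw [h1] at h2
  -- `g` commutes with `i`
  apply hij
  apply hG.noV4 i j hi hj hi2 hj2
  have h3 : g * i = i * g := by
    calc g * i = g * i * g⁻¹ * g := by group
      _ = i * g := by rw [h2]
  have h4 : f ^ m * i = i * f ^ m := ((show Commute f i from hfi).pow_left m).eq
  rw [hg, ← mul_assoc, ← h4, mul_assoc, mul_assoc] at h3
  exact (mul_left_cancel h3).symm

/-- T2 -/
theorem relator_two (hG : Good G) {i j f : G} (hi : i ≠ 1) (hi2 : i ^ 2 = 1) (hj : j ≠ 1)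
    (hj2 : j ^ 2 = 1) (hij : i ≠ j) (hf : ¬ IsOfFinOrder f) (hfi : f * i = i * f) :
    ∃ m : ℕ, m ≠ 0 ∧ ¬ IsOfFinOrder (f ^ m * j) ∧
      ∀ (s : ℕ) (t : G), s ≠ 0 → t ≠ 1 → t ^ 2 = 1 → t * (f ^ m * j) ^ s ≠ (f ^ m * j) ^ s * t := by
  obtain ⟨N, δ, hF, hfb⟩ := hG.hyp
  obtain ⟨p, r, hr, hlox⟩ := GNorm.exists_lox hfb hF hf
  have hcom : Commute (f ^ r) i := (show Commute f i from hfi).pow_left r
  have hcj : ∀ x : G, p⁻¹ * x * p = p⁻¹ * x * p⁻¹⁻¹ := by intro x; rw [inv_inv]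
  obtain ⟨m, hm, h1, h2⟩ := relator_two_aux hG hF hfb (i := p⁻¹ * i * p) (j := p⁻¹ * j * p)
    (f := p⁻¹ * f ^ r * p) (by rw [hcj]; exact conj_ne hi) (by rw [hcj]; exact conj_sq hi2)
    (by rw [hcj]; exact conj_ne hj) (by rw [hcj]; exact conj_sq hj2)
    (by
      intro h
      exact hij (mul_left_cancel (mul_right_cancel h)))
    hlox (not_fin_conj (not_fin_pow hf hr.ne') p)
    (by rw [hcj, hcj]; exact conj_comm hcom.eq)
  have hgm : (p⁻¹ * f ^ r * p) ^ m * (p⁻¹ * j * p) = p⁻¹ * (f ^ (r * m) * j) * p := by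
    have e : (p⁻¹ * f ^ r * p) ^ m = p⁻¹ * (f ^ r) ^ m * p := by
      rw [hcj, conj_pow, inv_inv]
    rw [e, pow_mul]; group
  rw [hgm] at h1 h2
  refine ⟨r * m, Nat.mul_ne_zero hr.ne' hm, ?_, ?_⟩
  · intro h
    apply h1
    obtain ⟨n, hn, hn1⟩ := isOfFinOrder_iff_pow_eq_one.1 h
    refine isOfFinOrder_iff_pow_eq_one.2 ⟨n, hn, ?_⟩
    rw [hcj, conj_pow, hn1]; group
  · intro s t hs ht ht2 h
    apply h2 s (p⁻¹ * t * p) hs (by rw [hcj]; exact conj_ne ht) (by rw [hcj]; exact conj_sq ht2)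
    rw [hcj (f ^ (r * m) * j), conj_pow, hcj t]
    exact conj_comm h

end Relators

end Pool.Agent.Lib.MP_bd8d5e_al
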