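import Pool.Agent.Lib.MP_bd8d5e_al.Bgi

/-! # Good groups and the set-up of the quotient step

`Good G`: hyperbolic (integer norm with four point inequality and finite balls), torsion elements
have order `1`, `2` or odd, distinct involutions do not commute, centralisers of nontrivial odd
torsion elements are finite and cyclic. `Setup` collects what section 4 uses. -/

set_option autoImplicit false

namespace Pool.Agent.Lib.MP_bd8d5e_al

/-- torsion elements have order `1`, `2` or odd -/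
def TorOdd (G : Type*) [Group G] : Prop :=
  ∀ g : G, IsOfFinOrder g → g ^ 2 = 1 ∨ ∃ n, Odd n ∧ g ^ n = 1

/-- distinct involutions do not commute -/
def NoV4 (G : Type*) [Group G] : Prop :=
  ∀ a b : G, a ≠ 1 → b ≠ 1 → a ^ 2 = 1 → b ^ 2 = 1 → a * b = b * a → a = b

/-- nontrivial elements of odd order have finite cyclic centralisers -/
def FinCent (G : Type*) [Group G] : Prop :=
  ∀ x : G, x ≠ 1 → ∀ n, Odd n → x ^ n = 1 →
    Finite (Subgroup.centralizer {x}) ∧ IsCyclic (Subgroup.centralizer {x})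

/-- the class of groups of the construction -/
structure Good (G : Type*) [Group G] : Prop where
  hyp : ∃ (N : GNorm G) (δ : ℕ), N.FP δ ∧ N.FinBalls
  tor : TorOdd G
  noV4 : NoV4 G
  fin : FinCent G

/-- the data of one step: `K` is the normal closure of `v ^ n`, the axes are the cosets of `E` -/
structure Setup {G : Type*} [Group G] (N : GNorm G) (E K : Subgroup G) (v : G) (n C : ℕ) :
    Prop where
  pos : 1 ≤ C
  fp : N.FP C
  normal : K.Normal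
  vE : v ∈ E
  ord : ¬ IsOfFinOrder v
  nodd : Odd n
  big : 100000 * C ≤ N.l (v ^ n)
  vK : v ^ n ∈ K
  /-- (P1) -/
  near_btw : ∀ (c : G ⧸ E) (x p y : G), N.Near E c x p → (y : G ⧸ E) = c →
    N.d x p + N.d p y ≤ N.d x y + C
  /-- (P2) -/
  near_two : ∀ (c : G ⧸ E) (x y p q : G), N.Near E c x p → N.Near E c y q → C < N.d p q →
    N.d x p + N.d p q + N.d q y ≤ N.d x y + C
  /-- (QC) -/
  qc : ∀ (c : G ⧸ E) (y y' w : G) (k : ℕ), (y : G ⧸ E) = c → (y' : G ⧸ E) = c →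
    N.d y w + N.d w y' ≤ N.d y y' + k → ∃ e : G, (e : G ⧸ E) = c ∧ N.d w e ≤ C + 2 * k
  /-- (OV) -/
  ov : ∀ c c' : G ⧸ E, c ≠ c' → ∀ z z' p p' : G, (z : G ⧸ E) = c' → (z' : G ⧸ E) = c' →
    N.Near E c z p → N.Near E c z' p' → N.d p p' ≤ C
  /-- (DI) -/
  dich : ∀ g ∈ E, (∃ k : ℤ, g = v ^ k) ∨ (g ≠ 1 ∧ g ^ 2 = 1 ∧ g * v * g⁻¹ = v⁻¹)
  /-- (MX) -/
  mx : ∀ (g : G) (s : ℕ), s ≠ 0 → g * v ^ s * g⁻¹ = v ^ s → g ∈ E
  /-- (NE) -/
  near_pow : ∀ g ∈ E, ∃ k : ℤ, N.d g (v ^ k) ≤ C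
  /-- (QL) -/
  ql : ∀ a b : ℕ, N.l (v ^ a) + N.l (v ^ b) ≤ N.l (v ^ (a + b)) + C
  /-- (GL) -/
  gl : ∀ ν ∈ K, ν ≠ 1 → ∀ x : G, ∃ c : G ⧸ E, ∀ p q : G, N.Near E c x p →
    N.Near E c (ν * x) q → N.l (v ^ n) ≤ N.d p q + C
  /-- (E6) -/
  e6 : ∀ w : G, ¬ IsOfFinOrder w → N.l w ≤ 3000 * C → ∀ (c : G ⧸ E) (j : ℕ),
    (∀ p q : G, N.Near E c 1 p → N.Near E c (w ^ j) q → N.l (v ^ n) ≤ N.d p q + C) → w • c = c

end Pool.Agent.Lib.MP_bd8d5e_al
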