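import Pool.Agent.Lib.MP_bd8d5e_al.Corner

/-! # Torsion elements of the quotient lift -/

set_option autoImplicit false

namespace Pool.Agent.Lib.MP_bd8d5e_al

namespace Setup

open GNorm

variable {G : Type*} [Group G] {N : GNorm G} {E K : Subgroup G} {v : G} {n C : ℕ}

/-- minimal displacement makes the orbit a broken geodesic -/
theorem min_disp (S : Setup N E K v n C) {z x : G}
    (hmin : ∀ y : G, N.d x (z * x) ≤ N.d y (z * y)) (hbig : 3000 * C < N.d x (z * x)) :
    2 * N.d x (z * x) ≤ N.d x (z ^ 2 * x) + 2 * C := by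
  have hpos := S.pos
  obtain ⟨m, hm1, hm2⟩ := N.exists_btw x (z * x) (t := N.d x (z * x) / 2) (by omega)
  have h0 := hmin m
  have e1 : N.d (z * x) (z ^ 2 * x) = N.d x (z * x) := by
    rw [pow_two, mul_assoc, N.d_left]
  have e2 : N.d (z * x) (z * m) = N.d x m := N.d_left _ _ _
  have e3 : N.d (z * m) (z ^ 2 * x) = N.d m (z * x) := by
    rw [pow_two, mul_assoc, N.d_left]
  have h1 := a0 S.fp (x := x) (p := m) (y := z * x) (c := 0) (by omega) (z ^ 2 * x)
  have h2 := a0 S.fp (x := z * x) (p := z * m) (y := z ^ 2 * x) (c := 0) (by omega) m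
  have c1 := N.d_comm (z * m) m
  have c2 := N.d_comm (z ^ 2 * x) (z * x)
  have c3 := N.d_comm (z * x) m
  rcases h1 with h1 | h1 <;> rcases h2 with h2 | h2 <;> omega

/-- points on a line `U W` -/
theorem line_dist (S : Setup N E K v n C) {U W w w' : G}
    (h : N.d U w + N.d w W ≤ N.d U W + 9 * C) (h' : N.d U w' + N.d w' W ≤ N.d U W + 9 * C) :
    N.d w w' ≤ (N.d U w - N.d U w') + (N.d U w' - N.d U w) + 19 * C := by
  have := a2 S.fp h h'
  omega

/-- (TL) torsion lifts -/
theorem tl (S : Setup N E K v n C) {z : G} {m : ℕ} (hm : m ≠ 0) (hz : z ^ m ∈ K) :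
    ∃ z' : G, z' * z⁻¹ ∈ K ∧ (IsOfFinOrder z' ∨ ∃ c : G ⧸ E, z' • c = c) := by
  classical
  have hpos := S.pos
  have hbig := S.big
  have hKn := S.normal
  by_contra hcon
  push Not at hcon
  -- minimal displacement over all lifts
  have hex : ∃ s : ℕ, ∃ z' x : G, z' * z⁻¹ ∈ K ∧ N.d x (z' * x) = s :=
    ⟨_, z, 1, by rw [mul_inv_cancel]; exact one_mem _, rfl⟩
  obtain ⟨z', x, hz', hs⟩ := Nat.find_spec hex
  have hmin : ∀ y w : G, w * z⁻¹ ∈ K → N.d x (z' * x) ≤ N.d y (w * y) := by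
    intro y w hw
    rw [hs]
    exact Nat.find_min' hex ⟨w, y, hw, rfl⟩
  obtain ⟨hinf, hfix⟩ := hcon z' hz'
  have hpow : z' ^ m ∈ K := by
    have h1 : ((z' : G) : G ⧸ K) = z := by
      have : ((z' * z⁻¹ : G) : G ⧸ K) = 1 := (QuotientGroup.eq_one_iff _).2 hz'
      rw [QuotientGroup.mk_mul, QuotientGroup.mk_inv] at this
      exact mul_inv_eq_one.1 this
    have h2 : ((z' ^ m : G) : G ⧸ K) = ((z ^ m : G) : G ⧸ K) := by
      rw [QuotientGroup.mk_pow, h1, QuotientGroup.mk_pow]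
    rw [(QuotientGroup.eq_one_iff _).2 hz] at h2
    exact (QuotientGroup.eq_one_iff _).1 h2
  have hne : z' ^ m ≠ 1 := fun h =>
    hinf (isOfFinOrder_iff_pow_eq_one.2 ⟨m, Nat.pos_of_ne_zero hm, h⟩)
  obtain ⟨c, hc⟩ := S.gl _ hpow hne x
  obtain ⟨p, hp⟩ := exists_nearest (N := N) c x
  obtain ⟨q, hq⟩ := exists_nearest (N := N) c (z' ^ m * x)
  have hpq := hc p q hp hq
  -- the case of small displacement
  rcases Nat.lt_or_ge (3000 * C) (N.d x (z' * x)) with hl | hl
  swap
  · have h1 : N.l (x⁻¹ * z' * x) ≤ 3000 * C := by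
      have : N.d x (z' * x) = N.l (x⁻¹ * z' * x) := by
        rw [GNorm.d, mul_assoc]
      omega
    have h2 : ¬ IsOfFinOrder (x⁻¹ * z' * x) := by
      intro h
      apply hinf
      obtain ⟨k, hk, hk1⟩ := isOfFinOrder_iff_pow_eq_one.1 h
      refine isOfFinOrder_iff_pow_eq_one.2 ⟨k, hk, ?_⟩
      have e := conj_pow (i := k) (a := x⁻¹) (b := z')
      rw [inv_inv] at e
      rw [e] at hk1
      have : z' ^ k = x * (x⁻¹ * z' ^ k * x) * x⁻¹ := by group
      rw [this, hk1]; group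
    have h3 := S.e6 _ h2 h1 (x⁻¹ • c) m (by
      intro p' q' hp' hq'
      have e := conj_pow (i := m) (a := x⁻¹) (b := z')
      rw [inv_inv] at e
      rw [e] at hq'
      have a1 := near_smul hp' x
      have a2 := near_smul hq' x
      rw [smul_inv_smul, mul_one] at a1
      have e2 : x * (x⁻¹ * z' ^ m * x) = z' ^ m * x := by group
      rw [smul_inv_smul, e2] at a2
      have := hc _ _ a1 a2
      rwa [N.d_left] at this)
    apply hfix c
    have h4 : x • ((x⁻¹ * z' * x) • x⁻¹ • c) = x • (x⁻¹ • c) := by rw [h3]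
    rw [smul_inv_smul, smul_smul, smul_smul] at h4
    have e : x * (x⁻¹ * z' * x) * x⁻¹ = z' := by group
    rwa [e] at h4
  -- the case of large displacement
  have h2 := S.min_disp (fun y => hmin y z' hz') hl
  set l0 := N.d x (z' * x) with hl0
  -- the line
  set U := (z' ^ (m + 1))⁻¹ * x with hU
  set W := z' ^ (m + 1) * x with hW
  have hpow_d : ∀ (i j : ℕ), N.d (z' ^ i * U) (z' ^ (i + j) * U) = N.d U (z' ^ j * U) :=
    fun i j => d_pow z' U i j
  have hU0 : z' ^ (m + 1) * U = x := by rw [hU]; group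
  have hconj : ∀ j : ℕ, N.d U (z' ^ j * U) = N.d x (z' ^ j * x) := by
    intro j
    have := N.d_left (z' ^ (m + 1)) U (z' ^ j * U)
    rw [← this, hU0]
    congr 1
    rw [← mul_assoc, ← pow_add, add_comm, pow_add, mul_assoc, hU0]
  have hB := broken S.fp (fun i => z' ^ i * U) (2 * C)
    (by
      intro i
      have a1 := hpow_d i 1
      have a2 := hpow_d (i + 1) 1
      have a3 := hpow_d i 2
      have a4 := hconj 1
      have a5 := hconj 2
      rw [pow_one] at a4
      have e : i + 1 + 1 = i + 2 := rfl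
      rw [e] at a2
      show N.d (z' ^ i * U) (z' ^ (i + 1) * U) + N.d (z' ^ (i + 1) * U) (z' ^ (i + 2) * U) ≤
        N.d (z' ^ i * U) (z' ^ (i + 2) * U) + _
      rw [pow_one] at a1 a2
      omega)
    (by
      intro i
      have a1 := hpow_d i 1
      have a4 := hconj 1
      rw [pow_one] at a1 a4
      show _ ≤ N.d (z' ^ i * U) (z' ^ (i + 1) * U)
      omega)
  -- positions on the line
  have eU : z' ^ 0 * U = U := by rw [pow_zero, one_mul]
  have ex : z' ^ (m + 1) * U = x := hU0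
  have eadd : ∀ a b : ℕ, b = a + (m + 1) → z' ^ b * U = z' ^ a * x := by
    rintro a b rfl
    rw [pow_add, mul_assoc, hU0]
  have ey : z' ^ (2 * m + 1) * U = z' ^ m * x := eadd _ _ (by ring)
  have ey1 : z' ^ (2 * m + 2) * U = W := eadd _ _ (by ring)
  have ex1 : z' ^ (m + 2) * U = z' * x := by
    rw [eadd 1 _ (by ring), pow_one]
  have ezU : z' ^ 1 * U = z' * U := by rw [pow_one]
  have ezy : z' * (z' ^ m * x) = W := by
    rw [hW, ← mul_assoc, ← pow_succ']
  -- betweenness facts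
  have b1 := hB 0 (m + 1) (2 * m + 1) (by omega) (by omega)
  have b2 := hB 0 (2 * m + 1) (2 * m + 2) (by omega) (by omega)
  have b3 := hB 0 (m + 2) (2 * m + 2) (by omega) (by omega)
  have b4 := hB 0 1 (2 * m + 2) (by omega) (by omega)
  simp only [eU, ex, ey, ey1, ex1, ezU] at b1 b2 b3 b4
  -- nearest points are between
  have hfar : C < N.d p q := by omega
  have n2 := S.near_two c _ _ p q hp hq hfar
  have tpq1 := N.d_tri p q (z' ^ m * x)
  have tpq2 := N.d_tri x p q
  have bp : N.d x p + N.d p (z' ^ m * x) ≤ N.d x (z' ^ m * x) + C := by omega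
  have bq : N.d x q + N.d q (z' ^ m * x) ≤ N.d x (z' ^ m * x) + C := by omega
  have trp := tr1 b1 bp
  have trq := tr1 b1 bq
  -- p, q between U and W
  have hpW : N.d U p + N.d p W ≤ N.d U W + 9 * C := by
    have t1 := N.d_tri p (z' ^ m * x) W
    omega
  have hqW : N.d U q + N.d q W ≤ N.d U W + 9 * C := by
    have t1 := N.d_tri q (z' ^ m * x) W
    omega
  -- z p, z q between z x and W
  have lzx : N.d (z' * x) (z' * p) = N.d x p := N.d_left _ _ _
  have lzq : N.d (z' * x) (z' * q) = N.d x q := N.d_left _ _ _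
  have lpy : N.d (z' * p) W = N.d p (z' ^ m * x) := by rw [← ezy]; exact N.d_left _ _ _
  have lqy : N.d (z' * q) W = N.d q (z' ^ m * x) := by rw [← ezy]; exact N.d_left _ _ _
  have lxy : N.d (z' * x) W = N.d x (z' ^ m * x) := by rw [← ezy]; exact N.d_left _ _ _
  have bzp : N.d (z' * x) (z' * p) + N.d (z' * p) W ≤ N.d (z' * x) W + C := by omega
  have bzq : N.d (z' * x) (z' * q) + N.d (z' * q) W ≤ N.d (z' * x) W + C := by omega
  have trzp := tr1 b3 bzp
  have trzq := tr1 b3 bzq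
  have hzpW : N.d U (z' * p) + N.d (z' * p) W ≤ N.d U W + 9 * C := by omega
  have hzqW : N.d U (z' * q) + N.d (z' * q) W ≤ N.d U W + 9 * C := by omega
  -- shift of positions by l0
  have sU : N.d (z' * U) (z' * p) = N.d U p := N.d_left _ _ _
  have sUq : N.d (z' * U) (z' * q) = N.d U q := N.d_left _ _ _
  have dUzU : N.d U (z' * U) = l0 := by
    have := hconj 1
    rwa [pow_one] at this
  have trs := tr1 (U := U) (X := z' * U) (Y := W) (w := z' * p) (a := 2 * C + 2 * C) (c := 9 * C)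
    b4 (by
      have t1 := N.d_tri U (z' * U) W
      have t2 := N.d_tri U (z' * U) (z' * p)
      have t3 := N.d_tri (z' * U) (z' * p) W
      have b5 := hB 1 (m + 2) (2 * m + 2) (by omega) (by omega)
      simp only [ezU, ex1, ey1] at b5
      have t4 := tr1 b5 bzp
      omega)
  have trs' := tr1 (U := U) (X := z' * U) (Y := W) (w := z' * q) (a := 2 * C + 2 * C) (c := 9 * C)
    b4 (by
      have b5 := hB 1 (m + 2) (2 * m + 2) (by omega) (by omega)
      simp only [ezU, ex1, ey1] at b5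
      have t4 := tr1 b5 bzq
      omega)
  have ushift1 := N.d_tri U (z' * U) (z' * p)
  have ushift2 := N.d_tri U (z' * U) (z' * q)
  -- positions of p and q
  have tUq := N.d_tri U x p
  have tUq2 := N.d_tri x q (z' ^ m * x)
  have hposq : N.d U p + N.d p q ≤ N.d U q + 6 * C := by omega
  -- distances along the line
  have D1 := S.line_dist hpW hzpW
  have D2 := S.line_dist hzpW hqW
  have D3 := S.line_dist hqW hzqW
  have D4 := S.line_dist hpW hqW
  have D5 := S.line_dist hzpW hzqW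
  have D6 := S.line_dist hqW hzpW
  have T1 := N.d_tri U p (z' * p)
  have T2 := N.d_tri U (z' * p) q
  have T3 := N.d_tri U q (z' * q)
  have T4 := N.d_tri U q (z' * p)
  have T5 := N.d_tri U (z' * p) (z' * q)
  have T6 := N.d_tri U p q
  have kzp : ((z' * p : G) : G ⧸ E) = z' • c := by rw [← hp.1]; rfl
  have kzq : ((z' * q : G) : G ⧸ E) = z' • c := by rw [← hq.1]; rfl
  have cqz := N.d_comm q (z' * p)
  rcases Nat.lt_or_ge (N.l (v ^ n) + 400 * C) (2 * l0) with hB2 | hB1
  · -- (B2)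
    have hlift : ∀ r ∈ K, (r * z') * z⁻¹ ∈ K := fun r hr => by
      rw [mul_assoc]; exact mul_mem hr hz'
    rcases Nat.lt_or_ge (N.d U (z' * p)) (N.d U q) with hlt | hge
    · -- z p before q
      obtain ⟨y, hy, hyd⟩ := S.qc c p q (z' * p) (38 * C) hp.1 hq.1 (by omega)
      have t1 := N.d_tri p y (z' * p)
      have c1 := N.d_comm y (z' * p)
      obtain ⟨r, hr, -, hrd⟩ := S.rl (s := 174 * C) hp.1 hy (by omega) (by omega)
      have t2 := N.d_tri p (r * y) (r * (z' * p))
      have l2 := N.d_left r y (z' * p)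
      have t3 := N.d_tri p (z' * p) y
      have := hmin p (r * z') (hlift r hr)
      rw [mul_assoc] at this
      omega
    · obtain ⟨r, hr, -, hrd⟩ := S.rl (s := 58 * C) hp.1 hq.1 (by omega) (by omega)
      have t2 := N.d_tri p (r * q) (r * (z' * p))
      have l2 := N.d_left r q (z' * p)
      have := hmin p (r * z') (hlift r hr)
      rw [mul_assoc] at this
      omega
  · -- (B1)
    apply hfix c
    obtain ⟨y1, hy1, hyd1⟩ := S.qc c p q (z' * p) (38 * C) hp.1 hq.1 (by omega)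
    obtain ⟨y2, hy2, hyd2⟩ := S.qc (z' • c) (z' * p) (z' * q) q (38 * C) kzp kzq (by omega)
    have c1 := N.d_comm y1 (z' * p)
    have t1 := N.d_tri (z' * p) y1 q
    exact (S.ov' (k := 77 * C) hy1 hq.1 kzp hy2 (by omega) (by omega) (by omega)).symm

/-- torsion elements of the quotient lift to torsion elements or to conjugates of powers of `v` -/
theorem lift_cases [K.Normal] (S : Setup N E K v n C) {q : G ⧸ K} {m : ℕ} (hm : m ≠ 0)
    (hq : q ^ m = 1) : (∃ a : G, (a : G ⧸ K) = q ∧ IsOfFinOrder a) ∨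
      ∃ (g : G) (k : ℤ), ((g * v ^ k * g⁻¹ : G) : G ⧸ K) = q := by
  obtain ⟨z, rfl⟩ := QuotientGroup.mk_surjective q
  have hz : z ^ m ∈ K := by
    rw [← QuotientGroup.mk_pow] at hq
    exact (QuotientGroup.eq_one_iff _).1 hq
  obtain ⟨z', hz', h⟩ := S.tl hm hz
  have h1 : ((z' : G) : G ⧸ K) = z := by
    have : ((z' * z⁻¹ : G) : G ⧸ K) = 1 := (QuotientGroup.eq_one_iff _).2 hz'
    rw [QuotientGroup.mk_mul, QuotientGroup.mk_inv] at this
    exact mul_inv_eq_one.1 this
  rcases h with h | ⟨c, hc⟩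
  · exact Or.inl ⟨z', h1, h⟩
  · obtain ⟨g, rfl⟩ := QuotientGroup.mk_surjective c
    have hg : g⁻¹ * z' * g ∈ E := by
      have : g⁻¹ * (z' * g) ∈ E := QuotientGroup.eq.1 hc.symm
      rwa [← mul_assoc] at this
    rcases S.dich _ hg with ⟨k, hk⟩ | ⟨-, h2, -⟩
    · right
      refine ⟨g, k, ?_⟩
      rw [← hk, ← h1]
      congr 1; group
    · left
      refine ⟨z', h1, ?_⟩
      have e : z' ^ 2 = 1 := by
        have e1 : z' = g * (g⁻¹ * z' * g) * g⁻¹ := by group
        rw [e1, conj_pow, h2]; group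
      exact isOfFinOrder_iff_pow_eq_one.2 ⟨2, by norm_num, e⟩

theorem conj_pow_n [K.Normal] (S : Setup N E K v n C) (g : G) (k : ℤ) :
    ((g * v ^ k * g⁻¹ : G) : G ⧸ K) ^ n = 1 := by
  rw [← QuotientGroup.mk_pow, conj_pow]
  apply (QuotientGroup.eq_one_iff _).2
  have e : (v ^ k) ^ n = (v ^ n) ^ k := by
    rw [← zpow_natCast, ← zpow_mul, mul_comm, zpow_mul, zpow_natCast]
  rw [e]
  exact S.normal.conj_mem _ (zpow_mem S.vK k) g

/-- orders of torsion elements in the quotient -/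
theorem torOdd_quot [K.Normal] (S : Setup N E K v n C) (hG : TorOdd G) : TorOdd (G ⧸ K) := by
  intro q hq
  obtain ⟨m, hm, hqm⟩ := isOfFinOrder_iff_pow_eq_one.1 hq
  rcases S.lift_cases hm.ne' hqm with ⟨a, rfl, ha⟩ | ⟨g, k, rfl⟩
  · rcases hG a ha with h | ⟨l, hl, h⟩
    · left
      rw [← QuotientGroup.mk_pow, h]; rfl
    · right
      refine ⟨l, hl, ?_⟩
      rw [← QuotientGroup.mk_pow, h]; rfl
  · exact Or.inr ⟨n, S.nodd, S.conj_pow_n g k⟩

theorem tl_odd_two {A : Type*} [Group A] {x : A} {l : ℕ} (hl : Odd l) (h2 : x ^ 2 = 1)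
    (h : x ^ l = 1) : x = 1 := by
  obtain ⟨k, rfl⟩ := hl
  rwa [pow_succ, pow_mul, h2, one_pow, one_mul] at h

/-- involutions lift to involutions -/
theorem lift_invol [K.Normal] (S : Setup N E K v n C) (hG : TorOdd G) {q : G ⧸ K} (hq : q ≠ 1)
    (hq2 : q ^ 2 = 1) : ∃ a : G, (a : G ⧸ K) = q ∧ a ≠ 1 ∧ a ^ 2 = 1 := by
  rcases S.lift_cases two_ne_zero hq2 with ⟨a, rfl, ha⟩ | ⟨g, k, rfl⟩
  · rcases hG a ha with h | ⟨l, hl, h⟩
    · exact ⟨a, rfl, fun h1 => hq (by rw [h1]; rfl), h⟩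
    · exfalso
      apply hq
      apply tl_odd_two hl hq2
      rw [← QuotientGroup.mk_pow, h]; rfl
  · exact absurd (tl_odd_two S.nodd hq2 (S.conj_pow_n g k)) hq

/-- elements of odd order lift to elements of odd order or to conjugates of powers of `v` -/
theorem lift_odd [K.Normal] (S : Setup N E K v n C) (hG : TorOdd G) {q : G ⧸ K} (hq : q ≠ 1) {m : ℕ}
    (hm : Odd m) (hqm : q ^ m = 1) :
    (∃ a : G, (a : G ⧸ K) = q ∧ ∃ m', Odd m' ∧ a ^ m' = 1) ∨
      ∃ (g : G) (k : ℤ), ((g * v ^ k * g⁻¹ : G) : G ⧸ K) = q := by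
  rcases S.lift_cases hm.pos.ne' hqm with ⟨a, rfl, ha⟩ | h
  · left
    rcases hG a ha with h | h
    · exfalso
      apply hq
      apply tl_odd_two hm _ hqm
      rw [← QuotientGroup.mk_pow, h]; rfl
    · exact ⟨a, rfl, h⟩
  · exact Or.inr h

end Setup

end Pool.Agent.Lib.MP_bd8d5e_al
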