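import Pool.Agent.Lib.MP_bd8d5e_al.Corner

/-! # Distinct involutions of the quotient do not commute -/

set_option autoImplicit false

namespace Pool.Agent.Lib.MP_bd8d5e_al

namespace Setup

open GNorm

variable {G : Type*} [Group G] {N : GNorm G} {E K : Subgroup G} {v : G} {n C : ℕ}

/-- an element of infinite order fixing an axis whose square is in the kernel is in the kernel -/
theorem sq_fix (S : Setup N E K v n C) {w : G} {c : G ⧸ E} (hw : ¬ IsOfFinOrder w)
    (hw2 : w ^ 2 ∈ K) (h : w • c = c) : w ∈ K := by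
  obtain ⟨g, rfl⟩ := QuotientGroup.mk_surjective c
  have hg : g⁻¹ * w * g ∈ E := by
    have : g⁻¹ * (w * g) ∈ E := QuotientGroup.eq.1 h.symm
    rwa [← mul_assoc] at this
  have e1 : w = g * (g⁻¹ * w * g) * g⁻¹ := by group
  rcases S.dich _ hg with ⟨k, hk⟩ | ⟨-, h2, -⟩
  · have h3 : w ^ n ∈ K := by
      rw [e1, hk, conj_pow, ← zpow_natCast, ← zpow_mul, mul_comm, zpow_mul, zpow_natCast]
      exact S.conj_pow_mem g k
    obtain ⟨t, ht⟩ := S.nodd
    have h4 : w = w ^ n * ((w ^ 2) ^ t)⁻¹ := by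
      rw [ht, ← pow_mul, pow_succ', mul_inv_cancel_right]
    rw [h4]
    exact mul_mem h3 (inv_mem (pow_mem hw2 t))
  · exfalso
    apply hw
    rw [isOfFinOrder_iff_pow_eq_one]
    refine ⟨2, by omega, ?_⟩
    rw [e1, conj_pow, h2]; group

/-- elements with small displacement and square in the kernel are in the kernel -/
theorem small_fix (S : Setup N E K v n C) {w p : G} (hw : ¬ IsOfFinOrder w)
    (hw2 : w ^ 2 ∈ K) (hp : N.d p (w * p) ≤ 3000 * C) : w ∈ K := by
  have h1 : w ^ 2 ≠ 1 := by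
    intro h
    apply hw
    rw [isOfFinOrder_iff_pow_eq_one]
    exact ⟨2, by omega, h⟩
  obtain ⟨c, hc⟩ := S.gl _ hw2 h1 p
  have hinf : ¬ IsOfFinOrder (p⁻¹ * w * p) := by
    intro h
    apply hw
    rw [isOfFinOrder_iff_pow_eq_one] at h ⊢
    obtain ⟨m, hm, h⟩ := h
    refine ⟨m, hm, ?_⟩
    have := conj_pow (i := m) (a := p⁻¹) (b := w)
    rw [inv_inv] at this
    rw [this] at h
    have e : w ^ m = p * (p⁻¹ * w ^ m * p) * p⁻¹ := by group
    rw [e, h]; group
  have hl : N.l (p⁻¹ * w * p) ≤ 3000 * C := by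
    have : N.d p (w * p) = N.l (p⁻¹ * w * p) := by rw [GNorm.d, mul_assoc]
    omega
  have h2 := S.e6 (p⁻¹ * w * p) hinf hl (p⁻¹ • c) 2 (by
    intro a b ha hb
    have ha' := near_smul ha p
    have hb' := near_smul hb p
    rw [smul_inv_smul] at ha' hb'
    rw [mul_one] at ha'
    have e : p * (p⁻¹ * w * p) ^ 2 = w ^ 2 * p := by
      rw [pow_two, pow_two]; group
    rw [e] at hb'
    have h3 := hc _ _ ha' hb'
    rwa [N.d_left] at h3)
  apply S.sq_fix hw hw2 (c := c)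
  have h3 : (p * (p⁻¹ * w * p) * p⁻¹) • c = c := by
    rw [mul_smul, mul_smul, h2, smul_inv_smul]
  have e : p * (p⁻¹ * w * p) * p⁻¹ = w := by group
  rwa [e] at h3

/-- `x` is an involution with image `γ` almost fixing `y` -/
structure Fx (N : GNorm G) (K : Subgroup G) (C : ℕ) (γ : G ⧸ K) (x y : G) : Prop where
  ne : x ≠ 1
  sq : x * x = 1
  im : (x : G ⧸ K) = γ
  fix : N.d y (x * y) ≤ 5 * C

theorem Fx.inv {γ : G ⧸ K} {x y : G} (h : Fx N K C γ x y) : x⁻¹ = x :=
  (eq_inv_of_mul_eq_one_left h.sq).symm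

theorem Fx.fin {γ : G ⧸ K} {x y : G} (h : Fx N K C γ x y) : IsOfFinOrder x := by
  rw [isOfFinOrder_iff_pow_eq_one]
  exact ⟨2, by omega, by rw [pow_two, h.sq]⟩

/-- conjugation -/
theorem Fx.conj [K.Normal] {γ : G ⧸ K} {x y : G} (h : Fx N K C γ x y) (g : G)
    (hg : (g : G ⧸ K) * γ = γ * g) : Fx N K C γ (g * x * g⁻¹) (g * y) := by
  refine ⟨?_, ?_, ?_, ?_⟩
  · intro h1
    apply h.ne
    have e : x = g⁻¹ * (g * x * g⁻¹) * g := by group
    rw [e, h1]; group
  · have e : g * x * g⁻¹ * (g * x * g⁻¹) = g * (x * x) * g⁻¹ := by group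
    rw [e, h.sq]; group
  · rw [QuotientGroup.mk_mul, QuotientGroup.mk_mul, QuotientGroup.mk_inv, h.im, hg,
      mul_inv_cancel_right]
  · have e : g * x * g⁻¹ * (g * y) = g * (x * y) := by group
    rw [e, N.d_left]
    exact h.fix

/-- the midpoint of an orbit segment -/
theorem Fx.mid (S : Setup N E K v n C) {γ : G ⧸ K} {x y : G} (hne : x ≠ 1) (hsq : x * x = 1)
    (him : (x : G ⧸ K) = γ) :
    ∃ m, Fx N K C γ x m ∧ N.d y m + N.d m (x * y) = N.d y (x * y) ∧
      2 * N.d y m ≤ N.d y (x * y) ∧ N.d y (x * y) ≤ 2 * N.d y m + 1 := by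
  have hfin : IsOfFinOrder x := by
    rw [isOfFinOrder_iff_pow_eq_one]
    exact ⟨2, by omega, by rw [pow_two, hsq]⟩
  obtain ⟨m, h1, h2, h3, h4⟩ := tor_mid S.fp hfin y
  have hpos := S.pos
  exact ⟨m, ⟨hne, hsq, him, by omega⟩, h1, h2, h3⟩

/-- involutions fixing an axis invert its rotations -/
theorem invert (S : Setup N E K v n C) {g κ : G} (hκ : κ • (g : G ⧸ E) = (g : G ⧸ E))
    (hne : κ ≠ 1) (hsq : κ * κ = 1) (e : ℤ) :
    κ * (g * (v ^ n) ^ e * g⁻¹) * κ⁻¹ = (g * (v ^ n) ^ e * g⁻¹)⁻¹ := by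
  have hg : g⁻¹ * κ * g ∈ E := by
    have : g⁻¹ * (κ * g) ∈ E := QuotientGroup.eq.1 hκ.symm
    rwa [← mul_assoc] at this
  have hsq' : (g⁻¹ * κ * g) ^ 2 = 1 := by
    have e : (g⁻¹ * κ * g) ^ 2 = g⁻¹ * (κ * κ) * g := by rw [pow_two]; group
    rw [e, hsq]; group
  have hinv : (g⁻¹ * κ * g) * v * (g⁻¹ * κ * g)⁻¹ = v⁻¹ := by
    rcases S.dich _ hg with ⟨k, hk⟩ | ⟨-, -, h⟩
    · exfalso
      rw [hk, ← zpow_natCast, ← zpow_mul] at hsq'
      have h0 := S.vnz hsq'
      have hk0 : k = 0 := by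
        have : ((2 : ℕ) : ℤ) = 2 := rfl
        omega
      rw [hk0, zpow_zero] at hk
      apply hne
      have e : κ = g * (g⁻¹ * κ * g) * g⁻¹ := by group
      rw [e, hk]; group
    · exact h
  have h2 : (g⁻¹ * κ * g) * (v ^ n) ^ e * (g⁻¹ * κ * g)⁻¹ = ((v ^ n) ^ e)⁻¹ := by
    rw [← conj_zpow, ← conj_pow, hinv, inv_pow, inv_zpow]
  have e1 : κ * (g * (v ^ n) ^ e * g⁻¹) * κ⁻¹ =
      g * ((g⁻¹ * κ * g) * (v ^ n) ^ e * (g⁻¹ * κ * g)⁻¹) * g⁻¹ := by
    group
  rw [e1, h2]; group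

/-- the corner move -/
theorem move (S : Setup N E K v n C) [K.Normal] {c : G ⧸ E} {γ : G ⧸ K} {κ P Q a b : G} {s : ℕ}
    (hF : Fx N K C γ κ P) (hfix : κ • c = c) (ha : N.Near E c P a) (hPa : N.d P a ≤ 107 * C)
    (hb : N.Near E c Q b) (hab1 : N.l (v ^ n) ≤ 2 * N.d a b + 1401 * C)
    (hab2 : 2 * N.d a b < N.l (v ^ n) + 17 * C) (hPQ : N.d P Q ≤ s + 10 * C) :
    ∃ κ' m, Fx N K C γ κ' m ∧ N.d m Q < s := by
  have hpos := S.pos
  have hbig := S.big
  obtain ⟨g, rfl⟩ := QuotientGroup.mk_surjective c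
  obtain ⟨i, hi⟩ := S.exists_pow ha.1
  obtain ⟨j, hj⟩ := S.exists_pow hb.1
  obtain ⟨e, he, hab⟩ : ∃ e : ℤ, (e = 1 ∨ e = -1) ∧ (j - i) = e * ((j - i).natAbs : ℤ) := by
    rcases le_total 0 (j - i) with h0 | h0
    · refine ⟨1, Or.inl rfl, ?_⟩
      rw [Int.natAbs_of_nonneg h0]; ring
    · refine ⟨-1, Or.inr rfl, ?_⟩
      rw [Int.ofNat_natAbs_of_nonpos h0]; ring
  set m := (j - i).natAbs with hm
  set r := g * (v ^ n) ^ e * g⁻¹ with hr
  have hrK : r ∈ K := S.conj_pow_mem g e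
  have hrc : r • (g : G ⧸ E) = (g : G ⧸ E) := S.conj_pow_fix g e
  -- distances along the axis
  have h1 := S.rot_pow g e i hi
  rw [← hr] at h1
  have h2 := d_zpow N g v i j
  have h3 := d_zpow N g v i (i + n * e)
  have h3' := d_zpow N g v j (i + n * e)
  rw [← hm] at h2
  have e3 : (i + n * e - i).natAbs = n := by
    rcases he with rfl | rfl <;> omega
  rw [e3] at h3
  have c1 := N.d_comm (g * v ^ i) a
  have c2 := N.d_comm (g * v ^ j) b
  have t1 := N.d_tri a (g * v ^ i) b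
  have t2 := N.d_tri (g * v ^ i) (g * v ^ j) b
  have t3 := N.d_tri (g * v ^ i) a (g * v ^ j)
  have t4 := N.d_tri a b (g * v ^ j)
  have hmn : m ≤ n := by
    by_contra hcon
    have h5 := S.ql (m - n) n
    have e1 : m - n + n = m := by omega
    rw [e1] at h5
    omega
  have e3' : (i + n * e - j).natAbs = n - m := by
    rcases he with rfl | rfl <;> omega
  rw [e3'] at h3'
  have h5 := S.mul_pow_le hmn
  have c3 := N.d_comm (g * v ^ (i + n * e)) (r * a)
  have t5 := N.d_tri b (g * v ^ j) (r * a)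
  have t6 := N.d_tri (g * v ^ j) (g * v ^ (i + n * e)) (r * a)
  have t7 := N.d_tri (g * v ^ i) a (g * v ^ (i + n * e))
  have t8 := N.d_tri a (r * a) (g * v ^ (i + n * e))
  have t9 := N.d_tri a (g * v ^ i) (r * a)
  have t10 := N.d_tri (g * v ^ i) (g * v ^ (i + n * e)) (r * a)
  -- `Btw (7 C) a b (r a)`
  have hbt : N.d a b + N.d b (r * a) ≤ N.d a (r * a) + 7 * C := by omega
  have hra1 : N.d a (r * a) ≤ N.l (v ^ n) + 2 * C := by omega
  have hra2 : N.l (v ^ n) ≤ N.d a (r * a) + 2 * C := by omega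
  clear h1 h2 h3 h3' t1 t2 t3 t4 t5 t6 t7 t8 t9 t10 c1 c2 c3 h5
  -- the new involution
  have hrinv := S.invert hfix hF.ne hF.sq e
  rw [← hr, hF.inv] at hrinv
  have hsq' : (r * κ) * (r * κ) = 1 := by
    have e1 : (r * κ) * (r * κ) = r * (κ * r * κ) := by group
    rw [e1, hrinv]; group
  have hrinf : ¬ IsOfFinOrder r := by
    intro h
    apply S.ord
    rw [isOfFinOrder_iff_pow_eq_one] at h
    obtain ⟨k, hk, h⟩ := h
    rw [hr, conj_pow] at h
    have h6 : ((v ^ n) ^ e) ^ k = 1 := by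
      have e1 : ((v ^ n) ^ e) ^ k = g⁻¹ * (g * ((v ^ n) ^ e) ^ k * g⁻¹) * g := by group
      rw [e1, h]; group
    rw [← zpow_natCast, ← zpow_mul, ← zpow_natCast, ← zpow_mul] at h6
    exfalso
    have h7 := S.vnz h6
    have hn := S.n_pos
    rcases mul_eq_zero.1 h7 with h8 | h8
    · omega
    · rcases mul_eq_zero.1 h8 with h9 | h9
      · rcases he with rfl | rfl <;> omega
      · omega
  have hne' : r * κ ≠ 1 := by
    intro h
    apply hrinf
    have : r = κ⁻¹ := eq_inv_of_mul_eq_one_left h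
    rw [this, hF.inv]
    exact hF.fin
  have him' : ((r * κ : G) : G ⧸ K) = γ := by
    rw [QuotientGroup.mk_mul, hF.im, (QuotientGroup.eq_one_iff r).2 hrK, one_mul]
  obtain ⟨mid, hmid, hm1, hm2, hm3⟩ := Fx.mid S (y := P) hne' hsq' him'
  refine ⟨r * κ, mid, hmid, ?_⟩
  -- estimates
  have hP' : N.d (r * κ * P) (r * a) ≤ 112 * C := by
    rw [mul_assoc, N.d_left]
    have t1 := N.d_tri (κ * P) P a
    have c1 := N.d_comm (κ * P) P
    have := hF.fix
    omega
  have c4 := N.d_comm (r * κ * P) (r * a)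
  have c5 := N.d_comm P a
  have t1 := N.d_tri P a (r * κ * P)
  have t2 := N.d_tri a (r * a) (r * κ * P)
  have t3 := N.d_tri a P (r * a)
  have t4 := N.d_tri P (r * κ * P) (r * a)
  have t5 := N.d_tri P a b
  have t6 := N.d_tri b (r * a) (r * κ * P)
  have t7 := N.d_tri a P b
  have hPb : N.d P b + N.d b (r * κ * P) ≤ N.d P (r * κ * P) + (17 * C + 4 * (107 * C)) := by
    omega
  have A := a2 S.fp (c := 0) (by omega : N.d P mid + N.d mid (r * κ * P) ≤
    N.d P (r * κ * P) + 0) hPb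
  have h8 := S.near_two _ P Q a b ha hb (by omega)
  have t8 := N.d_tri mid b Q
  omega

/-- the zigzag of two involutions with commuting images -/
structure Zig (N : GNorm G) (K : Subgroup G) (C s : ℕ) (c : G) (γ : ℕ → G ⧸ K) (κ P : ℕ → G) :
    Prop where
  fx : ∀ j, Fx N K C (γ j) (κ j) (P j)
  c_eq : ∀ j, κ (j + 1) * κ j = c
  P2 : ∀ j, P (j + 2) = c * P j
  d0 : N.d (P 0) (P 1) = s
  min : ∀ j x y x' y', Fx N K C (γ j) x y → Fx N K C (γ (j + 1)) x' y' → s ≤ N.d y y'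

section Zigzag

variable (S : Setup N E K v n C) [K.Normal] {s : ℕ} {c : G} {γ : ℕ → G ⧸ K} {κ P : ℕ → G}
  (Z : Zig N K C s c γ κ P)

include S Z

theorem zig_two (j : ℕ) : 2 * s ≤ N.d (P j) (P (j + 2)) + 5 * C := by
  have h1 := Z.fx (j + 1)
  obtain ⟨m, hm, h2, h3, h4⟩ := Fx.mid S (y := P j) h1.ne h1.sq h1.im
  have h5 := Z.min j _ _ _ _ (Z.fx j) hm
  have h6 : N.d (κ (j + 1) * P j) (P (j + 2)) ≤ 5 * C := by
    rw [Z.P2 j, ← Z.c_eq j, mul_assoc, N.d_left]
    exact (Z.fx j).fix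
  have t1 := N.d_tri (P j) (P (j + 2)) (κ (j + 1) * P j)
  have c1 := N.d_comm (P (j + 2)) (κ (j + 1) * P j)
  omega

omit S [K.Normal] in
theorem zig_sum (j : ℕ) : N.d (P j) (P (j + 1)) + N.d (P (j + 1)) (P (j + 2)) ≤
    2 * s + 10 * C := by
  induction j with
  | zero =>
    have h1 := Z.d0
    have h2 : N.d (P 1) (P 2) ≤ s + 10 * C := by
      have e1 : P 2 = κ 1 * (κ 0 * P 0) := by
        rw [← mul_assoc, Z.c_eq 0]; exact Z.P2 0
      have e2 : N.d (P 1) (P 2) = N.d (κ 1 * P 1) (κ 0 * P 0) := by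
        rw [e1, ← N.d_left (κ 1), ← mul_assoc (κ 1) (κ 1), (Z.fx 1).sq, one_mul]
      have t1 := N.d_tri (κ 1 * P 1) (P 1) (κ 0 * P 0)
      have t2 := N.d_tri (P 1) (P 0) (κ 0 * P 0)
      have h3 := (Z.fx 0).fix
      have h4 := (Z.fx 1).fix
      have c1 := N.d_comm (κ 1 * P 1) (P 1)
      have c2 := N.d_comm (P 1) (P 0)
      omega
    show N.d (P 0) (P 1) + N.d (P 1) (P 2) ≤ _
    omega
  | succ j ih =>
    have e1 : N.d (P (j + 1 + 1)) (P (j + 1 + 2)) = N.d (P j) (P (j + 1)) := by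
      have h1 := Z.P2 j
      have h2 := Z.P2 (j + 1)
      show N.d (P (j + 2)) (P (j + 1 + 2)) = _
      rw [h1, h2, N.d_left]
    have e2 : N.d (P (j + 1)) (P (j + 1 + 1)) = N.d (P (j + 1)) (P (j + 2)) := rfl
    omega

omit S [K.Normal] in
theorem zig_s (j : ℕ) : s ≤ N.d (P j) (P (j + 1)) := Z.min j _ _ _ _ (Z.fx j) (Z.fx (j + 1))

theorem zig_big (hinf : ¬ IsOfFinOrder c) (hcK : c ∉ K) (hc2 : c ^ 2 ∈ K) : 1000 * C < s := by
  by_contra h
  apply hcK
  apply S.small_fix (p := P 0) hinf hc2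
  have h1 := zig_sum Z 0
  have t1 := N.d_tri (P 0) (P 1) (P 2)
  have h2 := Z.P2 0
  have h3 : N.d (P 0) (P 1) + N.d (P 1) (P 2) ≤ 2 * s + 10 * C := h1
  have h4 : P 2 = c * P 0 := h2
  rw [← h4]
  have := S.pos
  omega

theorem zig_btw (hs : 1000 * C < s) (i j k : ℕ) (hij : i ≤ j) (hjk : j ≤ k) :
    N.d (P i) (P j) + N.d (P j) (P k) ≤ N.d (P i) (P k) + 17 * C := by
  have hpos := S.pos
  have := broken S.fp P (15 * C) (by
    intro i
    have h1 := zig_sum Z i
    have h2 := zig_two S Z i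
    omega) (by
    intro i
    have h1 := zig_s Z i
    omega) i j k hij hjk
  omega

theorem zig_false (hinf : ¬ IsOfFinOrder c) (hcK : c ∉ K) (hc2 : c ^ 2 ∈ K) : False := by
  have hpos := S.pos
  have hbig := S.big
  have hs := zig_big S Z hinf hcK hc2
  have hB := zig_btw S Z hs
  have hsj := fun j => zig_s Z j
  have hsum := fun j => zig_sum Z j
  have hc21 : c ^ 2 ≠ 1 := by
    intro h
    apply hinf
    rw [isOfFinOrder_iff_pow_eq_one]
    exact ⟨2, by omega, h⟩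
  obtain ⟨Y, hY⟩ := S.gl _ hc2 hc21 (P 0)
  have hex : ∀ j, ∃ q, N.Near E Y (P j) q := fun j => exists_nearest Y (P j)
  choose a ha using hex
  have hP4 : c ^ 2 * P 0 = P 4 := by
    have h1 : P 4 = c * P 2 := Z.P2 2
    have h2 : P 2 = c * P 0 := Z.P2 0
    rw [h1, h2, pow_two, mul_assoc]
  have hL : N.l (v ^ n) ≤ N.d (a 0) (a 4) + C := by
    apply hY _ _ (ha 0)
    rw [hP4]
    exact ha 4
  have hside : ∀ j, N.d (P j) (P (j + 1)) ≤ s + 10 * C := by
    intro j
    have h1 := hsum j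
    have h2 := hsj (j + 1)
    have h3 : N.d (P (j + 1)) (P (j + 1 + 1)) = N.d (P (j + 1)) (P (j + 2)) := rfl
    omega
  -- (1)
  have hD : ∀ j, 2 * N.d (a j) (a (j + 1)) < N.l (v ^ n) + 17 * C := by
    intro j
    by_contra hcon
    obtain ⟨r, hr, -, h1⟩ := S.rc (s := 12 * C) (ha j) (ha (j + 1)) (by omega) (by omega)
    have h2 := (Z.fx (j + 1)).conj r (by
      rw [(QuotientGroup.eq_one_iff r).2 hr, one_mul, mul_one])
    have h3 := Z.min j _ _ _ _ (Z.fx j) h2
    have h4 := hside j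
    omega
  -- points of the zigzag between big sides are near the axis
  have hnear : ∀ i l j, i < l → l ≤ j → C < N.d (a i) (a (i + 1)) → C < N.d (a j) (a (j + 1)) →
      N.d (P l) (a l) ≤ 107 * C := by
    intro i l j hil hlj hi hj
    have h1 := S.near_two Y _ _ _ _ (ha i) (ha (i + 1)) hi
    have h2 := S.near_two Y _ _ _ _ (ha j) (ha (j + 1)) hj
    have b1 := hB i (i + 1) l (by omega) (by omega)
    have b2 := hB l j (j + 1) (by omega) (by omega)
    have b3 := hB i l (j + 1) (by omega) (by omega)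
    have t1 := N.d_tri (a i) (a (i + 1)) (P l)
    have t2 := N.d_tri (a (i + 1)) (P (i + 1)) (P l)
    have t3 := N.d_tri (P l) (P j) (a (j + 1))
    have t4 := N.d_tri (P j) (a j) (a (j + 1))
    have t5 := N.d_tri (P i) (a i) (P (j + 1))
    have t6 := N.d_tri (a i) (a (j + 1)) (P (j + 1))
    obtain ⟨e, he, he2⟩ := S.qc Y (a i) (a (j + 1)) (P l) (53 * C) (ha i).1 (ha (j + 1)).1
      (by omega)
    have h3 := (ha l).2 e he
    omega
  -- rotations fix the axis
  have hfix : ∀ i l j, i < l → l ≤ j → 700 * C ≤ N.d (a i) (a (i + 1)) →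
      700 * C ≤ N.d (a j) (a (j + 1)) → κ l • Y = Y := by
    intro i l j hil hlj hi hj
    obtain ⟨l, rfl⟩ : ∃ l', l = l' + 1 := ⟨l - 1, by omega⟩
    have n1 := hnear i (l + 1) j hil hlj (by omega) (by omega)
    have h1 : 700 * C ≤ N.d (a l) (a (l + 1)) := by
      rcases Nat.lt_or_ge i l with h | h
      · have n2 := hnear i l j h (by omega) (by omega) (by omega)
        have t1 := N.d_tri (P l) (a l) (P (l + 1))
        have t2 := N.d_tri (a l) (a (l + 1)) (P (l + 1))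
        have c1 := N.d_comm (a (l + 1)) (P (l + 1))
        have := hsj l
        omega
      · have : l = i := by omega
        rw [this]; exact hi
    have h2 : 700 * C ≤ N.d (a (l + 1)) (a (l + 2)) := by
      rcases Nat.lt_or_ge (l + 1) j with h | h
      · have n2 := hnear i (l + 2) j (by omega) (by omega) (by omega) (by omega)
        have t1 := N.d_tri (P (l + 1)) (a (l + 1)) (P (l + 2))
        have t2 := N.d_tri (a (l + 1)) (a (l + 2)) (P (l + 2))
        have c1 := N.d_comm (a (l + 2)) (P (l + 2))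
        have h3 := hsj (l + 1)
        have h4 : N.d (P (l + 1)) (P (l + 1 + 1)) = N.d (P (l + 1)) (P (l + 2)) := rfl
        omega
      · have : l + 1 = j := by omega
        rw [← this] at hj; exact hj
    have hQ : N.d (κ (l + 1) * P l) (P (l + 2)) ≤ 5 * C := by
      rw [Z.P2 l, ← Z.c_eq l, mul_assoc, N.d_left]
      exact (Z.fx l).fix
    have c2 := N.d_comm (a l) (a (l + 1))
    exact S.corner (Z.fx (l + 1)).fix hQ (ha (l + 1)) (ha l) (ha (l + 2)) (by omega) h2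
  -- (2)
  have htwo : ∀ i j, i + 2 ≤ j → 700 * C ≤ N.d (a i) (a (i + 1)) →
      700 * C ≤ N.d (a j) (a (j + 1)) → False := by
    intro i j hij hi hj
    have h1 := hfix i (i + 1) j (by omega) (by omega) hi hj
    have h2 := hfix i (i + 2) j (by omega) (by omega) hi hj
    apply hcK
    apply S.sq_fix hinf hc2 (c := Y)
    rw [← Z.c_eq (i + 1), mul_smul, h1]
    exact h2
  -- (3)
  have h01 := hD 0
  have h12 := hD 1
  have h23 := hD 2
  have h34 := hD 3
  have e02 := htwo 0 2 (by omega)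
  have e03 := htwo 0 3 (by omega)
  have e13 := htwo 1 3 (by omega)
  have t1 := N.d_tri (a 0) (a 1) (a 4)
  have t2 := N.d_tri (a 1) (a 2) (a 4)
  have t3 := N.d_tri (a 2) (a 3) (a 4)
  have key : ∃ l, 700 * C ≤ N.d (a l) (a (l + 1)) ∧ 700 * C ≤ N.d (a (l + 1)) (a (l + 2)) ∧
      N.l (v ^ n) ≤ N.d (a l) (a (l + 1)) + N.d (a (l + 1)) (a (l + 2)) + 1401 * C := by
    simp only [zero_add, Nat.reduceAdd] at h01 h12 h23 h34 e02 e03 e13
    by_cases c0 : 700 * C ≤ N.d (a 0) (a 1)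
    · have c2 : ¬ 700 * C ≤ N.d (a 2) (a 3) := fun h => e02 c0 h
      have c3 : ¬ 700 * C ≤ N.d (a 3) (a 4) := fun h => e03 c0 h
      refine ⟨0, c0, ?_, ?_⟩
      · show 700 * C ≤ N.d (a 1) (a 2)
        omega
      · show _ ≤ N.d (a 0) (a 1) + N.d (a 1) (a 2) + _
        omega
    · by_cases c1 : 700 * C ≤ N.d (a 1) (a 2)
      · have c3 : ¬ 700 * C ≤ N.d (a 3) (a 4) := fun h => e13 c1 h
        refine ⟨1, c1, ?_, ?_⟩
        · show 700 * C ≤ N.d (a 2) (a 3)
          omega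
        · show _ ≤ N.d (a 1) (a 2) + N.d (a 2) (a 3) + _
          omega
      · refine ⟨2, ?_, ?_, ?_⟩
        · show 700 * C ≤ N.d (a 2) (a 3)
          omega
        · show 700 * C ≤ N.d (a 3) (a 4)
          omega
        · show _ ≤ N.d (a 2) (a 3) + N.d (a 3) (a 4) + _
          omega
  clear h01 h12 h23 h34 e02 e03 e13 t1 t2 t3
  obtain ⟨l, hl1, hl2, hl3⟩ := key
  have hfl := hfix l (l + 1) (l + 1) (by omega) (by omega) hl1 hl2
  have hnl := hnear l (l + 1) (l + 1) (by omega) (by omega) (by omega)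
    (by show C < N.d (a (l + 1)) (a (l + 2)); omega)
  have hDl := hD l
  have hDl1 : 2 * N.d (a (l + 1)) (a (l + 2)) < N.l (v ^ n) + 17 * C := hD (l + 1)
  have c1 := N.d_comm (a l) (a (l + 1))
  have c2 := N.d_comm (P l) (P (l + 1))
  rcases le_total (N.d (a l) (a (l + 1))) (N.d (a (l + 1)) (a (l + 2))) with h | h
  · obtain ⟨κ', m, hF, hlt⟩ := S.move (s := s) (Z.fx (l + 1)) hfl (ha (l + 1)) hnl (ha (l + 2))
      (by omega) (by omega) (hside (l + 1))
    have := Z.min (l + 1) _ _ _ _ hF (Z.fx (l + 2))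
    omega
  · obtain ⟨κ', m, hF, hlt⟩ := S.move (s := s) (Z.fx (l + 1)) hfl (ha (l + 1)) hnl (ha l)
      (by omega) (by omega) (by have := hside l; omega)
    have := Z.min l _ _ _ _ (Z.fx l) hF
    have c3 := N.d_comm m (P l)
    omega

end Zigzag

/-- the theorem, from the lifting of involutions -/
theorem noV4_of_lift [K.Normal] (S : Setup N E K v n C) (hT : TorOdd G) (hV : NoV4 G)
    (hlift : ∀ q : G ⧸ K, q ≠ 1 → q ^ 2 = 1 → ∃ a : G, (a : G ⧸ K) = q ∧ a ≠ 1 ∧ a ^ 2 = 1) :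
    NoV4 (G ⧸ K) := by
  classical
  intro α β hα hβ hα2 hβ2 hcomm
  by_contra hne
  have hex : ∃ s, ∃ a p b q, Fx N K C α a p ∧ Fx N K C β b q ∧ N.d p q = s := by
    obtain ⟨a, ha, ha1, ha2⟩ := hlift α hα hα2
    obtain ⟨b, hb, hb1, hb2⟩ := hlift β hβ hβ2
    rw [pow_two] at ha2 hb2
    obtain ⟨p, hp, -⟩ := Fx.mid S (y := 1) ha1 ha2 ha
    obtain ⟨q, hq, -⟩ := Fx.mid S (y := 1) hb1 hb2 hb
    exact ⟨_, a, p, b, q, hp, hq, rfl⟩
  obtain ⟨a, p, b, q, hp, hq, hd⟩ := Nat.find_spec hex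
  have hmin : ∀ a' p' b' q', Fx N K C α a' p' → Fx N K C β b' q' → Nat.find hex ≤ N.d p' q' :=
    fun a' p' b' q' h1 h2 => Nat.find_min' hex ⟨a', p', b', q', h1, h2, rfl⟩
  set s := Nat.find hex with hs
  have hcK : b * a ∉ K := by
    intro h
    have h1 : (b : G ⧸ K) * a = 1 := by
      rw [← QuotientGroup.mk_mul]
      exact (QuotientGroup.eq_one_iff _).2 h
    rw [hp.im, hq.im] at h1
    apply hne
    have h2 : α⁻¹ = α := by
      rw [pow_two] at hα2
      exact (eq_inv_of_mul_eq_one_left hα2).symm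
    rw [← h2]
    exact (eq_inv_of_mul_eq_one_left h1).symm
  have hc2 : (b * a) ^ 2 ∈ K := by
    rw [← QuotientGroup.eq_one_iff, QuotientGroup.mk_pow, QuotientGroup.mk_mul, hp.im, hq.im,
      (show Commute β α from hcomm.symm).mul_pow, hα2, hβ2, one_mul]
  have hinf : ¬ IsOfFinOrder (b * a) := by
    intro h
    rcases hT _ h with h2 | ⟨m, hm, hm1⟩
    · have h3 : a * b = b * a := by
        have h4 : (b * a)⁻¹ = b * a := by
          rw [pow_two] at h2
          exact (eq_inv_of_mul_eq_one_left h2).symm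
        rw [mul_inv_rev, hp.inv, hq.inv] at h4
        exact h4
      have h5 := hV a b hp.ne hq.ne (by rw [pow_two]; exact hp.sq) (by rw [pow_two]; exact hq.sq) h3
      apply hne
      rw [← hp.im, ← hq.im, h5]
    · apply hcK
      obtain ⟨t, ht⟩ := hm
      have h4 : b * a = (b * a) ^ m * (((b * a) ^ 2) ^ t)⁻¹ := by
        rw [ht, ← pow_mul, pow_succ', mul_inv_cancel_right]
      rw [h4, hm1, one_mul]
      exact inv_mem (pow_mem hc2 t)
  set c := b * a with hc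
  have hcα : (c : G ⧸ K) * α = α * c := by
    rw [hc, QuotientGroup.mk_mul, hp.im, hq.im, ← mul_assoc, hcomm]
  have hcβ : (c : G ⧸ K) * β = β * c := by
    rw [hc, QuotientGroup.mk_mul, hp.im, hq.im, mul_assoc, hcomm]
  let γ : ℕ → G ⧸ K := fun j => if j % 2 = 0 then α else β
  let κ : ℕ → G := fun j => c ^ (j / 2) * (if j % 2 = 0 then a else b) * (c ^ (j / 2))⁻¹
  let P : ℕ → G := fun j => c ^ (j / 2) * (if j % 2 = 0 then p else q)
  have hcpow : ∀ (m : ℕ) (δ : G ⧸ K), (c : G ⧸ K) * δ = δ * c →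
      ((c ^ m : G) : G ⧸ K) * δ = δ * ((c ^ m : G) : G ⧸ K) := by
    intro m δ h
    rw [QuotientGroup.mk_pow]
    exact (show Commute (c : G ⧸ K) δ from h).pow_left m
  have hab : a * b = c⁻¹ := by
    rw [hc, mul_inv_rev, hp.inv, hq.inv]
  refine zig_false S (s := s) (c := c) (γ := γ) (κ := κ) (P := P) ⟨?_, ?_, ?_, ?_, ?_⟩ hinf hcK hc2
  · intro j
    rcases Nat.mod_two_eq_zero_or_one j with h | h
    · simp only [γ, κ, P, h, if_true]
      exact hp.conj _ (hcpow _ _ hcα)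
    · simp only [γ, κ, P, h, one_ne_zero, if_false]
      exact hq.conj _ (hcpow _ _ hcβ)
  · intro j
    rcases Nat.mod_two_eq_zero_or_one j with h | h
    · have h1 : (j + 1) % 2 = 1 := by omega
      have h2 : (j + 1) / 2 = j / 2 := by omega
      simp only [κ, h, h1, h2, if_true, one_ne_zero, if_false]
      have e : c ^ (j / 2) * b * (c ^ (j / 2))⁻¹ * (c ^ (j / 2) * a * (c ^ (j / 2))⁻¹) =
          c ^ (j / 2) * (b * a) * (c ^ (j / 2))⁻¹ := by group
      rw [e, ← hc, ← pow_succ, pow_succ', mul_inv_cancel_right]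
    · have h1 : (j + 1) % 2 = 0 := by omega
      have h2 : (j + 1) / 2 = j / 2 + 1 := by omega
      simp only [κ, h, h1, h2, if_true, one_ne_zero, if_false]
      have e : c ^ (j / 2 + 1) * a * (c ^ (j / 2 + 1))⁻¹ * (c ^ (j / 2) * b * (c ^ (j / 2))⁻¹) =
          c ^ (j / 2 + 1) * a * c⁻¹ * b * (c ^ (j / 2))⁻¹ := by
        rw [pow_succ]; group
      have e2 : a * c⁻¹ * b = 1 := by
        rw [← hab]
        have : a * (a * b) * b = (a * a) * (b * b) := by group
        rw [this, hp.sq, hq.sq, one_mul]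
      have e3 : c ^ (j / 2 + 1) * a * c⁻¹ * b * (c ^ (j / 2))⁻¹ =
          c ^ (j / 2 + 1) * (a * c⁻¹ * b) * (c ^ (j / 2))⁻¹ := by group
      rw [e, e3, e2, mul_one, pow_succ', mul_inv_cancel_right]
  · intro j
    have h1 : (j + 2) % 2 = j % 2 := by omega
    have h2 : (j + 2) / 2 = j / 2 + 1 := by omega
    simp only [P, h1, h2, pow_succ', mul_assoc]
  · show N.d (c ^ 0 * p) (c ^ 0 * q) = s
    rw [pow_zero, one_mul, one_mul, hd]
  · intro j x y x' y' h1 h2
    rcases Nat.mod_two_eq_zero_or_one j with h | h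
    · have h3 : (j + 1) % 2 = 1 := by omega
      simp only [γ, h, h3, if_true, one_ne_zero, if_false] at h1 h2
      exact hmin _ _ _ _ h1 h2
    · have h3 : (j + 1) % 2 = 0 := by omega
      simp only [γ, h, h3, if_true, one_ne_zero, if_false] at h1 h2
      rw [N.d_comm]
      exact hmin _ _ _ _ h2 h1

end Setup

end Pool.Agent.Lib.MP_bd8d5e_al
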