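import Pool.Agent.Lib.MP_bd8d5e_al.StepCore
import Pool.Agent.Lib.MP_bd8d5e_al.TL
import Pool.Agent.Lib.MP_bd8d5e_al.V4Core
import Pool.Agent.Lib.MP_bd8d5e_al.A3

/-! # The step: an element of infinite order is made torsion of odd order -/

set_option autoImplicit false

namespace Pool.Agent.Lib.MP_bd8d5e_al

variable {G : Type*} [Group G]

/-- One step of the construction: a hyperbolic group with the torsion conditions and an element
`v` of infinite order no power of which commutes with an involution; there is a normal subgroup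
containing an odd power of `v` and missing a given finite set such that the quotient is again a
hyperbolic group with the torsion conditions. -/
theorem step (hG : Good G) {v : G} (hv : ¬ IsOfFinOrder v)
    (hcom : ∀ (s : ℕ) (t : G), s ≠ 0 → t ≠ 1 → t ^ 2 = 1 → t * v ^ s ≠ v ^ s * t) (P : Set G)
    (hP : P.Finite) :
    ∃ K : Subgroup G, ∃ _ : K.Normal, ∃ n : ℕ, Odd n ∧ v ^ n ∈ K ∧ (∀ g ∈ P, g ∈ K → g = 1) ∧
      Good (G ⧸ K) := by
  obtain ⟨K, hK, n, hn, hv', hP', ⟨N', δ', h1, h2⟩, N, E, v0, C, S⟩ := step_core hG hv hcom P hP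
  exact ⟨K, hK, n, hn, hv', hP', ⟨⟨N', δ', h1, h2⟩, Setup.torOdd_quot S hG.tor,
    Setup.noV4_of_lift S hG.tor hG.noV4 (fun q hq hq2 => Setup.lift_invol S hG.tor hq hq2),
    Setup.finCent_quot S hG.tor hG.fin⟩⟩

end Pool.Agent.Lib.MP_bd8d5e_al
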