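import Pool.Agent.Lib.MP_bd8d5e_al.ESix
import Pool.Agent.Lib.MP_bd8d5e_al.ECyc
import Pool.Agent.Lib.MP_bd8d5e_al.Lift
import Pool.Agent.Lib.MP_bd8d5e_al.Setup

/-! # The quotient step: choice of the constants -/

set_option autoImplicit false

namespace Pool.Agent.Lib.MP_bd8d5e_al

variable {G : Type*} [Group G]

open GNorm

/-- no torsion element commutes with a power of `w` -/
theorem ep_torsion_free (hT : TorOdd G) (hC : FinCent G) {v p w : G} {j : ℕ} (hj : 0 < j)
    (hw : w = p⁻¹ * v ^ j * p) (hinf : ¬ IsOfFinOrder w)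
    (hcom : ∀ (s : ℕ) (t : G), s ≠ 0 → t ≠ 1 → t ^ 2 = 1 → t * v ^ s ≠ v ^ s * t) :
    ∀ t ∈ EP w, IsOfFinOrder t → t = 1 := by
  rintro t ⟨n, hn, hcomm⟩ ht
  by_contra h1
  rcases hT t ht with h2 | ⟨m, hm, h2⟩
  · -- an involution
    have e1 : w ^ n = p⁻¹ * v ^ (j * n) * p := by
      rw [hw, pow_mul]
      have := conj_pow (i := n) (a := p⁻¹) (b := v ^ j)
      rw [inv_inv] at this
      exact this
    apply hcom (j * n) (p * t * p⁻¹) (Nat.mul_pos hj hn).ne'
    · intro h
      apply h1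
      have : t = p⁻¹ * (p * t * p⁻¹) * p := by group
      rw [this, h]; group
    · rw [pow_two]
      have : p * t * p⁻¹ * (p * t * p⁻¹) = p * t ^ 2 * p⁻¹ := by rw [pow_two]; group
      rw [this, h2]; group
    · rw [e1] at hcomm
      calc p * t * p⁻¹ * v ^ (j * n) = p * (t * (p⁻¹ * v ^ (j * n) * p)) * p⁻¹ := by group
        _ = p * (p⁻¹ * v ^ (j * n) * p * t) * p⁻¹ := by rw [hcomm]
        _ = v ^ (j * n) * (p * t * p⁻¹) := by group
  · -- an element of odd order
    obtain ⟨hfin, -⟩ := hC t h1 m hm h2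
    have hmem : w ^ n ∈ Subgroup.centralizer {t} := by
      rw [Subgroup.mem_centralizer_singleton_iff]
      exact hcomm.symm
    have h3 : IsOfFinOrder (⟨w ^ n, hmem⟩ : Subgroup.centralizer {t}) := isOfFinOrder_of_finite _
    have h4 : IsOfFinOrder (w ^ n) := Submonoid.isOfFinOrder_coe.2 h3
    exact hinf ((isOfFinOrder_pow.1 h4).resolve_right hn.ne')

/-- the quotient step without the analysis of torsion -/
theorem step_core (hG : Good G) {v : G} (hv : ¬ IsOfFinOrder v)
    (hcom : ∀ (s : ℕ) (t : G), s ≠ 0 → t ≠ 1 → t ^ 2 = 1 → t * v ^ s ≠ v ^ s * t)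
    (P : Set G) (hP : P.Finite) :
    ∃ K : Subgroup G, ∃ _ : K.Normal, ∃ n : ℕ, Odd n ∧ v ^ n ∈ K ∧ (∀ g ∈ P, g ∈ K → g = 1) ∧
      (∃ (N' : GNorm (G ⧸ K)) (δ' : ℕ), N'.FP δ' ∧ N'.FinBalls) ∧
      ∃ (N : GNorm G) (E : Subgroup G) (v0 : G) (C : ℕ), Setup N E K v0 n C := by
  classical
  obtain ⟨N, δ, hF, hfb⟩ := hG.hyp
  obtain ⟨p, j, hj, hlox⟩ := exists_lox hfb hF hv
  set w := p⁻¹ * v ^ j * p with hw
  have hinf := Lox.inf hF hlox
  obtain ⟨v0, m, hm, hwm, hinf0, hEE, hdich⟩ := Lox.cyc hfb hF hlox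
    (ep_torsion_free hG.tor hG.fin hj hw hinf hcom)
  set E := EE w with hE
  have hq : N.QConv E (N.qcc δ w) := Lox.qconv hF hlox
  obtain ⟨th, hb⟩ := Lox.bproj hfb hF hlox
  obtain ⟨M, hM⟩ := exists_bgiV hF hq hb
  obtain ⟨δ', hhat⟩ := hat_FP hF hq
  have hql := Lox.ql_root hF hlox hm hwm
  set C1 := 10 * δ + 4 * (m * N.l v0) with hC1
  set cq := N.qcc δ w with hcq
  set T := 1 + δ + cq + th + M + N.rad δ w + C1 with hTdef
  set C := 30 * T with hCdef
  -- axes of short elements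
  have hex : ∀ u : G, ¬ IsOfFinOrder u → ∃ Lw : ℕ, ∀ (c : G ⧸ E) (j : ℕ) (p q : G),
      N.Near E c 1 p → N.Near E c (u ^ j) q → Lw < N.d p q → u • c = c :=
    fun u hu => axis_fixed hfb hF hq hb hu
  choose! Lf hLf using hex
  set Lmax := (hfb (3000 * C)).toFinset.sup Lf with hLmax
  set Pmax := hP.toFinset.sup N.l with hPmax
  obtain ⟨n1, hn1⟩ := Lox.growth hF hlox hm hwm
    (100000 * C + Lmax + C + 20 * M + 1 + C1 + Pmax + (4 * cq + 7 * δ + 12) + 8 * M + 10)
  set n := 2 * n1 + 1 with hn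
  have hbig := hn1 n (by omega)
  have hv0E : v0 ∈ E := by rw [← hEE]; exact self_mem_EE v0
  set R : Subgroup G := Subgroup.zpowers (v0 ^ n) with hRdef
  have hR : R ≤ E := by
    rw [hRdef, Subgroup.zpowers_le]; exact E.pow_mem hv0E n
  obtain ⟨L, hLdef⟩ : ∃ L, L + C1 = N.l (v0 ^ n) := ⟨N.l (v0 ^ n) - C1, by omega⟩
  have hL : ∀ r ∈ R, r ≠ 1 → L ≤ N.l r := by
    intro r hr hr1
    obtain ⟨k, rfl⟩ := Subgroup.mem_zpowers_iff.1 hr
    have hk0 : k ≠ 0 := by rintro rfl; exact hr1 (zpow_zero _)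
    rw [N.l_zpow, ← pow_mul]
    obtain ⟨k', hk'⟩ : ∃ k', k.natAbs = k' + 1 := ⟨k.natAbs - 1, by omega⟩
    have h1 := hql n (n * k')
    have e : n + n * k' = n * k.natAbs := by rw [hk']; ring
    rw [e] at h1
    omega
  have hLM : 20 * M + 1 ≤ L := by omega
  have hRn : ∀ e ∈ E, ∀ r ∈ R, e * r * e⁻¹ ∈ R := by
    intro e he r hr
    obtain ⟨k, rfl⟩ := Subgroup.mem_zpowers_iff.1 hr
    rw [← conj_zpow, ← conj_pow]
    apply Subgroup.zpow_mem
    rcases hdich e he with ⟨i, hi⟩ | ⟨-, -, hi⟩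
    · have : e * v0 * e⁻¹ = v0 := by
        rw [hi]; group
      rw [this]
      exact Subgroup.mem_zpowers _
    · rw [hi, inv_pow]
      exact Subgroup.inv_mem _ (Subgroup.mem_zpowers _)
  set W := spin hF hq hb hM R hR hL hLM with hW
  have hnorm : W.Kall.Normal := W.Kall_normal
  have hRK : R ≤ W.Kall := by
    rw [hW, Kall_eq hF hq hb hM R hR hL hLM hRn]
    exact Subgroup.subset_normalClosure
  have hv0K : v0 ^ n ∈ W.Kall := hRK (Subgroup.mem_zpowers _)
  refine ⟨W.Kall, hnorm, n, ⟨n1, hn⟩, ?_, ?_, ?_, N, E, v0, C, ?_⟩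
  · -- `v ^ n`
    set u := p⁻¹ * v * p with hu
    have hupow : ∀ i : ℕ, u ^ i = p⁻¹ * v ^ i * p := by
      intro i
      have := conj_pow (i := i) (a := p⁻¹) (b := v)
      rw [inv_inv] at this
      exact this
    have huE : u ∈ E := by
      have h1 : EE (u ^ j) = EE u := EE_pow u hj
      have h2 : w = u ^ j := by rw [hupow]
      rw [hE, h2, h1]
      exact self_mem_EE u
    have hun : u ^ n ∈ W.Kall := by
      rcases hdich u huE with ⟨i, hi⟩ | ⟨hu1, hu2, -⟩
      · rw [hi, ← zpow_natCast, ← zpow_mul, mul_comm, zpow_mul, zpow_natCast]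
        exact Subgroup.zpow_mem _ hv0K _
      · exfalso
        apply hv
        have : IsOfFinOrder u := isOfFinOrder_iff_pow_eq_one.2 ⟨2, by norm_num, hu2⟩
        have h3 : u = p⁻¹ * v * p⁻¹⁻¹ := by rw [inv_inv]
        obtain ⟨s, hs, h4⟩ := isOfFinOrder_iff_pow_eq_one.1 this
        refine isOfFinOrder_iff_pow_eq_one.2 ⟨s, hs, ?_⟩
        rw [hupow] at h4
        calc v ^ s = p * (p⁻¹ * v ^ s * p) * p⁻¹ := by group
          _ = 1 := by rw [h4]; group
    rw [hupow] at hun
    have := hnorm.conj_mem _ hun p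
    have e : p * (p⁻¹ * v ^ n * p) * p⁻¹ = v ^ n := by group
    rwa [e] at this
  · -- injectivity
    intro g hg hgK
    by_contra h1
    have h2 := kernel_long hF hq hb hM R hR hL hLM hgK h1 1
    rw [mul_one, N.d_one] at h2
    have h3 : N.l g ≤ Pmax := Finset.le_sup (f := N.l) (hP.mem_toFinset.2 hg)
    omega
  · -- hyperbolicity of the quotient
    refine ⟨(N.hat E).quot W.Kall, δ', quot_FP hF hq hb hM R hR hL hLM hhat, ?_⟩
    apply quot_finBalls hF hq hb hM R hR hL hLM hfb {g | N.l g ≤ N.rad δ w + n * N.l v0}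
      (hfb _) ?_ hRn
    intro e he
    obtain ⟨i, b, hbE, hbl, hib⟩ := Lox.cover hF hlox (g := e⁻¹) (E.inv_mem he)
    set a : ℤ := -((m : ℤ) * i) with ha
    have hea : e = b⁻¹ * v0 ^ a := by
      have h1 : e = (e⁻¹)⁻¹ := by rw [inv_inv]
      rw [h1, hib, mul_inv_rev, hwm, ← zpow_natCast, ← zpow_mul, ← zpow_neg]
    have hqr : a = a % n + n * (a / n) := (Int.emod_add_mul_ediv a n).symm
    have hr0 : 0 ≤ a % n := Int.emod_nonneg _ (by omega)
    have hr1 : a % n < n := Int.emod_lt_of_pos _ (by omega)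
    refine ⟨b⁻¹ * v0 ^ (a % n), ?_, (v0 ^ n) ^ (a / n), ?_, ?_⟩
    · show N.l (b⁻¹ * v0 ^ (a % n)) ≤ N.rad δ w + n * N.l v0
      have h1 := N.l_mul b⁻¹ (v0 ^ (a % n))
      rw [N.l_inv] at h1
      have h2 : N.l (v0 ^ (a % n)) ≤ n * N.l v0 := by
        rw [N.l_zpow]
        exact (N.l_pow_le v0 _).trans (Nat.mul_le_mul_right _ (by omega))
      omega
    · exact Subgroup.zpow_mem _ (Subgroup.mem_zpowers _) _
    · rw [mul_assoc, ← zpow_natCast, ← zpow_mul, ← zpow_add, ← hqr]
      exact hea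
  · -- the interface
    have hnear : ∀ (c : G ⧸ E) (x : G), ∃ p, N.Near E c x p := fun c x => exists_nearest c x
    exact
    { pos := by omega
      fp := hF.mono (by omega)
      normal := hnorm
      vE := hv0E
      ord := hinf0
      nodd := ⟨n1, hn⟩
      big := by omega
      vK := hv0K
      near_btw := by
        intro c x p y hp hy
        have := near_far hF hq hp hy
        omega
      near_two := by
        intro c x y p q hp hq' hpq
        have := near_two hF hq hp hq' (by omega)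
        omega
      qc := by
        intro c y y' x k hy hy' h
        obtain ⟨g, rfl⟩ := QuotientGroup.mk_surjective c
        obtain ⟨e, he, h2⟩ := Lox.qc_coset hF hlox g (p := y) (q := y') (r := x)
          (QuotientGroup.eq.1 hy.symm) (QuotientGroup.eq.1 hy'.symm) h
        refine ⟨e, (QuotientGroup.eq.2 he).symm, ?_⟩
        omega
      ov := by
        intro c c' hcc z z' p p' hz hz' hp hp'
        have := hb c c' hcc z z' p p' hz hz' hp hp'
        omega
      dich := hdich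
      mx := by
        intro g s hs h
        rw [← hEE]
        exact ⟨s, Nat.pos_of_ne_zero hs, Or.inl h⟩
      near_pow := by
        intro g hg
        obtain ⟨i, hi⟩ := Lox.near_E hF hlox hg
        refine ⟨(m : ℤ) * i, ?_⟩
        rw [zpow_mul, zpow_natCast, ← hwm]
        omega
      ql := by
        intro a b
        have := hql a b
        omega
      gl := by
        intro ν hν h1 x
        obtain ⟨c, p, q, hp, hq', h⟩ := greendlinger_near hF hq hb hM R hR hL hLM hν h1 x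
        refine ⟨c, fun p' q' hp' hq'' => ?_⟩
        have h2 := near_same hF hq hp hp'
        have h3 := near_same hF hq hq'' hq'
        have h4 := N.d_tri p p' q
        have h5 := N.d_tri p' q' q
        omega
      e6 := by
        intro u hu hul c i h
        obtain ⟨p, hp⟩ := hnear c 1
        obtain ⟨q, hq'⟩ := hnear c (u ^ i)
        apply hLf u hu c i p q hp hq'
        have h1 : Lf u ≤ Lmax := Finset.le_sup (f := Lf) ((hfb _).mem_toFinset.2 hul)
        have h2 := h p q hp hq'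
        omega }

end Pool.Agent.Lib.MP_bd8d5e_al
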