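import Pool.Agent.Lib.MP_bd8d5e_al.Corner

/-! # Consequences of the lifting lemma for torsion elements -/

set_option autoImplicit false

namespace Pool.Agent.Lib.MP_bd8d5e_al

namespace Setup

variable {G : Type*} [Group G] {N : GNorm G} {E K : Subgroup G} {v : G} {n C : ℕ}

/-- the statement of the lifting lemma -/
def TLProp (G : Type*) [Group G] (E K : Subgroup G) : Prop :=
  ∀ (z : G) (m : ℕ), m ≠ 0 → z ^ m ∈ K →
    ∃ z' : G, z' * z⁻¹ ∈ K ∧ (IsOfFinOrder z' ∨ ∃ c : G ⧸ E, z' • c = c)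

theorem eq_one_of_two_odd {H : Type*} [Group H] {q : H} {m : ℕ} (hm : Odd m) (h : q ^ m = 1)
    (h2 : q ^ 2 = 1) : q = 1 := by
  obtain ⟨k, rfl⟩ := hm
  rwa [pow_add, pow_mul, h2, one_pow, one_mul, pow_one] at h

/-- the classification of lifts -/
theorem lift_cases [K.Normal] (S : Setup N E K v n C) (hTL : TLProp G E K) (hG : TorOdd G)
    {q : G ⧸ K} {m : ℕ} (hm : m ≠ 0) (hq : q ^ m = 1) :
    (∃ a : G, (a : G ⧸ K) = q ∧ a ^ 2 = 1) ∨
      (∃ a : G, (a : G ⧸ K) = q ∧ ∃ m', Odd m' ∧ a ^ m' = 1) ∨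
      ((∃ (g : G) (k : ℤ), ((g * v ^ k * g⁻¹ : G) : G ⧸ K) = q) ∧ q ^ n = 1) := by
  obtain ⟨z, rfl⟩ := QuotientGroup.mk_surjective q
  have hz : z ^ m ∈ K := by
    rw [← QuotientGroup.eq_one_iff]; exact hq
  obtain ⟨z', h1, h2⟩ := hTL z m hm hz
  have e : (z' : G ⧸ K) = z := by
    have h3 : ((z' * z⁻¹ : G) : G ⧸ K) = 1 := (QuotientGroup.eq_one_iff _).2 h1
    rw [QuotientGroup.mk_mul, QuotientGroup.mk_inv] at h3
    exact mul_inv_eq_one.1 h3
  rcases h2 with h2 | ⟨c, hc⟩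
  · rcases hG z' h2 with h3 | h3
    · exact Or.inl ⟨z', e, h3⟩
    · exact Or.inr (Or.inl ⟨z', e, h3⟩)
  · obtain ⟨g, rfl⟩ := QuotientGroup.mk_surjective c
    have hE : g⁻¹ * z' * g ∈ E := by
      have := QuotientGroup.eq.1 hc.symm
      rw [mul_assoc]; exact this
    rcases S.dich _ hE with ⟨k, hk⟩ | ⟨-, h3, -⟩
    · have e2 : z' = g * v ^ k * g⁻¹ := by
        rw [← hk]; group
      refine Or.inr (Or.inr ⟨⟨g, k, by rw [← e2]; exact e⟩, ?_⟩)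
      rw [← e, ← QuotientGroup.mk_pow, QuotientGroup.eq_one_iff, e2, conj_pow, ← zpow_natCast,
        ← zpow_mul, mul_comm, zpow_mul, zpow_natCast]
      exact S.normal.conj_mem _ (K.zpow_mem S.vK k) g
    · refine Or.inl ⟨z', e, ?_⟩
      have e2 : g⁻¹ * z' * g = g⁻¹ * z' * g⁻¹⁻¹ := by rw [inv_inv]
      rw [e2, conj_pow, inv_inv] at h3
      calc z' ^ 2 = g * (g⁻¹ * z' ^ 2 * g) * g⁻¹ := by group
        _ = 1 := by rw [h3]; group

/-- orders of torsion elements in the quotient -/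
theorem torOdd_quot_of [K.Normal] (S : Setup N E K v n C) (hTL : TLProp G E K) (hG : TorOdd G) :
    TorOdd (G ⧸ K) := by
  intro q hq
  obtain ⟨m, hm, hqm⟩ := isOfFinOrder_iff_pow_eq_one.1 hq
  rcases lift_cases S hTL hG hm.ne' hqm with ⟨a, rfl, h⟩ | ⟨a, rfl, m', hm', h⟩ | ⟨-, h⟩
  · left; rw [← QuotientGroup.mk_pow, h]; rfl
  · right; exact ⟨m', hm', by rw [← QuotientGroup.mk_pow, h]; rfl⟩
  · right; exact ⟨n, S.nodd, h⟩

/-- involutions lift to involutions -/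
theorem lift_invol_of [K.Normal] (S : Setup N E K v n C) (hTL : TLProp G E K) (hG : TorOdd G)
    {q : G ⧸ K} (hq : q ≠ 1) (hq2 : q ^ 2 = 1) :
    ∃ a : G, (a : G ⧸ K) = q ∧ a ≠ 1 ∧ a ^ 2 = 1 := by
  rcases lift_cases S hTL hG two_ne_zero hq2 with ⟨a, e, h⟩ | ⟨a, e, m', hm', h⟩ | ⟨-, h⟩
  · refine ⟨a, e, ?_, h⟩
    rintro rfl
    exact hq e.symm
  · exfalso
    apply hq
    apply eq_one_of_two_odd hm' _ hq2
    rw [← e, ← QuotientGroup.mk_pow, h]; rfl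
  · exfalso
    exact hq (eq_one_of_two_odd S.nodd h hq2)

/-- elements of odd order lift to elements of odd order or to conjugates of powers of `v` -/
theorem lift_odd_of [K.Normal] (S : Setup N E K v n C) (hTL : TLProp G E K) (hG : TorOdd G)
    {q : G ⧸ K} (hq : q ≠ 1) {m : ℕ} (hm : Odd m) (hqm : q ^ m = 1) :
    (∃ a : G, (a : G ⧸ K) = q ∧ ∃ m', Odd m' ∧ a ^ m' = 1) ∨
      ∃ (g : G) (k : ℤ), ((g * v ^ k * g⁻¹ : G) : G ⧸ K) = q := by
  rcases lift_cases S hTL hG hm.pos.ne' hqm with ⟨a, e, h⟩ | h | ⟨h, -⟩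
  · exfalso
    apply hq
    apply eq_one_of_two_odd hm hqm
    rw [← e, ← QuotientGroup.mk_pow, h]; rfl
  · exact Or.inl h
  · exact Or.inr h

end Setup

end Pool.Agent.Lib.MP_bd8d5e_al
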